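import Pool.Agent.MP_5c6cc8_ag.Bounds

/-! # Row P1: upper bound at `P₁` (`v(w) = 1, v(s) = 2`) -/

open MvPolynomial

namespace Pool.Agent.MP_5c6cc8_ag

namespace Setup

variable {K L : Type} [Field K] [Algebra ℂ K] [Field L] [Algebra ℂ L] (S : Setup K L)

theorem bp1_hy : IsCoord ![1 + S.x 1, S.x 2, S.i S.s / (1 + S.x 1) ^ 2] := by
  have h1 : 1 + S.x 1 ≠ 0 := S.cluster.one_add_ne_zero 1
  refine S.hL.change fun j => ?_
  have h : ∀ k, (![1 + S.x 1, S.x 2, S.i S.s / (1 + S.x 1) ^ 2] : Fin 3 → L) k ∈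
      IntermediateField.adjoin ℂ (Set.range ![1 + S.x 1, S.x 2, S.i S.s / (1 + S.x 1) ^ 2]) :=
    fun k => IntermediateField.subset_adjoin _ _ ⟨k, rfl⟩
  have e0 := h 0
  have e1 := h 1
  have e2 := h 2
  simp only [Matrix.cons_val_zero, Matrix.cons_val_one, Matrix.cons_val] at e0 e1 e2
  fin_cases j
  · have := sub_mem e0 (one_mem _)
    simpa using this
  · simpa using e1
  · have := mul_mem e2 (pow_mem e0 2)
    rw [div_mul_cancel₀ _ (pow_ne_zero 2 h1)] at this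
    simpa using this

theorem bp1_form : S.ω = ((1 + S.x 1) ^ 2 / (S.x 1 * S.x 2)) •
    wedge ![1 + S.x 1, S.x 2, S.i S.s / (1 + S.x 1) ^ 2] := by
  have h1 : 1 + S.x 1 ≠ 0 := S.cluster.one_add_ne_zero 1
  have e1 : wedge ![1 + S.x 1, S.x 2, S.i S.s / (1 + S.x 1) ^ 2] =
      T (1 + S.x 1) (S.x 2) (S.i S.s / (1 + S.x 1) ^ 2) := rfl
  have e2 : T (1 + S.x 1) (S.x 2) (S.i S.s) = T (S.i S.s) (S.x 1) (S.x 2) := by
    rw [T_add1, T_one1, zero_add, ← neg_neg (T (S.x 1) (S.x 2) (S.i S.s)), ← T_swap23, ← T_swap12]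
  rw [e1, div_eq_mul_inv (S.i S.s), T_mul3, T_inv3, T_pow3, T_self13, smul_zero, smul_zero, smul_zero, zero_add, e2, smul_smul,
    Setup.ω]
  congr 1
  field_simp

theorem bp1_vw : vord (divX S.bp1_hy) (S.i S.w) = 1 := by
  refine (vord_divX S.bp1_hy (m := 1) ((1 + X 1) * (X 0 + X 1)) ((X 0 - 1) * X 1) ![0, 1, 0] ![0, 1, 0]
    rfl rfl ?_ ?_ ?_).2
  · simp
  · simp
  · simp only [map_mul, map_add, map_sub, map_one, aeval_X, Matrix.cons_val_zero, Matrix.cons_val_one]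
    have := S.w_eq
    rw [zpow_one]
    linear_combination this

theorem bp1_vg : vord (divX S.bp1_hy) S.g = 2 := by
  have h1 : 1 + S.x 1 ≠ 0 := S.cluster.one_add_ne_zero 1
  refine (vord_divX S.bp1_hy (m := 2) ((X 0 - 1) * ((1 + X 1) + X 2 * X 1 ^ 3 * (X 0 + X 1))) (X 1 * (1 + X 1) ^ 3)
    ![0, 1, 0] ![0, 1, 0] rfl rfl ?_ ?_ ?_).2
  · simp
  · simp
  · simp only [map_mul, map_add, map_sub, map_one, map_pow, aeval_X, Matrix.cons_val_zero, Matrix.cons_val_one, Matrix.cons_val]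
    have := S.g_eq
    have h2 : (1 + S.x 1) ^ (2 : ℤ) = (1 + S.x 1) ^ 2 := by norm_cast
    rw [h2, this]
    field_simp
    ring

theorem bp1_vc : vord (divX S.bp1_hy) ((1 + S.x 1) ^ 2 / (S.x 1 * S.x 2)) = 2 := by
  have h1 : S.x 1 ≠ 0 := S.cluster.ne_zero 1
  have h2 : S.x 2 ≠ 0 := S.cluster.ne_zero 2
  refine (vord_divX S.bp1_hy (m := 2) 1 ((X 0 - 1) * X 1)
    ![0, 1, 0] ![0, 1, 0] rfl rfl ?_ ?_ ?_).2
  · simp
  · simp
  · simp only [map_mul, map_sub, map_one, aeval_X, Matrix.cons_val_zero, Matrix.cons_val_one]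
    have h2 : (1 + S.x 1) ^ (2 : ℤ) = (1 + S.x 1) ^ 2 := by norm_cast
    rw [h2]
    field_simp
    ring

theorem bp1_res (c : ℂ) : S.i (S.s / S.w ^ (2 : ℤ)) - algebraMap ℂ L c ≠ 0 ∧
    vord (divX S.bp1_hy) (S.i (S.s / S.w ^ (2 : ℤ)) - algebraMap ℂ L c) = 0 := by
  have h0 : 1 + S.x 1 ≠ 0 := S.cluster.one_add_ne_zero 1
  have h1 : S.x 1 ≠ 0 := S.cluster.ne_zero 1
  have h2 : S.x 2 ≠ 0 := S.cluster.ne_zero 2
  have hw : S.i S.w ≠ 0 := (map_ne_zero S.i).2 S.w_ne_zero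
  refine residue_nonconst S.bp1_hy (X 2 * (X 0 - 1) ^ 2 * X 1 ^ 2) ((1 + X 1) ^ 2 * (X 0 + X 1) ^ 2)
    ![0, 1, 0] ![0, 1, 1] rfl rfl ?_ ?_ ?_ ?_ c
  · simp
  · simp
  · simp
    norm_num
  · simp only [map_mul, map_add, map_sub, map_one, map_pow, aeval_X, Matrix.cons_val_zero, Matrix.cons_val_one, Matrix.cons_val]
    have e1 : S.i (S.s / S.w ^ (2 : ℤ)) = S.i S.s / (S.i S.w) ^ 2 := by
      rw [map_div₀]
      congr 1
      rw [← map_pow]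
      norm_cast
    rw [e1]
    have e2 : S.i S.w = (1 + S.x 1) * (1 + S.x 2) * (1 + S.x 1 + S.x 2) / (S.x 1 * S.x 2) := by
      rw [eq_div_iff (mul_ne_zero h1 h2), S.w_eq]
    have h3 : 1 + S.x 2 ≠ 0 := S.cluster.one_add_ne_zero 2
    have h4 : 1 + S.x 1 + S.x 2 ≠ 0 := by
      intro h4
      rw [e2, h4, mul_zero, zero_div] at hw
      exact hw rfl
    rw [e2]
    field_simp
    ring

/-- Upper bound at `P₁`. Notation `a = x₁`, `b = x₂`, `s = i s`, `w = i w`; everything below is to be derived from `w_eq`, `g_eq`.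
Use `mu_le_chart` with `π = X 0` (`divX`), `vord_divX` for the orders, `comap_eq_divX` and
`residue_nonconst` for the restriction to `K`.
Coordinates of `L` (`IsCoord.change` from `S.hL`): `y₀ = 1 + a`, `y₁ = b`, `y₂ = s / (1 + a)²`, so
`a = y₀ - 1`, `s = y₀² y₂`. Then
* `ω = c • wedge y`, `c = y₀² / (a b)`, as `ds ∧ da ∧ db = d(y₀² y₂) ∧ dy₀ ∧ dy₁ = y₀² dy₀ ∧ dy₁ ∧ dy₂`; `v(c) = 2`;
* `g = y₀² (y₀ - 1) ((1 + y₁) + y₂ y₁³ (y₀ + y₁)) / (y₁ (1 + y₁)³)`, `v(g) = 2` (test at `(0, 1, 0)`);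
* `w = y₀ (1 + y₁) (y₀ + y₁) / ((y₀ - 1) y₁)`, `v(w) = 1` (test at `(0, 1, 0)`); take `t = w`, `e = 1`;
* `s / w² = y₂ (y₀ - 1)² y₁² / ((1 + y₁)² (y₀ + y₁)²)` has the values `0`, `1/4` at `(0, 1, 0)`, `(0, 1, 1)`.
So `μ ≤ - 2 - 1 + (1 + 2 - 2/5) = - 2/5`. -/
theorem muP1 {μ : ℝ} (h : IsModuliMult S.i S.ω S.φ 5 S.ω' S.P1 μ) : μ ≤ -2 / 5 := by
  have h0 : 1 + S.x 1 ≠ 0 := S.cluster.one_add_ne_zero 1
  have h1 : S.x 1 ≠ 0 := S.cluster.ne_zero 1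
  have h2 : S.x 2 ≠ 0 := S.cluster.ne_zero 2
  have hP : IsDivisorial S.P1 := wt_isDivisorial _ _
  have hE : IsDivisorial (divX S.bp1_hy) := divX_isDivisorial _
  have hc : (1 + S.x 1) ^ 2 / (S.x 1 * S.x 2) ≠ 0 := div_ne_zero (pow_ne_zero _ h0) (mul_ne_zero h1 h2)
  have hEP : (chartRing S.bp1_hy (prime_X0 2)).comap S.i = S.P1 := by
    refine comap_eq_divX S.i S.hi (wt_coord S.c1 2) hE ?_ S.bp1_res
    show 0 < vord (divX S.bp1_hy) (S.i S.w)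
    rw [bp1_vw]
    exact one_pos
  have key := S.mu_le_chart S.bp1_hy (prime_X0 2) hc S.bp1_form hP S.hasFormOrd_P1 hEP (t := S.w)
    ((hasOrd_iff hP).2 ⟨S.w_ne_zero, vord_wt_u S.c1 2⟩) ((map_ne_zero S.i).2 S.w_ne_zero) h
  have e1 : vord (chartRing S.bp1_hy (prime_X0 2)) ((1 + S.x 1) ^ 2 / (S.x 1 * S.x 2)) = 2 := S.bp1_vc
  have e2 : vord (chartRing S.bp1_hy (prime_X0 2)) S.g = 2 := S.bp1_vg
  have e3 : vord (chartRing S.bp1_hy (prime_X0 2)) (S.i S.w) = 1 := S.bp1_vw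
  rw [e1, e2, e3] at key
  norm_num at key
  linarith

end Setup

end Pool.Agent.MP_5c6cc8_ag
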