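import Pool.Agent.MP_5c6cc8_ag.Bounds

/-! # Row P2: upper bound at `P₂` (`v(1/w) = 1, v(s) = 3`) -/

open MvPolynomial

namespace Pool.Agent.MP_5c6cc8_ag

namespace Setup

variable {K L : Type} [Field K] [Algebra ℂ K] [Field L] [Algebra ℂ L] (S : Setup K L)

theorem bp2_hy : IsCoord ![(S.x 2)⁻¹, S.x 1, S.i S.s * S.x 2 ^ 3] := by
  have h2 : S.x 2 ≠ 0 := S.cluster.ne_zero 2
  refine S.hL.change fun j => ?_
  have h : ∀ k, (![(S.x 2)⁻¹, S.x 1, S.i S.s * S.x 2 ^ 3] : Fin 3 → L) k ∈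
      IntermediateField.adjoin ℂ (Set.range ![(S.x 2)⁻¹, S.x 1, S.i S.s * S.x 2 ^ 3]) :=
    fun k => IntermediateField.subset_adjoin _ _ ⟨k, rfl⟩
  have e0 := h 0
  have e1 := h 1
  have e2 := h 2
  simp only [Matrix.cons_val_zero, Matrix.cons_val_one, Matrix.cons_val] at e0 e1 e2
  fin_cases j
  · simpa using e1
  · have := inv_mem e0
    simpa using this
  · have := mul_mem e2 (pow_mem e0 3)
    rw [inv_pow, mul_assoc, mul_inv_cancel₀ (pow_ne_zero 3 h2), mul_one] at this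
    simpa using this

theorem bp2_form : S.ω = ((S.x 2)⁻¹ ^ 2 / S.x 1) • wedge ![(S.x 2)⁻¹, S.x 1, S.i S.s * S.x 2 ^ 3] := by
  have h1 : S.x 1 ≠ 0 := S.cluster.ne_zero 1
  have h2 : S.x 2 ≠ 0 := S.cluster.ne_zero 2
  have e1 : wedge ![(S.x 2)⁻¹, S.x 1, S.i S.s * S.x 2 ^ 3] =
      T (S.x 2)⁻¹ (S.x 1) (S.i S.s * S.x 2 ^ 3) := rfl
  rw [e1, T_mul3, T_pow3, T_inv1, T_inv1, T_self13, T_swap13, smul_zero, smul_zero, smul_zero, zero_add, smul_neg,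
    neg_smul, neg_neg, smul_smul, smul_smul, Setup.ω]
  congr 1
  field_simp

theorem bp2_vw : vord (divX S.bp2_hy) (S.i S.w) = -1 := by
  have h1 : S.x 1 ≠ 0 := S.cluster.ne_zero 1
  have h2 : S.x 2 ≠ 0 := S.cluster.ne_zero 2
  refine (vord_divX S.bp2_hy (m := -1) ((1 + X 1) * (X 0 + 1) * ((1 + X 1) * X 0 + 1)) (X 1) ![0, 1, 0] ![0, 1, 0]
    rfl rfl ?_ ?_ ?_).2
  · simp
  · simp
  · simp only [map_mul, map_add, map_one, aeval_X, Matrix.cons_val_zero, Matrix.cons_val_one]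
    have := S.w_eq
    have e2 : S.i S.w = (1 + S.x 1) * (1 + S.x 2) * (1 + S.x 1 + S.x 2) / (S.x 1 * S.x 2) := by
      rw [eq_div_iff (mul_ne_zero h1 h2), S.w_eq]
    rw [e2, zpow_neg, zpow_one, inv_inv]
    field_simp

theorem bp2_vg : vord (divX S.bp2_hy) S.g = 3 := by
  have h1 : S.x 1 ≠ 0 := S.cluster.ne_zero 1
  have h2 : S.x 2 ≠ 0 := S.cluster.ne_zero 2
  have h3 : 1 + S.x 2 ≠ 0 := S.cluster.one_add_ne_zero 2
  refine (vord_divX S.bp2_hy (m := 3) (X 1 * ((1 + X 1) ^ 2 * (X 0 + 1) + X 2 * ((1 + X 1) * X 0 + 1))) ((X 0 + 1) ^ 3)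
    ![0, 1, 0] ![0, 1, 0] rfl rfl ?_ ?_ ?_).2
  · simp
  · simp
  · simp only [map_mul, map_add, map_one, map_pow, aeval_X, Matrix.cons_val_zero, Matrix.cons_val_one, Matrix.cons_val]
    have e1 := S.g_eq
    have e2 : S.g = S.x 1 * ((1 + S.x 1) ^ 2 * (1 + S.x 2) +
      S.i S.s * S.x 2 ^ 3 * (1 + S.x 1 + S.x 2)) / (S.x 2 * (1 + S.x 2) ^ 3) := by
      rw [eq_div_iff (mul_ne_zero h2 (pow_ne_zero _ h3)), e1]
    have e3 : (S.x 2)⁻¹ ^ (3 : ℤ) = (S.x 2)⁻¹ ^ 3 := by norm_cast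
    rw [e3, e2]
    field_simp

theorem bp2_vc : vord (divX S.bp2_hy) ((S.x 2)⁻¹ ^ 2 / S.x 1) = 2 := by
  have h1 : S.x 1 ≠ 0 := S.cluster.ne_zero 1
  have h2 : S.x 2 ≠ 0 := S.cluster.ne_zero 2
  refine (vord_divX S.bp2_hy (m := 2) 1 (X 1)
    ![0, 1, 0] ![0, 1, 0] rfl rfl ?_ ?_ ?_).2
  · simp
  · simp
  · simp only [map_one, aeval_X, Matrix.cons_val_zero, Matrix.cons_val_one]
    have e3 : (S.x 2)⁻¹ ^ (2 : ℤ) = (S.x 2)⁻¹ ^ 2 := by norm_cast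
    rw [e3]
    field_simp

theorem bp2_res (c : ℂ) : S.i (S.s / S.w⁻¹ ^ (3 : ℤ)) - algebraMap ℂ L c ≠ 0 ∧
    vord (divX S.bp2_hy) (S.i (S.s / S.w⁻¹ ^ (3 : ℤ)) - algebraMap ℂ L c) = 0 := by
  have h1 : S.x 1 ≠ 0 := S.cluster.ne_zero 1
  have h2 : S.x 2 ≠ 0 := S.cluster.ne_zero 2
  refine residue_nonconst S.bp2_hy (X 2 * ((1 + X 1) * (X 0 + 1) * ((1 + X 1) * X 0 + 1)) ^ 3) (X 1 ^ 3)
    ![0, 1, 0] ![0, 1, 1] rfl rfl ?_ ?_ ?_ ?_ c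
  · simp
  · simp
  · simp
    norm_num
  · simp only [map_mul, map_add, map_one, map_pow, aeval_X, Matrix.cons_val_zero, Matrix.cons_val_one, Matrix.cons_val]
    have e1 : S.i (S.s / S.w⁻¹ ^ (3 : ℤ)) = S.i S.s * (S.i S.w) ^ 3 := by
      have e0 : S.s / S.w⁻¹ ^ (3 : ℤ) = S.s * S.w ^ 3 := by
        rw [inv_zpow, div_inv_eq_mul]
        norm_cast
      rw [e0, map_mul, map_pow]
    rw [e1]
    have e2 : S.i S.w = (1 + S.x 1) * (1 + S.x 2) * (1 + S.x 1 + S.x 2) / (S.x 1 * S.x 2) := by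
      rw [eq_div_iff (mul_ne_zero h1 h2), S.w_eq]
    rw [e2]
    field_simp

/-- Upper bound at `P₂`. Notation `a = x₁`, `b = x₂`, `s = i s`, `w = i w`; everything below is to be derived from `w_eq`, `g_eq`.
Use `mu_le_chart` with `π = X 0` (`divX`), `vord_divX` for the orders, `comap_eq_divX` and
`residue_nonconst` for the restriction to `K`.
Coordinates of `L` (`IsCoord.change` from `S.hL`): `y₀ = 1 / b`, `y₁ = a`, `y₂ = s b³`, so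
`b = 1 / y₀`, `s = y₀³ y₂`. Then
* `ω = c • wedge y`, `c = y₀² / y₁`, as `ds ∧ da ∧ db = - y₀⁻² d(y₀³ y₂) ∧ dy₁ ∧ dy₀ = y₀ dy₀ ∧ dy₁ ∧ dy₂` and
  `ω = (a b)⁻¹ ds ∧ da ∧ db`; `v(c) = 2`;
* `g = y₀³ y₁ ((1 + y₁)² (y₀ + 1) + y₂ ((1 + y₁) y₀ + 1)) / (y₀ + 1)³`, `v(g) = 3` (test at `(0, 1, 0)`);
* `w = y₀⁻¹ (1 + y₁) (y₀ + 1) ((1 + y₁) y₀ + 1) / y₁`, `v(w) = -1` (test at `(0, 1, 0)`); `t = w⁻¹`, `e = 1`;
* `s / (w⁻¹)³ = s w³ = y₂ ((1 + y₁) (y₀ + 1) ((1 + y₁) y₀ + 1) / y₁)³` has the values `0`, `8` at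
  `(0, 1, 0)`, `(0, 1, 1)`.
So `μ ≤ - 1 - 1 + (1 + 2 - 3/5) = 2/5`. -/
theorem muP2 {μ : ℝ} (h : IsModuliMult S.i S.ω S.φ 5 S.ω' S.P2 μ) : μ ≤ 2 / 5 := by
  have h1 : S.x 1 ≠ 0 := S.cluster.ne_zero 1
  have h2 : S.x 2 ≠ 0 := S.cluster.ne_zero 2
  have hP : IsDivisorial S.P2 := wt_isDivisorial _ _
  have hE : IsDivisorial (divX S.bp2_hy) := divX_isDivisorial _
  have hc : (S.x 2)⁻¹ ^ 2 / S.x 1 ≠ 0 := div_ne_zero (pow_ne_zero _ (inv_ne_zero h2)) h1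
  have hwi : vord (divX S.bp2_hy) (S.i S.w⁻¹) = 1 := by
    rw [map_inv₀, vord_inv hE, bp2_vw]
    rfl
  have hEP : (chartRing S.bp2_hy (prime_X0 2)).comap S.i = S.P2 := by
    refine comap_eq_divX S.i S.hi (wt_coord S.c2 3) hE ?_ S.bp2_res
    show 0 < vord (divX S.bp2_hy) (S.i S.w⁻¹)
    rw [hwi]
    exact one_pos
  have key := S.mu_le_chart S.bp2_hy (prime_X0 2) hc S.bp2_form hP S.hasFormOrd_P2 hEP (t := S.w⁻¹)
    ((hasOrd_iff hP).2 ⟨inv_ne_zero S.w_ne_zero, vord_wt_u S.c2 3⟩)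
    ((map_ne_zero S.i).2 (inv_ne_zero S.w_ne_zero)) h
  have e1 : vord (chartRing S.bp2_hy (prime_X0 2)) ((S.x 2)⁻¹ ^ 2 / S.x 1) = 2 := S.bp2_vc
  have e2 : vord (chartRing S.bp2_hy (prime_X0 2)) S.g = 3 := S.bp2_vg
  have e3 : vord (chartRing S.bp2_hy (prime_X0 2)) (S.i S.w⁻¹) = 1 := hwi
  rw [e1, e2, e3] at key
  norm_num at key
  linarith

end Setup

end Pool.Agent.MP_5c6cc8_ag
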