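import Pool.Agent.MP_5c6cc8_ag.Bounds

/-! # Row P4: upper bound at `P₄` (`v(1/w) = 1, v(1/s) = 3`) -/

open MvPolynomial

namespace Pool.Agent.MP_5c6cc8_ag

namespace Setup

variable {K L : Type} [Field K] [Algebra ℂ K] [Field L] [Algebra ℂ L] (S : Setup K L)

theorem bp4_a_ne : S.x 1 ≠ 0 := S.cluster.ne_zero 1

theorem bp4_b_ne : S.x 2 ≠ 0 := S.cluster.ne_zero 2

theorem bp4_s_ne : S.i S.s ≠ 0 := by
  rw [Ne, map_eq_zero]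
  exact S.s_ne_zero

theorem bp4_w_ne : S.i S.w ≠ 0 := by
  rw [Ne, map_eq_zero]
  exact S.w_ne_zero

theorem bp4_coord : IsCoord ![S.x 2, S.x 1, (S.i S.s * S.x 2 ^ 3)⁻¹] := by
  apply S.hL.change
  intro j
  have ha := S.bp4_a_ne
  have hb := S.bp4_b_ne
  have hs := S.bp4_s_ne
  have h0 : S.x 2 ∈ IntermediateField.adjoin ℂ
      (Set.range ![S.x 2, S.x 1, (S.i S.s * S.x 2 ^ 3)⁻¹]) :=
    IntermediateField.subset_adjoin _ _ ⟨0, rfl⟩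
  have h1 : S.x 1 ∈ IntermediateField.adjoin ℂ
      (Set.range ![S.x 2, S.x 1, (S.i S.s * S.x 2 ^ 3)⁻¹]) :=
    IntermediateField.subset_adjoin _ _ ⟨1, rfl⟩
  have h2 : (S.i S.s * S.x 2 ^ 3)⁻¹ ∈ IntermediateField.adjoin ℂ
      (Set.range ![S.x 2, S.x 1, (S.i S.s * S.x 2 ^ 3)⁻¹]) :=
    IntermediateField.subset_adjoin _ _ ⟨2, rfl⟩
  have h3 : S.i S.s ∈ IntermediateField.adjoin ℂ
      (Set.range ![S.x 2, S.x 1, (S.i S.s * S.x 2 ^ 3)⁻¹]) := by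
    have e : S.i S.s = ((S.i S.s * S.x 2 ^ 3)⁻¹)⁻¹ * (S.x 2 ^ 3)⁻¹ := by
      field_simp
    have h4 := mul_mem (inv_mem h2) (inv_mem (pow_mem h0 3))
    rwa [← e] at h4
  fin_cases j
  · exact h1
  · exact h0
  · exact h3

/-- Upper bound at `P₄`. Notation `a = x₁`, `b = x₂`, `s = i s`, `w = i w`; everything below is to be derived from `w_eq`, `g_eq`.
Use `mu_le_chart` with `π = X 0` (`divX`), `vord_divX` for the orders, `comap_eq_divX` and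
`residue_nonconst` for the restriction to `K`.
Coordinates of `L` (`IsCoord.change` from `S.hL`): `y₀ = b`, `y₁ = a`, `y₂ = 1 / (s b³)`, so
`s = 1 / (y₀³ y₂)`. Then
* `ω = c • wedge y`, `c = 1 / (y₁ y₂² y₀⁴)`, as `ds ∧ da ∧ db = - (y₀³ y₂)⁻² d(y₀³ y₂) ∧ dy₁ ∧ dy₀
  = y₀⁻³ y₂⁻² dy₀ ∧ dy₁ ∧ dy₂` and `ω = (a b)⁻¹ ds ∧ da ∧ db`; `v(c) = -4`;
* `g = y₀⁻¹ y₁ ((1 + y₁)² (1 + y₀) y₂ + (1 + y₁ + y₀)) / (y₂ (1 + y₀)³)`, `v(g) = -1` (test at `(0, 1, 1)`);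
* `w = y₀⁻¹ (1 + y₁) (1 + y₀) (1 + y₀ + y₁) / y₁`, `v(w) = -1` (test at `(0, 1, 1)`); `t = w⁻¹`, `e = 1`;
* `s⁻¹ / (w⁻¹)³ = y₂ ((1 + y₁) (1 + y₀) (1 + y₀ + y₁) / y₁)³` has the values `64`, `128` at
  `(0, 1, 1)`, `(0, 1, 2)`.
So `μ ≤ 5 - 1 + (1 - 4 + 1/5) = 6/5`. -/
theorem muP4 {μ : ℝ} (h : IsModuliMult S.i S.ω S.φ 5 S.ω' S.P4 μ) : μ ≤ 6 / 5 := by
  have ha := S.bp4_a_ne
  have hb := S.bp4_b_ne
  have hs := S.bp4_s_ne
  have hw := S.bp4_w_ne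
  have hy := S.bp4_coord
  have hY : S.i S.s * S.x 2 ^ 3 * (S.i S.s * S.x 2 ^ 3)⁻¹ = 1 :=
    mul_inv_cancel₀ (mul_ne_zero hs (pow_ne_zero _ hb))
  -- the form
  have hω : S.ω = ((S.x 1 * S.x 2)⁻¹ * (S.i S.s ^ 2 * S.x 2 ^ 3)) •
      wedge ![S.x 2, S.x 1, (S.i S.s * S.x 2 ^ 3)⁻¹] := by
    have e1 : wedge ![S.x 2, S.x 1, (S.i S.s * S.x 2 ^ 3)⁻¹] =
        ((((S.i S.s * S.x 2 ^ 3)⁻¹) ^ 2) * S.x 2 ^ 3) • T (S.i S.s) (S.x 1) (S.x 2) := by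
      change T (S.x 2) (S.x 1) (S.i S.s * S.x 2 ^ 3)⁻¹ = _
      rw [T_inv3, T_mul3, T_pow3, T_self13, smul_zero, smul_zero, zero_add,
        T_swap13 (S.i S.s) (S.x 1) (S.x 2), smul_neg, smul_neg, neg_smul, neg_neg, smul_smul]
    rw [e1, smul_smul, Setup.ω]
    congr 1
    field_simp
  have hc : (S.x 1 * S.x 2)⁻¹ * (S.i S.s ^ 2 * S.x 2 ^ 3) ≠ 0 := by positivity
  -- the orders
  have ec : vord (divX hy) ((S.x 1 * S.x 2)⁻¹ * (S.i S.s ^ 2 * S.x 2 ^ 3)) = -4 := by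
    refine (vord_divX hy (m := -4) 1 (X 1 * X 2 ^ 2) ![0, 1, 1] ![0, 1, 1] rfl rfl ?_ ?_ ?_).2
    · simp
    · simp
    · simp only [map_mul, map_pow, aeval_X, map_one, Matrix.cons_val]
      rw [show (-4 : ℤ) = -((4 : ℕ) : ℤ) from rfl, zpow_neg, zpow_natCast]
      field_simp
  have eg : vord (divX hy) S.g = -1 := by
    refine (vord_divX hy (m := -1) (X 1 * ((1 + X 1) ^ 2 * (1 + X 0) * X 2 + (1 + X 1 + X 0)))
      (X 2 * (1 + X 0) ^ 3) ![0, 1, 1] ![0, 1, 1] rfl rfl ?_ ?_ ?_).2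
    · simp
      norm_num
    · simp
    · simp only [map_mul, map_pow, map_add, aeval_X, map_one, Matrix.cons_val]
      rw [zpow_neg_one, eq_inv_mul_iff_mul_eq₀ hb]
      linear_combination (S.i S.s * S.x 2 ^ 3)⁻¹ * S.g_eq +
        S.x 1 * (1 + S.x 1 + S.x 2) * hY
  have ew : vord (divX hy) (S.i S.w) = -1 := by
    refine (vord_divX hy (m := -1) ((1 + X 1) * (1 + X 0) * (1 + X 0 + X 1))
      (X 1) ![0, 1, 1] ![0, 1, 1] rfl rfl ?_ ?_ ?_).2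
    · simp
    · simp
    · simp only [map_mul, map_add, aeval_X, map_one, Matrix.cons_val]
      rw [zpow_neg_one, eq_inv_mul_iff_mul_eq₀ hb]
      linear_combination S.w_eq
  have hE : IsDivisorial (divX hy) := divX_isDivisorial hy
  have et : vord (divX hy) (S.i S.w⁻¹) = 1 := by
    rw [map_inv₀, vord_inv hE, ew, neg_neg]
  have hEP : (divX hy).comap S.i = S.P4 := by
    apply comap_eq_divX S.i S.hi (wt_coord S.c4 3) hE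
    · show 0 < vord (divX hy) (S.i S.w⁻¹)
      rw [et]
      exact one_pos
    · intro a
      show S.i (S.s⁻¹ / S.w⁻¹ ^ (3 : ℤ)) - _ ≠ 0 ∧ vord _ (S.i (S.s⁻¹ / S.w⁻¹ ^ (3 : ℤ)) - _) = 0
      apply residue_nonconst hy (X 2 * ((1 + X 1) * (1 + X 0) * (1 + X 0 + X 1)) ^ 3) (X 1 ^ 3)
        ![0, 1, 1] ![0, 1, 2] rfl rfl
      · simp
      · simp
      · simp
      · simp only [map_mul, map_pow, map_add, aeval_X, map_one, Matrix.cons_val]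
        have e3 : S.i (S.s⁻¹ / S.w⁻¹ ^ (3 : ℤ)) = (S.i S.s)⁻¹ * (S.i S.w) ^ 3 := by
          rw [map_div₀, map_zpow₀, map_inv₀, map_inv₀, inv_zpow, div_inv_eq_mul, zpow_ofNat]
        rw [e3]
        have e4 : S.i S.w = (1 + S.x 1) * (1 + S.x 2) * (1 + S.x 1 + S.x 2) / (S.x 1 * S.x 2) := by
          rw [eq_div_iff (mul_ne_zero ha hb), S.w_eq]
        rw [e4]
        field_simp
        ring
  have hP : IsDivisorial S.P4 := wt_isDivisorial S.c4 3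
  have ht : HasOrd S.P4 S.w⁻¹ 1 := by
    rw [hasOrd_iff hP]
    exact ⟨inv_ne_zero S.w_ne_zero, vord_wt_u S.c4 3⟩
  have ht0 : S.i S.w⁻¹ ≠ 0 := by
    rw [map_inv₀]
    exact inv_ne_zero hw
  have hmu := S.mu_le_chart hy (prime_X0 2) hc hω hP S.hasFormOrd_P4 hEP ht ht0 h
  change μ ≤ -((-5 : ℤ) : ℝ) - 1 + (1 + ((vord (divX hy) _ : ℤ) : ℝ) -
    ((vord (divX hy) S.g : ℤ) : ℝ) / 5) / ((vord (divX hy) (S.i S.w⁻¹) : ℤ) : ℝ) at hmu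
  rw [ec, eg, et] at hmu
  push_cast at hmu
  linarith

end Setup

end Pool.Agent.MP_5c6cc8_ag
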