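import Pool.Agent.MP_5c6cc8_ag.Bounds

/-! # Row P5: upper bound at `P₅` (`v(s + 1) = 1, v(w - w_±) = 2`), the nodes -/

open MvPolynomial

namespace Pool.Agent.MP_5c6cc8_ag

namespace Setup

variable {K L : Type} [Field K] [Algebra ℂ K] [Field L] [Algebra ℂ L] (S : Setup K L)

theorem bp5_a_ne : S.x 1 ≠ 0 := S.cluster.ne_zero 1

theorem bp5_b_ne : S.x 2 ≠ 0 := S.cluster.ne_zero 2

/-- the golden ratio or its conjugate -/
theorem bp5_root (sgn : Bool) : ∃ r : ℂ, r ^ 2 = r + 1 ∧ node sgn = r ^ 5 := by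
  cases sgn with
  | true =>
    refine ⟨((Real.goldenRatio : ℝ) : ℂ), ?_, ?_⟩
    · exact_mod_cast Real.goldenRatio_sq
    · unfold node
      exact if_pos rfl
  | false =>
    refine ⟨((Real.goldenConj : ℝ) : ℂ), ?_, ?_⟩
    · exact_mod_cast Real.goldenConj_sq
    · unfold node
      exact if_neg (by decide)

theorem bp5_sub_ne (r : ℂ) : S.x 1 - algebraMap ℂ L r ≠ 0 := by
  have h : (X 0 - C r : MvPolynomial (Fin 3) ℂ) ≠ 0 := by
    intro h0
    have h1 := congrArg (eval (fun _ => r + 1)) h0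
    simp at h1
  have h2 := S.hL.aeval_ne_zero h
  simpa using h2

/-- the coordinates -/
noncomputable def bp5_y (r : ℂ) : Fin 3 → L :=
  ![S.x 1 - algebraMap ℂ L r, (S.x 2 - algebraMap ℂ L r) / (S.x 1 - algebraMap ℂ L r),
    (S.i S.s + 1) / (S.x 1 - algebraMap ℂ L r)]

theorem bp5_a (r : ℂ) : S.x 1 = algebraMap ℂ L r + S.bp5_y r 0 := by
  change S.x 1 = algebraMap ℂ L r + (S.x 1 - algebraMap ℂ L r)
  ring

theorem bp5_b (r : ℂ) : S.x 2 = algebraMap ℂ L r + S.bp5_y r 0 * S.bp5_y r 1 := by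
  change S.x 2 = algebraMap ℂ L r + (S.x 1 - algebraMap ℂ L r) *
    ((S.x 2 - algebraMap ℂ L r) / (S.x 1 - algebraMap ℂ L r))
  rw [mul_div_cancel₀ _ (S.bp5_sub_ne r)]
  ring

theorem bp5_s (r : ℂ) : S.i S.s = -1 + S.bp5_y r 0 * S.bp5_y r 2 := by
  change S.i S.s = -1 + (S.x 1 - algebraMap ℂ L r) *
    ((S.i S.s + 1) / (S.x 1 - algebraMap ℂ L r))
  rw [mul_div_cancel₀ _ (S.bp5_sub_ne r)]
  ring

theorem bp5_coord (r : ℂ) : IsCoord (S.bp5_y r) := by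
  apply S.hL.change
  intro j
  have h0 : S.bp5_y r 0 ∈ IntermediateField.adjoin ℂ (Set.range (S.bp5_y r)) :=
    IntermediateField.subset_adjoin _ _ ⟨0, rfl⟩
  have h1 : S.bp5_y r 1 ∈ IntermediateField.adjoin ℂ (Set.range (S.bp5_y r)) :=
    IntermediateField.subset_adjoin _ _ ⟨1, rfl⟩
  have h2 : S.bp5_y r 2 ∈ IntermediateField.adjoin ℂ (Set.range (S.bp5_y r)) :=
    IntermediateField.subset_adjoin _ _ ⟨2, rfl⟩
  have hr : algebraMap ℂ L r ∈ IntermediateField.adjoin ℂ (Set.range (S.bp5_y r)) :=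
    IntermediateField.algebraMap_mem _ r
  fin_cases j
  · have h3 := add_mem hr h0
    rwa [← S.bp5_a r] at h3
  · have h3 := add_mem hr (mul_mem h0 h1)
    rwa [← S.bp5_b r] at h3
  · have h3 := add_mem (neg_mem (one_mem (IntermediateField.adjoin ℂ (Set.range (S.bp5_y r)))))
      (mul_mem h0 h2)
    rwa [← S.bp5_s r] at h3

theorem bp5_form (r : ℂ) : S.ω = ((S.x 1 * S.x 2)⁻¹ * S.bp5_y r 0 ^ 2) • wedge (S.bp5_y r) := by
  have e0 : wedge (S.bp5_y r) = T (S.bp5_y r 0) (S.bp5_y r 1) (S.bp5_y r 2) := rfl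
  have e1 : T (S.i S.s) (S.x 1) (S.x 2) =
      (S.bp5_y r 0 ^ 2) • T (S.bp5_y r 0) (S.bp5_y r 1) (S.bp5_y r 2) := by
    have e2 : T (S.i S.s) (S.x 1) (S.x 2) = T (-1 + S.bp5_y r 0 * S.bp5_y r 2)
        (algebraMap ℂ L r + S.bp5_y r 0) (algebraMap ℂ L r + S.bp5_y r 0 * S.bp5_y r 1) := by
      rw [← S.bp5_a r, ← S.bp5_b r, ← S.bp5_s r]
    rw [e2, T_add1, T_neg1, T_one1, neg_zero, zero_add, T_add2, T_const2, zero_add, T_add3,
      T_const3, zero_add, T_mul1, T_self12, smul_zero, add_zero, T_mul3, T_self23, smul_zero,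
      add_zero, smul_smul, T_swap12 (S.bp5_y r 0) (S.bp5_y r 2) (S.bp5_y r 1),
      T_swap23 (S.bp5_y r 0) (S.bp5_y r 1) (S.bp5_y r 2), neg_neg, pow_two]
  rw [e0, Setup.ω, e1, smul_smul]

/-- Upper bound at `P₅`. Notation `a = x₁`, `b = x₂`, `s = i s`, `w = i w`; everything below is to be derived from `w_eq`, `g_eq`.
Use `mu_le_chart` with `π = X 0` (`divX`), `vord_divX` for the orders, `comap_eq_divX` and
`residue_nonconst` for the restriction to `K`.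
Let `r ∈ ℂ` be the golden ratio or its conjugate, `r² = r + 1` (`Real.goldenRatio_sq`,
`Real.goldenConj_sq`), `node sgn = r⁵`. Coordinates of `L` (`IsCoord.change` from `S.hL`):
`y₀ = a - r`, `y₁ = (b - r) / (a - r)`, `y₂ = (s + 1) / (a - r)`, so `a = r + y₀`, `b = r + y₀ y₁`,
`s = -1 + y₀ y₂`. Note `1 + a = r² + y₀`, `1 + b = r² + y₀ y₁`, `1 + a + b = r³ + y₀ (1 + y₁)`. Then
* `ω = c • wedge y`, `c = y₀² / (a b)`, as `ds ∧ da ∧ db = d(y₀ y₂) ∧ dy₀ ∧ d(y₀ y₁) = y₀² dy₀ ∧ dy₁ ∧ dy₂`; `v(c) = 2`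
  (`a, b` are units, as `r ≠ 0`);
* `v(g) ≥ 1` (`le_vord_divX`), as by `g_eq` `g b (1 + b)³ = a N` with
  `N = (r² + y₀)² (r² + y₀ y₁) + (-1 + y₀ y₂) (r + y₀ y₁)³ (r³ + y₀ (1 + y₁))`, which is `y₀` times a
  polynomial in `y` (the constant terms `r⁶ - r³ r³` cancel);
* `w - r⁵ = y₀² (r² (1 + y₁)² - r⁴ y₁ + y₀ y₁ (1 + y₁)) / ((r + y₀) (r + y₀ y₁))`;
* `t = s + 1 = y₀ y₂`, `v(t) = 1 = e`;
* `(w - r⁵) / (s + 1)² = (r² (1 + y₁)² - r⁴ y₁ + y₀ y₁ (1 + y₁)) / (y₂² (r + y₀) (r + y₀ y₁))` has the values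
  `1`, `1/4` at `(0, 0, 1)`, `(0, 0, 2)`.
So `μ ≤ - 2 - 1 + (1 + 2 - 1/5) = - 1/5`. -/
theorem muP5 (sgn : Bool) {μ : ℝ} (h : IsModuliMult S.i S.ω S.φ 5 S.ω' (S.P5 sgn) μ) :
    μ ≤ -1 / 5 := by
  obtain ⟨r, hr, hnode⟩ := bp5_root sgn
  have hr0 : r ≠ 0 := by
    rintro rfl
    norm_num at hr
  have ha := S.bp5_a_ne
  have hb := S.bp5_b_ne
  have hy := S.bp5_coord r
  have hR : algebraMap ℂ L r ^ 2 = algebraMap ℂ L r + 1 := by
    rw [← map_pow, hr, map_add, map_one]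
  have hya := S.bp5_a r
  have hyb := S.bp5_b r
  have hys := S.bp5_s r
  have hy0 : S.bp5_y r 0 ≠ 0 := S.bp5_sub_ne r
  have e1a : 1 + S.x 1 = algebraMap ℂ L r ^ 2 + S.bp5_y r 0 := by
    linear_combination hya - hR
  have e1b : 1 + S.x 2 = algebraMap ℂ L r ^ 2 + S.bp5_y r 0 * S.bp5_y r 1 := by
    linear_combination hyb - hR
  have e1ab : 1 + S.x 1 + S.x 2 = algebraMap ℂ L r ^ 3 + S.bp5_y r 0 * (1 + S.bp5_y r 1) := by
    linear_combination hya + hyb - (algebraMap ℂ L r + 1) * hR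
  have hω := S.bp5_form r
  have hc : (S.x 1 * S.x 2)⁻¹ * S.bp5_y r 0 ^ 2 ≠ 0 :=
    mul_ne_zero (inv_ne_zero (mul_ne_zero ha hb)) (pow_ne_zero _ hy0)
  have hE : IsDivisorial (divX hy) := divX_isDivisorial hy
  -- the orders
  have ec : vord (divX hy) ((S.x 1 * S.x 2)⁻¹ * S.bp5_y r 0 ^ 2) = 2 := by
    refine (vord_divX hy (m := 2) 1 ((C r + X 0) * (C r + X 0 * X 1)) ![0, 0, 1] ![0, 0, 1]
      rfl rfl ?_ ?_ ?_).2
    · simp
    · simp [hr0]
    · simp only [map_mul, map_add, aeval_X, aeval_C, map_one]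
      rw [← hya, ← hyb, show (2 : ℤ) = ((2 : ℕ) : ℤ) from rfl, zpow_natCast]
      field_simp
  have eg : (1 : ℤ) ≤ vord (divX hy) S.g := by
    refine (le_vord_divX hy (m := 1)
      ((C r + X 0) * (C r ^ 4 * X 1 + 2 * C r ^ 4 + 2 * C r ^ 2 * X 0 * X 1 + C r ^ 2 * X 0 +
        X 0 ^ 2 * X 1 - C r ^ 3 * (1 + X 1) -
        (3 * C r ^ 2 * X 1 + 3 * C r * X 0 * X 1 ^ 2 + X 0 ^ 2 * X 1 ^ 3) * C r ^ 3 -
        X 0 * (3 * C r ^ 2 * X 1 + 3 * C r * X 0 * X 1 ^ 2 + X 0 ^ 2 * X 1 ^ 3) * (1 + X 1) +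
        X 2 * (C r + X 0 * X 1) ^ 3 * (C r ^ 3 + X 0 * (1 + X 1))))
      ((C r + X 0 * X 1) * (C r ^ 2 + X 0 * X 1) ^ 3) ![0, 0, 1] rfl ?_ ?_).resolve_left
      S.g_ne_zero
    · simp [hr0]
    · simp only [map_mul, map_add, map_sub, map_pow, aeval_X, aeval_C, map_one, map_ofNat, zpow_one]
      rw [← hyb, ← hya, ← e1b]
      rw [S.g_eq, e1ab, e1a, e1b, hys, hyb]
      ring
  have et : vord (divX hy) (S.i (S.s + 1)) = 1 := by
    refine (vord_divX hy (m := 1) (X 2) 1 ![0, 0, 1] ![0, 0, 1] rfl rfl ?_ ?_ ?_).2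
    · simp
    · simp
    · simp only [aeval_X, map_one, mul_one, zpow_one, map_add]
      rw [hys]
      ring
  have hEP : (divX hy).comap S.i = S.P5 sgn := by
    apply comap_eq_divX S.i S.hi (wt_coord (S.c5 sgn) 2) hE
    · show 0 < vord (divX hy) (S.i (S.s + 1))
      rw [et]
      exact one_pos
    · intro a
      show S.i ((S.w - algebraMap ℂ K (node sgn)) / (S.s + 1) ^ (2 : ℤ)) - _ ≠ 0 ∧
        vord _ (S.i ((S.w - algebraMap ℂ K (node sgn)) / (S.s + 1) ^ (2 : ℤ)) - _) = 0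
      apply residue_nonconst hy
        (C r ^ 2 * (1 + X 1) ^ 2 - C r ^ 4 * X 1 + X 0 * X 1 * (1 + X 1))
        (X 2 ^ 2 * (C r + X 0) * (C r + X 0 * X 1))
        ![0, 0, 1] ![0, 0, 2] rfl rfl
      · simp [hr0]
      · simp [hr0]
      · simp
        intro h1
        have hr2 : r ^ 2 ≠ 0 := pow_ne_zero _ hr0
        field_simp at h1
        norm_num at h1
      · simp only [map_mul, map_add, map_sub, map_pow, aeval_X, aeval_C, map_one]
        have e3 : S.i ((S.w - algebraMap ℂ K (node sgn)) / (S.s + 1) ^ (2 : ℤ)) =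
            (S.i S.w - algebraMap ℂ L r ^ 5) / (S.bp5_y r 0 * S.bp5_y r 2) ^ 2 := by
          rw [map_div₀, map_zpow₀, map_sub, S.hi, hnode, map_pow, map_add, map_one, zpow_ofNat, hys]
          congr 2
          ring
        have hy2 : S.bp5_y r 2 ≠ 0 := by
          intro h0
          rw [h0, mul_zero, add_zero] at hys
          have h1 : (X 2 + 1 : MvPolynomial (Fin 3) ℂ) ≠ 0 := by
            intro h2
            have h3 := congrArg (eval (fun _ => 0)) h2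
            simp at h3
          have h2 := S.hL.aeval_ne_zero h1
          apply h2
          simp [hys]
        have e4 : (S.i S.w - algebraMap ℂ L r ^ 5) * (S.x 1 * S.x 2) = S.bp5_y r 0 ^ 2 *
            (algebraMap ℂ L r ^ 2 * (1 + S.bp5_y r 1) ^ 2 - algebraMap ℂ L r ^ 4 * S.bp5_y r 1 +
              S.bp5_y r 0 * S.bp5_y r 1 * (1 + S.bp5_y r 1)) := by
          rw [sub_mul, S.w_eq, e1ab, e1a, e1b, hya, hyb]
          linear_combination (-(S.bp5_y r 0 * (1 + S.bp5_y r 1) * algebraMap ℂ L r ^ 4) -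
            S.bp5_y r 0 ^ 2 * S.bp5_y r 1 * algebraMap ℂ L r ^ 3) * hR
        rw [e3, ← hya, ← hyb, div_mul_eq_mul_div, div_eq_iff (pow_ne_zero _ (mul_ne_zero hy0 hy2))]
        linear_combination S.bp5_y r 2 ^ 2 * e4
  have hP : IsDivisorial (S.P5 sgn) := wt_isDivisorial (S.c5 sgn) 2
  have hs1 : S.s + 1 ≠ 0 := by
    intro h0
    have h1 : (X 1 + 1 : MvPolynomial (Fin 2) ℂ) ≠ 0 := by
      intro h2
      have h3 := congrArg (eval (fun _ => 0)) h2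
      simp at h3
    apply S.hK.aeval_ne_zero h1
    simpa using h0
  have ht : HasOrd (S.P5 sgn) (S.s + 1) 1 := by
    rw [hasOrd_iff hP]
    exact ⟨hs1, vord_wt_u (S.c5 sgn) 2⟩
  have ht0 : S.i (S.s + 1) ≠ 0 := by
    rw [Ne, map_eq_zero]
    exact hs1
  have hmu := S.mu_le_chart hy (prime_X0 2) hc hω hP (S.hasFormOrd_P5 sgn) hEP ht ht0 h
  change μ ≤ -((2 : ℤ) : ℝ) - 1 + (1 + ((vord (divX hy) _ : ℤ) : ℝ) -
    ((vord (divX hy) S.g : ℤ) : ℝ) / 5) / ((vord (divX hy) (S.i (S.s + 1)) : ℤ) : ℝ) at hmu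
  rw [ec, et] at hmu
  have eg' : (1 : ℝ) ≤ ((vord (divX hy) S.g : ℤ) : ℝ) := by exact_mod_cast eg
  push_cast at hmu
  linarith

end Setup

end Pool.Agent.MP_5c6cc8_ag
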