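import Pool.Agent.MP_5c6cc8_ag.Forms

/-! # Row K3: the log canonical threshold along `s = 0` is at least one -/

open MvPolynomial

namespace Pool.Agent.MP_5c6cc8_ag

namespace Setup

variable {K L : Type} [Field K] [Algebra ℂ K] [Field L] [Algebra ℂ L] (S : Setup K L)

theorem p7_vF1 {E : Subring L} (hE : IsDivisorial E) :
    vord E S.F1 = 2 * vord E (S.x 0) + vord E (S.x 2) -
      (2 * vord E (S.x 3) + vord E (S.x 1)) := by
  have h := S.cluster.ne_zero
  unfold F1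
  rw [vord_div hE (mul_ne_zero (pow_ne_zero 2 (h 0)) (h 2))
    (mul_ne_zero (pow_ne_zero 2 (h 3)) (h 1)), vord_mul hE (pow_ne_zero 2 (h 0)) (h 2),
    vord_mul hE (pow_ne_zero 2 (h 3)) (h 1), vord_pow hE, vord_pow hE]
  norm_num

theorem p7_vF2 {E : Subring L} (hE : IsDivisorial E) :
    vord E S.F2 = 3 * vord E (S.x 2) + vord E (S.x 4) -
      (vord E (S.x 1) + 3 * vord E (S.x 3)) := by
  have h := S.cluster.ne_zero
  unfold F2
  rw [vord_div hE (mul_ne_zero (pow_ne_zero 3 (h 2)) (h 4))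
    (mul_ne_zero (h 1) (pow_ne_zero 3 (h 3))), vord_mul hE (pow_ne_zero 3 (h 2)) (h 4),
    vord_mul hE (h 1) (pow_ne_zero 3 (h 3)), vord_pow hE, vord_pow hE]
  norm_num

theorem p7_si_ne : S.i S.s ≠ 0 := (map_ne_zero S.i).2 S.s_ne_zero

theorem p7_wi_ne : S.i S.w ≠ 0 := (map_ne_zero S.i).2 S.w_ne_zero

/-- the order of `g` if `v(F₁) < v(s F₂)` -/
theorem p7_vg {E : Subring L} (hE : IsDivisorial E)
    (h : vord E S.F1 < vord E (S.i S.s) + vord E S.F2) : vord E S.g = vord E S.F1 := by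
  unfold g
  refine (vord_add_eq hE S.F1_ne_zero (Or.inr ?_)).2
  rw [vord_mul hE S.p7_si_ne S.F2_ne_zero]
  exact h

/-- the order of `g` if `v(s F₂) < v(F₁)` -/
theorem p7_vg' {E : Subring L} (hE : IsDivisorial E)
    (h : vord E (S.i S.s) + vord E S.F2 < vord E S.F1) :
    vord E S.g = vord E (S.i S.s) + vord E S.F2 := by
  unfold g
  rw [add_comm, (vord_add_eq hE (mul_ne_zero S.p7_si_ne S.F2_ne_zero) (Or.inr (by
    rw [vord_mul hE S.p7_si_ne S.F2_ne_zero]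
    exact h))).2, vord_mul hE S.p7_si_ne S.F2_ne_zero]

/-- the lower bound of the order of `ω` on the sections -/
theorem p7_section {E : Subring L} (hE : IsDivisorial E) {j : Fin 5} {m : ℤ}
    (hp : SecPattern E S.x j m) {k : ℤ} (hk : HasFormOrd E S.ω k) :
    vord E (S.i S.s) + m - 1 ≤ k := by
  have h := S.cluster.ne_zero
  have h1 := formOrdGE_smul_T (R := E) hE (c := -(S.x (j + 2) / S.x (j + 3)))
    (f := S.i S.s) (g := (S.x (j + 2))⁻¹) (h := S.x j * S.x (j + 2) * S.x (j + 3))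
    (neg_ne_zero.2 (div_ne_zero (h _) (h _))) S.p7_si_ne (inv_ne_zero (h _))
    (mul_ne_zero (mul_ne_zero (h _) (h _)) (h _))
  rw [← S.ω_section j, vord_neg hE, vord_div hE (h _) (h _), vord_inv hE,
    vord_mul hE (mul_ne_zero (h _) (h _)) (h _), vord_mul hE (h _) (h _), hp.v0, hp.v2, hp.v3]
    at h1
  have h2 := hk.2 _ h1
  linarith

theorem p7_five {E : Subring L} (hE : IsDivisorial E) (n : ℕ) : (n : L) ∈ E := by
  have := algebraMap_mem (F := L) hE (n : ℂ)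
  rwa [map_natCast] at this

theorem p7_vp {E : Subring L} (hE : IsDivisorial E) (j : Fin 5) :
    vord E (pp S.x j) = -(vord E (S.x (j - 1)) + vord E (S.x (j + 1))) := by
  unfold pp
  rw [vord_inv hE, ← S.cluster.rel j, vord_mul hE (S.cluster.ne_zero _) (S.cluster.ne_zero _)]

theorem p7_pp_ne (j : Fin 5) : pp S.x j ≠ 0 := inv_ne_zero (S.cluster.one_add_ne_zero j)

/-- the case `j = 0` with `v(g) > 5 m` -/
theorem p7_J {E : Subring L} (hE : IsDivisorial E) (hw : vord E (S.i S.w) = 0) {m : ℤ}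
    (hp : SecPattern E S.x 0 m) (hs : vord E (S.i S.s) = 5 * m) :
    S.J ≠ 0 ∧ vord E S.J = 4 * m := by
  have hx := S.cluster.ne_zero
  have hm := hp.pos
  have a0 : vord E (S.x 0) = 2 * m := hp.v0
  have a1 : vord E (S.x 1) = 0 := hp.v1
  have a2 : vord E (S.x 2) = -m := hp.v2
  have a3 : vord E (S.x 3) = -m := hp.v3
  have a4 : vord E (S.x 4) = 0 := hp.v4
  have q0 : vord E (pp S.x 0) = 0 := by
    have := S.p7_vp hE 0
    rw [show (0 : Fin 5) - 1 = 4 from rfl, show (0 : Fin 5) + 1 = 1 from rfl, a4, a1] at this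
    rw [this]; ring
  have q2 : vord E (pp S.x 2) = m := by
    have := S.p7_vp hE 2
    rw [show (2 : Fin 5) - 1 = 1 from rfl, show (2 : Fin 5) + 1 = 3 from rfl, a1, a3] at this
    rw [this]; ring
  have q3 : vord E (pp S.x 3) = m := by
    have := S.p7_vp hE 3
    rw [show (3 : Fin 5) - 1 = 2 from rfl, show (3 : Fin 5) + 1 = 4 from rfl, a2, a4] at this
    rw [this]; ring
  have q4 : vord E (pp S.x 4) = -m := by
    have := S.p7_vp hE 4
    rw [show (4 : Fin 5) - 1 = 3 from rfl, show (4 : Fin 5) + 1 = 0 from rfl, a3, a0] at this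
    rw [this]; ring
  -- `p₁ + p₄ ∈ E`
  have hW := W_eq S.cluster 0
  rw [show (0 : Fin 5) + 2 = 2 from rfl, show (0 : Fin 5) + 3 = 3 from rfl] at hW
  have hWv : vord E (S.x 0 * S.x 2 * S.x 3) = 0 := by
    rw [vord_mul hE (mul_ne_zero (hx _) (hx _)) (hx _), vord_mul hE (hx _) (hx _), a0, a2, a3]
    ring
  have hWE : S.x 0 * S.x 2 * S.x 3 ∈ E := (mem_iff hE).2 (Or.inr hWv.ge)
  have hWI : (S.x 0 * S.x 2 * S.x 3)⁻¹ ∈ E := (mem_iff hE).2 (Or.inr (by
    rw [vord_inv hE, hWv]; simp))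
  have r1 := S.cluster.rel 1
  have r4 := S.cluster.rel 4
  rw [show (1 : Fin 5) - 1 = 0 from rfl, show (1 : Fin 5) + 1 = 2 from rfl] at r1
  rw [show (4 : Fin 5) - 1 = 3 from rfl, show (4 : Fin 5) + 1 = 0 from rfl] at r4
  have hp14 : pp S.x 1 + pp S.x 4 =
      (S.x 0 * S.x 2 * S.x 3 - 1) * (S.x 0 * S.x 2 * S.x 3)⁻¹ := by
    have h1 : S.x 0 * S.x 2 * S.x 3 - 1 = S.x 2 + S.x 3 := by rw [hW]; ring
    rw [h1]
    unfold pp
    rw [← r1, ← r4]
    have e0 := hx 0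
    have e2 := hx 2
    have e3 := hx 3
    field_simp
    ring
  have hmem14 : pp S.x 1 + pp S.x 4 ∈ E := by
    rw [hp14]
    exact E.mul_mem (E.sub_mem hWE E.one_mem) hWI
  have hm0 : pp S.x 0 ∈ E := (mem_iff hE).2 (Or.inr q0.ge)
  have hm2 : pp S.x 2 ∈ E := (mem_iff hE).2 (Or.inr (by rw [q2]; exact hm.le))
  have hm3 : pp S.x 3 ∈ E := (mem_iff hE).2 (Or.inr (by rw [q3]; exact hm.le))
  have hsum : ∑ k, pp S.x k ∈ E := by
    have : ∑ k, pp S.x k = pp S.x 0 + pp S.x 2 + pp S.x 3 + (pp S.x 1 + pp S.x 4) := by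
      rw [Fin.sum_univ_five]; ring
    rw [this]
    exact E.add_mem (E.add_mem (E.add_mem hm0 hm2) hm3) hmem14
  have e5 : algebraMap ℂ L 5 = 5 := map_ofNat _ 5
  have h5ne : (5 : L) ≠ 0 := by
    rw [← e5]
    exact (map_ne_zero _).2 (by norm_num)
  have h5v : vord E ((5 : L) * pp S.x 4) = -m := by
    have h5 : vord E (5 : L) = 0 := by
      rw [← e5]
      exact vord_const (F := L) hE (5 : ℂ)
    rw [vord_mul hE h5ne (S.p7_pp_ne 4), h5, q4, zero_add]
  have h5ne' : (5 : L) * pp S.x 4 ≠ 0 := mul_ne_zero h5ne (S.p7_pp_ne 4)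
  have hA : 5 * pp S.x 4 - ∑ k, pp S.x k ≠ 0 ∧
      vord E (5 * pp S.x 4 - ∑ k, pp S.x k) = -m := by
    rw [sub_eq_add_neg, ← h5v]
    refine vord_add_eq hE h5ne' ?_
    rcases (mem_iff hE).1 (E.neg_mem hsum) with h | h
    · exact Or.inl h
    · right
      rw [h5v]
      linarith
  have hB : 5 * (pp S.x 1 + pp S.x 4) - 2 * ∑ k, pp S.x k ∈ E := by
    refine E.sub_mem (E.mul_mem ?_ hmem14) (E.mul_mem ?_ hsum)
    · exact_mod_cast p7_five hE 5
    · exact_mod_cast p7_five hE 2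
  have hF1 : vord E S.F1 = 5 * m := by
    rw [S.p7_vF1 hE, a0, a1, a2, a3]; ring
  have hF2 : vord E S.F2 = 0 := by
    rw [S.p7_vF2 hE, a1, a2, a3, a4]; ring
  have hX : S.F1 * (5 * pp S.x 4 - ∑ k, pp S.x k) ≠ 0 := mul_ne_zero S.F1_ne_zero hA.1
  have hXv : vord E (S.F1 * (5 * pp S.x 4 - ∑ k, pp S.x k)) = 4 * m := by
    rw [vord_mul hE S.F1_ne_zero hA.1, hA.2, hF1]; ring
  have hY : S.F1 * (5 * pp S.x 4 - ∑ k, pp S.x k) +
      S.i S.s * S.F2 * (5 * (pp S.x 1 + pp S.x 4) - 2 * ∑ k, pp S.x k) ≠ 0 ∧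
      vord E (S.F1 * (5 * pp S.x 4 - ∑ k, pp S.x k) +
        S.i S.s * S.F2 * (5 * (pp S.x 1 + pp S.x 4) - 2 * ∑ k, pp S.x k)) = 4 * m := by
    rw [← hXv]
    refine vord_add_eq hE hX ?_
    rcases (mem_iff hE).1 hB with h | h
    · left
      rw [h, mul_zero]
    · by_cases hB0 : 5 * (pp S.x 1 + pp S.x 4) - 2 * ∑ k, pp S.x k = 0
      · left
        rw [hB0, mul_zero]
      · right
        rw [vord_mul hE (mul_ne_zero S.p7_si_ne S.F2_ne_zero) hB0,
          vord_mul hE S.p7_si_ne S.F2_ne_zero, hXv, hs, hF2]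
        linarith
  unfold J
  refine ⟨mul_ne_zero S.p7_wi_ne hY.1, ?_⟩
  rw [vord_mul hE S.p7_wi_ne hY.1, hY.2, hw, zero_add]

/-- The bound `v(s) ≤ 1 + ord ω - v(g) / 5`. Write `v = vord E`, `e = v(s) > 0`. By `pattern`
(and `S.hw`) there are two cases.

Case 1: `v(x_j) = 0` for all `j`. Then `v(F₁) = v(F₂) = 0`, so `v(g) = 0` (`vord_add_eq`), and
`formOrdGE_smul_T` for `ω = (x₁ x₂)⁻¹ ds ∧ dx₁ ∧ dx₂` gives `e - 1 ≤ k` (`k` is the maximum of
the `m` with `FormOrdGE E ω m`).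

Case 2: `SecPattern E x j m`. Then `ω_section` and `formOrdGE_smul_T` give
(note `v(W') = 2m - m - m = 0`, `v(ξ) = m`) `e + m - 1 ≤ k`. The valuations of
`F₁ = x₀² x₂ / (x₃² x₁)` and `F₂ = x₂³ x₄ / (x₁ x₃³)` are:
* `j = 0`: `v(F₁) = 5m`, `v(F₂) = 0`; * `j = 1`: `0`, `0`; * `j = 2`: `0`, `5m`;
* `j = 3`: `-5m`, `-5m`; * `j = 4`: `0`, `0`.
So for `j ≠ 0` we get `v(g) = v(F₁) ≤ 0` (as `v(s F₂) > v(F₁)`) and the bound follows. Let `j = 0`.
If `v(g) ≤ 5m` then `1 + k - v(g)/5 ≥ e + m - m = e`. If `v(g) > 5m`, then (since `v(F₁) = 5m`)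
`v(s F₂) = e` must be `5m`. We claim `v(J) = 4m` for
`J = w (F₁ (5 p₄ - ∑ p) + s F₂ (5 (p₁ + p₄) - 2 ∑ p))`: indeed
`p_k = 1 / (x_{k-1} x_{k+1})` has the valuations `v(p₄) = -v(x₃) - v(x₀) = -m`,
`v(p₀) = 0`, `v(p₁) = -v(x₀) - v(x₂) = -m`, `v(p₂) = v(p₃) = m`; and
`p₁ + p₄ = (x₂ + x₃) / (x₀ x₂ x₃) = (W' - 1) / W'` with `W' = x₀ x₂ x₃ = 1 + x₂ + x₃` (`W_eq`),
`v(W') = 0`, so `p₁ + p₄` is `0` or has valuation `≥ 0`; hence `∑ p` (which is
`p₀ + p₂ + p₃ + (p₁ + p₄)`) is in `E`, `v(5 p₄ - ∑ p) = -m`, the first summand has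
valuation `4m` and the second one is `0` or has valuation `≥ 5m > 4m`. So `J ≠ 0`, `v(J) = 4m`,
and `ω = J⁻¹ ds ∧ dg ∧ dw` (`T_g_w`) with `formOrdGE_smul_T` gives
`-4m + e + v(g) + 0 - 1 ≤ k`, i.e. `1 + k ≥ e + v(g) - 4m`, and
`v(g) - 4m ≥ v(g)/5` because `v(g) ≥ 5m`. -/
theorem bound_P7 {E : Subring L} (hE : IsDivisorial E) (hw : vord E (S.i S.w) = 0)
    (hs : 0 < vord E (S.i S.s)) {k : ℤ} (hk : HasFormOrd E S.ω k) :
    (vord E (S.i S.s) : ℚ) ≤ 1 + k - vord E S.g / 5 := by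
  have hx := S.cluster.ne_zero
  have hF1 := S.p7_vF1 hE
  have hF2 := S.p7_vF2 hE
  rcases pattern hE S.cluster (by rw [← S.hw]; exact hw) with h0 | ⟨j, m, hp⟩
  · -- case 1
    rw [h0 0, h0 1, h0 2, h0 3] at hF1
    rw [h0 1, h0 2, h0 3, h0 4] at hF2
    have hg : vord E S.g = 0 := by
      rw [S.p7_vg hE (by rw [hF1, hF2]; linarith), hF1]; ring
    have h1 := formOrdGE_smul_T (R := E) hE (c := (S.x 1 * S.x 2)⁻¹) (f := S.i S.s)
      (g := S.x 1) (h := S.x 2) (inv_ne_zero (mul_ne_zero (hx _) (hx _))) S.p7_si_ne (hx _) (hx _)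
    rw [vord_inv hE, vord_mul hE (hx _) (hx _), h0 1, h0 2] at h1
    have h2 := hk.2 _ h1
    rw [hg]
    have h3 : (vord E (S.i S.s) : ℤ) ≤ 1 + k := by linarith
    have h4 : ((vord E (S.i S.s) : ℤ) : ℚ) ≤ ((1 + k : ℤ) : ℚ) := Int.cast_le.2 h3
    push_cast at h4 ⊢
    linarith
  · have hm := hp.pos
    have hsec := S.p7_section hE hp hk
    -- it is enough to bound `v(g)`
    have key : vord E S.g ≤ 5 * m → (vord E (S.i S.s) : ℚ) ≤ 1 + k - vord E S.g / 5 := by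
      intro h
      have h1 : ((vord E S.g : ℤ) : ℚ) ≤ ((5 * m : ℤ) : ℚ) := Int.cast_le.2 h
      have h2 : ((vord E (S.i S.s) + m - 1 : ℤ) : ℚ) ≤ ((k : ℤ) : ℚ) := Int.cast_le.2 hsec
      push_cast at h1 h2
      linarith
    have b0 := hp.v0
    have b1 := hp.v1
    have b2 := hp.v2
    have b3 := hp.v3
    have b4 := hp.v4
    fin_cases j
    · -- `j = 0`
      have a0 : vord E (S.x 0) = 2 * m := b0
      have a1 : vord E (S.x 1) = 0 := b1
      have a2 : vord E (S.x 2) = -m := b2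
      have a3 : vord E (S.x 3) = -m := b3
      have a4 : vord E (S.x 4) = 0 := b4
      rw [a0, a1, a2, a3] at hF1
      rw [a1, a2, a3, a4] at hF2
      by_cases hg : vord E S.g ≤ 5 * m
      · exact key hg
      push Not at hg
      have he : vord E (S.i S.s) = 5 * m := by
        rcases lt_trichotomy (vord E (S.i S.s)) (5 * m) with h | h | h
        · exfalso
          have := S.p7_vg' hE (by rw [hF1, hF2]; linarith)
          rw [hF2] at this
          linarith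
        · exact h
        · exfalso
          have := S.p7_vg hE (by rw [hF1, hF2]; linarith)
          rw [hF1] at this
          linarith
      obtain ⟨hJ, hJv⟩ := S.p7_J hE hw hp he
      have h1 := formOrdGE_smul_T (R := E) hE (c := S.J⁻¹) (f := S.i S.s)
        (g := S.g) (h := S.i S.w) (inv_ne_zero hJ) S.p7_si_ne S.g_ne_zero S.p7_wi_ne
      rw [S.T_g_w, smul_smul, inv_mul_cancel₀ hJ, one_smul, vord_inv hE, hJv, he, hw] at h1
      have h2 := hk.2 _ h1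
      have h3 : ((-(4 * m) + 5 * m + vord E S.g + 0 - 1 : ℤ) : ℚ) ≤ ((k : ℤ) : ℚ) :=
        Int.cast_le.2 h2
      have h4 : ((5 * m : ℤ) : ℚ) < ((vord E S.g : ℤ) : ℚ) := Int.cast_lt.2 hg
      rw [he]
      push_cast at h3 h4 ⊢
      linarith
    · -- `j = 1`
      have a1 : vord E (S.x 1) = 2 * m := b0
      have a2 : vord E (S.x 2) = 0 := b1
      have a3 : vord E (S.x 3) = -m := b2
      have a4 : vord E (S.x 4) = -m := b3
      have a0 : vord E (S.x 0) = 0 := b4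
      rw [a0, a1, a2, a3] at hF1
      rw [a1, a2, a3, a4] at hF2
      apply key
      rw [S.p7_vg hE (by rw [hF1, hF2]; linarith), hF1]
      linarith
    · -- `j = 2`
      have a2 : vord E (S.x 2) = 2 * m := b0
      have a3 : vord E (S.x 3) = 0 := b1
      have a4 : vord E (S.x 4) = -m := b2
      have a0 : vord E (S.x 0) = -m := b3
      have a1 : vord E (S.x 1) = 0 := b4
      rw [a0, a1, a2, a3] at hF1
      rw [a1, a2, a3, a4] at hF2
      apply key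
      rw [S.p7_vg hE (by rw [hF1, hF2]; linarith), hF1]
      linarith
    · -- `j = 3`
      have a3 : vord E (S.x 3) = 2 * m := b0
      have a4 : vord E (S.x 4) = 0 := b1
      have a0 : vord E (S.x 0) = -m := b2
      have a1 : vord E (S.x 1) = -m := b3
      have a2 : vord E (S.x 2) = 0 := b4
      rw [a0, a1, a2, a3] at hF1
      rw [a1, a2, a3, a4] at hF2
      apply key
      rw [S.p7_vg hE (by rw [hF1, hF2]; linarith), hF1]
      linarith
    · -- `j = 4`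
      have a4 : vord E (S.x 4) = 2 * m := b0
      have a0 : vord E (S.x 0) = 0 := b1
      have a1 : vord E (S.x 1) = -m := b2
      have a2 : vord E (S.x 2) = -m := b3
      have a3 : vord E (S.x 3) = 0 := b4
      rw [a0, a1, a2, a3] at hF1
      rw [a1, a2, a3, a4] at hF2
      apply key
      rw [S.p7_vg hE (by rw [hF1, hF2]; linarith), hF1]
      linarith

end Setup

end Pool.Agent.MP_5c6cc8_ag
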