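import Pool.Agent.MP_5c6cc8_ag.Bounds
import Pool.Agent.MP_5c6cc8_ag.P7

/-! # Row P6: upper bound at `P₆` (`s = ∞`) and lower bound at `P₇` (`s = 0`) -/

open MvPolynomial

namespace Pool.Agent.MP_5c6cc8_ag

namespace Setup

variable {K L : Type} [Field K] [Algebra ℂ K] [Field L] [Algebra ℂ L] (S : Setup K L)

theorem bp6_a_ne : S.x 1 ≠ 0 := S.cluster.ne_zero 1

theorem bp6_b_ne : S.x 2 ≠ 0 := S.cluster.ne_zero 2

theorem bp6_s_ne : S.i S.s ≠ 0 := by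
  rw [Ne, map_eq_zero]
  exact S.s_ne_zero

theorem bp6_w_ne : S.i S.w ≠ 0 := by
  rw [Ne, map_eq_zero]
  exact S.w_ne_zero

theorem bp6_coord : IsCoord ![(S.i S.s)⁻¹, S.x 1, S.x 2] := by
  apply S.hL.change
  intro j
  have h0 : (S.i S.s)⁻¹ ∈ IntermediateField.adjoin ℂ
      (Set.range ![(S.i S.s)⁻¹, S.x 1, S.x 2]) :=
    IntermediateField.subset_adjoin _ _ ⟨0, rfl⟩
  have h1 : S.x 1 ∈ IntermediateField.adjoin ℂ
      (Set.range ![(S.i S.s)⁻¹, S.x 1, S.x 2]) :=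
    IntermediateField.subset_adjoin _ _ ⟨1, rfl⟩
  have h2 : S.x 2 ∈ IntermediateField.adjoin ℂ
      (Set.range ![(S.i S.s)⁻¹, S.x 1, S.x 2]) :=
    IntermediateField.subset_adjoin _ _ ⟨2, rfl⟩
  have h3 : S.i S.s ∈ IntermediateField.adjoin ℂ
      (Set.range ![(S.i S.s)⁻¹, S.x 1, S.x 2]) := by
    have h4 := inv_mem h0
    rwa [inv_inv] at h4
  fin_cases j
  · exact h1
  · exact h2
  · exact h3

/-- Upper bound at `P₆`. Notation `a = x₁`, `b = x₂`, `s = i s`, `w = i w`; everything below is to be derived from `w_eq`, `g_eq`.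
Use `mu_le_chart` with `π = X 0` (`divX`), `vord_divX` for the orders, `comap_eq_divX` and
`residue_nonconst` for the restriction to `K`.
Coordinates of `L` (`IsCoord.change` from `S.hL`): `y₀ = 1 / s`, `y₁ = a`, `y₂ = b`. Then
* `ω = c • wedge y`, `c = - 1 / (a b y₀²)`, `v(c) = -2`;
* `g = y₀⁻¹ y₁ (y₀ (1 + y₁)² (1 + y₂) + y₂³ (1 + y₁ + y₂)) / (y₂ (1 + y₂)³)`, `v(g) = -1` (test at
  `(0, 1, 1)`);
* `t = s⁻¹ = y₀`, `e = 1`;
* `w / (s⁻¹)⁰ = w = (1 + y₁) (1 + y₂) (1 + y₁ + y₂) / (y₁ y₂)` has the values `12`, `40/3` at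
  `(0, 1, 1)`, `(0, 1, 3)`.
So `μ ≤ 2 - 1 + (1 - 2 + 1/5) = 1/5`. -/
theorem muP6 {μ : ℝ} (h : IsModuliMult S.i S.ω S.φ 5 S.ω' S.P6 μ) : μ ≤ 1 / 5 := by
  have ha := S.bp6_a_ne
  have hb := S.bp6_b_ne
  have hs := S.bp6_s_ne
  have hw := S.bp6_w_ne
  have hy := S.bp6_coord
  -- the form
  have hω : S.ω = (-((S.x 1 * S.x 2)⁻¹ * S.i S.s ^ 2)) •
      wedge ![(S.i S.s)⁻¹, S.x 1, S.x 2] := by
    have e1 : wedge ![(S.i S.s)⁻¹, S.x 1, S.x 2] =
        (-((S.i S.s)⁻¹ ^ 2)) • T (S.i S.s) (S.x 1) (S.x 2) := by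
      change T (S.i S.s)⁻¹ (S.x 1) (S.x 2) = _
      rw [T_inv1]
    rw [e1, smul_smul, Setup.ω]
    congr 1
    field_simp
  have hc : -((S.x 1 * S.x 2)⁻¹ * S.i S.s ^ 2) ≠ 0 := by
    rw [neg_ne_zero]
    positivity
  -- the orders
  have ec : vord (divX hy) (-((S.x 1 * S.x 2)⁻¹ * S.i S.s ^ 2)) = -2 := by
    refine (vord_divX hy (m := -2) (-1) (X 1 * X 2) ![0, 1, 1] ![0, 1, 1] rfl rfl ?_ ?_ ?_).2
    · simp
    · simp
    · simp only [map_mul, map_neg, aeval_X, map_one, Matrix.cons_val]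
      rw [show (-2 : ℤ) = -((2 : ℕ) : ℤ) from rfl, zpow_neg, zpow_natCast]
      field_simp
  have eg : vord (divX hy) S.g = -1 := by
    refine (vord_divX hy (m := -1) (X 1 * (X 0 * (1 + X 1) ^ 2 * (1 + X 2) +
      X 2 ^ 3 * (1 + X 1 + X 2)))
      (X 2 * (1 + X 2) ^ 3) ![0, 1, 1] ![0, 1, 1] rfl rfl ?_ ?_ ?_).2
    · simp
      norm_num
    · simp
    · simp only [map_mul, map_pow, map_add, aeval_X, map_one, Matrix.cons_val]
      rw [zpow_neg_one, inv_inv]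
      have e5 : S.i S.s * (S.i S.s)⁻¹ = 1 := mul_inv_cancel₀ hs
      linear_combination S.g_eq -
        S.x 1 * (1 + S.x 1) ^ 2 * (1 + S.x 2) * e5
  have hE : IsDivisorial (divX hy) := divX_isDivisorial hy
  have et : vord (divX hy) (S.i S.s⁻¹) = 1 := by
    refine (vord_divX hy (m := 1) 1 1 ![0, 1, 1] ![0, 1, 1] rfl rfl ?_ ?_ ?_).2
    · simp
    · simp
    · simp only [map_one, Matrix.cons_val, mul_one, zpow_one]
      rw [map_inv₀]
  have hEP : (divX hy).comap S.i = S.P6 := by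
    apply comap_eq_divX S.i S.hi (wt_coord S.c6 0) hE
    · show 0 < vord (divX hy) (S.i S.s⁻¹)
      rw [et]
      exact one_pos
    · intro a
      show S.i (S.w / S.s⁻¹ ^ (0 : ℤ)) - _ ≠ 0 ∧ vord _ (S.i (S.w / S.s⁻¹ ^ (0 : ℤ)) - _) = 0
      apply residue_nonconst hy ((1 + X 1) * (1 + X 2) * (1 + X 1 + X 2)) (X 1 * X 2)
        ![0, 1, 1] ![0, 1, 3] rfl rfl
      · simp
      · simp
      · simp
        norm_num
      · simp only [map_mul, map_add, aeval_X, map_one, Matrix.cons_val]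
        rw [zpow_zero, div_one, S.w_eq]
  have hP : IsDivisorial S.P6 := wt_isDivisorial S.c6 0
  have ht : HasOrd S.P6 S.s⁻¹ 1 := by
    rw [hasOrd_iff hP]
    exact ⟨inv_ne_zero S.s_ne_zero, vord_wt_u S.c6 0⟩
  have ht0 : S.i S.s⁻¹ ≠ 0 := by
    rw [map_inv₀]
    exact inv_ne_zero hs
  have hmu := S.mu_le_chart hy (prime_X0 2) hc hω hP S.hasFormOrd_P6 hEP ht ht0 h
  change μ ≤ -((-2 : ℤ) : ℝ) - 1 + (1 + ((vord (divX hy) _ : ℤ) : ℝ) -
    ((vord (divX hy) S.g : ℤ) : ℝ) / 5) / ((vord (divX hy) (S.i S.s⁻¹) : ℤ) : ℝ) at hmu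
  rw [ec, eg, et] at hmu
  push_cast at hmu
  linarith

/-- Lower bound at `P₇`, the divisor `s = 0`: by `bound_P7` we have `a(E) / e ≥ 1` for every `E` over
`P₇`. Indeed let `E.comap i = P₇`. Then `w` is a unit of `P₇` (`vord (wt _ 0) v = 0`,
`vord_wt_v`), so `v_E(i w) = 0`; `s` is a non-unit of `P₇`, so `v_E(i s) > 0`; if `HasOrd P₇ t 1`
then `t / s` is a unit of `P₇`, so `e = v_E(i t) = v_E(i s)`. And
`HasLogDisc ω φ 5 E a` says `a = 1 + k - v_E(g) / 5`. So `lct(P₇) ≥ 1` (the greatest lower bound) and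
`μ = - 0 - (1 - lct) ≥ 0`. -/
theorem muP7 {μ : ℝ} (h : IsModuliMult S.i S.ω S.φ 5 S.ω' S.P7 μ) : 0 ≤ μ := by
  obtain ⟨k, c, hk, hlct, rfl⟩ := h
  have hk0 : k = 0 := hk.unique S.hasFormOrd_P7
  subst hk0
  have hP : IsDivisorial S.P7 := wt_isDivisorial S.c7 0
  have hPw : vord S.P7 S.w = 0 := vord_wt_v S.c7 0
  have hPs : vord S.P7 S.s = 1 := vord_wt_u S.c7 0
  have hc : (1 : ℝ) ≤ c := by
    apply hlct.2
    rintro x ⟨E, hE, hEP, t, e, a, ht, he, ha, rfl⟩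
    have hmem : ∀ f : K, S.i f ∈ E ↔ f ∈ S.P7 := by
      intro f
      rw [← hEP]
      rfl
    have hunit : ∀ f : K, f ≠ 0 → vord S.P7 f = 0 → vord E (S.i f) = 0 := by
      intro f hf hf0
      obtain ⟨-, h1, h2⟩ := (isUnitIn_iff hP).2 ⟨hf, hf0⟩
      apply ((isUnitIn_iff hE).1 _).2
      refine ⟨?_, (hmem f).2 h1, ?_⟩
      · rw [Ne, map_eq_zero]
        exact hf
      · rw [← map_inv₀]
        exact (hmem _).2 h2
    have hw0 : vord E (S.i S.w) = 0 := hunit _ S.w_ne_zero hPw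
    have hsi : S.i S.s ≠ 0 := S.bp6_s_ne
    have hs0 : 0 < vord E (S.i S.s) := by
      by_contra hcon
      have h1 : S.i S.s⁻¹ ∈ E := by
        rw [mem_iff hE]
        right
        rw [map_inv₀, vord_inv hE]
        omega
      rw [hmem, mem_iff hP, vord_inv hP, hPs] at h1
      rcases h1 with h1 | h1
      · exact inv_ne_zero S.s_ne_zero h1
      · omega
    obtain ⟨ht0, ht1⟩ := (hasOrd_iff hP).1 ht
    obtain ⟨hit0, hit1⟩ := (hasOrd_iff hE).1 he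
    have h2 : vord E (S.i (t / S.s)) = 0 := by
      apply hunit _ (div_ne_zero ht0 S.s_ne_zero)
      rw [vord_div hP ht0 S.s_ne_zero, ht1, hPs]
      norm_num
    rw [map_div₀, vord_div hE hit0 hsi] at h2
    have h3 : e = vord E (S.i S.s) := by omega
    obtain ⟨k', l, hk', hl, rfl⟩ := ha
    have h4 := S.bound_P7 hE hw0 hs0 hk'
    have h5 : l = -vord E S.g := by
      have h6 := ((hasOrd_iff hE).1 hl).2
      rw [Setup.φ, vord_inv hE] at h6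
      exact h6.symm
    have he0 : (0 : ℝ) < (e : ℝ) := by
      rw [h3]
      exact_mod_cast hs0
    rw [le_div_iff₀ he0, one_mul]
    have h7 : ((e : ℤ) : ℚ) ≤ 1 + (k' : ℚ) + (l : ℚ) / ((5 : ℕ) : ℚ) := by
      rw [h3, h5]
      push_cast
      linarith
    exact_mod_cast h7
  push_cast
  linarith

end Setup

end Pool.Agent.MP_5c6cc8_ag
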