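import Pool.Agent.MP_5c6cc8_ag.Weier

/-! # Row Base2: transport of a setup -/

open MvPolynomial

namespace Pool.Agent.MP_5c6cc8_ag

/-- Transport of a setup: given fields `K', L'` over `ℂ` with `eL : L' → L` bijective, `eK : K' → L` with
image `i(K)` and `i' : K' → L'` with `eL ∘ i' = eK`, all over `ℂ`. -/
theorem Setup.transport {K L K' L' : Type} [Field K] [Algebra ℂ K] [Field L] [Algebra ℂ L]
    [Field K'] [Algebra ℂ K'] [Field L'] [Algebra ℂ L'] (S : Setup K L) (i' : K' →+* L')
    (eK : K' →+* L) (eL : L' →+* L) (hi' : ∀ c, i' (algebraMap ℂ K' c) = algebraMap ℂ L' c)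
    (hK : ∀ c, eK (algebraMap ℂ K' c) = algebraMap ℂ L c)
    (hL : ∀ c, eL (algebraMap ℂ L' c) = algebraMap ℂ L c)
    (hcomp : ∀ u, eL (i' u) = eK u) (hrK : eK.fieldRange = S.i.fieldRange)
    (hrL : Function.Surjective eL) : ∃ S' : Setup K' L', S'.i = i' := by
  have h1 : ∀ k : K, ∃ u : K', eK u = S.i k := by
    intro k
    have : S.i k ∈ eK.fieldRange := by rw [hrK]; exact ⟨k, rfl⟩
    exact this
  choose f hf using h1
  let f' : K →+* K' :=
    { toFun := f
      map_one' := eK.injective (by rw [hf, map_one, map_one])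
      map_zero' := eK.injective (by rw [hf, map_zero, map_zero])
      map_add' := fun a b => eK.injective (by rw [hf, map_add, map_add, hf, hf])
      map_mul' := fun a b => eK.injective (by rw [hf, map_mul, map_mul, hf, hf]) }
  have hf' : ∀ k, eK (f' k) = S.i k := hf
  have hbij : Function.Bijective f' := by
    refine ⟨f'.injective, fun u => ?_⟩
    have : eK u ∈ S.i.fieldRange := by rw [← hrK]; exact ⟨u, rfl⟩
    obtain ⟨k, hk⟩ := this
    exact ⟨k, eK.injective (by rw [hf', hk])⟩
  let F : K ≃+* K' := RingEquiv.ofBijective f' hbij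
  have hF : ∀ k, eK (F k) = S.i k := hf
  let dL : L ≃+* L' := (RingEquiv.ofBijective eL ⟨eL.injective, hrL⟩).symm
  have hd : ∀ l, eL (dL l) = l := fun l =>
    (RingEquiv.ofBijective eL ⟨eL.injective, hrL⟩).apply_symm_apply l
  have hFc : ∀ c, F (algebraMap ℂ K c) = algebraMap ℂ K' c := fun c =>
    eK.injective (by rw [hF, S.hi, hK])
  have hdc : ∀ c, dL (algebraMap ℂ L c) = algebraMap ℂ L' c := fun c =>
    eL.injective (by rw [hd, hL])
  have hcompat : ∀ k, dL (S.i k) = i' (F k) := fun k =>
    eL.injective (by rw [hd, hcomp, hF])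
  refine ⟨{ i := i'
            hi := hi'
            w := F S.w
            s := F S.s
            x := fun j => dL (S.x j)
            cluster := ⟨fun j => ?_, fun j => ?_, fun j => ?_⟩
            hw := ?_
            hK := ?_
            hL := ?_ }, rfl⟩
  · rw [← map_mul, S.cluster.rel j, map_add, map_one]
  · exact (map_ne_zero dL).2 (S.cluster.ne_zero j)
  · rw [← map_one dL, ← map_add]
    exact (map_ne_zero dL).2 (S.cluster.one_add_ne_zero j)
  · rw [← hcompat, S.hw]
    simp only [map_mul]
  · have h := S.hK.map F hFc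
    have e : (fun i => F (![S.w, S.s] i)) = ![F S.w, F S.s] := by
      funext i
      fin_cases i <;> rfl
    rwa [e] at h
  · have h := S.hL.map dL hdc
    have e : (fun i => dL (![S.x 1, S.x 2, S.i S.s] i)) = ![dL (S.x 1), dL (S.x 2), i' (F S.s)] := by
      funext i
      fin_cases i
      · rfl
      · rfl
      · exact hcompat S.s
    rwa [e] at h

end Pool.Agent.MP_5c6cc8_ag
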