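import Pool.Agent.MP_5c6cc8_ag.Weier

/-! # Row Base1: the fields exist -/

open MvPolynomial

namespace Pool.Agent.MP_5c6cc8_ag

theorem base1_mem (n : ℕ) (p : MvPolynomial (Fin n) ℂ) :
    algebraMap (MvPolynomial (Fin n) ℂ) (FractionRing (MvPolynomial (Fin n) ℂ)) p ∈
      IntermediateField.adjoin ℂ (Set.range (fun j : Fin n => algebraMap (MvPolynomial (Fin n) ℂ)
        (FractionRing (MvPolynomial (Fin n) ℂ)) (X j))) := by
  induction p using MvPolynomial.induction_on with
  | C c =>
    have h : algebraMap (MvPolynomial (Fin n) ℂ) (FractionRing (MvPolynomial (Fin n) ℂ)) (C c) =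
        algebraMap ℂ (FractionRing (MvPolynomial (Fin n) ℂ)) c := by
      rw [IsScalarTower.algebraMap_apply ℂ (MvPolynomial (Fin n) ℂ)
        (FractionRing (MvPolynomial (Fin n) ℂ))]
      rfl
    rw [h]
    exact IntermediateField.algebraMap_mem _ c
  | add p q hp hq =>
    rw [map_add]
    exact add_mem hp hq
  | mul_X p j hp =>
    rw [map_mul]
    exact mul_mem hp (IntermediateField.subset_adjoin ℂ _ ⟨j, rfl⟩)

/-- The variables are coordinates of the fraction field of a polynomial ring. -/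
theorem isCoord_fractionRing (n : ℕ) :
    IsCoord (fun j : Fin n => algebraMap (MvPolynomial (Fin n) ℂ)
      (FractionRing (MvPolynomial (Fin n) ℂ)) (X j)) := by
  constructor
  · have h := (MvPolynomial.algebraicIndependent_X (Fin n) ℂ).map'
      (f := IsScalarTower.toAlgHom ℂ (MvPolynomial (Fin n) ℂ) (FractionRing (MvPolynomial (Fin n) ℂ)))
      (IsFractionRing.injective (MvPolynomial (Fin n) ℂ) (FractionRing (MvPolynomial (Fin n) ℂ)))
    exact h
  · rw [eq_top_iff]
    intro f _
    obtain ⟨p, q, hq, rfl⟩ := IsFractionRing.div_surjective (A := MvPolynomial (Fin n) ℂ) f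
    exact div_mem (base1_mem n p) (base1_mem n q)

/-- the wedge used for the independence of `w` and `s` -/
theorem base1_wedge {L : Type} [Field L] [Algebra ℂ L] {a b s w : L} (hz : IsCoord ![a, b, s])
    (h1 : 1 + a ≠ 0) (h2 : b ^ 2 - 1 - a ≠ 0)
    (hw : w * (a * b) = (1 + a) * (1 + b) * (1 + a + b)) : T w s a ≠ 0 := by
  intro h0
  have h3 : T b s a ≠ 0 := by
    rw [T_swap13, T_swap23, neg_neg]
    exact hz.wedge_ne_zero
  have e1 : T (w * (a * b)) s a = (w * a) • T b s a := by
    rw [T_mul1, h0, smul_zero, add_zero, T_mul1, T_self13, smul_zero, add_zero, smul_smul]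
  have e2 : T ((1 + a) * (1 + b) * (1 + a + b)) s a =
      ((1 + a) * (1 + b) + (1 + a + b) * (1 + a)) • T b s a := by
    rw [T_mul1, T_add1, T_add1, T_one1, T_self13, zero_add, zero_add, T_mul1, T_add1, T_one1,
      zero_add, T_add1, T_one1, T_self13, zero_add, smul_zero, add_zero, smul_smul, ← add_smul]
  rw [hw, e2] at e1
  have e3 : ((1 + a) * (1 + b) + (1 + a + b) * (1 + a) - w * a) • T b s a = 0 :=
    (sub_smul _ _ (T b s a)).trans (sub_eq_zero.2 e1)
  rcases smul_eq_zero.1 e3 with e4 | e4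
  · have e5 : (1 + a) * (b ^ 2 - 1 - a) = 0 := by
      linear_combination b * e4 + hw
    rcases mul_eq_zero.1 e5 with h | h
    · exact h1 h
    · exact h2 h
  · exact h3 e4

theorem base1_cluster {L : Type} [Field L] {a b : L} (ha0 : a ≠ 0) (hb0 : b ≠ 0) (ha1 : 1 + a ≠ 0)
    (hb1 : 1 + b ≠ 0) (hab : 1 + a + b ≠ 0) :
    IsCluster ![(1 + a) / b, a, b, (1 + b) / a, (1 + a + b) / (a * b)] := by
  set x : Fin 5 → L := ![(1 + a) / b, a, b, (1 + b) / a, (1 + a + b) / (a * b)] with hx
  have x0 : x 0 = (1 + a) / b := rfl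
  have x1 : x 1 = a := rfl
  have x2 : x 2 = b := rfl
  have x3 : x 3 = (1 + b) / a := rfl
  have x4 : x 4 = (1 + a + b) / (a * b) := rfl
  have hrel : ∀ j, x (j - 1) * x (j + 1) = 1 + x j := by
    intro j
    fin_cases j
    · show x 4 * x 1 = 1 + x 0
      rw [x4, x1, x0]
      field_simp
      ring
    · show x 0 * x 2 = 1 + x 1
      rw [x0, x2, x1]
      field_simp
    · show x 1 * x 3 = 1 + x 2
      rw [x1, x3, x2]
      field_simp
    · show x 2 * x 4 = 1 + x 3
      rw [x2, x4, x3]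
      field_simp
      ring
    · show x 3 * x 0 = 1 + x 4
      rw [x3, x0, x4]
      field_simp
      ring
  have hxne : ∀ j, x j ≠ 0 := by
    intro j
    fin_cases j
    · exact div_ne_zero ha1 hb0
    · exact ha0
    · exact hb0
    · exact div_ne_zero hb1 ha0
    · exact div_ne_zero hab (mul_ne_zero ha0 hb0)
  exact ⟨hrel, hxne, fun j => by
    rw [← hrel j]
    exact mul_ne_zero (hxne _) (hxne _)⟩

theorem base1_w {L : Type} [Field L] {a b : L} (ha0 : a ≠ 0) (hb0 : b ≠ 0) :
    ((1 + a) / b * a * b * ((1 + b) / a) * ((1 + a + b) / (a * b))) * (a * b) =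
      (1 + a) * (1 + b) * (1 + a + b) := by
  field_simp

/-- Proof. `L = Frac ℂ[X₀, X₁, X₂]`, `a = X₀`, `b = X₁`, `s = X₂`,
`x = ![(1 + a)/b, a, b, (1 + b)/a, (1 + a + b)/(a b)]` and `w = ∏ x_k = (1+a)(1+b)(1+a+b)/(a b)`. The
cluster relations and the nonvanishing of `x_k`, `1 + x_k` are easy (`x` consists of quotients of nonzero
polynomials, and so does `1 + x`, being a product of two `x_k`). `w, s` are algebraically independent,
e.g. by `algebraicIndependent_of_wedge_ne_zero` for `![w, s, a]`: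
`dw ∧ ds ∧ da = (∂w/∂b) db ∧ ds ∧ da`, and `∂w/∂b = (1 + a)(b² - 1 - a) / (a b²) ≠ 0`.
`K = Frac ℂ[X₀, X₁]` and `i` is the unique extension of `X₀ ↦ w, X₁ ↦ s`. -/
theorem exists_base : ∃ (K L : Type) (_ : Field K) (_ : Algebra ℂ K) (_ : Field L)
    (_ : Algebra ℂ L), Nonempty (Setup K L) := by
  have hz0 := isCoord_fractionRing 3
  set L := FractionRing (MvPolynomial (Fin 3) ℂ) with hLdef
  set z : Fin 3 → L := fun j : Fin 3 => algebraMap (MvPolynomial (Fin 3) ℂ) L (X j) with hzdef
  set a : L := z 0 with ha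
  set b : L := z 1 with hb
  set s : L := z 2 with hs
  have hne : ∀ p : MvPolynomial (Fin 3) ℂ, eval 0 p ≠ 0 → aeval z p ≠ 0 := by
    intro p hp
    refine hz0.aeval_ne_zero ?_
    rintro rfl
    exact hp (map_zero _)
  have ha0 : a ≠ 0 := by
    have := hz0.aeval_ne_zero (MvPolynomial.X_ne_zero (R := ℂ) (0 : Fin 3))
    rwa [aeval_X] at this
  have hb0 : b ≠ 0 := by
    have := hz0.aeval_ne_zero (MvPolynomial.X_ne_zero (R := ℂ) (1 : Fin 3))
    rwa [aeval_X] at this
  have ha1 : 1 + a ≠ 0 := by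
    have := hne (1 + X 0) (by simp)
    rwa [map_add, map_one, aeval_X] at this
  have hb1 : 1 + b ≠ 0 := by
    have := hne (1 + X 1) (by simp)
    rwa [map_add, map_one, aeval_X] at this
  have hab : 1 + a + b ≠ 0 := by
    have := hne (1 + X 0 + X 1) (by simp)
    rwa [map_add, map_add, map_one, aeval_X, aeval_X] at this
  have hq : b ^ 2 - 1 - a ≠ 0 := by
    have := hne (X 1 ^ 2 - 1 - X 0) (by simp)
    rwa [map_sub, map_sub, map_one, map_pow, aeval_X, aeval_X] at this
  have hz : IsCoord ![a, b, s] := by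
    have : z = ![a, b, s] := by
      funext j
      fin_cases j <;> rfl
    rw [← this]
    exact hz0
  set x : Fin 5 → L := ![(1 + a) / b, a, b, (1 + b) / a, (1 + a + b) / (a * b)] with hx
  have hcl : IsCluster x := base1_cluster ha0 hb0 ha1 hb1 hab
  set w : L := x 0 * x 1 * x 2 * x 3 * x 4 with hwdef
  have hw : w * (a * b) = (1 + a) * (1 + b) * (1 + a + b) := base1_w ha0 hb0
  have hwedge : wedge ![w, s, a] ≠ 0 := base1_wedge hz ha1 hq hw
  have hind3 := algebraicIndependent_of_wedge_ne_zero hwedge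
  have hind : AlgebraicIndependent ℂ ![w, s] := by
    have h := hind3.comp (Fin.castLE (by norm_num : 2 ≤ 3)) (Fin.castLE_injective _)
    have h2 : (![w, s, a] ∘ Fin.castLE (by norm_num : 2 ≤ 3) : Fin 2 → L) = ![w, s] := by
      funext j
      fin_cases j <;> rfl
    rwa [h2] at h
  set K := FractionRing (MvPolynomial (Fin 2) ℂ) with hKdef
  have hinj : Function.Injective ((aeval ![w, s] : MvPolynomial (Fin 2) ℂ →ₐ[ℂ] L) :
      MvPolynomial (Fin 2) ℂ →+* L) := hind
  set i : K →+* L := IsFractionRing.lift hinj with hi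
  have hialg : ∀ p : MvPolynomial (Fin 2) ℂ, i (algebraMap (MvPolynomial (Fin 2) ℂ) K p) =
      aeval ![w, s] p := fun p => IsFractionRing.lift_algebraMap hinj p
  refine ⟨K, L, inferInstance, inferInstance, inferInstance, inferInstance, ⟨?_⟩⟩
  refine
    { i := i
      hi := ?_
      w := algebraMap (MvPolynomial (Fin 2) ℂ) K (X 0)
      s := algebraMap (MvPolynomial (Fin 2) ℂ) K (X 1)
      x := x
      cluster := hcl
      hw := ?_
      hK := ?_
      hL := ?_ }
  · intro c
    have h1 : algebraMap ℂ K c = algebraMap (MvPolynomial (Fin 2) ℂ) K (C c) := by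
      rw [IsScalarTower.algebraMap_apply ℂ (MvPolynomial (Fin 2) ℂ) K]
      rfl
    rw [h1, hialg, aeval_C]
  · rw [hialg, aeval_X]
    rfl
  · have h1 := isCoord_fractionRing 2
    have h2 : (fun j : Fin 2 => algebraMap (MvPolynomial (Fin 2) ℂ)
        (FractionRing (MvPolynomial (Fin 2) ℂ)) (X j)) =
        ![algebraMap (MvPolynomial (Fin 2) ℂ) K (X 0), algebraMap (MvPolynomial (Fin 2) ℂ) K (X 1)] := by
      funext j
      fin_cases j <;> rfl
    rw [h2] at h1
    exact h1
  · have h1 : i (algebraMap (MvPolynomial (Fin 2) ℂ) K (X 1)) = s := by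
      rw [hialg, aeval_X]
      rfl
    rw [h1]
    exact hz

end Pool.Agent.MP_5c6cc8_ag
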