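import Pool.Agent.MP_5c6cc8_ag.Forms

/-! # Row Bnd1: coordinates of `K`, orders of `ω'` -/

open MvPolynomial

namespace Pool.Agent.MP_5c6cc8_ag

theorem bnd1_mem0 {K : Type} [Field K] [Algebra ℂ K] (u v : K) :
    u ∈ IntermediateField.adjoin ℂ (Set.range ![u, v]) :=
  IntermediateField.subset_adjoin _ _ ⟨0, rfl⟩

theorem bnd1_mem1 {K : Type} [Field K] [Algebra ℂ K] (u v : K) :
    v ∈ IntermediateField.adjoin ℂ (Set.range ![u, v]) :=
  IntermediateField.subset_adjoin _ _ ⟨1, rfl⟩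

theorem bnd1_change {K : Type} [Field K] [Algebra ℂ K] {w s u v : K} (h : IsCoord ![w, s])
    (hw : w ∈ IntermediateField.adjoin ℂ (Set.range ![u, v]))
    (hs : s ∈ IntermediateField.adjoin ℂ (Set.range ![u, v])) : IsCoord ![u, v] :=
  h.change fun i => by
    fin_cases i
    · exact hw
    · exact hs

namespace Setup

variable {K L : Type} [Field K] [Algebra ℂ K] [Field L] [Algebra ℂ L] (S : Setup K L)

/-- The two critical values `w_± = x^5`, `x^2 = x + 1`, of `w`. -/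
noncomputable def node (sgn : Bool) : ℂ :=
  if sgn then ((Real.goldenRatio : ℝ) : ℂ) ^ 5 else ((Real.goldenConj : ℝ) : ℂ) ^ 5

theorem c1 : IsCoord ![S.w, S.s] := S.hK

theorem c2 : IsCoord ![S.w⁻¹, S.s] := by
  refine bnd1_change S.hK ?_ (bnd1_mem1 _ _)
  have := inv_mem (bnd1_mem0 S.w⁻¹ S.s)
  rwa [inv_inv] at this

theorem c3 : IsCoord ![S.w, S.s⁻¹] := by
  refine bnd1_change S.hK (bnd1_mem0 _ _) ?_
  have := inv_mem (bnd1_mem1 S.w S.s⁻¹)
  rwa [inv_inv] at this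

theorem c4 : IsCoord ![S.w⁻¹, S.s⁻¹] := by
  refine bnd1_change S.hK ?_ ?_
  · have := inv_mem (bnd1_mem0 S.w⁻¹ S.s⁻¹)
    rwa [inv_inv] at this
  · have := inv_mem (bnd1_mem1 S.w⁻¹ S.s⁻¹)
    rwa [inv_inv] at this

theorem c5 (sgn : Bool) : IsCoord ![S.s + 1, S.w - algebraMap ℂ K (node sgn)] := by
  refine bnd1_change S.hK ?_ ?_
  · have := add_mem (bnd1_mem1 (S.s + 1) (S.w - algebraMap ℂ K (node sgn)))
      (IntermediateField.algebraMap_mem _ (node sgn))
    rwa [sub_add_cancel] at this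
  · have := sub_mem (bnd1_mem0 (S.s + 1) (S.w - algebraMap ℂ K (node sgn))) (one_mem _)
    rwa [add_sub_cancel_right] at this

theorem c6 : IsCoord ![S.s⁻¹, S.w] := by
  refine bnd1_change S.hK (bnd1_mem1 _ _) ?_
  have := inv_mem (bnd1_mem0 S.s⁻¹ S.w)
  rwa [inv_inv] at this

theorem c7 : IsCoord ![S.s, S.w] :=
  bnd1_change S.hK (bnd1_mem1 _ _) (bnd1_mem0 _ _)

/-- The divisorial valuations `P₁, …, P₇` of `K = ℂ(w, s)`: `P₁`: `v(w) = 1, v(s) = 2`. -/
noncomputable def P1 : Subring K := wt S.c1 2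
/-- `P₂`: `v(1/w) = 1, v(s) = 3`. -/
noncomputable def P2 : Subring K := wt S.c2 3
/-- `P₃`: `v(w) = 1, v(1/s) = 2`. -/
noncomputable def P3 : Subring K := wt S.c3 2
/-- `P₄`: `v(1/w) = 1, v(1/s) = 3`. -/
noncomputable def P4 : Subring K := wt S.c4 3
/-- `P₅`: `v(s + 1) = 1, v(w - w_±) = 2`. -/
noncomputable def P5 (sgn : Bool) : Subring K := wt (S.c5 sgn) 2
/-- `P₆`: the divisor `s = ∞`. -/
noncomputable def P6 : Subring K := wt S.c6 0
/-- `P₇`: the divisor `s = 0`. -/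
noncomputable def P7 : Subring K := wt S.c7 0

/-- Change of the form by a function. -/
theorem bnd1_smul {P : Subring K} (hP : IsDivisorial P) {η : Form K 2} {m : ℤ}
    (h : HasFormOrd P η m) {c : K} (hc : c ≠ 0) {k : ℤ} (hk : vord P c = k) {l : ℤ}
    (hl : l = m + k) {η' : Form K 2} (hη : η' = c • η) : HasFormOrd P η' l := by
  subst hη hk hl
  exact (hasFormOrd_smul_iff hP hc m).2 h

theorem hasFormOrd_P1 : HasFormOrd S.P1 S.ω' 2 := hasFormOrd_wt S.c1 2

theorem hasFormOrd_P2 : HasFormOrd S.P2 S.ω' 1 := by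
  have hP : IsDivisorial S.P2 := wt_isDivisorial _ _
  have h1 : vord S.P2 S.w = -1 := by
    have := vord_wt_u S.c2 3
    change vord S.P2 _ = 1 at this
    rw [vord_inv hP] at this
    omega
  have hw := S.w_ne_zero
  refine bnd1_smul hP (hasFormOrd_wt S.c2 3) (c := -(S.w ^ 2)) (neg_ne_zero.2 (pow_ne_zero 2 hw))
    (k := -2) ?_ (by norm_num) ?_
  · rw [vord_neg hP, vord_pow hP, h1]; norm_num
  · rw [T2_inv1, smul_smul]
    have : -(S.w ^ 2) * -(S.w⁻¹ ^ 2) = 1 := by field_simp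
    rw [this, one_smul]
    rfl

theorem hasFormOrd_P3 : HasFormOrd S.P3 S.ω' (-2) := by
  have hP : IsDivisorial S.P3 := wt_isDivisorial _ _
  have h1 : vord S.P3 S.s = -2 := by
    have := vord_wt_v S.c3 2
    change vord S.P3 _ = 2 at this
    rw [vord_inv hP] at this
    omega
  have hs := S.s_ne_zero
  refine bnd1_smul hP (hasFormOrd_wt S.c3 2) (c := -(S.s ^ 2)) (neg_ne_zero.2 (pow_ne_zero 2 hs))
    (k := -4) ?_ (by norm_num) ?_
  · rw [vord_neg hP, vord_pow hP, h1]; norm_num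
  · rw [T2_inv2, smul_smul]
    have : -(S.s ^ 2) * -(S.s⁻¹ ^ 2) = 1 := by field_simp
    rw [this, one_smul]
    rfl

theorem hasFormOrd_P4 : HasFormOrd S.P4 S.ω' (-5) := by
  have hP : IsDivisorial S.P4 := wt_isDivisorial _ _
  have h1 : vord S.P4 S.w = -1 := by
    have := vord_wt_u S.c4 3
    change vord S.P4 _ = 1 at this
    rw [vord_inv hP] at this
    omega
  have h2 : vord S.P4 S.s = -3 := by
    have := vord_wt_v S.c4 3
    change vord S.P4 _ = 3 at this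
    rw [vord_inv hP] at this
    omega
  have hw := S.w_ne_zero
  have hs := S.s_ne_zero
  refine bnd1_smul hP (hasFormOrd_wt S.c4 3) (c := S.w ^ 2 * S.s ^ 2)
    (mul_ne_zero (pow_ne_zero 2 hw) (pow_ne_zero 2 hs))
    (k := -8) ?_ (by norm_num) ?_
  · rw [vord_mul hP (pow_ne_zero 2 hw) (pow_ne_zero 2 hs), vord_pow hP, vord_pow hP, h1, h2]
    norm_num
  · rw [T2_inv1, T2_inv2, smul_smul, smul_smul]
    have : S.w ^ 2 * S.s ^ 2 * -(S.w⁻¹ ^ 2) * -(S.s⁻¹ ^ 2) = 1 := by field_simp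
    rw [this, one_smul]
    rfl

theorem hasFormOrd_P5 (sgn : Bool) : HasFormOrd (S.P5 sgn) S.ω' 2 := by
  have hP : IsDivisorial (S.P5 sgn) := wt_isDivisorial _ _
  refine bnd1_smul hP (hasFormOrd_wt (S.c5 sgn) 2) (c := -1) (neg_ne_zero.2 one_ne_zero)
    (k := 0) ?_ (by norm_num) ?_
  · rw [vord_neg hP, vord_one hP]
  · have h1 : (1 : K) = algebraMap ℂ K 1 := (map_one _).symm
    rw [T2_sub2, T2_const2, sub_zero, T2_add1, h1, T2_const1, add_zero, T2_swap, ← h1,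
      smul_neg, neg_smul, one_smul, neg_neg]
    rfl

theorem hasFormOrd_P6 : HasFormOrd S.P6 S.ω' (-2) := by
  have hP : IsDivisorial S.P6 := wt_isDivisorial _ _
  have h1 : vord S.P6 S.s = -1 := by
    have := vord_wt_u S.c6 0
    change vord S.P6 _ = 1 at this
    rw [vord_inv hP] at this
    omega
  have hs := S.s_ne_zero
  refine bnd1_smul hP (hasFormOrd_wt S.c6 0) (c := S.s ^ 2) (pow_ne_zero 2 hs)
    (k := -2) ?_ (by norm_num) ?_
  · rw [vord_pow hP, h1]; norm_num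
  · rw [T2_inv1, smul_smul, T2_swap]
    have : S.s ^ 2 * -(S.s⁻¹ ^ 2) = -1 := by field_simp
    rw [this, neg_smul, one_smul, neg_neg]
    rfl

theorem hasFormOrd_P7 : HasFormOrd S.P7 S.ω' 0 := by
  have hP : IsDivisorial S.P7 := wt_isDivisorial _ _
  refine bnd1_smul hP (hasFormOrd_wt S.c7 0) (c := -1) (neg_ne_zero.2 one_ne_zero)
    (k := 0) ?_ (by norm_num) ?_
  · rw [vord_neg hP, vord_one hP]
  · rw [T2_swap, smul_neg, neg_smul, one_smul, neg_neg]
    rfl

/-- `ω' = dw ∧ ds` is `wedge ![w, s]`. -/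
theorem hasFormOrd_prime {π : MvPolynomial (Fin 2) ℂ} (hπ : Prime π) :
    HasFormOrd (chartRing S.hK hπ) S.ω' 0 := by
  have hP := chartRing_isDivisorial S.hK hπ
  have h := hasFormOrd_chart S.hK hπ (c := 1) one_ne_zero
  rw [vord_one hP, one_smul] at h
  exact h

end Setup

end Pool.Agent.MP_5c6cc8_ag
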