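import Pool.Agent.MP_5c6cc8_ag.Bnd1

/-! # Row Bnd2: the general upper bound for the moduli multiplicity -/

open MvPolynomial

namespace Pool.Agent.MP_5c6cc8_ag

/-- The upper bound for `μ = mult_P M = - ord_P ω' - 1 + lct(P)` given by one divisor `E` over `P`:
`lct(P) ≤ a(E) / e`. -/
theorem mu_le {K L : Type} [Field K] [Algebra ℂ K] [Field L] [Algebra ℂ L] {n n' : ℕ}
    {i : K →+* L} {ω : Form L n} {φ : L} {r : ℕ} {ω' : Form K n'} {P : Subring K} {μ : ℝ}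
    (h : IsModuliMult i ω φ r ω' P μ) (hP : IsDivisorial P) {k' : ℤ} (hk' : HasFormOrd P ω' k')
    {E : Subring L} (hE : IsDivisorial E) (hEP : E.comap i = P) {t : K} {e : ℤ}
    (ht : HasOrd P t 1) (hte : HasOrd E (i t) e) {a : ℚ} (ha : HasLogDisc ω φ r E a) :
    μ ≤ -k' - 1 + a / e := by
  obtain ⟨k, c, hk, hc, hμ⟩ := h
  obtain rfl := hk.unique hk'
  have h1 : c ≤ (a : ℝ) / e := hc.1 ⟨E, hE, hEP, t, e, a, ht, hte, ha, rfl⟩
  rw [hμ]
  linarith

namespace Setup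

variable {K L : Type} [Field K] [Algebra ℂ K] [Field L] [Algebra ℂ L] (S : Setup K L)

/-- The common part of the upper bounds: if the form `ω` is `c • wedge y` in the coordinates `y` of
`L`, `E` is a chart divisor, `E.comap i = P` and the orders of `c` and `g` at `E` are `k` and `l`,
then `mult_P M ≤ - k' - 1 + (1 + k - l / 5) / e`. (Use `mu_le`, `hasFormOrd_chart` and
`HasLogDisc` for `φ = g⁻¹`.) -/
theorem mu_le_chart {y : Fin 3 → L} (hy : IsCoord y) {π : MvPolynomial (Fin 3) ℂ} (hπ : Prime π)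
    {c : L} (hc : c ≠ 0) (hω : S.ω = c • wedge y) {P : Subring K} (hP : IsDivisorial P) {k' : ℤ}
    (hk' : HasFormOrd P S.ω' k') (hEP : (chartRing hy hπ).comap S.i = P) {t : K}
    (ht : HasOrd P t 1) (ht0 : S.i t ≠ 0) {μ : ℝ}
    (h : IsModuliMult S.i S.ω S.φ 5 S.ω' P μ) :
    μ ≤ -k' - 1 + (1 + vord (chartRing hy hπ) c - vord (chartRing hy hπ) S.g / 5) /
      vord (chartRing hy hπ) (S.i t) := by
  have hE : IsDivisorial (chartRing hy hπ) := chartRing_isDivisorial hy hπ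
  have hφ : S.φ ≠ 0 := inv_ne_zero S.g_ne_zero
  have ha : HasLogDisc S.ω S.φ 5 (chartRing hy hπ)
      (1 + (vord (chartRing hy hπ) c : ℚ) + ((vord (chartRing hy hπ) S.φ : ℤ) : ℚ) / (5 : ℕ)) :=
    ⟨_, _, hω ▸ hasFormOrd_chart hy hπ hc, (hasOrd_iff hE).2 ⟨hφ, rfl⟩, rfl⟩
  have h1 := mu_le h hP hk' hE hEP ht ((hasOrd_iff hE).2 ⟨ht0, rfl⟩) ha
  have h2 : vord (chartRing hy hπ) S.φ = - vord (chartRing hy hπ) S.g := vord_inv hE S.g
  rw [h2] at h1
  refine h1.trans (le_of_eq ?_)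
  push_cast
  ring

end Setup

end Pool.Agent.MP_5c6cc8_ag
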