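import Pool.Agent.MP_5c6cc8_ag.Weier

/-! # Row Brack: the Poisson bracket -/

open Polynomial

namespace Pool.Agent.MP_5c6cc8_ag

/-- a form is determined by its coefficient -/
theorem brack_wedge {F : Type} [Field F] [Algebra ℂ F] {n : ℕ} {z : Fin n → F} (hz : IsCoord z)
    (f : Fin n → F) : wedge f = Matrix.det (Matrix.of fun i j => hz.pd j (f i)) • wedge z := by
  obtain ⟨c, hc⟩ := hz.exists_smul_wedge (wedge f)
  have h1 := congrArg (formCoef hz.pd) hc
  rw [map_smul, formCoef_wedge, formCoef_wedge] at h1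
  have h2 : Matrix.of (fun i j => hz.pd j (z i)) = (1 : Matrix (Fin n) (Fin n) F) := by
    ext i j
    rw [Matrix.of_apply, hz.pd_apply, Matrix.one_apply]
    by_cases h : j = i
    · rw [if_pos h, if_pos h.symm]
    · rw [if_neg h, if_neg (Ne.symm h)]
  rw [h2, Matrix.det_one, smul_eq_mul, mul_one] at h1
  rw [h1]
  exact hc

namespace Setup

variable {K L : Type} [Field K] [Algebra ℂ K] [Field L] [Algebra ℂ L] (S : Setup K L)

/-- For `f, g ∈ L` let `{f, g} = x₁ x₂ (∂₁f ∂₂g - ∂₂f ∂₁g)`, with the partial derivatives `∂₁, ∂₂, ∂₃`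
of `L = ℂ(x₁, x₂, s)` (`S.hL.pd 0`, `S.hL.pd 1`, `S.hL.pd 2`). For every `f` the map
`g ↦ {f, g}` is a derivation `H_f` of `L` over `ℂ`, `H_f = x₁ x₂ ((∂₁ f) • ∂₂ - (∂₂ f) • ∂₁)`, and
`ds ∧ df ∧ dg = {f, g} ω` (expand `df = ∑ ∂_k f dz_k`; or compare with the functional
`formCoef` of `∂₁, ∂₂, ∂₃`, as `⋀³ Ω` is one-dimensional, `IsCoord.exists_smul_wedge`). -/
theorem exists_bracket : ∃ H : L → Derivation ℂ L L,
    (∀ f g, T (S.i S.s) f g = H f g • S.ω) ∧
    (∀ f, H f (S.i S.s) = 0) ∧ (∀ f, H f f = 0) ∧ (∀ f g, H f g = - H g f) ∧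
    (∀ f g, formCoef ![S.hL.pd 2, H f, H g] S.ω = H f g) := by
  set z : Fin 3 → L := ![S.x 1, S.x 2, S.i S.s] with hz
  have h00 : S.hL.pd 0 (S.x 1) = 1 := S.hL.pd_apply 0 0
  have h01 : S.hL.pd 0 (S.x 2) = 0 := S.hL.pd_apply 0 1
  have h02 : S.hL.pd 0 (S.i S.s) = 0 := S.hL.pd_apply 0 2
  have h10 : S.hL.pd 1 (S.x 1) = 0 := S.hL.pd_apply 1 0
  have h11 : S.hL.pd 1 (S.x 2) = 1 := S.hL.pd_apply 1 1
  have h12 : S.hL.pd 1 (S.i S.s) = 0 := S.hL.pd_apply 1 2
  have h20 : S.hL.pd 2 (S.x 1) = 0 := S.hL.pd_apply 2 0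
  have h21 : S.hL.pd 2 (S.x 2) = 0 := S.hL.pd_apply 2 1
  have h22 : S.hL.pd 2 (S.i S.s) = 1 := S.hL.pd_apply 2 2
  have hx1 := S.cluster.ne_zero 1
  have hx2 := S.cluster.ne_zero 2
  have hT : ∀ f g : L, T (S.i S.s) f g =
      (S.hL.pd 0 f * S.hL.pd 1 g - S.hL.pd 1 f * S.hL.pd 0 g) • wedge z := by
    intro f g
    unfold T
    rw [brack_wedge S.hL, Matrix.det_fin_three]
    simp only [Matrix.of_apply, Matrix.cons_val_zero, Matrix.cons_val_one, Matrix.cons_val, h02,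
      h12, h22]
    congr 1
    ring
  have hω : S.ω = (S.x 1 * S.x 2)⁻¹ • wedge z := by
    unfold Setup.ω
    rw [hT, h00, h11, h10, h01]
    congr 1
    rw [mul_one, mul_zero, sub_zero, one_smul]
  refine ⟨fun f => (S.x 1 * S.x 2 * S.hL.pd 0 f) • S.hL.pd 1 -
    (S.x 1 * S.x 2 * S.hL.pd 1 f) • S.hL.pd 0, ?_, ?_, ?_, ?_, ?_⟩
  · intro f g
    rw [hT, hω, smul_smul]
    congr 1
    simp only [Derivation.sub_apply, Derivation.smul_apply, smul_eq_mul]
    field_simp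
  · intro f
    simp only [Derivation.sub_apply, Derivation.smul_apply, smul_eq_mul, h12, h02, mul_zero,
      sub_zero]
  · intro f
    simp only [Derivation.sub_apply, Derivation.smul_apply, smul_eq_mul]
    ring
  · intro f g
    simp only [Derivation.sub_apply, Derivation.smul_apply, smul_eq_mul]
    ring
  · intro f g
    have h3 : S.ω = (S.x 1 * S.x 2)⁻¹ • wedge ![S.i S.s, S.x 1, S.x 2] := rfl
    rw [h3, map_smul, formCoef_wedge, Matrix.det_fin_three]
    simp only [Matrix.of_apply, Matrix.cons_val_zero, Matrix.cons_val_one, Matrix.cons_val,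
      Derivation.sub_apply, Derivation.smul_apply, smul_eq_mul, h00, h01, h02, h10, h11, h12, h20,
      h21, h22]
    field_simp
    ring

end Setup

end Pool.Agent.MP_5c6cc8_ag
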