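import Pool.Agent.MP_5c6cc8_ag.Model1

/-! # Row Model2: covering and normality of `PX V` -/

open AlgebraicGeometry CategoryTheory CategoryTheory.Limits
open Pool.Agent.MP_4d8271_ag (PX toK chartA Dc secGr secAlg el isIntegral_PX ne_bot_of_one_mem)

namespace Pool.Agent.MP_5c6cc8_ag

variable {F : Type} [Field F] [Algebra ℂ F]

section

variable (V : Submodule ℂ F) [h1 : Fact ((1 : F) ∈ V)] [Module.Finite ℂ V]
  (hn : ∀ x : PX V, IsIntegrallyClosed ((PX V).presheaf.stalk x))

/-- The covering criterion for a spanning set; compare `iSup_Dc_eq_top` in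
`MP_4d8271_ag/Global.lean`, whose proof applies with a small change (the set of the `v ∈ V` with
`el v _ ∈ P` is a subspace). -/
theorem iSup_Dc_eq_top' {V : Submodule ℂ F} {ι : Type} [Fintype ι] (c : ι → F)
    (hcV : ∀ i, c i ∈ V) (G : Set F) (hG : Submodule.span ℂ G = V)
    (h : ∀ v ∈ G, ∃ w : ι → F, (∀ i, w i ∈ V) ∧ v ^ 2 = ∑ i, c i * w i) :
    ⨆ i, Dc (c i) (hcV i) = ⊤ := by
  rw [eq_top_iff]
  intro x _
  rw [TopologicalSpace.Opens.mem_iSup]
  by_contra! hcon
  simp only [Proj.mem_basicOpen, not_not] at hcon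
  have hp : x.asHomogeneousIdeal.toIdeal.IsPrime := x.isPrime
  have hGV : G ⊆ V := hG ▸ Submodule.subset_span
  have h0 : ∀ v (hv : v ∈ G), el v (hGV hv) ∈ x.asHomogeneousIdeal.toIdeal := by
    intro v hv
    obtain ⟨w, hw, hvw⟩ := h v hv
    refine hp.mem_of_pow_mem 2 ?_
    have : el v (hGV hv) ^ 2 = ∑ i, el (c i) (hcV i) * el (w i) (hw i) := by
      apply Subtype.ext
      rw [SubmonoidClass.coe_pow, AddSubmonoidClass.coe_finsetSum]
      simp only [el, Pool.Agent.MP_4d8271_ag.coe_mono, MulMemClass.coe_mul,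
        Polynomial.monomial_pow, Polynomial.monomial_mul_monomial]
      rw [hvw, map_sum]
    rw [this]
    exact Ideal.sum_mem _ fun i _ => Ideal.mul_mem_right _ _ (hcon i)
  have h1 : ∀ (v : F) (hv : v ∈ V), el v hv ∈ x.asHomogeneousIdeal.toIdeal := by
    intro v hv
    have hv' : v ∈ Submodule.span ℂ G := hG ▸ hv
    refine Submodule.span_induction
      (p := fun v _ => ∀ hv : v ∈ V, el v hv ∈ x.asHomogeneousIdeal.toIdeal)
      (fun v hv _ => h0 v hv) ?_ ?_ ?_ hv' hv
    · intro h
      have : el (0 : F) h = 0 := by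
        apply Subtype.ext
        rw [el, Pool.Agent.MP_4d8271_ag.coe_mono, map_zero, ZeroMemClass.coe_zero]
      rw [this]
      exact zero_mem _
    · intro a b ha hb iha ihb hab
      have ha' : a ∈ V := hG ▸ ha
      have hb' : b ∈ V := hG ▸ hb
      have : el (a + b) hab = el a ha' + el b hb' := by
        apply Subtype.ext
        rw [AddMemClass.coe_add, el, el, el, Pool.Agent.MP_4d8271_ag.coe_mono,
          Pool.Agent.MP_4d8271_ag.coe_mono, Pool.Agent.MP_4d8271_ag.coe_mono, map_add]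
      rw [this]
      exact add_mem (iha ha') (ihb hb')
    · intro t a ha iha hta
      have ha' : a ∈ V := hG ▸ ha
      have : el (t • a) hta = algebraMap ℂ (secAlg V) t * el a ha' := by
        apply Subtype.ext
        rw [MulMemClass.coe_mul, el, el, Pool.Agent.MP_4d8271_ag.coe_mono,
          Pool.Agent.MP_4d8271_ag.coe_mono]
        change _ = algebraMap ℂ (Polynomial F) t * _
        rw [← Algebra.smul_def, Polynomial.smul_monomial]
      rw [this]
      exact Ideal.mul_mem_left _ _ (iha ha')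
  refine x.not_irrelevant_le ?_
  intro f hf
  rw [HomogeneousIdeal.mem_irrelevant_iff] at hf
  change f ∈ x.asHomogeneousIdeal.toIdeal
  classical
  rw [← DirectSum.sum_support_decompose (secGr V) f]
  refine Ideal.sum_mem _ fun n hn => ?_
  rcases Nat.eq_zero_or_pos n with rfl | hn0
  · have : (DirectSum.decompose (secGr V) f 0 : secAlg V) = 0 := hf
    rw [this]
    exact zero_mem _
  · rw [Pool.Agent.MP_4d8271_ag.eq_mono_of_mem V (DirectSum.decompose (secGr V) f n).2]
    exact Pool.Agent.MP_4d8271_ag.mono_mem_of_forall _ h1 hn0 _ _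

/-- Normality from normal charts (`isIntegrallyClosed_stalk` in `MP_4d8271_ag/Global.lean`). -/
theorem normal_of_charts {V : Submodule ℂ F} [h1 : Fact ((1 : F) ∈ V)] {ι : Type} (c : ι → F)
    (hcV : ∀ i, c i ∈ V) (hc : ∀ i, c i ≠ 0) (hcov : ⨆ i, Dc (c i) (hcV i) = ⊤)
    (hn : ∀ i, IsIntegrallyClosed (chartA V (c i))) (x : PX V) :
    IsIntegrallyClosed ((PX V).presheaf.stalk x) := by
  have hx : x ∈ ⨆ i, Dc (c i) (hcV i) := by rw [hcov]; trivial
  rw [TopologicalSpace.Opens.mem_iSup] at hx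
  obtain ⟨i, hi⟩ := hx
  exact Pool.Agent.MP_4d8271_ag.isIntegrallyClosed_stalk h1.out (hcV i) (hc i) (hn i) hi

end

end Pool.Agent.MP_5c6cc8_ag
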