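import Pool.Agent.MP_5c6cc8_ag.Corner2
import Pool.Agent.MP_5c6cc8_ag.Model

/-! # Row ChX1: the functions defining `X` -/

open AlgebraicGeometry CategoryTheory CategoryTheory.Limits
open Pool.Agent.MP_4d8271_ag (PX toK chartA Dc)

namespace Pool.Agent.MP_5c6cc8_ag

namespace Setup

variable {K L : Type} [Field K] [Algebra ℂ K] [Field L] [Algebra ℂ L] (S : Setup K L)

/-- The functions `w^i X^j s^k` with `i ≤ 1`, `j ≤ 2`, `k ≤ 1`, and `η`, `η s`. -/
def genX : Set L :=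
  {f | ∃ i j k : ℕ, i ≤ 1 ∧ j ≤ 2 ∧ k ≤ 1 ∧ f = S.i S.w ^ i * S.wX ^ j * S.i S.s ^ k} ∪
    {f | ∃ k : ℕ, k ≤ 1 ∧ f = S.wη * S.i S.s ^ k}

/-- Their span. -/
def VX : Submodule ℂ L := Submodule.span ℂ S.genX

theorem chx1_mono {i j k : ℕ} (hi : i ≤ 1) (hj : j ≤ 2) (hk : k ≤ 1) :
    S.i S.w ^ i * S.wX ^ j * S.i S.s ^ k ∈ S.VX :=
  Submodule.subset_span (Or.inl ⟨i, j, k, hi, hj, hk, rfl⟩)

theorem chx1_eta : S.wη ∈ S.VX :=
  Submodule.subset_span (Or.inr ⟨0, Nat.zero_le _, by simp⟩)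

instance one_mem_VX : Fact ((1 : L) ∈ S.VX) := by
  constructor
  have h := S.chx1_mono (i := 0) (j := 0) (k := 0) (by norm_num) (by norm_num) (by norm_num)
  simpa using h

theorem chx1_finite : S.genX.Finite := by
  refine Set.Finite.union ?_ ?_
  · refine ((Set.finite_Iic ((1, 2, 1) : ℕ × ℕ × ℕ)).image
      (fun t => S.i S.w ^ t.1 * S.wX ^ t.2.1 * S.i S.s ^ t.2.2)).subset ?_
    rintro f ⟨i, j, k, hi, hj, hk, rfl⟩
    exact ⟨(i, j, k), ⟨hi, hj, hk⟩, rfl⟩
  · refine ((Set.finite_Iic (1 : ℕ)).image (fun k => S.wη * S.i S.s ^ k)).subset ?_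
    rintro f ⟨k, hk, rfl⟩
    exact ⟨k, hk, rfl⟩

instance finite_VX : Module.Finite ℂ S.VX :=
  Module.Finite.iff_fg.2 (Submodule.fg_span S.chx1_finite)

/-- The corners `1` or `w`, times `1` or `X²`, times `1` or `s`. -/
noncomputable def cX (e : Bool × Bool × Bool) : L :=
  (if e.1 then S.i S.w else 1) * (if e.2.1 then S.wX ^ 2 else 1) * (if e.2.2 then S.i S.s else 1)

theorem cX_mem (e : Bool × Bool × Bool) : S.cX e ∈ S.VX := by
  have h := S.chx1_mono (i := if e.1 then 1 else 0) (j := if e.2.1 then 2 else 0)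
    (k := if e.2.2 then 1 else 0) (by split_ifs <;> norm_num) (by split_ifs <;> norm_num)
    (by split_ifs <;> norm_num)
  have h2 : S.cX e = S.i S.w ^ (if e.1 then 1 else 0) * S.wX ^ (if e.2.1 then 2 else 0) *
      S.i S.s ^ (if e.2.2 then 1 else 0) := by
    unfold cX
    rcases e with ⟨_ | _, _ | _, _ | _⟩ <;> simp
  rw [h2]
  exact h

theorem cX_ne (e : Bool × Bool × Bool) : S.cX e ≠ 0 := by
  have hw : S.i S.w ≠ 0 := (map_ne_zero S.i).2 S.w_ne_zero
  have hs : S.i S.s ≠ 0 := (map_ne_zero S.i).2 S.s_ne_zero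
  have hX := S.wX_ne_zero
  unfold cX
  refine mul_ne_zero (mul_ne_zero ?_ ?_) ?_
  · split_ifs
    · exact hw
    · exact one_ne_zero
  · split_ifs
    · exact pow_ne_zero 2 hX
    · exact one_ne_zero
  · split_ifs
    · exact hs
    · exact one_ne_zero

/-- `VX` generates `L` (`x1_wη`, `x0_wη`, `x₂ = (1 + x₁) / x₀`). -/
theorem adjoin_VX : IntermediateField.adjoin ℂ (S.VX : Set L) = ⊤ := by
  have hsub : ∀ f ∈ S.VX, f ∈ IntermediateField.adjoin ℂ (S.VX : Set L) := fun f hf =>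
    IntermediateField.subset_adjoin ℂ _ hf
  have hw : S.i S.w ∈ IntermediateField.adjoin ℂ (S.VX : Set L) := by
    have h := S.chx1_mono (i := 1) (j := 0) (k := 0) (by norm_num) (by norm_num) (by norm_num)
    exact hsub _ (by simpa using h)
  have hs : S.i S.s ∈ IntermediateField.adjoin ℂ (S.VX : Set L) := by
    have h := S.chx1_mono (i := 0) (j := 0) (k := 1) (by norm_num) (by norm_num) (by norm_num)
    exact hsub _ (by simpa using h)
  have hX : S.wX ∈ IntermediateField.adjoin ℂ (S.VX : Set L) := by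
    have h := S.chx1_mono (i := 0) (j := 1) (k := 0) (by norm_num) (by norm_num) (by norm_num)
    exact hsub _ (by simpa using h)
  have hη : S.wη ∈ IntermediateField.adjoin ℂ (S.VX : Set L) := hsub _ S.chx1_eta
  have h2 : (2 : L) ∈ IntermediateField.adjoin ℂ (S.VX : Set L) := by
    have := add_mem (one_mem (IntermediateField.adjoin ℂ (S.VX : Set L)))
      (one_mem (IntermediateField.adjoin ℂ (S.VX : Set L)))
    rwa [one_add_one_eq_two] at this
  have h20 : (2 : L) ≠ 0 := by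
    have : CharZero L := charZero_of_injective_algebraMap (algebraMap ℂ L).injective
    exact two_ne_zero
  have hd0 : 2 * (S.wX - S.i S.w) ≠ 0 := mul_ne_zero h20 S.wX_sub_ne_zero
  have hd : 2 * (S.wX - S.i S.w) ∈ IntermediateField.adjoin ℂ (S.VX : Set L) :=
    mul_mem h2 (sub_mem hX hw)
  have hx1 : S.x 1 ∈ IntermediateField.adjoin ℂ (S.VX : Set L) := by
    have h : S.x 1 = (-S.wη - (1 - S.i S.w) * S.wX + S.i S.w) / (2 * (S.wX - S.i S.w)) := by
      rw [eq_div_iff hd0, ← S.x1_wη]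
      ring
    rw [h]
    exact div_mem (add_mem (sub_mem (neg_mem hη) (mul_mem (sub_mem (one_mem _) hw) hX)) hw) hd
  have hx0 : S.x 0 ∈ IntermediateField.adjoin ℂ (S.VX : Set L) := by
    have h : S.x 0 = (S.wη - (1 - S.i S.w) * S.wX + S.i S.w) / (2 * (S.wX - S.i S.w)) := by
      rw [eq_div_iff hd0, ← S.x0_wη]
      ring
    rw [h]
    exact div_mem (add_mem (sub_mem hη (mul_mem (sub_mem (one_mem _) hw) hX)) hw) hd
  have hx2 : S.x 2 ∈ IntermediateField.adjoin ℂ (S.VX : Set L) := by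
    have h := S.cluster.rel 1
    have h0 : S.x 0 * S.x 2 = 1 + S.x 1 := h
    have h' : S.x 2 = (1 + S.x 1) / S.x 0 := by
      rw [eq_div_iff (S.cluster.ne_zero 0), ← h0, mul_comm]
    rw [h']
    exact div_mem (add_mem (one_mem _) hx1) hx0
  rw [eq_top_iff, ← S.hL.adjoin_eq, IntermediateField.adjoin_le_iff]
  rintro _ ⟨j, rfl⟩
  fin_cases j
  · exact hx1
  · exact hx2
  · exact hs

end Setup

end Pool.Agent.MP_5c6cc8_ag
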