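import Pool.Agent.MP_5c6cc8_ag.ChX1

/-! # Row ChX2: the chart algebras of `X` -/

open AlgebraicGeometry CategoryTheory CategoryTheory.Limits
open Pool.Agent.MP_4d8271_ag (PX toK chartA Dc)

namespace Pool.Agent.MP_5c6cc8_ag

namespace Setup

/-- Quotients of small powers: `f ^ i / (f ^ n or 1)` is a power of `1 / f` or `f`. -/
theorem chx2_pow {L : Type} [Field L] {f : L} (hf : f ≠ 0) (n : ℕ) (e : Bool) {i : ℕ} (hi : i ≤ n) :
    f ^ i / (if e then f ^ n else 1) = (if e then f⁻¹ else f) ^ (if e then n - i else i) := by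
  cases e
  · simp
  · simp only [if_true]
    rw [div_eq_iff (pow_ne_zero _ hf), inv_pow, eq_comm, inv_mul_eq_iff_eq_mul₀ (pow_ne_zero _ hf),
      ← pow_add]
    congr 1
    omega

/-- Every power `i' ≤ n` of `1 / f` or `f` is of this form. -/
theorem chx2_pow' {L : Type} [Field L] {f : L} (hf : f ≠ 0) (n : ℕ) (e : Bool) {i : ℕ} (hi : i ≤ n) :
    ∃ i', i' ≤ n ∧ (if e then f⁻¹ else f) ^ i = f ^ i' / (if e then f ^ n else 1) := by
  refine ⟨if e then n - i else i, ?_, ?_⟩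
  · split_ifs <;> omega
  · rw [chx2_pow hf n e (by split_ifs <;> omega)]
    congr 1
    split_ifs <;> omega

variable {K L : Type} [Field K] [Algebra ℂ K] [Field L] [Algebra ℂ L] (S : Setup K L)

theorem chx2_iw : S.i S.w ≠ 0 := by
  rw [Ne, map_eq_zero]
  exact S.w_ne_zero

theorem chx2_is : S.i S.s ≠ 0 := by
  rw [Ne, map_eq_zero]
  exact S.s_ne_zero

theorem chx2_cX (e : Bool × Bool × Bool) :
    S.cX e = (if e.1 then S.i S.w ^ 1 else 1) * (if e.2.1 then S.wX ^ 2 else 1) *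
      (if e.2.2 then S.i S.s ^ 1 else 1) := by
  rw [cX, pow_one, pow_one]

/-- The monomials in the chart coordinates. -/
theorem chx2_mono (e : Bool × Bool × Bool) {i j k : ℕ} (hi : i ≤ 1) (hj : j ≤ 2) (hk : k ≤ 1) :
    S.cv e.1 ^ i * S.cτ e.2.1 ^ j * S.cσ e.2.2 ^ k ∈ chartA S.VX (S.cX e) := by
  obtain ⟨i', hi', h1⟩ := chx2_pow' S.chx2_iw 1 e.1 hi
  obtain ⟨j', hj', h2⟩ := chx2_pow' S.wX_ne_zero 2 e.2.1 hj
  obtain ⟨k', hk', h3⟩ := chx2_pow' S.chx2_is 1 e.2.2 hk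
  refine Algebra.subset_adjoin ⟨S.i S.w ^ i' * S.wX ^ j' * S.i S.s ^ k',
    Submodule.subset_span (Or.inl ⟨i', j', k', hi', hj', hk', rfl⟩), ?_⟩
  rw [cv, cτ, cσ, h1, h2, h3, chx2_cX, div_mul_div_comm, div_mul_div_comm]

theorem chx2_eta (e : Bool × Bool × Bool) : S.cη e.1 e.2.1 ∈ chartA S.VX (S.cX e) := by
  obtain ⟨k', hk', h3⟩ := chx2_pow' S.chx2_is 1 e.2.2 (Nat.zero_le 1)
  refine Algebra.subset_adjoin ⟨S.wη * S.i S.s ^ k',
    Submodule.subset_span (Or.inr ⟨k', hk', rfl⟩), ?_⟩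
  have h1 : (if e.1 then (S.i S.w)⁻¹ else 1) = 1 / (if e.1 then S.i S.w ^ 1 else 1) := by
    split_ifs <;> simp
  have h2 : (if e.2.1 then S.wX⁻¹ ^ 2 else 1) = 1 / (if e.2.1 then S.wX ^ 2 else 1) := by
    split_ifs <;> simp
  have h4 : S.i S.s ^ k' = (if e.2.2 then S.i S.s ^ 1 else 1) := by
    rw [pow_zero, eq_comm, div_eq_one_iff_eq] at h3
    · exact h3
    · split_ifs
      · exact pow_ne_zero _ S.chx2_is
      · exact one_ne_zero
  rw [cη, h1, h2, chx2_cX, h4]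
  have h5 : (if e.2.2 then S.i S.s ^ 1 else 1) ≠ 0 := by
    split_ifs
    · exact pow_ne_zero _ S.chx2_is
    · exact one_ne_zero
  rw [mul_one_div, mul_one_div, div_div, mul_div_mul_right _ _ h5]

theorem chx2_j (e : Bool × Bool × Bool) (p : MvPolynomial (Fin 3) ℂ) :
    (S.corner e.1 e.2.1 e.2.2).j p =
      MvPolynomial.aeval ![S.cv e.1, S.cτ e.2.1, S.cσ e.2.2] p := rfl

theorem chx2_aeval (e : Bool × Bool × Bool) (p : MvPolynomial (Fin 3) ℂ) :
    MvPolynomial.aeval ![S.cv e.1, S.cτ e.2.1, S.cσ e.2.2] p ∈ chartA S.VX (S.cX e) := by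
  have h : ∀ m : Fin 3, ![S.cv e.1, S.cτ e.2.1, S.cσ e.2.2] m ∈ chartA S.VX (S.cX e) := by
    have h1 := S.chx2_mono e (i := 1) (j := 0) (k := 0) le_rfl (by norm_num) (by norm_num)
    have h2 := S.chx2_mono e (i := 0) (j := 1) (k := 0) (by norm_num) (by norm_num) (by norm_num)
    have h3 := S.chx2_mono e (i := 0) (j := 0) (k := 1) (by norm_num) (by norm_num) (by norm_num)
    simp only [pow_one, pow_zero, mul_one, one_mul] at h1 h2 h3
    intro m
    fin_cases m
    · exact h1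
    · exact h2
    · exact h3
  induction p using MvPolynomial.induction_on with
  | C a =>
    rw [MvPolynomial.aeval_C]
    exact (chartA S.VX (S.cX e)).algebraMap_mem a
  | add p q hp hq =>
    rw [map_add]
    exact add_mem hp hq
  | mul_X p n hp =>
    rw [map_mul, MvPolynomial.aeval_X]
    exact mul_mem hp (h n)

/-- The chart algebra `ℂ[VX / c]` is `ℂ[v, τ, σ] ⊕ ℂ[v, τ, σ] η_c`. -/
theorem chartA_VX (e : Bool × Bool × Bool) :
    (chartA S.VX (S.cX e)).toSubring = (S.corner e.1 e.2.1 e.2.2).ring := by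
  apply le_antisymm
  · intro g hg
    change g ∈ chartA S.VX (S.cX e) at hg
    have hC : ∀ a : ℂ, algebraMap ℂ L a ∈ (S.corner e.1 e.2.1 e.2.2).ring := by
      intro a
      refine ⟨MvPolynomial.C a, 0, ?_⟩
      rw [map_zero, zero_mul, add_zero, chx2_j, MvPolynomial.aeval_C]
    refine Algebra.adjoin_induction (p := fun g _ => g ∈ (S.corner e.1 e.2.1 e.2.2).ring)
      ?_ hC (fun _ _ _ _ hx hy => add_mem hx hy) (fun _ _ _ _ hx hy => mul_mem hx hy) hg
    rintro _ ⟨a, ha, rfl⟩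
    refine Submodule.span_induction
      (p := fun a _ => a / S.cX e ∈ (S.corner e.1 e.2.1 e.2.2).ring) ?_ ?_ ?_ ?_ ha
    · rintro _ (⟨i, j, k, hi, hj, hk, rfl⟩ | ⟨k, hk, rfl⟩)
      · refine ⟨MvPolynomial.X 0 ^ (if e.1 then 1 - i else i) *
          MvPolynomial.X 1 ^ (if e.2.1 then 2 - j else j) *
          MvPolynomial.X 2 ^ (if e.2.2 then 1 - k else k), 0, ?_⟩
        rw [map_zero, zero_mul, add_zero, chx2_j, map_mul, map_mul, map_pow, map_pow, map_pow,
          MvPolynomial.aeval_X, MvPolynomial.aeval_X, MvPolynomial.aeval_X]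
        change _ = S.cv e.1 ^ (if e.1 then 1 - i else i) *
          S.cτ e.2.1 ^ (if e.2.1 then 2 - j else j) * S.cσ e.2.2 ^ (if e.2.2 then 1 - k else k)
        rw [cv, cτ, cσ, ← chx2_pow S.chx2_iw 1 e.1 hi, ← chx2_pow S.wX_ne_zero 2 e.2.1 hj,
          ← chx2_pow S.chx2_is 1 e.2.2 hk, chx2_cX, div_mul_div_comm, div_mul_div_comm]
      · refine ⟨0, MvPolynomial.X 2 ^ (if e.2.2 then 1 - k else k), ?_⟩
        rw [map_zero, zero_add, chx2_j, map_pow, MvPolynomial.aeval_X]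
        change _ = S.cσ e.2.2 ^ (if e.2.2 then 1 - k else k) * S.cη e.1 e.2.1
        have h1 : (if e.1 then (S.i S.w)⁻¹ else 1) = 1 / (if e.1 then S.i S.w ^ 1 else 1) := by
          split_ifs <;> simp
        have h2 : (if e.2.1 then S.wX⁻¹ ^ 2 else 1) = 1 / (if e.2.1 then S.wX ^ 2 else 1) := by
          split_ifs <;> simp
        rw [cσ, ← chx2_pow S.chx2_is 1 e.2.2 hk, cη, h1, h2, chx2_cX, mul_one_div, mul_one_div,
          div_div, div_mul_div_comm]
        congr 1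
        · ring
        · ring
    · rw [zero_div]
      exact zero_mem _
    · intro x y _ _ hx hy
      rw [add_div]
      exact add_mem hx hy
    · intro t x _ hx
      rw [Algebra.smul_def, mul_div_assoc]
      exact mul_mem (hC t) hx
  · rintro _ ⟨p, q, rfl⟩
    change _ ∈ chartA S.VX (S.cX e)
    exact add_mem (S.chx2_aeval e p) (mul_mem (S.chx2_aeval e q) (S.chx2_eta e))

end Setup

end Pool.Agent.MP_5c6cc8_ag
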