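import Pool.Agent.MP_5c6cc8_ag.ChX2

/-! # Row ChX3: covering and normality of `X` -/

open AlgebraicGeometry CategoryTheory CategoryTheory.Limits
open Pool.Agent.MP_4d8271_ag (PX toK chartA Dc)

namespace Pool.Agent.MP_5c6cc8_ag

namespace Setup

variable {K L : Type} [Field K] [Algebra ℂ K] [Field L] [Algebra ℂ L] (S : Setup K L)

/-- The combinations of the corners with coefficients in `VX`. -/
noncomputable def chx3_W : Submodule ℂ L where
  carrier := {f | ∃ w : Bool × Bool × Bool → L, (∀ i, w i ∈ S.VX) ∧ f = ∑ i, S.cX i * w i}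
  add_mem' := by
    rintro a b ⟨w, hw, rfl⟩ ⟨w', hw', rfl⟩
    refine ⟨fun i => w i + w' i, fun i => add_mem (hw i) (hw' i), ?_⟩
    rw [← Finset.sum_add_distrib]
    exact Finset.sum_congr rfl fun i _ => (mul_add _ _ _).symm
  zero_mem' := ⟨fun _ => 0, fun _ => zero_mem _, by simp⟩
  smul_mem' := by
    rintro c a ⟨w, hw, rfl⟩
    refine ⟨fun i => c • w i, fun i => Submodule.smul_mem _ _ (hw i), ?_⟩
    rw [Finset.smul_sum]
    exact Finset.sum_congr rfl fun i _ => (mul_smul_comm _ _ _).symm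

theorem chx3_one (e : Bool × Bool × Bool) {g : L} (hg : g ∈ S.genX) : S.cX e * g ∈ S.chx3_W := by
  refine ⟨fun i => if i = e then g else 0, fun i => ?_, ?_⟩
  · change (if i = e then g else 0) ∈ S.VX
    split_ifs
    · exact Submodule.subset_span hg
    · exact zero_mem _
  · simp only [mul_ite, mul_zero, Finset.sum_ite_eq', Finset.mem_univ, if_true]

theorem chx3_mono {a b c : ℕ} (ha : a ≤ 2) (hb : b ≤ 4) (hc : c ≤ 2) :
    S.i S.w ^ a * S.wX ^ b * S.i S.s ^ c ∈ S.chx3_W := by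
  obtain ⟨e1, a', ha', rfl⟩ : ∃ (e1 : Bool) (a' : ℕ), a' ≤ 1 ∧ a = (if e1 then 1 else 0) + a' := by
    rcases Nat.lt_or_ge a 2 with h | h
    · exact ⟨false, a, by omega, by simp⟩
    · exact ⟨true, 1, le_rfl, by simp; omega⟩
  obtain ⟨e2, b', hb', rfl⟩ : ∃ (e2 : Bool) (b' : ℕ), b' ≤ 2 ∧ b = (if e2 then 2 else 0) + b' := by
    rcases Nat.lt_or_ge b 3 with h | h
    · exact ⟨false, b, by omega, by simp⟩
    · exact ⟨true, b - 2, by omega, by simp; omega⟩
  obtain ⟨e3, c', hc', rfl⟩ : ∃ (e3 : Bool) (c' : ℕ), c' ≤ 1 ∧ c = (if e3 then 1 else 0) + c' := by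
    rcases Nat.lt_or_ge c 2 with h | h
    · exact ⟨false, c, by omega, by simp⟩
    · exact ⟨true, 1, le_rfl, by simp; omega⟩
  have hmem : S.i S.w ^ a' * S.wX ^ b' * S.i S.s ^ c' ∈ S.genX := Or.inl ⟨a', b', c', ha', hb', hc', rfl⟩
  have h := S.chx3_one (e1, e2, e3) hmem
  have he : S.i S.w ^ ((if e1 = true then 1 else 0) + a') * S.wX ^ ((if e2 = true then 2 else 0) + b') *
      S.i S.s ^ ((if e3 = true then 1 else 0) + c') =
      S.cX (e1, e2, e3) * (S.i S.w ^ a' * S.wX ^ b' * S.i S.s ^ c') := by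
    unfold cX
    rw [pow_add, pow_add, pow_add]
    cases e1 <;> cases e2 <;> cases e3 <;> simp <;> ring
  rw [he]
  exact h

/-- The charts cover: use `iSup_Dc_eq_top'` with `G = genX`. Each `(w^i X^j s^k)²` is a corner times
`w^i' X^j' s^k'`, and `η² = (1+X)² w² - 2X(3X+1) w + X²(4X+1)`, so that `(η s^k)²` is a
combination of monomials `w^i X^j s^k` with `i ≤ 2`, `j ≤ 4`, `k ≤ 2`, each of which is a corner times
a monomial of `genX`. -/
theorem cover_VX : ⨆ e, Dc (S.cX e) (S.cX_mem e) = ⊤ := by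
  refine iSup_Dc_eq_top' S.cX S.cX_mem S.genX rfl ?_
  have key : ∀ v ∈ S.genX, v ^ 2 ∈ S.chx3_W := by
    rintro v (⟨i, j, k, hi, hj, hk, rfl⟩ | ⟨k, hk, rfl⟩)
    · have := S.chx3_mono (a := i * 2) (b := j * 2) (c := k * 2) (by omega) (by omega) (by omega)
      rw [pow_mul, pow_mul, pow_mul, ← mul_pow, ← mul_pow] at this
      exact this
    · have hm : ∀ a b : ℕ, a ≤ 2 → b ≤ 4 → S.i S.w ^ a * S.wX ^ b * S.i S.s ^ (k * 2) ∈ S.chx3_W :=
        fun a b ha hb => S.chx3_mono ha hb (by omega)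
      have he : (S.wη * S.i S.s ^ k) ^ 2 =
          S.i S.w ^ 2 * S.wX ^ 0 * S.i S.s ^ (k * 2) + (2 : ℂ) • (S.i S.w ^ 2 * S.wX ^ 1 * S.i S.s ^ (k * 2)) +
          S.i S.w ^ 2 * S.wX ^ 2 * S.i S.s ^ (k * 2) + (-6 : ℂ) • (S.i S.w ^ 1 * S.wX ^ 2 * S.i S.s ^ (k * 2)) +
          (-2 : ℂ) • (S.i S.w ^ 1 * S.wX ^ 1 * S.i S.s ^ (k * 2)) +
          (4 : ℂ) • (S.i S.w ^ 0 * S.wX ^ 3 * S.i S.s ^ (k * 2)) +
          S.i S.w ^ 0 * S.wX ^ 2 * S.i S.s ^ (k * 2) := by
        rw [mul_pow, S.η_sq, ← pow_mul]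
        unfold wQ
        simp only [Algebra.smul_def, Polynomial.eval₂_add, Polynomial.eval₂_sub, Polynomial.eval₂_mul,
          Polynomial.eval₂_pow, Polynomial.eval₂_C, Polynomial.eval₂_X, map_ofNat, map_neg, map_add,
          map_sub, map_mul, map_pow, map_one, Polynomial.eval₂_ofNat, Polynomial.eval₂_one]
        ring
      rw [he]
      refine add_mem (add_mem (add_mem (add_mem (add_mem (add_mem ?_ ?_) ?_) ?_) ?_) ?_) ?_
      · exact hm 2 0 (by omega) (by omega)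
      · exact Submodule.smul_mem _ _ (hm 2 1 (by omega) (by omega))
      · exact hm 2 2 (by omega) (by omega)
      · exact Submodule.smul_mem _ _ (hm 1 2 (by omega) (by omega))
      · exact Submodule.smul_mem _ _ (hm 1 1 (by omega) (by omega))
      · exact Submodule.smul_mem _ _ (hm 0 3 (by omega) (by omega))
      · exact hm 0 2 (by omega) (by omega)
  intro v hv
  obtain ⟨w, hw, h⟩ := key v hv
  exact ⟨w, hw, h⟩

theorem normal_VX (x : PX S.VX) : IsIntegrallyClosed ((PX S.VX).presheaf.stalk x) := by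
  refine normal_of_charts S.cX S.cX_mem S.cX_ne S.cover_VX (fun e => ?_) x
  have h1 : IsIntegrallyClosed (S.corner e.1 e.2.1 e.2.2).ring := SqData.isIntegrallyClosed _
  exact IsIntegrallyClosed.of_equiv (RingEquiv.subringCongr (S.chartA_VX e).symm)

end Setup

end Pool.Agent.MP_5c6cc8_ag
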