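import Pool.Agent.MP_5c6cc8_ag.Corner2
import Pool.Agent.MP_5c6cc8_ag.Model

/-! # Row ChY1: `Y = ℙ¹ × ℙ¹` -/

open AlgebraicGeometry CategoryTheory CategoryTheory.Limits
open Pool.Agent.MP_4d8271_ag (PX toK chartA Dc)

namespace Pool.Agent.MP_5c6cc8_ag

namespace Setup

variable {K L : Type} [Field K] [Algebra ℂ K] [Field L] [Algebra ℂ L] (S : Setup K L)

/-- The functions `1, w, s, w s`. -/
def genY : Set L := {f | ∃ i k : ℕ, i ≤ 1 ∧ k ≤ 1 ∧ f = S.i S.w ^ i * S.i S.s ^ k}

/-- Their span. -/
def VY : Submodule ℂ L := Submodule.span ℂ S.genY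

instance one_mem_VY : Fact ((1 : L) ∈ S.VY) :=
  ⟨Submodule.subset_span ⟨0, 0, Nat.zero_le _, Nat.zero_le _, by rw [pow_zero, pow_zero, one_mul]⟩⟩

theorem chy1_finite : S.genY.Finite := by
  refine (Set.finite_range (fun p : Fin 2 × Fin 2 => S.i S.w ^ (p.1 : ℕ) * S.i S.s ^ (p.2 : ℕ))).subset ?_
  rintro f ⟨i, k, hi, hk, rfl⟩
  exact ⟨(⟨i, by omega⟩, ⟨k, by omega⟩), rfl⟩

instance finite_VY : Module.Finite ℂ S.VY := Module.Finite.span_of_finite ℂ S.chy1_finite

/-- The corners `1` or `w`, times `1` or `s`. -/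
noncomputable def cY (e : Bool × Bool) : L :=
  (if e.1 then S.i S.w else 1) * (if e.2 then S.i S.s else 1)

theorem cY_mem (e : Bool × Bool) : S.cY e ∈ S.VY := by
  refine Submodule.subset_span ?_
  rcases e with ⟨e1, e2⟩
  refine ⟨if e1 then 1 else 0, if e2 then 1 else 0, ?_, ?_, ?_⟩
  · split_ifs <;> simp
  · split_ifs <;> simp
  · unfold cY
    cases e1 <;> cases e2 <;> simp

theorem chy1_w : S.i S.w ≠ 0 := by
  have h : S.w ≠ 0 := S.hK.indep.ne_zero 0
  exact (map_ne_zero S.i).2 h

theorem chy1_s : S.i S.s ≠ 0 := by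
  have h : S.s ≠ 0 := S.hK.indep.ne_zero 1
  exact (map_ne_zero S.i).2 h

theorem cY_ne (e : Bool × Bool) : S.cY e ≠ 0 := by
  unfold cY
  refine mul_ne_zero ?_ ?_
  · split_ifs
    · exact S.chy1_w
    · exact one_ne_zero
  · split_ifs
    · exact S.chy1_s
    · exact one_ne_zero

/-- The chart algebra `ℂ[VY / c]` is the polynomial ring `ℂ[v, σ]`. -/
theorem chartA_VY (e : Bool × Bool) :
    chartA S.VY (S.cY e) = Algebra.adjoin ℂ {S.cv e.1, S.cσ e.2} := by
  have hw := S.chy1_w
  have hs := S.chy1_s
  have hc := S.cY_ne e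
  have hv : S.cv e.1 ∈ Algebra.adjoin ℂ ({S.cv e.1, S.cσ e.2} : Set L) :=
    Algebra.subset_adjoin (Set.mem_insert _ _)
  have hσ : S.cσ e.2 ∈ Algebra.adjoin ℂ ({S.cv e.1, S.cσ e.2} : Set L) :=
    Algebra.subset_adjoin (Set.mem_insert_of_mem _ rfl)
  refine le_antisymm ?_ ?_
  · unfold chartA
    rw [Algebra.adjoin_le_iff]
    rintro g ⟨a, ha, rfl⟩
    have ha' : a ∈ Submodule.span ℂ S.genY := ha
    refine Submodule.span_induction ?_ ?_ ?_ ?_ ha'
    · rintro x ⟨i, k, hi, hk, rfl⟩
      have e1 : S.i S.w ^ i * S.i S.s ^ k / S.cY e =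
          (S.i S.w ^ i / (if e.1 then S.i S.w else 1)) * (S.i S.s ^ k / (if e.2 then S.i S.s else 1)) := by
        unfold cY
        rw [mul_div_mul_comm]
      rw [e1]
      refine mul_mem ?_ ?_
      · rcases (by omega : i = 0 ∨ i = 1) with rfl | rfl
        · unfold cv at hv ⊢
          cases h : e.1
          · simp only [Bool.false_eq_true, if_false, pow_zero, div_one]
            exact one_mem _
          · simp only [h, if_true] at hv
            simp only [if_true, pow_zero, one_div]
            exact hv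
        · unfold cv at hv ⊢
          cases h : e.1
          · simp only [h, Bool.false_eq_true, if_false] at hv
            simp only [Bool.false_eq_true, if_false, pow_one, div_one]
            exact hv
          · simp only [if_true, pow_one, div_self hw]
            exact one_mem _
      · rcases (by omega : k = 0 ∨ k = 1) with rfl | rfl
        · unfold cσ at hσ ⊢
          cases h : e.2
          · simp only [Bool.false_eq_true, if_false, pow_zero, div_one]
            exact one_mem _
          · simp only [h, if_true] at hσ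
            simp only [if_true, pow_zero, one_div]
            exact hσ
        · unfold cσ at hσ ⊢
          cases h : e.2
          · simp only [h, Bool.false_eq_true, if_false] at hσ
            simp only [Bool.false_eq_true, if_false, pow_one, div_one]
            exact hσ
          · simp only [if_true, pow_one, div_self hs]
            exact one_mem _
    · rw [zero_div]
      exact zero_mem _
    · intro x y _ _ hx hy
      rw [add_div]
      exact add_mem hx hy
    · intro c x _ hx
      rw [Algebra.smul_def, mul_div_assoc, ← Algebra.smul_def]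
      exact Subalgebra.smul_mem _ hx c
  · rw [Algebra.adjoin_le_iff]
    have hin : ∀ i k : ℕ, i ≤ 1 → k ≤ 1 → S.i S.w ^ i * S.i S.s ^ k / S.cY e ∈ chartA S.VY (S.cY e) :=
      fun i k hi hk => Algebra.subset_adjoin ⟨_, Submodule.subset_span ⟨i, k, hi, hk, rfl⟩, rfl⟩
    rintro f (rfl | hf)
    · change S.cv e.1 ∈ chartA S.VY (S.cY e)
      have h := hin (if e.1 then 0 else 1) (if e.2 then 1 else 0) (by split_ifs <;> simp)
        (by split_ifs <;> simp)
      have h2 : S.cv e.1 = S.i S.w ^ (if e.1 then 0 else 1) * S.i S.s ^ (if e.2 then 1 else 0) / S.cY e := by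
        rw [eq_div_iff hc]
        unfold cv cY
        cases e.1 <;> cases e.2 <;> simp [hw]
      rw [h2]
      exact h
    · rw [Set.mem_singleton_iff] at hf
      subst hf
      change S.cσ e.2 ∈ chartA S.VY (S.cY e)
      have h := hin (if e.1 then 1 else 0) (if e.2 then 0 else 1) (by split_ifs <;> simp)
        (by split_ifs <;> simp)
      have h2 : S.cσ e.2 = S.i S.w ^ (if e.1 then 1 else 0) * S.i S.s ^ (if e.2 then 0 else 1) / S.cY e := by
        rw [eq_div_iff hc]
        unfold cσ cY
        cases e.1 <;> cases e.2 <;> simp [hs, mul_comm]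
      rw [h2]
      exact h

/-- `VY` generates `i(K) = ℂ(w, s)`. -/
theorem adjoin_VY : (IntermediateField.adjoin ℂ (S.VY : Set L)).toSubfield = S.i.fieldRange := by
  let ia : K →ₐ[ℂ] L := { S.i with commutes' := S.hi }
  have hrange : (IntermediateField.adjoin ℂ (S.VY : Set L)) = ia.fieldRange := by
    refine le_antisymm ?_ ?_
    · rw [IntermediateField.adjoin_le_iff]
      intro f hf
      have hf' : f ∈ Submodule.span ℂ S.genY := hf
      have hle : Submodule.span ℂ S.genY ≤ Subalgebra.toSubmodule ia.fieldRange.toSubalgebra := by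
        rw [Submodule.span_le]
        rintro x ⟨i, k, -, -, rfl⟩
        refine ⟨S.w ^ i * S.s ^ k, ?_⟩
        rw [map_mul, map_pow, map_pow]
      exact hle hf'
    · rintro _ ⟨x, rfl⟩
      have hx : x ∈ IntermediateField.adjoin ℂ (Set.range ![S.w, S.s]) := by
        rw [S.hK.adjoin_eq]
        trivial
      have h2 : ia x ∈ (IntermediateField.adjoin ℂ (Set.range ![S.w, S.s])).map ia := ⟨x, hx, rfl⟩
      rw [IntermediateField.adjoin_map] at h2
      refine IntermediateField.adjoin.mono ℂ _ _ ?_ h2
      rintro _ ⟨_, ⟨j, rfl⟩, rfl⟩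
      refine Submodule.subset_span ?_
      fin_cases j
      · exact ⟨1, 0, le_rfl, Nat.zero_le _, by rw [pow_one, pow_zero, mul_one]; rfl⟩
      · exact ⟨0, 1, Nat.zero_le _, le_rfl, by rw [pow_one, pow_zero, one_mul]; rfl⟩
  rw [hrange]
  rfl

end Setup

end Pool.Agent.MP_5c6cc8_ag
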