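import Pool.Agent.MP_5c6cc8_ag.ChY1

/-! # Row ChY2: covering and normality of `Y` -/

open AlgebraicGeometry CategoryTheory CategoryTheory.Limits
open Pool.Agent.MP_4d8271_ag (PX toK chartA Dc)

namespace Pool.Agent.MP_5c6cc8_ag

namespace Setup

variable {K L : Type} [Field K] [Algebra ℂ K] [Field L] [Algebra ℂ L] (S : Setup K L)

/-- The two coordinates of a corner are algebraically independent. -/
theorem chy2_indep (e : Bool × Bool) : AlgebraicIndependent ℂ ![S.cv e.1, S.cσ e.2] := by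
  have h := S.indep_corner e.1 false e.2
  have h2 := h.comp ![0, 2] (by decide)
  have h3 : (![S.cv e.1, S.cτ false, S.cσ e.2] ∘ ![0, 2] : Fin 2 → L) = ![S.cv e.1, S.cσ e.2] := by
    funext j
    fin_cases j <;> rfl
  rw [h3] at h2
  exact h2

/-- It is integrally closed: `v, σ` are algebraically independent (`indep_corner`), so it is isomorphic
to `MvPolynomial (Fin 2) ℂ`. -/
theorem chartA_VY_closed (e : Bool × Bool) : IsIntegrallyClosed (chartA S.VY (S.cY e)) := by
  have h := S.chy2_indep e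
  have h1 : IsIntegrallyClosed (MvPolynomial (Fin 2) ℂ) := inferInstance
  have h2 : IsIntegrallyClosed (Algebra.adjoin ℂ (Set.range ![S.cv e.1, S.cσ e.2])) :=
    IsIntegrallyClosed.of_equiv h.aevalEquiv.toRingEquiv
  have h3 : Set.range ![S.cv e.1, S.cσ e.2] = {S.cv e.1, S.cσ e.2} := Matrix.range_cons_cons_empty _ _ _
  rw [h3] at h2
  rw [S.chartA_VY e]
  exact h2

theorem cover_VY : ⨆ e, Dc (S.cY e) (S.cY_mem e) = ⊤ := by
  refine iSup_Dc_eq_top' S.cY S.cY_mem S.genY rfl ?_
  rintro v ⟨i, k, hi, hk, rfl⟩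
  obtain ⟨e1, he1⟩ : ∃ e1 : Bool, i = if e1 then 1 else 0 := by
    rcases (by omega : i = 0 ∨ i = 1) with rfl | rfl
    · exact ⟨false, rfl⟩
    · exact ⟨true, rfl⟩
  obtain ⟨e2, he2⟩ : ∃ e2 : Bool, k = if e2 then 1 else 0 := by
    rcases (by omega : k = 0 ∨ k = 1) with rfl | rfl
    · exact ⟨false, rfl⟩
    · exact ⟨true, rfl⟩
  have hc : S.i S.w ^ i * S.i S.s ^ k = S.cY (e1, e2) := by
    rw [he1, he2]
    unfold cY
    cases e1 <;> cases e2 <;> simp
  refine ⟨fun j => if j = (e1, e2) then S.cY (e1, e2) else 0, fun j => ?_, ?_⟩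
  · change (if j = (e1, e2) then S.cY (e1, e2) else 0) ∈ S.VY
    split_ifs
    · exact S.cY_mem _
    · exact zero_mem _
  · simp only [mul_ite, mul_zero, Finset.sum_ite_eq', Finset.mem_univ, if_true]
    rw [hc, sq]

theorem normal_VY (x : PX S.VY) : IsIntegrallyClosed ((PX S.VY).presheaf.stalk x) :=
  normal_of_charts S.cY S.cY_mem S.cY_ne S.cover_VY (fun e => S.chartA_VY_closed e) x

end Setup

end Pool.Agent.MP_5c6cc8_ag
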