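import Pool.Agent.MP_5c6cc8_ag.Deriv1

/-! # Row Deriv2: coefficients of forms -/

open MvPolynomial

namespace Pool.Agent.MP_5c6cc8_ag

variable {F : Type} [Field F] [Algebra ℂ F] {n : ℕ}

/-- The linear functional on `⋀ⁿ Ω` attached to `n` derivations:
`df₁ ∧ … ∧ dfₙ ↦ det (d_j f_i)`. -/
theorem exists_formCoef (d : Fin n → Derivation ℂ F F) :
    ∃ Φ : Form F n →ₗ[F] F, ∀ f : Fin n → F,
      Φ (wedge f) = Matrix.det (Matrix.of fun i j => d j (f i)) := by
  refine ⟨exteriorPower.pairingDual F (Ω[F⁄ℂ]) n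
    (exteriorPower.ιMulti F n fun j => (d j).liftKaehlerDifferential), fun f => ?_⟩
  have h := exteriorPower.pairingDual_ιMulti_ιMulti (R := F) (M := Ω[F⁄ℂ])
    (fun j => (d j).liftKaehlerDifferential) (fun i => KaehlerDifferential.D ℂ F (f i))
  refine h.trans ?_
  congr 1
  ext i j
  rw [Matrix.of_apply, Matrix.of_apply, Derivation.liftKaehlerDifferential_comp_D]

/-- The coefficient functional. -/
noncomputable def formCoef (d : Fin n → Derivation ℂ F F) : Form F n →ₗ[F] F :=
  (exists_formCoef d).choose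

theorem formCoef_wedge (d : Fin n → Derivation ℂ F F) (f : Fin n → F) :
    formCoef d (wedge f) = Matrix.det (Matrix.of fun i j => d j (f i)) :=
  (exists_formCoef d).choose_spec f

/-- If the derivations preserve `R` then the coefficients of the regular forms are in `R`. -/
theorem formCoef_mem {R : Subring F} {d : Fin n → Derivation ℂ F F}
    (hd : ∀ j, ∀ g ∈ R, d j g ∈ R) {η : Form F n} (hη : η ∈ formLattice R n) :
    formCoef d η ∈ R := by
  induction hη using Submodule.span_induction with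
  | mem x hx =>
    obtain ⟨f, hf, rfl⟩ := hx
    change formCoef d (wedge f) ∈ R
    rw [formCoef_wedge, Matrix.det_apply]
    refine R.sum_mem fun σ _ => ?_
    have h1 : ∏ i, (Matrix.of fun i j => d j (f i)) (σ i) i ∈ R :=
      R.prod_mem fun i _ => hd _ _ (hf _)
    rcases Int.units_eq_one_or (Equiv.Perm.sign σ) with h | h
    · rw [h, one_smul]
      exact h1
    · rw [h, Units.neg_smul, one_smul]
      exact R.neg_mem h1
  | zero => rw [map_zero]; exact R.zero_mem
  | add x y _ _ hx hy => rw [map_add]; exact R.add_mem hx hy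
  | smul a x _ hx =>
    change formCoef d ((a : F) • x) ∈ R
    rw [map_smul, smul_eq_mul]
    exact R.mul_mem a.2 hx

/-- Upper bound for the order of a form: if the derivations `d_j` preserve `R` and the coefficient
of `ω` is not zero, then `ord_R ω ≤ v(coefficient)`. -/
theorem le_of_formOrdGE {R : Subring F} (hR : IsDivisorial R) {d : Fin n → Derivation ℂ F F}
    (hd : ∀ j, ∀ g ∈ R, d j g ∈ R) {ω : Form F n} (h0 : formCoef d ω ≠ 0) {k : ℤ}
    (hk : FormOrdGE R ω k) : k ≤ vord R (formCoef d ω) := by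
  obtain ⟨g, hg, η, hη, rfl⟩ := hk
  obtain ⟨hg0, hgk⟩ := (hasOrd_iff hR).1 hg
  rw [map_smul, smul_eq_mul] at h0 ⊢
  have h1 : formCoef d η ≠ 0 := fun h => h0 (by rw [h, mul_zero])
  rw [vord_mul hR hg0 h1, hgk]
  have h2 := (mem_iff hR).1 (formCoef_mem hd hη)
  rcases h2 with h2 | h2
  · exact absurd h2 h1
  · linarith

theorem IsCoord.wedge_ne_zero {z : Fin n → F} (hz : IsCoord z) : wedge z ≠ 0 := by
  intro h
  have h1 := formCoef_wedge hz.pd z
  rw [h, map_zero] at h1
  have h2 : (Matrix.of fun i j : Fin n => hz.pd j (z i)) = 1 := by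
    ext i j
    rw [Matrix.of_apply, hz.pd_apply, Matrix.one_apply]
    by_cases hij : j = i
    · rw [if_pos hij, if_pos hij.symm]
    · rw [if_neg hij, if_neg (Ne.symm hij)]
  rw [h2, Matrix.det_one] at h1
  exact zero_ne_one h1

end Pool.Agent.MP_5c6cc8_ag
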