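import Pool.Agent.MP_5c6cc8_ag.Chart1
import Pool.Agent.MP_5c6cc8_ag.Deriv

/-! # Row Chart2: forms in a chart, the divisor `z₀ = 0` -/

open MvPolynomial

namespace Pool.Agent.MP_5c6cc8_ag

variable {F : Type} [Field F] [Algebra ℂ F] {n : ℕ}

variable {z : Fin n → F} (hz : IsCoord z) {π : MvPolynomial (Fin n) ℂ} (hπ : Prime π)

/-- The partial derivatives preserve the ring: use `IsCoord.pd_aeval` and the quotient rule
(`Derivation.leibniz_div`). -/
theorem pd_mem_chartRing (j : Fin n) {g : F} (hg : g ∈ chartRing hz hπ) :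
    hz.pd j g ∈ chartRing hz hπ := by
  obtain ⟨p, q, hq, rfl⟩ := (mem_chartRing hz hπ).1 hg
  have hq0 : q ≠ 0 := fun h => hq (h ▸ dvd_zero π)
  have hq0' : aeval z q ≠ 0 := hz.aeval_ne_zero hq0
  refine (mem_chartRing hz hπ).2 ⟨q * pderiv j p - p * pderiv j q, q * q, ?_, ?_⟩
  · intro h
    rcases hπ.dvd_or_dvd h with h1 | h1
    · exact hq h1
    · exact hq h1
  · rw [Derivation.leibniz_div, hz.pd_aeval, hz.pd_aeval]
    simp only [map_sub, map_mul, smul_eq_mul]
    field_simp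

/-- `ord (c ⋅ dz₁ ∧ … ∧ dzₙ) = v(c)`. For the upper bound use `le_of_formOrdGE` with the partial
derivatives: the coefficient of `wedge z` is the determinant of the identity matrix. -/
theorem hasFormOrd_chart {c : F} (hc : c ≠ 0) :
    HasFormOrd (chartRing hz hπ) (c • wedge z) (vord (chartRing hz hπ) c) := by
  have hR := chartRing_isDivisorial hz hπ
  have h1 := (hasFormOrd_smul_iff (ω := wedge z) hR hc 0).2 ?_
  · rw [zero_add] at h1
    exact h1
  refine ⟨(formOrdGE_zero_iff hR).2 (mem_formLattice_wedge z fun i => ?_), fun k hk => ?_⟩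
  · have h2 := aeval_mem_chartRing hz hπ (X i)
    rwa [aeval_X] at h2
  · have h3 : formCoef hz.pd (wedge z) = 1 := by
      rw [formCoef_wedge]
      have h4 : (Matrix.of fun i j => hz.pd j (z i)) = (1 : Matrix (Fin n) (Fin n) F) := by
        ext i j
        rw [Matrix.of_apply, hz.pd_apply, Matrix.one_apply]
        by_cases hij : i = j
        · rw [if_pos hij, if_pos hij.symm]
        · rw [if_neg hij, if_neg (Ne.symm hij)]
      rw [h4, Matrix.det_one]
    have h5 := le_of_formOrdGE hR (d := hz.pd) (fun j g hg => pd_mem_chartRing hz hπ j hg)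
      (ω := wedge z) (by rw [h3]; exact one_ne_zero) hk
    rwa [h3, vord_one hR] at h5

/-- A polynomial function `p(z)` is a unit at the divisor `z₀ = 0` as soon as `p` does not vanish
at some point `c ∈ ℂⁿ` with `c 0 = 0`. -/
theorem not_X_dvd_of_eval_ne_zero {n : ℕ} {p : MvPolynomial (Fin (n + 1)) ℂ}
    (c : Fin (n + 1) → ℂ) (hc : c 0 = 0) (h : eval c p ≠ 0) :
    ¬ (X 0 : MvPolynomial (Fin (n + 1)) ℂ) ∣ p := by
  rintro ⟨r, rfl⟩
  apply h
  rw [map_mul, eval_X, hc, zero_mul]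

theorem prime_X0 (n : ℕ) : Prime (X 0 : MvPolynomial (Fin (n + 1)) ℂ) := by
  exact X_prime

/-- The divisor `z₀ = 0`. -/
noncomputable def divX {n : ℕ} {z : Fin (n + 1) → F} (hz : IsCoord z) : Subring F :=
  chartRing hz (prime_X0 n)

theorem divX_isDivisorial {n : ℕ} {z : Fin (n + 1) → F} (hz : IsCoord z) :
    IsDivisorial (divX hz) := chartRing_isDivisorial hz _

/-- The basic computation of orders along `z₀ = 0`: if `f q(z) = z₀^m p(z)` with `p, q` not
vanishing identically on `z₀ = 0` (tested at the points `c`, `c'`), then `ord f = m`. -/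
theorem vord_divX {n : ℕ} {z : Fin (n + 1) → F} (hz : IsCoord z) {f : F} {m : ℤ}
    (p q : MvPolynomial (Fin (n + 1)) ℂ) (c c' : Fin (n + 1) → ℂ) (hc : c 0 = 0) (hc' : c' 0 = 0)
    (hp : eval c p ≠ 0) (hq : eval c' q ≠ 0) (hf : f * aeval z q = z 0 ^ m * aeval z p) :
    f ≠ 0 ∧ vord (divX hz) f = m := by
  have hp' := not_X_dvd_of_eval_ne_zero c hc hp
  have hq' := not_X_dvd_of_eval_ne_zero c' hc' hq
  have hp0 : p ≠ 0 := fun h => hp' (h ▸ dvd_zero _)
  have hq0 : q ≠ 0 := fun h => hq' (h ▸ dvd_zero _)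
  have hap := hz.aeval_ne_zero hp0
  have haq := hz.aeval_ne_zero hq0
  have hX : z 0 = aeval z (X 0 : MvPolynomial (Fin (n + 1)) ℂ) := (aeval_X z 0).symm
  have hz0 : z 0 ≠ 0 := by
    rw [hX]
    exact hz.aeval_ne_zero (prime_X0 n).ne_zero
  have hf' : f = aeval z (X 0 : MvPolynomial (Fin (n + 1)) ℂ) ^ m * (aeval z p / aeval z q) := by
    rw [← hX, ← mul_div_assoc, ← hf, mul_div_cancel_right₀ _ haq]
  refine ⟨?_, ?_⟩
  · rw [hf', ← hX]
    exact mul_ne_zero (zpow_ne_zero m hz0) (div_ne_zero hap haq)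
  · rw [hf']
    exact vord_chart hz (prime_X0 n) hp' hq'

/-- If `f q(z) = z₀^m p(z)` with `q` not vanishing identically on `z₀ = 0`, then `f = 0` or
`ord f ≥ m`. -/
theorem le_vord_divX {n : ℕ} {z : Fin (n + 1) → F} (hz : IsCoord z) {f : F} {m : ℤ}
    (p q : MvPolynomial (Fin (n + 1)) ℂ) (c' : Fin (n + 1) → ℂ) (hc' : c' 0 = 0)
    (hq : eval c' q ≠ 0) (hf : f * aeval z q = z 0 ^ m * aeval z p) :
    f = 0 ∨ m ≤ vord (divX hz) f := by
  by_cases hf0 : f = 0
  · exact Or.inl hf0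
  right
  have hR := divX_isDivisorial hz
  have hq' := not_X_dvd_of_eval_ne_zero c' hc' hq
  have hq0 : q ≠ 0 := fun h => hq' (h ▸ dvd_zero _)
  have haq := hz.aeval_ne_zero hq0
  have hX : z 0 = aeval z (X 0 : MvPolynomial (Fin (n + 1)) ℂ) := (aeval_X z 0).symm
  have hz0 : z 0 ≠ 0 := by
    rw [hX]
    exact hz.aeval_ne_zero (prime_X0 n).ne_zero
  have hap : aeval z p ≠ 0 := by
    intro h
    rw [h, mul_zero] at hf
    rcases mul_eq_zero.1 hf with h1 | h1
    · exact hf0 h1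
    · exact haq h1
  have h1 := congrArg (vord (divX hz)) hf
  rw [vord_mul hR hf0 haq, vord_mul hR (zpow_ne_zero m hz0) hap, vord_zpow hR] at h1
  have h2 : vord (divX hz) (aeval z q) = 0 := vord_chart_aeval hz (prime_X0 n) hq'
  have h3 : vord (divX hz) (z 0) = 1 := by
    rw [hX]
    exact vord_chart_pi hz (prime_X0 n)
  have h4 : 0 ≤ vord (divX hz) (aeval z p) := vord_chart_nonneg hz (prime_X0 n) p
  rw [h2, h3] at h1
  linarith

end Pool.Agent.MP_5c6cc8_ag
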