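import Pool.Agent.MP_5c6cc8_ag.Coord1

/-! # Row Coord2: change of coordinates -/

open MvPolynomial

namespace Pool.Agent.MP_5c6cc8_ag

variable {F : Type} [Field F] [Algebra ℂ F] {n : ℕ}

theorem coord2_alg {ι : Type} {z : ι → F} (h : IntermediateField.adjoin ℂ (Set.range z) = ⊤) :
    Algebra.IsAlgebraic (Algebra.adjoin ℂ (Set.range z)) F := by
  refine ⟨fun f => ?_⟩
  have hf : f ∈ IntermediateField.adjoin ℂ (Set.range z) := by
    rw [h]
    exact IntermediateField.mem_top
  obtain ⟨p, hp, q, hq, rfl⟩ := IntermediateField.mem_adjoin_iff_div.1 hf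
  have h1 : IsAlgebraic (Algebra.adjoin ℂ (Set.range z)) p :=
    isAlgebraic_algebraMap (⟨p, hp⟩ : Algebra.adjoin ℂ (Set.range z))
  have h2 : IsAlgebraic (Algebra.adjoin ℂ (Set.range z)) q :=
    isAlgebraic_algebraMap (⟨q, hq⟩ : Algebra.adjoin ℂ (Set.range z))
  rw [div_eq_mul_inv]
  exact h1.mul h2.inv

theorem IsCoord.trdeg {z : Fin n → F} (hz : IsCoord z) : Algebra.trdeg ℂ F = n := by
  have := coord2_alg hz.adjoin_eq
  have h1 := hz.indep.isTranscendenceBasis_iff_isAlgebraic.2 this
  rw [← h1.cardinalMk_eq_trdeg, Cardinal.mk_fin]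

/-- Change of coordinates: `n` elements which generate a field of transcendence degree `n` are
algebraically independent. -/
theorem IsCoord.of_adjoin_eq {z z' : Fin n → F} (hz : IsCoord z)
    (h : IntermediateField.adjoin ℂ (Set.range z') = ⊤) : IsCoord z' := by
  have := coord2_alg h
  have h1 : IsTranscendenceBasis ℂ z' := by
    refine Algebra.IsAlgebraic.isTranscendenceBasis_of_le_trdeg_of_finite ℂ z' ?_
    rw [hz.trdeg, Cardinal.mk_fin]
  exact ⟨h1.1, h⟩

/-- Change of coordinates: it is enough that the `z i` are rational functions of the `z' i`. -/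
theorem IsCoord.change {z z' : Fin n → F} (hz : IsCoord z)
    (h : ∀ i, z i ∈ IntermediateField.adjoin ℂ (Set.range z')) : IsCoord z' := by
  refine hz.of_adjoin_eq ?_
  rw [eq_top_iff, ← hz.adjoin_eq, IntermediateField.adjoin_le_iff]
  rintro _ ⟨i, rfl⟩
  exact h i

end Pool.Agent.MP_5c6cc8_ag
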