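import Pool.Agent.MP_5c6cc8_ag.Val
import Pool.Agent.MP_5c6cc8_ag.Coord

/-! # Row Chart1: the valuation ring of a prime polynomial -/

open MvPolynomial

namespace Pool.Agent.MP_5c6cc8_ag

variable {F : Type} [Field F] [Algebra ℂ F] {n : ℕ}

/-! ### Helper lemmas -/

theorem chart1_ne {z : Fin n → F} (hz : IsCoord z) {π q : MvPolynomial (Fin n) ℂ}
    (hq : ¬ π ∣ q) : aeval z q ≠ 0 := by
  apply hz.aeval_ne_zero
  rintro rfl
  exact hq (dvd_zero _)

theorem chart1_not_dvd_one {π : MvPolynomial (Fin n) ℂ} (hπ : Prime π) :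
    ¬ π ∣ (1 : MvPolynomial (Fin n) ℂ) := fun h => hπ.not_isUnit (isUnit_of_dvd_one h)

theorem chart1_mul {π p q : MvPolynomial (Fin n) ℂ} (hπ : Prime π) (hp : ¬ π ∣ p)
    (hq : ¬ π ∣ q) : ¬ π ∣ p * q := fun h => (hπ.dvd_or_dvd h).elim hp hq

theorem chart1_inj {z : Fin n → F} (hz : IsCoord z) {p q : MvPolynomial (Fin n) ℂ}
    (h : aeval z p = aeval z q) : p = q := by
  by_contra hne
  have h1 : aeval z (p - q) ≠ 0 := hz.aeval_ne_zero (sub_ne_zero.2 hne)
  apply h1
  rw [map_sub, h, sub_self]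

/-- The local ring `ℂ[z₁, …, zₙ]_{(π)}`, for a prime polynomial `π`. -/
noncomputable def chartRing {z : Fin n → F} (hz : IsCoord z) {π : MvPolynomial (Fin n) ℂ}
    (hπ : Prime π) : Subring F where
  carrier := {f | ∃ p q : MvPolynomial (Fin n) ℂ, ¬ π ∣ q ∧ f = aeval z p / aeval z q}
  mul_mem' := by
    rintro f g ⟨p, q, hq, rfl⟩ ⟨p', q', hq', rfl⟩
    refine ⟨p * p', q * q', chart1_mul hπ hq hq', ?_⟩
    rw [map_mul, map_mul, div_mul_div_comm]
  one_mem' := by
    refine ⟨1, 1, chart1_not_dvd_one hπ, ?_⟩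
    rw [map_one, div_one]
  add_mem' := by
    rintro f g ⟨p, q, hq, rfl⟩ ⟨p', q', hq', rfl⟩
    refine ⟨p * q' + q * p', q * q', chart1_mul hπ hq hq', ?_⟩
    rw [div_add_div _ _ (chart1_ne hz hq) (chart1_ne hz hq'), map_add, map_mul, map_mul, map_mul]
  zero_mem' := by
    refine ⟨0, 1, chart1_not_dvd_one hπ, ?_⟩
    rw [map_zero, zero_div]
  neg_mem' := by
    rintro f ⟨p, q, hq, rfl⟩
    refine ⟨-p, q, hq, ?_⟩
    rw [map_neg, neg_div]

variable {z : Fin n → F} (hz : IsCoord z) {π : MvPolynomial (Fin n) ℂ} (hπ : Prime π)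

theorem mem_chartRing {f : F} : f ∈ chartRing hz hπ ↔
    ∃ p q : MvPolynomial (Fin n) ℂ, ¬ π ∣ q ∧ f = aeval z p / aeval z q := Iff.rfl

theorem chart1_aeval_mem (p : MvPolynomial (Fin n) ℂ) : aeval z p ∈ chartRing hz hπ :=
  ⟨p, 1, chart1_not_dvd_one hπ, by rw [map_one, div_one]⟩

include hz hπ in
theorem chart1_pi_ne : aeval z π ≠ 0 := hz.aeval_ne_zero hπ.ne_zero

include hπ in
theorem chart1_factor {p : MvPolynomial (Fin n) ℂ} (hp : p ≠ 0) : ∃ (k : ℕ)
    (p' : MvPolynomial (Fin n) ℂ), ¬ π ∣ p' ∧ p = π ^ k * p' := by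
  obtain ⟨k, p', h1, h2⟩ := WfDvdMonoid.max_power_factor hp hπ.irreducible
  exact ⟨k, p', h1, h2⟩

include hz hπ in
theorem chart1_exists {f : F} (hf : f ≠ 0) : ∃ (m : ℤ) (p q : MvPolynomial (Fin n) ℂ),
    ¬ π ∣ p ∧ ¬ π ∣ q ∧ f = aeval z π ^ m * (aeval z p / aeval z q) := by
  obtain ⟨p, q, hq, rfl⟩ := hz.exists_div f
  have hp : p ≠ 0 := by
    rintro rfl
    apply hf
    rw [map_zero, zero_div]
  obtain ⟨k, p', hp', rfl⟩ := chart1_factor hπ hp
  obtain ⟨l, q', hq', rfl⟩ := chart1_factor hπ hq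
  refine ⟨(k : ℤ) - l, p', q', hp', hq', ?_⟩
  have h0 := chart1_pi_ne hz hπ
  rw [zpow_sub₀ h0, zpow_natCast, zpow_natCast, map_mul, map_mul, map_pow, map_pow,
    div_mul_div_comm]

theorem chart1_unit {p q : MvPolynomial (Fin n) ℂ} (hp : ¬ π ∣ p) (hq : ¬ π ∣ q) :
    IsUnitIn (chartRing hz hπ) (aeval z p / aeval z q) :=
  ⟨div_ne_zero (chart1_ne hz hp) (chart1_ne hz hq), ⟨p, q, hq, rfl⟩, ⟨q, p, hp, inv_div _ _⟩⟩

include hz hπ in
/-- an element of the ring with a unit as product with a power of `π` -/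
theorem chart1_pow_unit {m : ℕ} {a b p q : MvPolynomial (Fin n) ℂ} (hb : ¬ π ∣ b)
    (hp : ¬ π ∣ p) (h : aeval z π ^ m * (aeval z a / aeval z b) = aeval z p / aeval z q) (hq : ¬ π ∣ q) :
    m = 0 := by
  have h1 : aeval z (π ^ m * a * q) = aeval z (p * b) := by
    have hb0 := chart1_ne hz hb
    have hq0 := chart1_ne hz hq
    rw [map_mul, map_mul, map_mul, map_pow]
    field_simp at h
    linear_combination h
  have h2 := chart1_inj hz h1
  by_contra hm
  apply chart1_mul hπ hp hb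
  rw [← h2]
  obtain ⟨m', rfl⟩ := Nat.exists_eq_succ_of_ne_zero hm
  rw [pow_succ']
  exact ⟨π ^ m' * a * q, by ring⟩

theorem chart1_irreducible :
    Irreducible (⟨aeval z π, chart1_aeval_mem hz hπ π⟩ : chartRing hz hπ) := by
  have h0 := chart1_pi_ne hz hπ
  constructor
  · intro hu
    obtain ⟨⟨b, p, q, hq, rfl⟩, hb⟩ := hu.exists_right_inv
    have h1 : aeval z π * (aeval z p / aeval z q) = 1 := congrArg Subtype.val hb
    have h2 : (1 : ℕ) = 0 := by
      refine chart1_pow_unit hz hπ (a := p) (b := q) (p := 1) (q := 1) hq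
        (chart1_not_dvd_one hπ) ?_ (chart1_not_dvd_one hπ)
      rw [pow_one, h1, map_one, div_one]
    exact one_ne_zero h2
  · rintro ⟨a, ha⟩ ⟨b, hb⟩ hab
    have h1 : aeval z π = a * b := congrArg Subtype.val hab
    have hunit : ∀ {c : F} (hc : c ∈ chartRing hz hπ), c ≠ 0 →
        (∃ k : ℕ, ∃ p q : MvPolynomial (Fin n) ℂ, ¬ π ∣ p ∧ ¬ π ∣ q ∧
          c = aeval z π ^ k * (aeval z p / aeval z q)) := by
      rintro c ⟨p, q, hq, rfl⟩ hc0
      have hp : p ≠ 0 := by
        rintro rfl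
        apply hc0
        rw [map_zero, zero_div]
      obtain ⟨k, p', hp', rfl⟩ := chart1_factor hπ hp
      refine ⟨k, p', q, hp', hq, ?_⟩
      rw [map_mul, map_pow, mul_div_assoc]
    have ha0 : a ≠ 0 := by
      rintro rfl
      apply h0
      rw [h1, zero_mul]
    have hb0 : b ≠ 0 := by
      rintro rfl
      apply h0
      rw [h1, mul_zero]
    obtain ⟨k, p, q, hp, hq, rfl⟩ := hunit ha ha0
    obtain ⟨l, p', q', hp', hq', rfl⟩ := hunit hb hb0
    have hkl : k = 0 ∨ l = 0 := by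
      by_contra hcon
      push Not at hcon
      obtain ⟨k', rfl⟩ := Nat.exists_eq_succ_of_ne_zero hcon.1
      obtain ⟨l', rfl⟩ := Nat.exists_eq_succ_of_ne_zero hcon.2
      have h2 : (k' + l' + 1) = 0 := by
        refine chart1_pow_unit hz hπ (a := p * p') (b := q * q') (p := 1) (q := 1)
          (chart1_mul hπ hq hq') (chart1_not_dvd_one hπ) ?_ (chart1_not_dvd_one hπ)
        apply mul_left_cancel₀ h0
        rw [map_one, div_one, mul_one, map_mul, map_mul]
        conv_rhs => rw [h1]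
        rw [← div_mul_div_comm, pow_succ, pow_succ, pow_succ, pow_add]
        ring
      omega
    have key : ∀ {k : ℕ} {p q : MvPolynomial (Fin n) ℂ}, ¬ π ∣ p → ¬ π ∣ q → k = 0 →
        ∀ hc : aeval z π ^ k * (aeval z p / aeval z q) ∈ chartRing hz hπ,
          IsUnit (⟨_, hc⟩ : chartRing hz hπ) := by
      intro k p q hp hq hk hc
      subst hk
      refine IsUnit.of_mul_eq_one (⟨aeval z q / aeval z p, q, p, hp, rfl⟩ : chartRing hz hπ) ?_
      apply Subtype.ext
      change aeval z π ^ 0 * (aeval z p / aeval z q) * (aeval z q / aeval z p) = 1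
      have hp0 := chart1_ne hz hp
      have hq0 := chart1_ne hz hq
      field_simp
    rcases hkl with h2 | h2
    · exact Or.inl (key hp hq h2 ha)
    · exact Or.inr (key hp' hq' h2 hb)

/-- It is a divisorial valuation ring; for `essFinite` take `T = {z₁, …, zₙ}`. -/
theorem chartRing_isDivisorial : IsDivisorial (chartRing hz hπ) := by
  classical
  have h0 := chart1_pi_ne hz hπ
  refine ⟨?_, ?_, ?_⟩
  · apply IsDiscreteValuationRing.ofHasUnitMulPowIrreducibleFactorization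
    refine ⟨_, chart1_irreducible hz hπ, ?_⟩
    rintro ⟨f, p, q, hq, rfl⟩ hf
    have hp : p ≠ 0 := by
      rintro rfl
      apply hf
      apply Subtype.ext
      change aeval z 0 / aeval z q = 0
      rw [map_zero, zero_div]
    obtain ⟨k, p', hp', rfl⟩ := chart1_factor hπ hp
    refine ⟨k, ?_⟩
    have hu : IsUnit (⟨aeval z p' / aeval z q, p', q, hq, rfl⟩ : chartRing hz hπ) := by
      refine IsUnit.of_mul_eq_one (⟨aeval z q / aeval z p', q, p', hp', rfl⟩ : chartRing hz hπ) ?_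
      apply Subtype.ext
      change (aeval z p' / aeval z q) * (aeval z q / aeval z p') = 1
      have hp0 := chart1_ne hz hp'
      have hq0 := chart1_ne hz hq
      field_simp
    refine ⟨hu.unit, ?_⟩
    apply Subtype.ext
    change aeval z π ^ k * (aeval z p' / aeval z q) = aeval z (π ^ k * p') / aeval z q
    rw [map_mul, map_pow, mul_div_assoc]
  · intro g
    by_cases hg : g = 0
    · left
      rw [hg]
      exact zero_mem _
    · obtain ⟨m, p, q, hp, hq, rfl⟩ := chart1_exists hz hπ hg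
      rcases le_total 0 m with hm | hm
      · left
        obtain ⟨k, rfl⟩ := Int.eq_ofNat_of_zero_le hm
        rw [zpow_natCast]
        exact mul_mem (pow_mem (chart1_aeval_mem hz hπ π) k) (chart1_unit hz hπ hp hq).2.1
      · right
        obtain ⟨k, hk⟩ := Int.eq_ofNat_of_zero_le (neg_nonneg.2 hm)
        have h1 : (aeval z π ^ m * (aeval z p / aeval z q))⁻¹ =
            aeval z π ^ k * (aeval z q / aeval z p) := by
          rw [mul_inv, ← zpow_neg, hk, zpow_natCast, inv_div]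
        rw [h1]
        exact mul_mem (pow_mem (chart1_aeval_mem hz hπ π) k) (chart1_unit hz hπ hq hp).2.1
  · have h1 : ((Finset.univ.image z : Finset F) : Set F) = Set.range z := by
      rw [Finset.coe_image, Finset.coe_univ, Set.image_univ]
    refine ⟨Finset.univ.image z, ?_, ?_⟩
    · rw [h1, Algebra.adjoin_range_eq_range_aeval]
      rintro _ ⟨p, rfl⟩
      exact chart1_aeval_mem hz hπ p
    · rintro g ⟨p, q, hq, rfl⟩
      rw [h1, Algebra.adjoin_range_eq_range_aeval]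
      refine ⟨aeval z p, ⟨p, rfl⟩, aeval z q, ⟨q, rfl⟩, ⟨chart1_ne hz hq, ?_, ?_⟩, rfl⟩
      · exact chart1_aeval_mem hz hπ q
      · exact ⟨1, q, hq, by rw [map_one, one_div]⟩

theorem aeval_mem_chartRing (p : MvPolynomial (Fin n) ℂ) : aeval z p ∈ chartRing hz hπ :=
  chart1_aeval_mem hz hπ p

include hz hπ in
/-- Every nonzero `f` is `π^m p / q` with `p, q` not divisible by `π`. -/
theorem exists_eq_chart {f : F} (hf : f ≠ 0) : ∃ (m : ℤ) (p q : MvPolynomial (Fin n) ℂ),
    ¬ π ∣ p ∧ ¬ π ∣ q ∧ f = aeval z π ^ m * (aeval z p / aeval z q) :=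
  chart1_exists hz hπ hf

theorem chart1_vord {m : ℤ} {p q : MvPolynomial (Fin n) ℂ} (hp : ¬ π ∣ p) (hq : ¬ π ∣ q) :
    vord (chartRing hz hπ) (aeval z π ^ m * (aeval z p / aeval z q)) = m := by
  refine ((hasOrd_iff (chartRing_isDivisorial hz hπ)).1
    ⟨_, chart1_irreducible hz hπ, ?_⟩).2
  have h0 := chart1_pi_ne hz hπ
  have h1 : aeval z π ^ m * (aeval z p / aeval z q) / aeval z π ^ m = aeval z p / aeval z q := by
    rw [mul_div_right_comm, div_self (zpow_ne_zero m h0), one_mul]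
  change IsUnitIn _ (aeval z π ^ m * (aeval z p / aeval z q) / aeval z π ^ m)
  rw [h1]
  exact chart1_unit hz hπ hp hq

theorem vord_chart_pi : vord (chartRing hz hπ) (aeval z π) = 1 := by
  have h := chart1_vord hz hπ (m := 1) (chart1_not_dvd_one hπ) (chart1_not_dvd_one hπ)
  rwa [zpow_one, map_one, div_one, mul_one] at h

theorem vord_chart_aeval {p : MvPolynomial (Fin n) ℂ} (hp : ¬ π ∣ p) :
    vord (chartRing hz hπ) (aeval z p) = 0 := by
  have h := chart1_vord hz hπ (m := 0) hp (chart1_not_dvd_one hπ)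
  rwa [zpow_zero, map_one, div_one, one_mul] at h

theorem vord_chart {m : ℤ} {p q : MvPolynomial (Fin n) ℂ} (hp : ¬ π ∣ p) (hq : ¬ π ∣ q) :
    vord (chartRing hz hπ) (aeval z π ^ m * (aeval z p / aeval z q)) = m :=
  chart1_vord hz hπ hp hq

theorem chart1_vord_pow {p : MvPolynomial (Fin n) ℂ} (k : ℕ) (hp : ¬ π ∣ p) :
    vord (chartRing hz hπ) (aeval z (π ^ k * p)) = k := by
  have h := chart1_vord hz hπ (m := k) hp (chart1_not_dvd_one hπ)
  rwa [zpow_natCast, map_one, div_one, ← map_pow, ← map_mul] at h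

theorem vord_chart_nonneg (p : MvPolynomial (Fin n) ℂ) :
    0 ≤ vord (chartRing hz hπ) (aeval z p) := by
  by_cases hp : p = 0
  · rw [hp, map_zero, vord_zero]
  · obtain ⟨k, p', hp', rfl⟩ := chart1_factor hπ hp
    rw [chart1_vord_pow hz hπ k hp']
    exact Int.natCast_nonneg k

theorem vord_chart_pos {p : MvPolynomial (Fin n) ℂ} (hp : π ∣ p) (hp0 : p ≠ 0) :
    0 < vord (chartRing hz hπ) (aeval z p) := by
  obtain ⟨k, p', hp', rfl⟩ := chart1_factor hπ hp0
  rw [chart1_vord_pow hz hπ k hp']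
  have hk : k ≠ 0 := by
    rintro rfl
    rw [pow_zero, one_mul] at hp
    exact hp' hp
  omega

end Pool.Agent.MP_5c6cc8_ag
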