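import Pool.Agent.MP_5c6cc8_ag.Clust1

/-! # Row Clust2: congruences modulo the maximal ideal -/

open MvPolynomial

namespace Pool.Agent.MP_5c6cc8_ag

variable {L : Type} [Field L] [Algebra ℂ L] {x : Fin 5 → L} {E : Subring L}

/-- `f ≡ c` modulo the maximal ideal: `f - c = 0` or `v(f - c) > 0`. -/
def Cong (E : Subring L) (f c : L) : Prop := f = c ∨ 0 < vord E (f - c)

/-- elements of the maximal ideal -/
def clust2_small (E : Subring L) (z : L) : Prop := z = 0 ∨ 0 < vord E z

theorem clust2_iff {f c : L} : Cong E f c ↔ clust2_small E (f - c) := by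
  unfold Cong clust2_small
  rw [sub_eq_zero]

theorem clust2_add (hE : IsDivisorial E) {z z' : L} (h : clust2_small E z)
    (h' : clust2_small E z') : clust2_small E (z + z') := by
  rcases h with rfl | h
  · rwa [zero_add]
  rcases h' with rfl | h'
  · rw [add_zero]
    exact Or.inr h
  by_cases hz : z = 0
  · subst hz
    rw [vord_zero] at h
    exact absurd h (lt_irrefl _)
  by_cases hz' : z' = 0
  · subst hz'
    rw [vord_zero] at h'
    exact absurd h' (lt_irrefl _)
  by_cases hs : z + z' = 0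
  · exact Or.inl hs
  · right
    exact lt_of_lt_of_le (lt_min h h') (vord_add hE hz hz' hs)

theorem clust2_mul (hE : IsDivisorial E) {z y : L} (h : clust2_small E z) (hy : y ∈ E) :
    clust2_small E (z * y) := by
  rcases h with rfl | h
  · left
    rw [zero_mul]
  by_cases hz : z = 0
  · left
    rw [hz, zero_mul]
  by_cases hy0 : y = 0
  · left
    rw [hy0, mul_zero]
  right
  rw [vord_mul hE hz hy0]
  rcases (mem_iff hE).1 hy with h1 | h1
  · exact absurd h1 hy0
  · omega

theorem clust2_neg (hE : IsDivisorial E) {z : L} (h : clust2_small E z) :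
    clust2_small E (-z) := by
  rcases h with rfl | h
  · left
    rw [neg_zero]
  · right
    rwa [vord_neg hE]

theorem clust2_mem (hE : IsDivisorial E) {z : L} (h : clust2_small E z) : z ∈ E := by
  rw [mem_iff hE]
  exact h.imp id le_of_lt

theorem Cong.refl (f : L) : Cong E f f := Or.inl rfl

theorem Cong.symm (hE : IsDivisorial E) {f g : L} (h : Cong E f g) : Cong E g f := by
  rw [clust2_iff] at h ⊢
  rw [← neg_sub]
  exact clust2_neg hE h

theorem Cong.trans (hE : IsDivisorial E) {f g h : L} (h1 : Cong E f g) (h2 : Cong E g h) :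
    Cong E f h := by
  rw [clust2_iff] at h1 h2 ⊢
  rw [show f - h = (f - g) + (g - h) by ring]
  exact clust2_add hE h1 h2

theorem Cong.add (hE : IsDivisorial E) {f g f' g' : L} (h : Cong E f g) (h' : Cong E f' g') :
    Cong E (f + f') (g + g') := by
  rw [clust2_iff] at h h' ⊢
  rw [show f + f' - (g + g') = (f - g) + (f' - g') by ring]
  exact clust2_add hE h h'

theorem Cong.neg (hE : IsDivisorial E) {f g : L} (h : Cong E f g) : Cong E (-f) (-g) := by
  rw [clust2_iff] at h ⊢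
  rw [show -f - -g = -(f - g) by ring]
  exact clust2_neg hE h

theorem Cong.mul (hE : IsDivisorial E) {f g f' g' : L} (h : Cong E f g) (h' : Cong E f' g')
    (hg : g ∈ E) (hf' : f' ∈ E) : Cong E (f * f') (g * g') := by
  rw [clust2_iff] at h h' ⊢
  rw [show f * f' - g * g' = (f - g) * f' + (f' - g') * g by ring]
  exact clust2_add hE (clust2_mul hE h hf') (clust2_mul hE h' hg)

/-- If `f ≡ c` with `v(c) = 0`, then `f ≠ 0` and `v(f) = 0`. -/
theorem Cong.vord_eq (hE : IsDivisorial E) {f c : L} (h : Cong E f c) (hc : c ≠ 0)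
    (hc0 : vord E c = 0) : f ≠ 0 ∧ vord E f = 0 := by
  rw [clust2_iff] at h
  have h1 := vord_add_eq hE (g := c) (h := f - c) hc (by rw [hc0]; exact h)
  rw [add_sub_cancel, hc0] at h1
  exact h1

theorem Cong.inv (hE : IsDivisorial E) {f g : L} (h : Cong E f g) (hg : g ≠ 0)
    (hg0 : vord E g = 0) : Cong E f⁻¹ g⁻¹ := by
  obtain ⟨hf, hf0⟩ := h.vord_eq hE hg hg0
  rw [clust2_iff] at h ⊢
  have e : f⁻¹ - g⁻¹ = -((f - g) * (f⁻¹ * g⁻¹)) := by
    field_simp
    ring
  rw [e]
  refine clust2_neg hE (clust2_mul hE h ?_)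
  rw [mem_iff hE]
  right
  rw [vord_mul hE (inv_ne_zero hf) (inv_ne_zero hg), vord_inv hE, vord_inv hE, hf0, hg0]
  norm_num

theorem Cong.mem (hE : IsDivisorial E) {f c : L} (h : Cong E f c) (hc : c ∈ E) : f ∈ E := by
  rw [clust2_iff] at h
  have h1 := E.add_mem hc (clust2_mem hE h)
  rwa [add_sub_cancel] at h1

/-- On the section `S_j`: `x_{j+1} ≡ -1`, `x_{j+4} ≡ -1`, `x_{j+3} / x_{j+2} ≡ -1` and
`∏ x_k ≡ W' = x_j x_{j+2} x_{j+3}`. Proof: `1 + x_{j+1} = x_j x_{j+2}`,
`1 + x_{j+4} = x_{j+3} x_j` have valuation `m > 0`;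
`x_{j+3} / x_{j+2} + 1 = (W' - 1) / x_{j+2}` with `v(W') = 0`; and
`∏ x_k - W' = W' (x_{j+1} x_{j+4} - 1)`. -/
theorem SecPattern.cong1 (hE : IsDivisorial E) (h : IsCluster x) {j : Fin 5} {m : ℤ}
    (hp : SecPattern E x j m) : Cong E (x (j + 1)) (-1) := by
  have h1 := h.rel (j + 1)
  have e1 : (j + 1 - 1 : Fin 5) = j := by fin_cases j <;> rfl
  have e2 : (j + 1 + 1 : Fin 5) = j + 2 := by fin_cases j <;> rfl
  rw [e1, e2] at h1
  right
  rw [sub_neg_eq_add, add_comm, ← h1, vord_mul hE (h.ne_zero _) (h.ne_zero _), hp.v0, hp.v2]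
  have := hp.pos
  omega

theorem SecPattern.cong4 (hE : IsDivisorial E) (h : IsCluster x) {j : Fin 5} {m : ℤ}
    (hp : SecPattern E x j m) : Cong E (x (j + 4)) (-1) := by
  have h1 := h.rel (j + 4)
  have e1 : (j + 4 - 1 : Fin 5) = j + 3 := by fin_cases j <;> rfl
  have e2 : (j + 4 + 1 : Fin 5) = j := by fin_cases j <;> rfl
  rw [e1, e2] at h1
  right
  rw [sub_neg_eq_add, add_comm, ← h1, vord_mul hE (h.ne_zero _) (h.ne_zero _), hp.v0, hp.v3]
  have := hp.pos
  omega

theorem clust2_W (hE : IsDivisorial E) (h : IsCluster x) {j : Fin 5} {m : ℤ}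
    (hp : SecPattern E x j m) : x j * x (j + 2) * x (j + 3) ∈ E := by
  rw [mem_iff hE]
  right
  rw [vord_mul hE (mul_ne_zero (h.ne_zero _) (h.ne_zero _)) (h.ne_zero _),
    vord_mul hE (h.ne_zero _) (h.ne_zero _), hp.v0, hp.v2, hp.v3]
  omega

theorem SecPattern.cong3 (hE : IsDivisorial E) (h : IsCluster x) {j : Fin 5} {m : ℤ}
    (hp : SecPattern E x j m) : Cong E (x (j + 3) / x (j + 2)) (-1) := by
  rw [clust2_iff]
  have hx := h.ne_zero (j + 2)
  have e : x (j + 3) / x (j + 2) - -1 = (x (j + 2))⁻¹ * (x j * x (j + 2) * x (j + 3) - 1) := by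
    rw [W_eq h j]
    field_simp
    ring
  rw [e]
  refine clust2_mul hE ?_ (E.sub_mem (clust2_W hE h hp) E.one_mem)
  right
  rw [vord_inv hE, hp.v2]
  have := hp.pos
  omega

theorem SecPattern.congW (hE : IsDivisorial E) (h : IsCluster x) {j : Fin 5} {m : ℤ}
    (hp : SecPattern E x j m) :
    Cong E (x 0 * x 1 * x 2 * x 3 * x 4) (x j * x (j + 2) * x (j + 3)) := by
  have hm1 : (-1 : L) ∈ E := E.neg_mem E.one_mem
  have h1 := Cong.mul hE (hp.cong1 hE h) (hp.cong4 hE h) hm1 ((hp.cong4 hE h).mem hE hm1)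
  rw [clust2_iff] at h1 ⊢
  rw [← prod_rotate x j]
  have e : x j * x (j + 1) * x (j + 2) * x (j + 3) * x (j + 4) - x j * x (j + 2) * x (j + 3) =
      (x (j + 1) * x (j + 4) - -1 * -1) * (x j * x (j + 2) * x (j + 3)) := by ring
  rw [e]
  exact clust2_mul hE h1 (clust2_W hE h hp)

end Pool.Agent.MP_5c6cc8_ag
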