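import Pool.Agent.MP_5c6cc8_ag.Setup

/-! # Row Clust1: valuations of the cluster variables -/

open MvPolynomial

namespace Pool.Agent.MP_5c6cc8_ag

variable {L : Type} [Field L] [Algebra ℂ L] {x : Fin 5 → L} {E : Subring L}

theorem clust1_e0 : ∀ j : Fin 5, j + 1 - 1 = j ∧ j + 1 + 1 = j + 2 := by decide
theorem clust1_e1 : ∀ j : Fin 5, j + 2 - 1 = j + 1 ∧ j + 2 + 1 = j + 3 := by decide
theorem clust1_e2 : ∀ j : Fin 5, j + 3 - 1 = j + 2 ∧ j + 3 + 1 = j + 4 := by decide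
theorem clust1_e3 : ∀ j : Fin 5, j + 4 - 1 = j + 3 ∧ j + 4 + 1 = j := by decide
theorem clust1_e4 : ∀ j : Fin 5, j - 1 = j + 4 := by decide
theorem clust1_e5 : ∀ j : Fin 5, j + 3 + 2 = j ∧ j + 3 + 3 = j + 1 ∧ j + 2 + 2 = j - 1 ∧
    j + 2 + 3 = j := by decide

theorem clust1_rel (h : IsCluster x) (j : Fin 5) :
    x j * x (j + 2) = 1 + x (j + 1) ∧ x (j + 1) * x (j + 3) = 1 + x (j + 2) ∧
    x (j + 2) * x (j + 4) = 1 + x (j + 3) ∧ x (j + 3) * x j = 1 + x (j + 4) ∧
    x (j + 4) * x (j + 1) = 1 + x j := by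
  have h0 := h.rel j
  have h1 := h.rel (j + 1)
  have h2 := h.rel (j + 2)
  have h3 := h.rel (j + 3)
  have h4 := h.rel (j + 4)
  rw [clust1_e4] at h0
  rw [(clust1_e0 j).1, (clust1_e0 j).2] at h1
  rw [(clust1_e1 j).1, (clust1_e1 j).2] at h2
  rw [(clust1_e2 j).1, (clust1_e2 j).2] at h3
  rw [(clust1_e3 j).1, (clust1_e3 j).2] at h4
  exact ⟨h1, h2, h3, h4, h0⟩

theorem IsCluster.rotate (h : IsCluster x) (j : Fin 5) : IsCluster (fun k => x (j + k)) := by
  refine ⟨fun k => ?_, fun k => h.ne_zero _, fun k => h.one_add_ne_zero _⟩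
  have := h.rel (j + k)
  rw [add_sub_assoc, add_assoc] at this
  exact this

/-- The product of all the `x j` does not change under rotation. -/
theorem prod_rotate (x : Fin 5 → L) (j : Fin 5) :
    x j * x (j + 1) * x (j + 2) * x (j + 3) * x (j + 4) = x 0 * x 1 * x 2 * x 3 * x 4 := by
  fin_cases j
  · show x 0 * x 1 * x 2 * x 3 * x 4 = _
    rfl
  · show x 1 * x 2 * x 3 * x 4 * x 0 = _
    ring
  · show x 2 * x 3 * x 4 * x 0 * x 1 = _
    ring
  · show x 3 * x 4 * x 0 * x 1 * x 2 = _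
    ring
  · show x 4 * x 0 * x 1 * x 2 * x 3 = _
    ring

/-- The pattern of the valuations on the section `S_j`, with `m = v(1 / x_{j+2})`. -/
structure SecPattern (E : Subring L) (x : Fin 5 → L) (j : Fin 5) (m : ℤ) : Prop where
  pos : 0 < m
  v0 : vord E (x j) = 2 * m
  v1 : vord E (x (j + 1)) = 0
  v2 : vord E (x (j + 2)) = -m
  v3 : vord E (x (j + 3)) = -m
  v4 : vord E (x (j + 4)) = 0

/-- If `v(y) < 0` and `u z = 1 + y` then `v(u) + v(z) = v(y)`. -/
theorem clust1_step (hE : IsDivisorial E) {u z y : L} (hu : u ≠ 0) (hz : z ≠ 0) (hy : y ≠ 0)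
    (h : u * z = 1 + y) (hneg : vord E y < 0) : vord E u + vord E z = vord E y := by
  rw [← vord_mul hE hu hz, h, add_comm]
  exact (vord_add_eq hE hy (Or.inr (by rw [vord_one hE]; exact hneg))).2

/-- The tropical analysis. Put `n_j = v(x_j)`, so `∑ n_j = 0`. If all `n_j ≥ 0` then all are `0`.
Otherwise some `n_j < 0`; then `n_{j-1} + n_{j+1} = v(1 + x_j) = n_j < 0` so one of the
neighbours is negative too: we have `n_{j+2}, n_{j+3} < 0` for some `j`; write `n_k` for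
`n_{j+k}`, i.e. assume `j = 0`: `n_2, n_3 < 0`. The relations `x_1 x_3 = 1 + x_2`,
`x_2 x_4 = 1 + x_3` give `n_1 = n_2 - n_3`, `n_4 = n_3 - n_2`, and the sum is zero so
`n_0 = - n_2 - n_3`. If `n_2 < n_3` then `n_1 < 0`, so `x_0 x_2 = 1 + x_1` gives
`n_0 = n_1 - n_2 = - n_3`, whence `n_2 = 0`, a contradiction. If `n_3 < n_2` then `n_4 < 0` and
`x_3 x_0 = 1 + x_4` gives `n_0 = n_4 - n_3 = - n_2`, whence `n_3 = 0`, a contradiction. So
`n_2 = n_3 = -m` and `n_1 = n_4 = 0`, `n_0 = 2 m`. -/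
theorem pattern (hE : IsDivisorial E) (h : IsCluster x)
    (h0 : vord E (x 0 * x 1 * x 2 * x 3 * x 4) = 0) :
    (∀ j, vord E (x j) = 0) ∨ ∃ j m, SecPattern E x j m := by
  have hn := h.ne_zero
  have hsum : ∀ j, vord E (x j) + vord E (x (j + 1)) + vord E (x (j + 2)) + vord E (x (j + 3)) +
      vord E (x (j + 4)) = 0 := by
    intro j
    rw [← prod_rotate x j] at h0
    rw [vord_mul hE (mul_ne_zero (mul_ne_zero (mul_ne_zero (hn _) (hn _)) (hn _)) (hn _)) (hn _),
      vord_mul hE (mul_ne_zero (mul_ne_zero (hn _) (hn _)) (hn _)) (hn _),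
      vord_mul hE (mul_ne_zero (hn _) (hn _)) (hn _), vord_mul hE (hn _) (hn _)] at h0
    exact h0
  have hmain : ∀ j, vord E (x (j + 2)) < 0 → vord E (x (j + 3)) < 0 →
      ∃ j m, SecPattern E x j m := by
    intro j h2 h3
    obtain ⟨r1, r2, r3, r4, r5⟩ := clust1_rel h j
    have s1 := clust1_step hE (hn _) (hn _) (hn _) r1
    have s2 := clust1_step hE (hn _) (hn _) (hn _) r2 h2
    have s3 := clust1_step hE (hn _) (hn _) (hn _) r3 h3
    have s4 := clust1_step hE (hn _) (hn _) (hn _) r4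
    have s := hsum j
    refine ⟨j, -vord E (x (j + 2)), ?_, ?_, ?_, ?_, ?_, ?_⟩ <;> omega
  by_cases hall : ∀ j, 0 ≤ vord E (x j)
  · left
    intro j
    have := hsum j
    have := hall j
    have := hall (j + 1)
    have := hall (j + 2)
    have := hall (j + 3)
    have := hall (j + 4)
    omega
  · right
    push Not at hall
    obtain ⟨k, hk⟩ := hall
    have hr := h.rel k
    have hs := clust1_step hE (hn _) (hn _) (hn _) hr hk
    by_cases hk1 : vord E (x (k + 1)) < 0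
    · refine hmain (k + 3) ?_ ?_
      · rw [(clust1_e5 k).1]; exact hk
      · rw [(clust1_e5 k).2.1]; exact hk1
    · refine hmain (k + 2) ?_ ?_
      · rw [(clust1_e5 k).2.2.1]; omega
      · rw [(clust1_e5 k).2.2.2]; exact hk

/-- The local coordinate `W' = x_j x_{j+2} x_{j+3} = 1 + x_{j+2} + x_{j+3}` at the section `S_j`. -/
theorem W_eq (h : IsCluster x) (j : Fin 5) :
    x j * x (j + 2) * x (j + 3) = 1 + x (j + 2) + x (j + 3) := by
  obtain ⟨r1, r2, r3, r4, r5⟩ := clust1_rel h j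
  linear_combination x (j + 3) * r1 + r2

theorem x4_eq (h : IsCluster x) (j : Fin 5) :
    x (j + 4) + 1 = (x (j + 2))⁻¹ * (1 + x (j + 2) + x (j + 3)) := by
  obtain ⟨r1, r2, r3, r4, r5⟩ := clust1_rel h j
  have h2 := h.ne_zero (j + 2)
  field_simp
  linear_combination r3

end Pool.Agent.MP_5c6cc8_ag
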