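import Pool.Agent.MP_5c6cc8_ag.Defs

/-! # Row Coord1: coordinate systems of a rational function field -/

open MvPolynomial

namespace Pool.Agent.MP_5c6cc8_ag

variable {F : Type} [Field F] [Algebra ℂ F] {n : ℕ}

/-- `F = ℂ(z₁, …, zₙ)` with `z₁, …, zₙ` algebraically independent. -/
structure IsCoord (z : Fin n → F) : Prop where
  indep : AlgebraicIndependent ℂ z
  adjoin_eq : IntermediateField.adjoin ℂ (Set.range z) = ⊤

theorem IsCoord.aeval_ne_zero {z : Fin n → F} (hz : IsCoord z) {p : MvPolynomial (Fin n) ℂ}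
    (hp : p ≠ 0) : aeval z p ≠ 0 := by
  intro h
  apply hp
  apply hz.indep
  rw [h, map_zero]

theorem IsCoord.exists_div {z : Fin n → F} (hz : IsCoord z) (f : F) :
    ∃ p q : MvPolynomial (Fin n) ℂ, q ≠ 0 ∧ f = aeval z p / aeval z q := by
  have h : f ∈ IntermediateField.adjoin ℂ (Set.range z) := by
    rw [hz.adjoin_eq]
    exact IntermediateField.mem_top
  obtain ⟨p, q, hpq⟩ := (IntermediateField.mem_adjoin_range_iff ℂ z f).1 h
  by_cases hq : q = 0
  · refine ⟨0, 1, one_ne_zero, ?_⟩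
    rw [hpq, hq, map_zero, div_zero, zero_div]
  · exact ⟨p, q, hq, hpq⟩

/-- `F` is the fraction field of `ℂ[z₁, …, zₙ]`. -/
theorem IsCoord.isFractionRing {z : Fin n → F} (hz : IsCoord z) :
    letI := (aeval z : MvPolynomial (Fin n) ℂ →ₐ[ℂ] F).toRingHom.toAlgebra
    IsFractionRing (MvPolynomial (Fin n) ℂ) F := by
  letI := (aeval z : MvPolynomial (Fin n) ℂ →ₐ[ℂ] F).toRingHom.toAlgebra
  have hinj : Function.Injective (algebraMap (MvPolynomial (Fin n) ℂ) F) := hz.indep
  haveI : FaithfulSMul (MvPolynomial (Fin n) ℂ) F := (faithfulSMul_iff_algebraMap_injective _ _).2 hinj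
  refine IsFractionRing.of_field (MvPolynomial (Fin n) ℂ) F fun f => ?_
  obtain ⟨p, q, _, h⟩ := hz.exists_div f
  exact ⟨p, q, h⟩

/-- Transport along an isomorphism of fields over `ℂ`. -/
theorem IsCoord.map {G : Type} [Field G] [Algebra ℂ G] {z : Fin n → F} (hz : IsCoord z)
    (e : F ≃+* G) (he : ∀ c, e (algebraMap ℂ F c) = algebraMap ℂ G c) :
    IsCoord (fun i => e (z i)) := by
  obtain ⟨e', he'⟩ : ∃ e' : F ≃ₐ[ℂ] G, ∀ x, e' x = e x :=
    ⟨AlgEquiv.ofRingEquiv (f := e) he, fun _ => rfl⟩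
  have h1 : (fun i => e (z i)) = (e' : F →ₐ[ℂ] G) ∘ z := by
    funext i
    exact (he' (z i)).symm
  refine ⟨?_, ?_⟩
  · rw [h1]
    exact hz.indep.map' e'.injective
  · rw [h1, Set.range_comp, ← IntermediateField.adjoin_map, hz.adjoin_eq, eq_top_iff]
    intro g _
    exact ⟨e'.symm g, IntermediateField.mem_top, e'.apply_symm_apply g⟩

/-- If `e : G → F` is a homomorphism of fields over `ℂ`, `y : Fin n → G` generates `G` and the
elements `e (y i)` are algebraically independent, then `y` is a coordinate system of `G`. -/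
theorem IsCoord.of_map {G : Type} [Field G] [Algebra ℂ G] {y : Fin n → G}
    (e : G →+* F) (he : ∀ c, e (algebraMap ℂ G c) = algebraMap ℂ F c)
    (hi : AlgebraicIndependent ℂ (fun i => e (y i)))
    (h : IntermediateField.adjoin ℂ (Set.range y) = ⊤) : IsCoord y := by
  obtain ⟨e', he'⟩ : ∃ e' : G →ₐ[ℂ] F, ∀ x, e' x = e x := ⟨⟨e, he⟩, fun _ => rfl⟩
  refine ⟨?_, h⟩
  have h1 : (fun i => e (y i)) = e' ∘ y := by
    funext i
    exact (he' (y i)).symm
  rw [h1] at hi
  exact AlgebraicIndependent.of_comp e' hi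

/-- A permutation of the coordinates. -/
theorem IsCoord.perm {z : Fin n → F} (hz : IsCoord z) (σ : Equiv.Perm (Fin n)) :
    IsCoord (fun i => z (σ i)) := by
  refine ⟨hz.indep.comp σ σ.injective, ?_⟩
  have h1 : Set.range (fun i => z (σ i)) = Set.range z := σ.surjective.range_comp z
  rw [h1]
  exact hz.adjoin_eq

end Pool.Agent.MP_5c6cc8_ag
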