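import Pool.Agent.MP_5c6cc8_ag.Elim3

/-! # Row Elim4: every `h` vanishes along `s = 0` -/

open MvPolynomial

namespace Pool.Agent.MP_5c6cc8_ag

namespace Setup

variable {K L : Type} [Field K] [Algebra ℂ K] [Field L] [Algebra ℂ L] (S : Setup K L)

/-- `f = p(w, s)` as a sum of monomials. -/
theorem elim4_sum (p : MvPolynomial (Fin 2) ℂ) : aeval ![S.w, S.s] p =
    ∑ m ∈ p.support, algebraMap ℂ K (coeff m p) * (S.w ^ m 0 * S.s ^ m 1) := by
  rw [aeval_def, eval₂_eq']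
  refine Finset.sum_congr rfl fun m _ => ?_
  rw [Fin.prod_univ_two]
  rfl

theorem elim4_wt {u v : K} (h : IsCoord ![u, v]) (k : ℤ) (p : MvPolynomial (Fin 2) ℂ)
    (φ : (Fin 2 →₀ ℕ) → ℤ × ℤ) (hφ : Function.Injective φ)
    (hmon : ∀ m : Fin 2 →₀ ℕ, S.w ^ m 0 * S.s ^ m 1 = u ^ (φ m).1 * v ^ (φ m).2)
    {m : Fin 2 →₀ ℕ} (hm : m ∈ p.support) :
    vord (wt h k) (aeval ![S.w, S.s] p) ≤ (φ m).1 + k * (φ m).2 := by
  refine vord_wt_le h k (p.support.image φ) (fun q => coeff (Function.invFun φ q) p) ?_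
    (Finset.mem_image_of_mem _ hm) ?_
  · rw [S.elim4_sum, Finset.sum_image fun _ _ _ _ h => hφ h]
    refine Finset.sum_congr rfl fun m _ => ?_
    rw [Function.leftInverse_invFun hφ m, hmon, mul_assoc]
  · rw [Function.leftInverse_invFun hφ m]
    exact mem_support_iff.1 hm

theorem elim4_dvd {p : MvPolynomial (Fin 2) ℂ} (h : ∀ m ∈ p.support, m 1 ≠ 0) :
    ∃ p', p = X 1 * p' := by
  refine ⟨p.divMonomial (Finsupp.single 1 1), ?_⟩
  conv_lhs => rw [← divMonomial_add_modMonomial_single p 1]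
  have : p.modMonomial (Finsupp.single 1 1) = 0 := by
    ext m
    rw [coeff_zero]
    by_cases hle : Finsupp.single 1 1 ≤ m
    · exact coeff_modMonomial_of_le _ hle
    · rw [coeff_modMonomial_of_not_le _ hle]
      by_contra hc
      have h1 := h m (mem_support_iff.2 hc)
      apply hle
      rw [Finsupp.single_le_iff]
      omega
  rw [this, add_zero]

/-- Proof: `f = p(w, s)` by `exists_aeval_of_nonneg`. For a monomial `m` of `p`, with `i = m 0`,
`j = m 1`, use `vord_wt_le` for the Laurent polynomial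
`f = ∑ c_m w^i s^j` in the coordinates `u, v` of the valuations:
* `P₆` (`u = 1/s, v = w, k = 0`): `-N ≤ -j`; * `P₁` (`u = w, v = s, k = 2`): `2N ≤ i + 2j`;
* `P₂` (`u = 1/w, v = s, k = 3`): `-2N ≤ -i + 3j`; * `P₃` (`u = w, v = 1/s, k = 2`): `N ≤ i - 2j`;
* `P₄` (`u = 1/w, v = 1/s, k = 3`): `-6N ≤ -i - 3j`.
With `dvd_restr` for `P₅` and `elim_poly` every monomial of `p` has `j ≥ 1`, so that `p = X 1 * p'`,
`f = s p'(w, s)` has positive valuation at `P₇`: `v(s) = 1`, and `v(p'(w, s)) ≥ 0`, for example by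
`vord_chart_nonneg` for the coordinates `![s, w / s ^ 0]`, in which `p'` is a polynomial too. -/
theorem elim {f : K} (hf : f ≠ 0) {N : ℕ} (hN : 0 < N)
    (h0 : ∀ (π : MvPolynomial (Fin 2) ℂ) (hπ : Prime π), 0 ≤ vord (chartRing S.hK hπ) f)
    (h1 : 2 * N ≤ vord S.P1 f) (h2 : -2 * N ≤ vord S.P2 f) (h3 : N ≤ vord S.P3 f)
    (h4 : -6 * N ≤ vord S.P4 f) (h5 : ∀ sgn, N ≤ vord (S.P5 sgn) f) (h6 : -N ≤ vord S.P6 f) :
    0 < vord S.P7 f := by
  obtain ⟨p, hp⟩ := exists_aeval_of_nonneg S.hK hf h0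
  have hw0 := S.w_ne_zero
  have hs0 := S.s_ne_zero
  have hp0 : aeval ![S.w, S.s] p ≠ 0 := by rw [← hp]; exact hf
  have hinj : ∀ (a b : ℤ), a ≠ 0 → b ≠ 0 →
      Function.Injective fun m : Fin 2 →₀ ℕ => ((a * m 0, b * m 1) : ℤ × ℤ) := by
    intro a b ha hb m m' hmm
    simp only [Prod.mk.injEq, mul_eq_mul_left_iff, ha, hb, or_false, Nat.cast_inj] at hmm
    ext i
    fin_cases i
    · exact hmm.1
    · exact hmm.2
  have hinj' : Function.Injective fun m : Fin 2 →₀ ℕ => ((-1 * m 1, 1 * m 0) : ℤ × ℤ) := by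
    intro m m' hmm
    simp only [Prod.mk.injEq] at hmm
    ext i
    fin_cases i
    · show m 0 = m' 0
      omega
    · show m 1 = m' 1
      omega
  have hH : ∀ m ∈ p.support, m 1 ≤ N ∧ 2 * N ≤ m 0 + 2 * m 1 ∧ m 0 ≤ 2 * N + 3 * m 1 ∧
      N + 2 * m 1 ≤ m 0 ∧ m 0 + 3 * m 1 ≤ 6 * N := by
    intro m hm
    have e1 := S.elim4_wt S.c1 2 p _ (hinj 1 1 (by norm_num) (by norm_num))
      (fun m => by simp only [one_mul, zpow_natCast]) hm
    have e2 := S.elim4_wt S.c2 3 p _ (hinj (-1) 1 (by norm_num) (by norm_num))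
      (fun m => by
        simp only [one_mul, zpow_natCast, neg_mul, zpow_neg, inv_pow, inv_inv]) hm
    have e3 := S.elim4_wt S.c3 2 p _ (hinj 1 (-1) (by norm_num) (by norm_num))
      (fun m => by
        simp only [one_mul, zpow_natCast, neg_mul, zpow_neg, inv_pow, inv_inv]) hm
    have e4 := S.elim4_wt S.c4 3 p _ (hinj (-1) (-1) (by norm_num) (by norm_num))
      (fun m => by
        simp only [one_mul, zpow_natCast, neg_mul, zpow_neg, inv_pow, inv_inv]) hm
    have e6 := S.elim4_wt S.c6 0 p _ hinj'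
      (fun m => by
        simp only [one_mul, zpow_natCast, neg_mul, zpow_neg, inv_pow, inv_inv]
        ring) hm
    rw [← hp] at e1 e2 e3 e4 e6
    have f1 := h1.trans e1
    have f2 := h2.trans e2
    have f3 := h3.trans e3
    have f4 := h4.trans e4
    have f6 := h6.trans e6
    simp only at f1 f2 f3 f4 f6
    refine ⟨?_, ?_, ?_, ?_, ?_⟩ <;> omega
  have hdvd : ∀ sgn, (Polynomial.X + 1) ^ N ∣ restr (Setup.node sgn) p := by
    intro sgn
    refine dvd_restr (Setup.node sgn) (S.c5 sgn) ?_ hp0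
    rw [← hp]
    exact h5 sgn
  obtain ⟨p', hp'⟩ := elim4_dvd (elim_poly hN hH hdvd)
  have hf' : f = S.s * aeval ![S.w, S.s] p' := by
    rw [hp, hp', map_mul, aeval_X]
    rfl
  have hq0 : aeval ![S.w, S.s] p' ≠ 0 := by
    intro h
    rw [h, mul_zero] at hf'
    exact hf hf'
  have hnn : 0 ≤ vord S.P7 (aeval ![S.w, S.s] p') := by
    have h7 := vord_chart_nonneg (wt_coord S.c7 0) (prime_X0 1) (rename ![1, 0] p')
    rw [aeval_rename] at h7
    have h8 : (![S.s, S.w / S.s ^ (0 : ℤ)] ∘ ![1, 0] : Fin 2 → K) = ![S.w, S.s] := by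
      funext i
      fin_cases i
      · show S.w / S.s ^ (0 : ℤ) = S.w
        rw [zpow_zero, div_one]
      · rfl
    rw [h8] at h7
    exact h7
  have hv : vord S.P7 S.s = 1 := vord_wt_u S.c7 0
  have hE7 : IsDivisorial S.P7 := wt_isDivisorial S.c7 0
  rw [hf', vord_mul hE7 hs0 hq0, hv]
  omega

end Setup

end Pool.Agent.MP_5c6cc8_ag
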