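import Pool.Agent.MP_5c6cc8_ag.Prime2a

/-! # Row Prime2b: the moduli multiplicities at `π(w, s) = 0` are `≤ 0` -/

open MvPolynomial

namespace Pool.Agent.MP_5c6cc8_ag

/-- `1 + a` is prime -/
theorem prime2b_prime : Prime (1 + X 0 : MvPolynomial (Fin 3) ℂ) := by
  have h0 : totalDegree (1 + X 0 : MvPolynomial (Fin 3) ℂ) ≠ 0 := by
    intro h
    rw [totalDegree_eq_zero_iff_eq_C] at h
    have h1 := congrArg (eval (fun _ => (0 : ℂ))) h
    have h2 := congrArg (eval (fun _ => (1 : ℂ))) h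
    rw [eval_C, map_add, map_one, eval_X] at h1 h2
    rw [← h1] at h2
    norm_num at h2
  have h1 : totalDegree (1 + X 0 : MvPolynomial (Fin 3) ℂ) ≤ 1 := by
    refine (totalDegree_add _ _).trans ?_
    rw [totalDegree_one, totalDegree_X]
    exact le_of_eq (by norm_num)
  have hirr : Irreducible (1 + X 0 : MvPolynomial (Fin 3) ℂ) := by
    apply irreducible_of_totalDegree_eq_one (by omega)
    intro x hx
    have h2 := hx 0
    have h3 : coeff 0 (1 + X 0 : MvPolynomial (Fin 3) ℂ) = 1 := by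
      rw [← constantCoeff_eq, map_add, map_one, constantCoeff_X, add_zero]
    rw [h3] at h2
    exact isUnit_of_dvd_one h2
  exact hirr.prime

/-- a polynomial vanishing at a point does not divide a polynomial not vanishing there -/
theorem prime2b_not_dvd {n : ℕ} {p q : MvPolynomial (Fin n) ℂ} (c : Fin n → ℂ) (h : eval c q = 0)
    (h' : eval c p ≠ 0) : ¬ q ∣ p := by
  rintro ⟨r, rfl⟩
  apply h'
  rw [map_mul, h, zero_mul]

namespace Setup

variable {K L : Type} [Field K] [Algebra ℂ K] [Field L] [Algebra ℂ L] (S : Setup K L)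

theorem prime2b_omega : S.ω = (S.x 1 * S.x 2)⁻¹ • wedge ![S.x 1, S.x 2, S.i S.s] := by
  have h : wedge ![S.x 1, S.x 2, S.i S.s] = T (S.i S.s) (S.x 1) (S.x 2) := by
    show T (S.x 1) (S.x 2) (S.i S.s) = _
    rw [T_swap23 (S.x 1) (S.i S.s) (S.x 2), T_swap12 (S.i S.s) (S.x 1) (S.x 2), neg_neg]
  rw [h]
  rfl

/-- the bound for one prime `q` -/
theorem prime2b_bound {π : MvPolynomial (Fin 2) ℂ} (hπ : Prime π) {μ : ℝ}
    (h : IsModuliMult S.i S.ω S.φ 5 S.ω' (chartRing S.hK hπ) μ) {q : MvPolynomial (Fin 3) ℂ}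
    (hq : Prime q) (h0 : ¬ q ∣ X 0) (h1 : ¬ q ∣ X 1) (h2 : ¬ q ∣ 1 + X 1)
    (hpos : 0 < vord (chartRing S.hL hq) (S.i (aeval ![S.w, S.s] π))) : μ ≤ 0 := by
  have hP := chartRing_isDivisorial S.hK hπ
  have hE := chartRing_isDivisorial S.hL hq
  have hx1 : S.x 1 = aeval ![S.x 1, S.x 2, S.i S.s] (X 0 : MvPolynomial (Fin 3) ℂ) := by
    rw [aeval_X]; rfl
  have hx2 : S.x 2 = aeval ![S.x 1, S.x 2, S.i S.s] (X 1 : MvPolynomial (Fin 3) ℂ) := by
    rw [aeval_X]; rfl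
  have hs : S.i S.s = aeval ![S.x 1, S.x 2, S.i S.s] (X 2 : MvPolynomial (Fin 3) ℂ) := by
    rw [aeval_X]; rfl
  have v1 : vord (chartRing S.hL hq) (S.x 1) = 0 := by
    have := vord_chart_aeval S.hL hq h0
    rwa [← hx1] at this
  have v2 : vord (chartRing S.hL hq) (S.x 2) = 0 := by
    have := vord_chart_aeval S.hL hq h1
    rwa [← hx2] at this
  have v3 : vord (chartRing S.hL hq) (1 + S.x 2) = 0 := by
    have := vord_chart_aeval S.hL hq h2
    rwa [map_add, map_one, ← hx2] at this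
  have n1 := S.cluster.ne_zero 1
  have n2 := S.cluster.ne_zero 2
  have n3 := S.cluster.one_add_ne_zero 2
  have hc : (S.x 1 * S.x 2)⁻¹ ≠ 0 := inv_ne_zero (mul_ne_zero n1 n2)
  have vc : vord (chartRing S.hL hq) (S.x 1 * S.x 2)⁻¹ = 0 := by
    rw [vord_inv hE, vord_mul hE n1 n2, v1, v2]
    rfl
  have vg : 0 ≤ vord (chartRing S.hL hq) S.g := by
    have e1 := congrArg (vord (chartRing S.hL hq)) S.g_eq
    rw [vord_mul hE S.g_ne_zero (mul_ne_zero n2 (pow_ne_zero 3 n3)), vord_mul hE n2 (pow_ne_zero 3 n3),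
      vord_pow hE, v2, v3] at e1
    have e2 : S.x 1 * ((1 + S.x 1) ^ 2 * (1 + S.x 2) + S.i S.s * S.x 2 ^ 3 * (1 + S.x 1 + S.x 2)) =
        aeval ![S.x 1, S.x 2, S.i S.s] (X 0 * ((1 + X 0) ^ 2 * (1 + X 1) +
          X 2 * X 1 ^ 3 * (1 + X 0 + X 1)) : MvPolynomial (Fin 3) ℂ) := by
      simp only [map_mul, map_add, map_pow, map_one, ← hx1, ← hx2, ← hs]
    have e3 := vord_chart_nonneg S.hL hq (X 0 * ((1 + X 0) ^ 2 * (1 + X 1) +
          X 2 * X 1 ^ 3 * (1 + X 0 + X 1)) : MvPolynomial (Fin 3) ℂ)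
    rw [← e2, ← e1] at e3
    simpa using e3
  have ht : HasOrd (chartRing S.hK hπ) (aeval ![S.w, S.s] π) 1 :=
    (hasOrd_iff hP).2 ⟨S.hK.aeval_ne_zero hπ.ne_zero, vord_chart_pi S.hK hπ⟩
  have ht0 : S.i (aeval ![S.w, S.s] π) ≠ 0 :=
    (map_ne_zero S.i).2 (S.hK.aeval_ne_zero hπ.ne_zero)
  have hb := S.mu_le_chart S.hL hq hc S.prime2b_omega hP (S.hasFormOrd_prime hπ)
    (S.comap_prime hπ hq h0 h1 hpos) ht ht0 h
  rw [vc] at hb
  obtain ⟨e, he⟩ : ∃ e, e = vord (chartRing S.hL hq) (S.i (aeval ![S.w, S.s] π)) := ⟨_, rfl⟩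
  obtain ⟨m, hm⟩ : ∃ m, m = vord (chartRing S.hL hq) S.g := ⟨_, rfl⟩
  rw [← he, ← hm] at hb
  rw [← he] at hpos
  rw [← hm] at vg
  have he1 : (1 : ℝ) ≤ e := by exact_mod_cast hpos
  have hm1 : (0 : ℝ) ≤ m := by exact_mod_cast vg
  have h5 : (1 + ((0 : ℤ) : ℝ) - (m : ℝ) / 5) / (e : ℝ) ≤ 1 := by
    rw [div_le_one (by linarith)]
    push_cast
    linarith
  push_cast at hb h5
  linarith

/-- `mult_P M ≤ 0` for `P = (π(w, s))`. Proof: `ω = c • wedge ![a, b, s]`, `c = (a b)⁻¹` (a cyclic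
permutation of `ds ∧ da ∧ db`). If `π` is associated to `w`, let `q = 1 + a` (`1 + X 0`), so `v_q(g) = 0`
by `g_eq` and `v_q(w) = 1`; otherwise take `q` from `exists_prime_over`: by `g_eq` and `q ∤ b (1 + b)`
we have `v_q(g) ≥ 0`. In both cases `comap_prime` applies and `mu_le_chart`, with `t = π(w, s)`,
gives `μ ≤ - 0 - 1 + (1 + 0 - v(g) / 5) / e ≤ 0`, since `v(g) ≥ 0`, `e ≥ 1`. (The ring
`chartRing S.hK hπ` is the same for associated `π`.) -/
theorem muP0 {π : MvPolynomial (Fin 2) ℂ} (hπ : Prime π) {μ : ℝ}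
    (h : IsModuliMult S.i S.ω S.φ 5 S.ω' (chartRing S.hK hπ) μ) : μ ≤ 0 := by
  by_cases hw : Associated π (X 0)
  · have q0 : eval ![-1, 1, 0] (1 + X 0 : MvPolynomial (Fin 3) ℂ) = 0 := by
      rw [map_add, map_one, eval_X]
      show (1 : ℂ) + -1 = 0
      norm_num
    have h0 : ¬ (1 + X 0 : MvPolynomial (Fin 3) ℂ) ∣ X 0 := by
      refine prime2b_not_dvd ![-1, 1, 0] q0 ?_
      rw [eval_X]
      show (-1 : ℂ) ≠ 0
      norm_num
    have h1 : ¬ (1 + X 0 : MvPolynomial (Fin 3) ℂ) ∣ X 1 := by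
      refine prime2b_not_dvd ![-1, 1, 0] q0 ?_
      rw [eval_X]
      show (1 : ℂ) ≠ 0
      norm_num
    have h2 : ¬ (1 + X 0 : MvPolynomial (Fin 3) ℂ) ∣ 1 + X 1 := by
      refine prime2b_not_dvd ![-1, 1, 0] q0 ?_
      rw [map_add, map_one, eval_X]
      show (1 : ℂ) + 1 ≠ 0
      norm_num
    refine S.prime2b_bound hπ h prime2b_prime h0 h1 h2 ?_
    have hE := chartRing_isDivisorial S.hL prime2b_prime
    obtain ⟨u, hu⟩ := hw
    obtain ⟨r, hr, hur⟩ := isUnit_iff_eq_C_of_isReduced.1 u.isUnit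
    have hr0 : r ≠ 0 := hr.ne_zero
    have ht0 : S.i (aeval ![S.w, S.s] π) ≠ 0 :=
      (map_ne_zero S.i).2 (S.hK.aeval_ne_zero hπ.ne_zero)
    have e1 : S.i (aeval ![S.w, S.s] π) * algebraMap ℂ L r = S.i S.w := by
      have e2 := congrArg (fun p => S.i (aeval ![S.w, S.s] p)) hu
      simp only [map_mul, hur, aeval_C, S.hi, aeval_X] at e2
      exact e2
    have hrL : algebraMap ℂ L r ≠ 0 := (map_ne_zero _).2 hr0
    have e3 := congrArg (vord (chartRing S.hL prime2b_prime)) e1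
    rw [vord_mul hE ht0 hrL, vord_const hE, add_zero] at e3
    rw [e3]
    have hx1 : S.x 1 = aeval ![S.x 1, S.x 2, S.i S.s] (X 0 : MvPolynomial (Fin 3) ℂ) := by
      rw [aeval_X]; rfl
    have hx2 : S.x 2 = aeval ![S.x 1, S.x 2, S.i S.s] (X 1 : MvPolynomial (Fin 3) ℂ) := by
      rw [aeval_X]; rfl
    have v1 : vord (chartRing S.hL prime2b_prime) (S.x 1) = 0 := by
      have := vord_chart_aeval S.hL prime2b_prime h0
      rwa [← hx1] at this
    have v2 : vord (chartRing S.hL prime2b_prime) (S.x 2) = 0 := by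
      have := vord_chart_aeval S.hL prime2b_prime h1
      rwa [← hx2] at this
    have v3 : vord (chartRing S.hL prime2b_prime) (1 + S.x 2) = 0 := by
      have := vord_chart_aeval S.hL prime2b_prime h2
      rwa [map_add, map_one, ← hx2] at this
    have v4 : vord (chartRing S.hL prime2b_prime) (1 + S.x 1) = 1 := by
      have := vord_chart_pi S.hL prime2b_prime
      rwa [map_add, map_one, ← hx1] at this
    have v5 : 0 ≤ vord (chartRing S.hL prime2b_prime) (1 + S.x 1 + S.x 2) := by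
      have := vord_chart_nonneg S.hL prime2b_prime (1 + X 0 + X 1)
      rwa [map_add, map_add, map_one, ← hx1, ← hx2] at this
    have n1 := S.cluster.ne_zero 1
    have n2 := S.cluster.ne_zero 2
    have n3 := S.cluster.one_add_ne_zero 2
    have n4 := S.cluster.one_add_ne_zero 1
    have nw : S.i S.w ≠ 0 := (map_ne_zero S.i).2 S.w_ne_zero
    have e5 := S.w_eq
    have n5 : 1 + S.x 1 + S.x 2 ≠ 0 := by
      intro h5
      rw [h5, mul_zero] at e5
      exact mul_ne_zero nw (mul_ne_zero n1 n2) e5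
    have e6 := congrArg (vord (chartRing S.hL prime2b_prime)) e5
    rw [vord_mul hE nw (mul_ne_zero n1 n2), vord_mul hE n1 n2, vord_mul hE (mul_ne_zero n4 n3) n5,
      vord_mul hE n4 n3, v1, v2, v3, v4] at e6
    omega
  · obtain ⟨q, hq, h0, h1, h2, hpos⟩ := S.exists_prime_over hπ hw
    exact S.prime2b_bound hπ h hq h0 h1 h2 hpos

end Setup

end Pool.Agent.MP_5c6cc8_ag
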