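import Pool.Agent.MP_5c6cc8_ag.BP1
import Pool.Agent.MP_5c6cc8_ag.BP2
import Pool.Agent.MP_5c6cc8_ag.BP3
import Pool.Agent.MP_5c6cc8_ag.BP4
import Pool.Agent.MP_5c6cc8_ag.BP5
import Pool.Agent.MP_5c6cc8_ag.BP6
import Pool.Agent.MP_5c6cc8_ag.Prime2
import Pool.Agent.MP_5c6cc8_ag.Elim2

/-! # Assembly A2: the contradiction -/

open MvPolynomial

namespace Pool.Agent.MP_5c6cc8_ag

namespace Setup

variable {K L : Type} [Field K] [Algebra ℂ K] [Field L] [Algebra ℂ L] (S : Setup K L)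

theorem core {I : ℕ} (hI : 0 < I) (H : ∀ P : Subring K, IsDivisorial P → ∃ (μ : ℝ) (h : K),
    h ≠ 0 ∧ IsModuliMult S.i S.ω S.φ 5 S.ω' P μ ∧ (vord P h : ℝ) = -(I * μ) ∧
      ∀ P' : Subring K, IsDivisorial P' → ∃ μ' : ℝ, IsModuliMult S.i S.ω S.φ 5 S.ω' P' μ' ∧
        -(I * μ') ≤ (vord P' h : ℝ)) : False := by
  have hI' : (0 : ℝ) < I := by exact_mod_cast hI
  obtain ⟨μ7, h, h0, h7, h7', hall⟩ := H S.P7 (wt_isDivisorial _ _)
  have key : ∀ P' : Subring K, IsDivisorial P' → ∀ c : ℝ,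
      (∀ μ', IsModuliMult S.i S.ω S.φ 5 S.ω' P' μ' → μ' ≤ c) →
      -(5 * I * c) ≤ (vord P' (h ^ 5) : ℝ) := by
    intro P' hP' c hc
    obtain ⟨μ', hμ', hle⟩ := hall P' hP'
    rw [vord_pow hP']
    push_cast
    have := hc μ' hμ'
    nlinarith
  have e1 := key S.P1 (wt_isDivisorial _ _) (-2 / 5) fun μ hμ => S.muP1 hμ
  have e2 := key S.P2 (wt_isDivisorial _ _) (2 / 5) fun μ hμ => S.muP2 hμ
  have e3 := key S.P3 (wt_isDivisorial _ _) (-1 / 5) fun μ hμ => S.muP3 hμ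
  have e4 := key S.P4 (wt_isDivisorial _ _) (6 / 5) fun μ hμ => S.muP4 hμ
  have e5 := fun sgn => key (S.P5 sgn) (wt_isDivisorial _ _) (-1 / 5) fun μ hμ => S.muP5 sgn hμ
  have e6 := key S.P6 (wt_isDivisorial _ _) (1 / 5) fun μ hμ => S.muP6 hμ
  have e0 := fun (π : MvPolynomial (Fin 2) ℂ) (hπ : Prime π) =>
    key (chartRing S.hK hπ) (chartRing_isDivisorial _ _) 0 fun μ hμ => S.muP0 hπ hμ
  have := S.elim (f := h ^ 5) (pow_ne_zero 5 h0) hI
    (fun π hπ => by have := e0 π hπ; rw [mul_zero, neg_zero] at this; exact_mod_cast this)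
    (by have : (2 * I : ℝ) ≤ vord S.P1 (h ^ 5) := by linarith
        exact_mod_cast this)
    (by have : (-2 * I : ℝ) ≤ vord S.P2 (h ^ 5) := by linarith
        exact_mod_cast this)
    (by have : (I : ℝ) ≤ vord S.P3 (h ^ 5) := by linarith
        exact_mod_cast this)
    (by have : (-6 * I : ℝ) ≤ vord S.P4 (h ^ 5) := by linarith
        exact_mod_cast this)
    (fun sgn => by
      have : (I : ℝ) ≤ vord (S.P5 sgn) (h ^ 5) := by have := e5 sgn; linarith
      exact_mod_cast this)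
    (by have : (-I : ℝ) ≤ vord S.P6 (h ^ 5) := by linarith
        exact_mod_cast this)
  rw [vord_pow (R := S.P7) (wt_isDivisorial _ _)] at this
  have hpos : (0 : ℝ) < vord S.P7 h := by
    have : 0 < vord S.P7 h := by push_cast at this; omega
    exact_mod_cast this
  have hμ := S.muP7 h7
  rw [h7'] at hpos
  have := mul_nonneg hI'.le hμ
  linarith

end Setup

end Pool.Agent.MP_5c6cc8_ag
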