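import Mathlib

/-! # Row X1: the branch polynomial in the four charts of `ℙ¹ × ℙ¹` is squarefree -/

open MvPolynomial

namespace Pool.Agent.MP_5c6cc8_ag

/-- The branch polynomial `Q(w, x) = (1+x)² w² - 2x(3x+1) w + x²(4x+1)` in the four charts, with the
variables `v = X 0` (`w` or `1/w`) and `τ = X 1` (`x` or `1/x`); the third variable `X 2` does not
occur. -/
noncomputable def Qc (e1 e2 : Bool) : MvPolynomial (Fin 3) ℂ :=
  match e1, e2 with
  | false, false => (1 + X 1) ^ 2 * X 0 ^ 2 - 2 * X 1 * (3 * X 1 + 1) * X 0 +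
      X 1 ^ 2 * (4 * X 1 + 1)
  | true, false => (1 + X 1) ^ 2 - 2 * X 1 * (3 * X 1 + 1) * X 0 +
      X 1 ^ 2 * (4 * X 1 + 1) * X 0 ^ 2
  | false, true => X 1 ^ 2 * (1 + X 1) ^ 2 * X 0 ^ 2 - 2 * X 1 ^ 2 * (3 + X 1) * X 0 +
      X 1 * (4 + X 1)
  | true, true => X 1 ^ 2 * (1 + X 1) ^ 2 - 2 * X 1 ^ 2 * (3 + X 1) * X 0 +
      X 1 * (4 + X 1) * X 0 ^ 2

/-- evaluation at the point `(1, 0, 0)` -/
noncomputable def corner1_ev : MvPolynomial (Fin 3) ℂ →+* ℂ := MvPolynomial.eval (fun i => if i = 0 then 1 else 0)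

theorem corner1_ev0 : corner1_ev (X 0) = 1 := by simp [corner1_ev]

theorem corner1_ev1 : corner1_ev (X 1) = 0 := by simp [corner1_ev]

theorem corner1_not_dvd {U : MvPolynomial (Fin 3) ℂ} (h : corner1_ev U ≠ 0) : ¬ X 1 ∣ U := by
  rintro ⟨R, hR⟩
  apply h
  rw [hR, map_mul, corner1_ev1, zero_mul]

theorem corner1_prime : Prime (X 1 : MvPolynomial (Fin 3) ℂ) := (MvPolynomial.X_prime)

/-- if `π² ∣ Q` and `(∂Q)² - 4 α Q = - 16 τ^k` then `τ² ∣ Q` -/
theorem corner1_key {π Q α : MvPolynomial (Fin 3) ℂ} (hπ : Prime π) {k : ℕ}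
    (hd : (pderiv 0 Q) ^ 2 - 4 * α * Q = - 16 * X 1 ^ k) (h : π ^ 2 ∣ Q) : X 1 ^ 2 ∣ Q := by
  obtain ⟨R, hR⟩ := h
  have h1 : π ∣ pderiv 0 Q := by
    rw [hR, Derivation.leibniz, Derivation.leibniz_pow]
    simp only [smul_eq_mul, nsmul_eq_mul]
    refine dvd_add ?_ ?_
    · exact Dvd.dvd.mul_right (dvd_pow_self _ two_ne_zero) _
    · refine Dvd.dvd.mul_left ?_ _
      refine Dvd.dvd.mul_left ?_ _
      refine Dvd.dvd.mul_right ?_ _
      norm_num
  have h2 : π ∣ Q := by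
    rw [hR]
    exact Dvd.dvd.mul_right (dvd_pow_self _ two_ne_zero) _
  have h3 : π ∣ - 16 * X 1 ^ k := by
    rw [← hd]
    exact dvd_sub (dvd_pow h1 two_ne_zero) (Dvd.dvd.mul_left h2 _)
  have h4 : π ∣ X 1 ^ k := by
    have h5 : (X 1 : MvPolynomial (Fin 3) ℂ) ^ k = C (-1 / 16) * (- 16 * X 1 ^ k) := by
      have : (C (-1 / 16) : MvPolynomial (Fin 3) ℂ) * (-16) = 1 := by
        have e : (-16 : MvPolynomial (Fin 3) ℂ) = C (-16) := by
          rw [C_neg]
          rfl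
        rw [e, ← C_mul]
        norm_num
      rw [← mul_assoc, this, one_mul]
    rw [h5]
    exact Dvd.dvd.mul_left h3 _
  have h6 : π ∣ X 1 := hπ.dvd_of_dvd_pow h4
  have h7 : Associated π (X 1) := hπ.associated_of_dvd corner1_prime h6
  have h8 : X 1 ∣ π := h7.symm.dvd
  rw [hR]
  exact Dvd.dvd.mul_right (pow_dvd_pow_of_dvd h8 2) _

/-- Proof. Write `Q = α v² + β v + γ` with `α, β, γ ∈ ℂ[τ]`, `v = X 0`, `τ = X 1`; then
`(∂Q/∂v)² - 4 α Q = β² - 4 α γ`, which is `- 16 τ⁵` for `e2 = false` and `- 16 τ³` for `e2 = true`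
(`ring`). If `π` is prime and `π² ∣ Q` then `π` divides `∂Q/∂v` (`pderiv 0`, Leibniz rule) and `Q`,
hence `τ^k`, so `π` is associated to `τ = X 1` (which is prime), and `τ² ∣ Q`. But for `e2 = false`
setting `τ = 0` gives `v²` or `1`, so `τ ∤ Q`; and for `e2 = true`, `Q = τ U` where `U` is `4` or `4 v²`
at `τ = 0`, so that `τ ∤ U` and `τ² ∤ Q`. (For divisibility by `X 1` evaluate at points with
`c 1 = 0`.) -/
theorem Qc_sqfree (e1 e2 : Bool) (π : MvPolynomial (Fin 3) ℂ) (hπ : Prime π) :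
    ¬ π ^ 2 ∣ Qc e1 e2 := by
  intro h
  have e01 : (pderiv (0 : Fin 3)) (X 1 : MvPolynomial (Fin 3) ℂ) = 0 := pderiv_X_of_ne (by decide)
  have e00 : (pderiv (0 : Fin 3)) (X 0 : MvPolynomial (Fin 3) ℂ) = 1 := pderiv_X_self 0
  have hev2 : corner1_ev 2 = 2 := map_ofNat _ _
  have hev3 : corner1_ev 3 = 3 := map_ofNat _ _
  have hev4 : corner1_ev 4 = 4 := map_ofNat _ _
  have hp2 : (pderiv (0 : Fin 3)) (2 : MvPolynomial (Fin 3) ℂ) = 0 := by
    exact pderiv_C (R := ℂ) (a := 2)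
  have hp3 : (pderiv (0 : Fin 3)) (3 : MvPolynomial (Fin 3) ℂ) = 0 := by
    exact pderiv_C (R := ℂ) (a := 3)
  have hp4 : (pderiv (0 : Fin 3)) (4 : MvPolynomial (Fin 3) ℂ) = 0 := by
    exact pderiv_C (R := ℂ) (a := 4)
  rcases e2 with _ | _
  · -- `e2 = false`
    have h1 : X 1 ^ 2 ∣ Qc e1 false := by
      rcases e1 with _ | _
      · refine corner1_key (α := (1 + X 1) ^ 2) (k := 5) hπ ?_ h
        simp only [Qc, map_add, map_sub, Derivation.leibniz, Derivation.leibniz_pow, e01, e00, hp2, hp3, hp4,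
          Derivation.map_one_eq_zero, smul_eq_mul, nsmul_eq_mul]
        push_cast
        ring
      · refine corner1_key (α := X 1 ^ 2 * (4 * X 1 + 1)) (k := 5) hπ ?_ h
        simp only [Qc, map_add, map_sub, Derivation.leibniz, Derivation.leibniz_pow, e01, e00, hp2, hp3, hp4,
          Derivation.map_one_eq_zero, smul_eq_mul, nsmul_eq_mul]
        push_cast
        ring
    have h2 : X 1 ∣ Qc e1 false := (dvd_pow_self _ two_ne_zero).trans h1
    refine corner1_not_dvd ?_ h2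
    rcases e1 with _ | _ <;>
      simp [Qc, corner1_ev0, corner1_ev1]
  · have h1 : X 1 ^ 2 ∣ Qc e1 true := by
      rcases e1 with _ | _
      · refine corner1_key (α := X 1 ^ 2 * (1 + X 1) ^ 2) (k := 3) hπ ?_ h
        simp only [Qc, map_add, map_sub, Derivation.leibniz, Derivation.leibniz_pow, e01, e00, hp2, hp3, hp4,
          Derivation.map_one_eq_zero, smul_eq_mul, nsmul_eq_mul]
        push_cast
        ring
      · refine corner1_key (α := X 1 * (4 + X 1)) (k := 3) hπ ?_ h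
        simp only [Qc, map_add, map_sub, Derivation.leibniz, Derivation.leibniz_pow, e01, e00, hp2, hp3, hp4,
          Derivation.map_one_eq_zero, smul_eq_mul, nsmul_eq_mul]
        push_cast
        ring
    have hX : (X 1 : MvPolynomial (Fin 3) ℂ) ≠ 0 := corner1_prime.ne_zero
    rcases e1 with _ | _
    · have e : Qc false true = X 1 * (X 1 * (1 + X 1) ^ 2 * X 0 ^ 2 - 2 * X 1 * (3 + X 1) * X 0 + (4 + X 1)) := by
        simp only [Qc]; ring
      rw [e, pow_two] at h1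
      have h2 := (mul_dvd_mul_iff_left hX).1 h1
      refine corner1_not_dvd ?_ h2
      simp [corner1_ev0, corner1_ev1, hev4]
    · have e : Qc true true = X 1 * (X 1 * (1 + X 1) ^ 2 - 2 * X 1 * (3 + X 1) * X 0 + (4 + X 1) * X 0 ^ 2) := by
        simp only [Qc]; ring
      rw [e, pow_two] at h1
      have h2 := (mul_dvd_mul_iff_left hX).1 h1
      refine corner1_not_dvd ?_ h2
      simp [corner1_ev0, corner1_ev1, hev4]

end Pool.Agent.MP_5c6cc8_ag
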