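import Pool.Agent.MP_5c6cc8_ag.Defs

/-! # Row Weier0: algebraic independence from differentials -/

open Polynomial

namespace Pool.Agent.MP_5c6cc8_ag

/-- the chain rule -/
theorem weier0_chain {F : Type} [Field F] [Algebra ℂ F] {n : ℕ} (f : Fin n → F)
    (P : MvPolynomial (Fin n) ℂ) :
    KaehlerDifferential.D ℂ F (MvPolynomial.aeval f P) =
      ∑ i, MvPolynomial.aeval f (MvPolynomial.pderiv i P) • KaehlerDifferential.D ℂ F (f i) := by
  induction P using MvPolynomial.induction_on with
  | C a =>
    rw [MvPolynomial.aeval_C, Derivation.map_algebraMap]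
    simp
  | add p q hp hq =>
    rw [map_add, map_add, hp, hq, ← Finset.sum_add_distrib]
    refine Finset.sum_congr rfl fun i _ => ?_
    rw [map_add, map_add, add_smul]
  | mul_X p j hp =>
    rw [map_mul, MvPolynomial.aeval_X, Derivation.leibniz, hp]
    have h : ∀ i, MvPolynomial.aeval f (MvPolynomial.pderiv i (p * MvPolynomial.X j)) •
        KaehlerDifferential.D ℂ F (f i) =
        (if i = j then MvPolynomial.aeval f p • KaehlerDifferential.D ℂ F (f i) else 0) +
        f j • (MvPolynomial.aeval f (MvPolynomial.pderiv i p) • KaehlerDifferential.D ℂ F (f i)) := by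
      intro i
      rw [MvPolynomial.pderiv_mul, MvPolynomial.pderiv_X, map_add, map_mul, map_mul,
        MvPolynomial.aeval_X]
      by_cases hij : i = j
      · subst hij
        rw [Pi.single_eq_same, map_one, mul_one, if_pos rfl, add_smul, mul_comm, mul_smul, add_comm]
      · rw [Pi.single_eq_of_ne (Ne.symm hij), map_zero, mul_zero, add_zero, if_neg hij, zero_add, mul_comm, mul_smul]
    simp only [h]
    rw [Finset.sum_add_distrib, Finset.sum_ite_eq' Finset.univ j, if_pos (Finset.mem_univ _),
      Finset.smul_sum]

/-- the total degree of a derivative -/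
theorem weier0_deg {n : ℕ} {P : MvPolynomial (Fin n) ℂ} {i : Fin n}
    (h : MvPolynomial.pderiv i P ≠ 0) :
    (MvPolynomial.pderiv i P).totalDegree < P.totalDegree := by
  have h1 : ∀ m ∈ (MvPolynomial.pderiv i P).support,
      (m.sum fun _ e => e) + 1 ≤ P.totalDegree := by
    intro m hm
    rw [MvPolynomial.mem_support_iff, MvPolynomial.coeff_pderiv] at hm
    have hm2 : m + Finsupp.single i 1 ∈ P.support := by
      rw [MvPolynomial.mem_support_iff]
      intro h0
      rw [h0] at hm
      simp at hm
    have h2 := MvPolynomial.le_totalDegree hm2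
    rw [Finsupp.sum_add_index' (fun _ => rfl) (fun _ _ _ => rfl), Finsupp.sum_single_index rfl] at h2
    exact h2
  obtain ⟨m, hm⟩ := MvPolynomial.support_nonempty.2 h
  have h0 := h1 m hm
  have h3 : (MvPolynomial.pderiv i P).totalDegree ≤ P.totalDegree - 1 := by
    unfold MvPolynomial.totalDegree
    rw [Finset.sup_le_iff]
    intro m hm
    have := h1 m hm
    unfold MvPolynomial.totalDegree at this
    omega
  omega

/-- a polynomial with vanishing derivatives is constant -/
theorem weier0_const {n : ℕ} {P : MvPolynomial (Fin n) ℂ}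
    (h : ∀ i, MvPolynomial.pderiv i P = 0) : ∃ c : ℂ, P = MvPolynomial.C c := by
  refine ⟨MvPolynomial.coeff 0 P, ?_⟩
  ext m
  rw [MvPolynomial.coeff_C]
  split_ifs with h0
  · rw [h0]
  · obtain ⟨i, hi⟩ : ∃ i, m i ≠ 0 := by
      by_contra hc
      push Not at hc
      exact h0 (Finsupp.ext fun i => (hc i).symm)
    have h1 := congrArg (MvPolynomial.coeff (m - Finsupp.single i 1)) (h i)
    rw [MvPolynomial.coeff_pderiv, MvPolynomial.coeff_zero] at h1
    have h2 : m - Finsupp.single i 1 + Finsupp.single i 1 = m := by
      apply tsub_add_cancel_of_le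
      rw [Finsupp.single_le_iff]
      omega
    rw [h2] at h1
    rcases mul_eq_zero.1 h1 with h3 | h3
    · exact h3
    · exfalso
      exact Nat.cast_add_one_ne_zero _ h3

/-- Elements with a nonzero wedge of differentials are algebraically independent. Proof: otherwise
take `P ≠ 0` of minimal total degree with `P(f) = 0`; as the characteristic is zero some
derivative `P_i` is nonzero, of smaller degree, so `P_i(f) ≠ 0`, and `0 = d(P(f)) = ∑ P_i(f) df_i`
expresses `df_i` by the other `df_k`, so the wedge vanishes. -/
theorem algebraicIndependent_of_wedge_ne_zero {F : Type} [Field F] [Algebra ℂ F] {n : ℕ}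
    {f : Fin n → F} (h : wedge f ≠ 0) : AlgebraicIndependent ℂ f := by
  have hli : LinearIndependent F fun i => KaehlerDifferential.D ℂ F (f i) := by
    by_contra hc
    exact h ((exteriorPower.ιMulti F n).map_linearDependent _ hc)
  rw [algebraicIndependent_iff]
  have key : ∀ d : ℕ, ∀ P : MvPolynomial (Fin n) ℂ, P.totalDegree = d →
      MvPolynomial.aeval f P = 0 → P = 0 := by
    intro d
    induction d using Nat.strong_induction_on with
    | _ d ih =>
      intro P hd hP
      have h1 := weier0_chain f P
      rw [hP, map_zero] at h1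
      have h2 := Fintype.linearIndependent_iff.1 hli _ h1.symm
      have h3 : ∀ i, MvPolynomial.pderiv i P = 0 := by
        intro i
        by_contra hc
        exact hc (ih _ (by rw [← hd]; exact weier0_deg hc) _ rfl (h2 i))
      obtain ⟨c, rfl⟩ := weier0_const h3
      rw [MvPolynomial.aeval_C] at hP
      rw [(algebraMap ℂ F).injective (hP.trans (map_zero (algebraMap ℂ F)).symm), MvPolynomial.C_0]
  intro P hP
  exact key _ P rfl hP

end Pool.Agent.MP_5c6cc8_ag
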