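import Pool.Agent.MP_5c6cc8_ag.Forms
import Pool.Agent.MP_5c6cc8_ag.Weier0

/-! # Row Weier1: the Weierstrass model of the generic fibre -/

open Polynomial

namespace Pool.Agent.MP_5c6cc8_ag

namespace Setup

variable {K L : Type} [Field K] [Algebra ℂ K] [Field L] [Algebra ℂ L] (S : Setup K L)

/-- The Weierstrass coordinate `X = - w / x₃`. -/
noncomputable def wX : L := -(S.i S.w) / S.x 3

/-- `y = - x₀² x₁ x₂² x₄²`. -/
noncomputable def wy : L := -(S.x 0 ^ 2 * S.x 1 * S.x 2 ^ 2 * S.x 4 ^ 2)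

/-- `η = 2 y + (1 - w) X - w`. -/
noncomputable def wη : L := 2 * S.wy + (1 - S.i S.w) * S.wX - S.i S.w

/-- The cubic polynomial `Q = 4 x³ + (1 - 6w + w²) x² - 2 w (1 - w) x + w²`. -/
noncomputable def wQ : K[X] :=
  C 4 * X ^ 3 + C (1 - 6 * S.w + S.w ^ 2) * X ^ 2 - C (2 * S.w * (1 - S.w)) * X + C (S.w ^ 2)

theorem weier1_ne : S.x 1 ≠ 0 ∧ S.x 2 ≠ 0 ∧ 1 + S.x 1 ≠ 0 ∧ 1 + S.x 2 ≠ 0 ∧
    1 + S.x 1 + S.x 2 ≠ 0 := by
  have h1 := S.cluster.ne_zero 1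
  have h2 := S.cluster.ne_zero 2
  refine ⟨h1, h2, S.cluster.one_add_ne_zero 1, S.cluster.one_add_ne_zero 2, ?_⟩
  intro h
  have h4 := S.cluster.ne_zero 4
  rw [S.x4_eq', h, zero_div] at h4
  exact h4 rfl

theorem weier1_w : S.i S.w = (1 + S.x 1) * (1 + S.x 2) * (1 + S.x 1 + S.x 2) /
    (S.x 1 * S.x 2) := by
  obtain ⟨h1, h2, -⟩ := S.weier1_ne
  rw [eq_div_iff (mul_ne_zero h1 h2)]
  exact S.w_eq

theorem weier1_X : S.wX = -((1 + S.x 1) * (1 + S.x 1 + S.x 2) / S.x 2) := by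
  obtain ⟨h1, h2, h3, h4, h5⟩ := S.weier1_ne
  unfold wX
  rw [S.x3_eq, S.weier1_w]
  field_simp

theorem weier1_y : S.wy = -((1 + S.x 1) ^ 2 * (1 + S.x 1 + S.x 2) ^ 2 /
    (S.x 1 * S.x 2 ^ 2)) := by
  obtain ⟨h1, h2, h3, h4, h5⟩ := S.weier1_ne
  unfold wy
  rw [S.x0_eq, S.x4_eq']
  field_simp

theorem weier1_η : S.wη = 2 * S.wy + (1 - S.i S.w) * S.wX - S.i S.w := rfl

theorem weier1_sub : S.wX - S.i S.w =
    -((1 + S.x 1) * (1 + S.x 1 + S.x 2) ^ 2 / (S.x 1 * S.x 2)) := by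
  obtain ⟨h1, h2, h3, h4, h5⟩ := S.weier1_ne
  rw [S.weier1_X, S.weier1_w]
  field_simp
  ring

/-- `η² = Q(X)`: substitute `x3_eq`, `x4_eq'`, `x0_eq`, `w_eq`, then `field_simp; ring`. -/
theorem η_sq : S.wη ^ 2 = S.wQ.eval₂ S.i S.wX := by
  obtain ⟨h1, h2, h3, h4, h5⟩ := S.weier1_ne
  have h : S.wQ.eval₂ S.i S.wX = 4 * S.wX ^ 3 + (1 - 6 * S.i S.w + S.i S.w ^ 2) * S.wX ^ 2 -
      2 * S.i S.w * (1 - S.i S.w) * S.wX + S.i S.w ^ 2 := by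
    have e4 : S.i 4 = 4 := map_ofNat S.i 4
    have e6 : S.i 6 = 6 := map_ofNat S.i 6
    have e2 : S.i 2 = 2 := map_ofNat S.i 2
    simp only [wQ, eval₂_add, eval₂_sub, eval₂_mul, eval₂_pow, eval₂_C, eval₂_X, eval₂_one, map_add, map_sub,
      map_mul, map_pow, map_one, e4, e6, e2]
  rw [h, S.weier1_η, S.weier1_y, S.weier1_X, S.weier1_w]
  field_simp
  ring

/-- `2 x₁ (X - w) = - η - (1 - w) X + w` (by `field_simp; ring` again). -/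
theorem x1_wη : 2 * S.x 1 * (S.wX - S.i S.w) = -S.wη - (1 - S.i S.w) * S.wX + S.i S.w := by
  obtain ⟨h1, h2, h3, h4, h5⟩ := S.weier1_ne
  rw [S.weier1_η, S.weier1_y, S.weier1_X, S.weier1_w]
  field_simp
  ring

theorem x0_wη : 2 * S.x 0 * (S.wX - S.i S.w) = S.wη - (1 - S.i S.w) * S.wX + S.i S.w := by
  obtain ⟨h1, h2, h3, h4, h5⟩ := S.weier1_ne
  rw [S.weier1_η, S.x0_eq, S.weier1_y, S.weier1_X, S.weier1_w]
  field_simp
  ring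

theorem wX_sub_ne_zero : S.wX - S.i S.w ≠ 0 := by
  obtain ⟨h1, h2, h3, h4, h5⟩ := S.weier1_ne
  rw [S.weier1_sub]
  exact neg_ne_zero.2 (div_ne_zero (mul_ne_zero h3 (pow_ne_zero 2 h5)) (mul_ne_zero h1 h2))

/-- The Bezout identity `P₁ Q + P₂ Q' = 8 w⁵ (w² - 11 w - 1)` with
`P₁ = (-12-144w-168w²+144w³-12w⁴) x + (-2-24w-18w²+84w³-162w⁴+36w⁵-2w⁶)` and
`P₂ = (4+48w+56w²-48w³+4w⁴) x² + (1+10w-13w²-56w³+83w⁴-18w⁵+w⁶) x
      + (-w-13w²-22w³+24w⁴-13w⁵+w⁶)`; the right side is not zero as `w` is transcendental. -/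
theorem bezout : ∃ P₁ P₂ : K[X], P₁ * S.wQ + P₂ * derivative S.wQ = 1 := by
  obtain ⟨w, hw⟩ : ∃ w, w = S.w := ⟨_, rfl⟩
  have hr : 8 * w ^ 5 * (w ^ 2 - 11 * w - 1) ≠ 0 := by
    have hp : (8 * MvPolynomial.X 0 ^ 5 * (MvPolynomial.X 0 ^ 2 - 11 * MvPolynomial.X 0 - 1) :
        MvPolynomial (Fin 2) ℂ) ≠ 0 := by
      intro h
      have h' := congrArg (MvPolynomial.eval (fun _ => (1 : ℂ))) h
      simp only [map_mul, map_pow, map_sub, map_ofNat, MvPolynomial.eval_X, map_zero,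
        map_one] at h'
      norm_num at h'
    have h := S.hK.aeval_ne_zero hp
    simp only [map_mul, map_pow, map_sub, map_ofNat, MvPolynomial.aeval_X, map_one,
      Matrix.cons_val_zero] at h
    rw [hw]
    exact h
  have hQ : S.wQ = C 4 * X ^ 3 + C (1 - 6 * w + w ^ 2) * X ^ 2 - C (2 * w * (1 - w)) * X +
      C (w ^ 2) := by rw [hw]; rfl
  have hQ' : derivative S.wQ = C 12 * X ^ 2 + C (2 * (1 - 6 * w + w ^ 2)) * X -
      C (2 * w * (1 - w)) := by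
    rw [hQ]
    simp only [derivative_add, derivative_sub, derivative_mul, derivative_C, derivative_X,
      derivative_X_pow, zero_mul, zero_add, add_zero, mul_one]
    simp only [map_sub, map_add, map_mul, map_pow, map_one, map_ofNat]
    push_cast
    simp only [map_ofNat]
    ring
  refine ⟨C (8 * w ^ 5 * (w ^ 2 - 11 * w - 1))⁻¹ *
      (C (-12 - 144 * w - 168 * w ^ 2 + 144 * w ^ 3 - 12 * w ^ 4) * X +
      C (-2 - 24 * w - 18 * w ^ 2 + 84 * w ^ 3 - 162 * w ^ 4 + 36 * w ^ 5 - 2 * w ^ 6)),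
    C (8 * w ^ 5 * (w ^ 2 - 11 * w - 1))⁻¹ *
      (C (4 + 48 * w + 56 * w ^ 2 - 48 * w ^ 3 + 4 * w ^ 4) * X ^ 2 +
      C (1 + 10 * w - 13 * w ^ 2 - 56 * w ^ 3 + 83 * w ^ 4 - 18 * w ^ 5 + w ^ 6) * X +
      C (-w - 13 * w ^ 2 - 22 * w ^ 3 + 24 * w ^ 4 - 13 * w ^ 5 + w ^ 6)), ?_⟩
  have key : (C (-12 - 144 * w - 168 * w ^ 2 + 144 * w ^ 3 - 12 * w ^ 4) * X +
      C (-2 - 24 * w - 18 * w ^ 2 + 84 * w ^ 3 - 162 * w ^ 4 + 36 * w ^ 5 - 2 * w ^ 6)) * S.wQ +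
      (C (4 + 48 * w + 56 * w ^ 2 - 48 * w ^ 3 + 4 * w ^ 4) * X ^ 2 +
      C (1 + 10 * w - 13 * w ^ 2 - 56 * w ^ 3 + 83 * w ^ 4 - 18 * w ^ 5 + w ^ 6) * X +
      C (-w - 13 * w ^ 2 - 22 * w ^ 3 + 24 * w ^ 4 - 13 * w ^ 5 + w ^ 6)) * derivative S.wQ =
      C (8 * w ^ 5 * (w ^ 2 - 11 * w - 1)) := by
    rw [hQ', hQ]
    simp only [map_sub, map_add, map_mul, map_pow, map_one, map_ofNat, map_neg]
    ring
  have h1 : (C (8 * w ^ 5 * (w ^ 2 - 11 * w - 1))⁻¹ : K[X]) *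
      C (8 * w ^ 5 * (w ^ 2 - 11 * w - 1)) = 1 := by
    rw [← C_mul, inv_mul_cancel₀ hr, C_1]
  rw [← h1, ← key]
  ring

/-- `ds ∧ dw ∧ dX = η ω`. Proof: `X = - w / x₃`, so
`ds ∧ dw ∧ dX = (w / x₃²) ds ∧ dw ∧ dx₃ = - (w / x₃²) ds ∧ dx₃ ∧ dw = - (w² / x₃) (p₂ - p₄) ω` by
`T_x_w`; and `w² (p₂ - p₄) / x₃ = - η` (`field_simp; ring`). -/
theorem T_w_X : T (S.i S.s) (S.i S.w) S.wX = S.wη • S.ω := by
  obtain ⟨h1, h2, h3, h4, h5⟩ := S.weier1_ne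
  have hx3 := S.cluster.ne_zero 3
  have h24 : pp S.x 2 = (1 + S.x 2)⁻¹ := rfl
  have h44 : pp S.x 4 = (1 + S.x 4)⁻¹ := rfl
  have h14 := S.cluster.one_add_ne_zero 4
  have e1 : T (S.i S.s) (S.i S.w) (S.x 3) =
      (-(S.i S.w * S.x 3 * (pp S.x 2 - pp S.x 4))) • S.ω := by
    rw [T_swap23, S.T_x_w 3]
    exact (neg_smul _ _).symm
  have e2 : T (S.i S.s) (S.i S.w) S.wX =
      (-(S.i S.w)) • ((-((S.x 3)⁻¹ ^ 2)) • T (S.i S.s) (S.i S.w) (S.x 3)) := by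
    have : S.wX = (-(S.i S.w)) * (S.x 3)⁻¹ := by
      unfold wX
      rw [div_eq_mul_inv]
    rw [this, T_mul3, T_inv3, T_neg3, T_self23, neg_zero, smul_zero, add_zero]
  rw [e2, e1, smul_smul, smul_smul]
  congr 1
  rw [h24, h44, S.weier1_η, S.weier1_y, S.weier1_X, S.weier1_w, S.x3_eq, S.x4_eq']
  have h6 : 1 + (1 + S.x 1 + S.x 2) / (S.x 1 * S.x 2) ≠ 0 := by
    rw [← S.x4_eq']
    exact h14
  have h7 : S.x 1 * S.x 2 + (1 + S.x 1 + S.x 2) ≠ 0 := by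
    intro h
    apply h6
    have h9 : S.x 1 * S.x 2 * (1 + (1 + S.x 1 + S.x 2) / (S.x 1 * S.x 2)) =
        S.x 1 * S.x 2 + (1 + S.x 1 + S.x 2) := by
      field_simp
    rw [h] at h9
    exact (mul_eq_zero.1 h9).resolve_left (mul_ne_zero h1 h2)
  have h8 : 1 + (1 + S.x 1 + S.x 2) / (S.x 1 * S.x 2) =
      (S.x 1 * S.x 2 + (1 + S.x 1 + S.x 2)) / (S.x 1 * S.x 2) := by
    field_simp
  rw [h8]
  field_simp
  ring

theorem wη_ne_zero : S.wη ≠ 0 := by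
  obtain ⟨h1, h2, h3, h4, h5⟩ := S.weier1_ne
  have h14 := S.cluster.one_add_ne_zero 4
  have hp : (1 + MvPolynomial.X 0 - MvPolynomial.X 0 * MvPolynomial.X 1 :
      MvPolynomial (Fin 3) ℂ) ≠ 0 := by
    intro h
    have h' := congrArg (MvPolynomial.eval (fun _ => (0 : ℂ))) h
    simp at h'
  have h6 := S.hL.aeval_ne_zero hp
  simp only [map_add, map_mul, map_sub, MvPolynomial.aeval_X, map_one,
    Matrix.cons_val_zero, Matrix.cons_val_one] at h6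
  have h7 : S.wη * (S.x 1 * S.x 2 ^ 2) = -((1 + S.x 1) * (1 + S.x 1 + S.x 2) ^ 2 *
      (1 + S.x 1 - S.x 1 * S.x 2)) := by
    rw [S.weier1_η, S.weier1_y, S.weier1_X, S.weier1_w]
    field_simp
    ring
  intro h0
  rw [h0, zero_mul] at h7
  exact mul_ne_zero (mul_ne_zero h3 (pow_ne_zero 2 h5)) h6 (neg_eq_zero.1 h7.symm)

end Setup

end Pool.Agent.MP_5c6cc8_ag
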