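import Mathlib

/-! # Row DD2: discrete valuation rings over a Dedekind subring of a field -/

namespace Pool.Agent.MP_5c6cc8_ag

section

variable {F : Type} [Field F] (B : Subring F)

/-- The local ring `B_𝔭 ⊆ F`. -/
def locAt (𝔭 : Ideal B) [h𝔭 : 𝔭.IsPrime] : Subring F where
  carrier := {f | ∃ a b : B, b ∉ 𝔭 ∧ f = (a : F) / (b : F)}
  mul_mem' := by
    rintro _ _ ⟨a, b, hb, rfl⟩ ⟨c, d, hd, rfl⟩
    exact ⟨a * c, b * d, h𝔭.mul_notMem hb hd, by
      rw [Subring.coe_mul, Subring.coe_mul, div_mul_div_comm]⟩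
  one_mem' := ⟨1, 1, h𝔭.one_notMem, by simp⟩
  add_mem' := by
    rintro _ _ ⟨a, b, hb, rfl⟩ ⟨c, d, hd, rfl⟩
    refine ⟨a * d + b * c, b * d, h𝔭.mul_notMem hb hd, ?_⟩
    have hb0 : (b : F) ≠ 0 := by
      intro h
      have h1 : b = 0 := Subtype.ext h
      exact hb (h1 ▸ 𝔭.zero_mem)
    have hd0 : (d : F) ≠ 0 := by
      intro h
      have h1 : d = 0 := Subtype.ext h
      exact hd (h1 ▸ 𝔭.zero_mem)
    rw [Subring.coe_add, Subring.coe_mul, Subring.coe_mul, Subring.coe_mul, div_add_div _ _ hb0 hd0]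
  zero_mem' := ⟨0, 1, h𝔭.one_notMem, by simp⟩
  neg_mem' := by
    rintro _ ⟨a, b, hb, rfl⟩
    exact ⟨-a, b, hb, by rw [Subring.coe_neg, neg_div]⟩

theorem mem_locAt {𝔭 : Ideal B} [h𝔭 : 𝔭.IsPrime] {f : F} :
    f ∈ locAt B 𝔭 ↔ ∃ a b : B, b ∉ 𝔭 ∧ f = (a : F) / (b : F) := Iff.rfl

theorem le_locAt (𝔭 : Ideal B) [h𝔭 : 𝔭.IsPrime] : B ≤ locAt B 𝔭 := by
  intro x hx
  exact ⟨⟨x, hx⟩, 1, h𝔭.one_notMem, by simp⟩

theorem dd2_ne {𝔭 : Ideal B} {b : B} (hb : b ∉ 𝔭) : (b : F) ≠ 0 := by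
  intro h
  have h1 : b = 0 := Subtype.ext h
  exact hb (h1 ▸ 𝔭.zero_mem)

theorem dd2_frac [IsFractionRing B F] {R : Subring F} (h : B ≤ R) : IsFractionRing R F := by
  refine (isLocalization_iff ..).2 ⟨?_, ?_, ?_⟩
  · rintro ⟨s, hs⟩
    have hs0 : (s : F) ≠ 0 := fun h => nonZeroDivisors.ne_zero hs (Subtype.ext h)
    exact hs0.isUnit
  · intro z
    obtain ⟨a, b, hb, hab⟩ := IsFractionRing.div_surjective (A := B) z
    have hb0 : (b : F) ≠ 0 := fun h => nonZeroDivisors.ne_zero hb (Subtype.ext h)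
    refine ⟨⟨⟨a, h a.2⟩, ⟨⟨b, h b.2⟩, ?_⟩⟩, ?_⟩
    · rw [mem_nonZeroDivisors_iff_ne_zero]
      exact fun h => hb0 (congrArg Subtype.val h)
    · rw [← hab]
      show (a : F) / b * b = a
      exact div_mul_cancel₀ _ hb0
  · intro x y hxy
    exact ⟨1, by rw [Subtype.ext hxy]⟩

variable [IsDedekindDomain B] [IsFractionRing B F]

/-- `B_𝔭` is a discrete valuation ring (`IsLocalization.AtPrime.isDiscreteValuationRing_of_dedekind_domain`). -/
theorem locAt_dvr (𝔭 : Ideal B) [h𝔭 : 𝔭.IsPrime] (h0 : 𝔭 ≠ ⊥) :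
    IsDiscreteValuationRing (locAt B 𝔭) := by
  let _ : Algebra B (locAt B 𝔭) := (Subring.inclusion (le_locAt B 𝔭)).toAlgebra
  have hcoe : ∀ b : B, ((algebraMap B (locAt B 𝔭) b : locAt B 𝔭) : F) = b := fun b => rfl
  have : IsLocalization.AtPrime (locAt B 𝔭) 𝔭 := by
    refine (isLocalization_iff ..).2 ⟨?_, ?_, ?_⟩
    · rintro ⟨s, hs⟩
      have hs0 : (s : F) ≠ 0 := dd2_ne B hs
      refine IsUnit.of_mul_eq_one ⟨(s : F)⁻¹, ⟨1, s, hs, by simp⟩⟩ ?_
      apply Subtype.ext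
      show (s : F) * (s : F)⁻¹ = 1
      exact mul_inv_cancel₀ hs0
    · rintro ⟨z, a, b, hb, rfl⟩
      refine ⟨⟨a, ⟨b, hb⟩⟩, ?_⟩
      apply Subtype.ext
      show (a : F) / b * b = a
      exact div_mul_cancel₀ _ (dd2_ne B hb)
    · intro x y hxy
      refine ⟨1, ?_⟩
      have h1 : (x : F) = y := congrArg (Subtype.val : locAt B 𝔭 → F) hxy
      rw [Subtype.ext h1]
  exact IsLocalization.AtPrime.isDiscreteValuationRing_of_dedekind_domain B h0 (locAt B 𝔭)

theorem locAt_total (𝔭 : Ideal B) [h𝔭 : 𝔭.IsPrime] (h0 : 𝔭 ≠ ⊥) (g : F) :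
    g ∈ locAt B 𝔭 ∨ g⁻¹ ∈ locAt B 𝔭 := by
  have := locAt_dvr B 𝔭 h0
  have : IsFractionRing (locAt B 𝔭) F := dd2_frac B (le_locAt B 𝔭)
  rcases ValuationRing.isInteger_or_isInteger (locAt B 𝔭) g with ⟨x, hx⟩ | ⟨x, hx⟩
  · left
    rw [← hx]
    exact x.2
  · right
    rw [← hx]
    exact x.2

/-- `B = ⋂ B_𝔭` (`IsDedekindDomain.HeightOneSpectrum.mem_integers_of_valuation_le_one`). -/
theorem mem_of_forall_locAt {f : F}
    (h : ∀ (𝔭 : Ideal B) [𝔭.IsPrime], 𝔭 ≠ ⊥ → f ∈ locAt B 𝔭) : f ∈ B := by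
  let I : Ideal B :=
    { carrier := {b | (b : F) * f ∈ B}
      add_mem' := fun {a b} ha hb => by
        show ((a + b : B) : F) * f ∈ B
        rw [Subring.coe_add, add_mul]
        exact B.add_mem ha hb
      zero_mem' := by
        show ((0 : B) : F) * f ∈ B
        rw [Subring.coe_zero, zero_mul]
        exact B.zero_mem
      smul_mem' := fun c b hb => by
        show ((c * b : B) : F) * f ∈ B
        rw [Subring.coe_mul, mul_assoc]
        exact B.mul_mem c.2 hb }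
  have hI : ∀ b : B, b ∈ I ↔ (b : F) * f ∈ B := fun b => Iff.rfl
  by_cases htop : I = ⊤
  · have h1 : (1 : B) ∈ I := by rw [htop]; exact Submodule.mem_top
    rw [hI, Subring.coe_one, one_mul] at h1
    exact h1
  · obtain ⟨𝔪, h𝔪, hle⟩ := Ideal.exists_le_maximal I htop
    have := h𝔪.isPrime
    by_cases h0 : 𝔪 = ⊥
    · exfalso
      obtain ⟨a, b, hb, hab⟩ := IsFractionRing.div_surjective (A := B) f
      have hb0 : (b : F) ≠ 0 := by
        have h1 := nonZeroDivisors.ne_zero hb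
        exact fun h => h1 (Subtype.ext h)
      have h2 : b ∈ I := by
        rw [hI, ← hab]
        show (b : F) * ((a : F) / b) ∈ B
        rw [mul_div_cancel₀ _ hb0]
        exact a.2
      have h3 := hle h2
      rw [h0, Ideal.mem_bot] at h3
      exact hb0 (congrArg Subtype.val h3)
    · obtain ⟨a, b, hb, hab⟩ := h 𝔪 h0
      exfalso
      apply hb
      apply hle
      rw [hI, hab, mul_div_cancel₀ _ (dd2_ne B hb)]
      exact a.2

/-- Every discrete valuation ring `E` of `F` which contains `B` is `B_𝔭` with `𝔭 = B ∩ 𝔪_E`, and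
moreover the elements of `B` outside of `𝔭` are units in `E`. -/
theorem exists_eq_locAt {E : Subring F} [IsDiscreteValuationRing E]
    (htot : ∀ g : F, g ∈ E ∨ g⁻¹ ∈ E) (hBE : B ≤ E) :
    ∃ (𝔭 : Ideal B) (_ : 𝔭.IsPrime), 𝔭 ≠ ⊥ ∧ E = locAt B 𝔭 := by
  let φ : B →+* E := Subring.inclusion hBE
  let 𝔭 : Ideal B := (IsLocalRing.maximalIdeal E).comap φ
  have h𝔭 : 𝔭.IsPrime := Ideal.comap_isPrime φ _
  have hmem : ∀ b : B, b ∉ 𝔭 → (b : F)⁻¹ ∈ E := by
    intro b hb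
    have h1 : IsUnit (φ b) := by
      by_contra h2
      exact hb ((IsLocalRing.mem_maximalIdeal _).2 h2)
    obtain ⟨u, hu⟩ := h1
    have h3 : ((u⁻¹ : Eˣ) : E) = ((b : F)⁻¹ : F) := by
      have h4 : ((u : E) : F) * (((u⁻¹ : Eˣ) : E) : F) = 1 := by
        have := congrArg (Subtype.val : E → F) (Units.mul_inv u)
        exact this
      rw [hu] at h4
      exact eq_inv_of_mul_eq_one_right h4
    rw [← h3]
    exact ((u⁻¹ : Eˣ) : E).2
  have h0 : 𝔭 ≠ ⊥ := by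
    intro h0
    apply IsDiscreteValuationRing.not_isField E
    have hall : ∀ g : F, g ∈ E := by
      intro g
      obtain ⟨a, b, hb, hab⟩ := IsFractionRing.div_surjective (A := B) g
      rw [← hab]
      show (a : F) / b ∈ E
      rw [div_eq_mul_inv]
      refine E.mul_mem (hBE a.2) (hmem b ?_)
      rw [h0, Ideal.mem_bot]
      exact nonZeroDivisors.ne_zero hb
    refine ⟨⟨0, 1, zero_ne_one⟩, mul_comm, ?_⟩
    intro a ha
    refine ⟨⟨(a : F)⁻¹, hall _⟩, ?_⟩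
    apply Subtype.ext
    show (a : F) * (a : F)⁻¹ = 1
    exact mul_inv_cancel₀ fun h => ha (Subtype.ext h)
  refine ⟨𝔭, h𝔭, h0, ?_⟩
  apply le_antisymm
  · intro f hf
    rcases locAt_total B 𝔭 h0 f with h1 | ⟨a, b, hb, hab⟩
    · exact h1
    · by_cases hf0 : f = 0
      · rw [hf0]
        exact (locAt B 𝔭).zero_mem
      have hb0 := dd2_ne B hb
      have ha0 : (a : F) ≠ 0 := by
        intro h
        rw [h, zero_div] at hab
        exact inv_ne_zero hf0 hab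
      by_cases ha : a ∈ 𝔭
      · exfalso
        apply hb
        have h2 : f * a = b := by
          have h3 : f = (b : F) / a := by
            rw [← inv_inv f, hab, inv_div]
          rw [h3, div_mul_cancel₀ _ ha0]
        have h3 : φ b = ⟨f, hf⟩ * φ a := Subtype.ext h2.symm
        show φ b ∈ IsLocalRing.maximalIdeal E
        rw [h3]
        exact Ideal.mul_mem_left _ _ ha
      · exact ⟨b, a, ha, by rw [← inv_inv f, hab, inv_div]⟩
  · rintro f ⟨a, b, hb, rfl⟩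
    rw [div_eq_mul_inv]
    exact E.mul_mem (hBE a.2) (hmem b hb)

end

end Pool.Agent.MP_5c6cc8_ag
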