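import Pool.Agent.MP_5c6cc8_ag.Weier1
import Pool.Agent.MP_5c6cc8_ag.DD

/-! # Row Weier2: `L` as a quadratic extension of `K(X)` -/

open Polynomial

namespace Pool.Agent.MP_5c6cc8_ag

namespace Setup

variable {K L : Type} [Field K] [Algebra ℂ K] [Field L] [Algebra ℂ L] (S : Setup K L)

/-- `X` is transcendental over `K`: the wedge `ds ∧ dw ∧ dX = η ω` is nonzero, so `s, w, X` are
algebraically independent over `ℂ`, and `K = ℂ(w, s)`. -/
theorem eval_injective : Function.Injective (eval₂RingHom S.i S.wX) := by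
  rw [injective_iff_map_eq_zero]
  intro p hp
  by_contra hp0
  have hT : T (S.i S.s) (S.i S.w) S.wX ≠ 0 := by
    rw [S.T_w_X]
    exact smul_ne_zero S.wη_ne_zero S.ω_ne_zero
  have hind : AlgebraicIndependent ℂ ![S.i S.s, S.i S.w, S.wX] :=
    algebraicIndependent_of_wedge_ne_zero hT
  have hind' : AlgebraicIndependent ℂ ![S.wX, S.i S.w, S.i S.s] := by
    have h1 := hind.comp (![2, 1, 0] : Fin 3 → Fin 3) (by decide)
    have h2 : ![S.i S.s, S.i S.w, S.wX] ∘ (![2, 1, 0] : Fin 3 → Fin 3) =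
        ![S.wX, S.i S.w, S.i S.s] := by
      funext k
      fin_cases k <;> rfl
    rwa [h2] at h1
  let _ : Algebra (MvPolynomial (Fin 2) ℂ) K :=
    (MvPolynomial.aeval ![S.w, S.s] : MvPolynomial (Fin 2) ℂ →ₐ[ℂ] K).toRingHom.toAlgebra
  have : IsFractionRing (MvPolynomial (Fin 2) ℂ) K := S.hK.isFractionRing
  let _ : Algebra K L := S.i.toAlgebra
  let _ : Algebra (MvPolynomial (Fin 2) ℂ) L :=
    (S.i.comp (algebraMap (MvPolynomial (Fin 2) ℂ) K)).toAlgebra
  have : IsScalarTower (MvPolynomial (Fin 2) ℂ) K L := IsScalarTower.of_algebraMap_eq' rfl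
  have halg : IsAlgebraic K S.wX := ⟨p, hp0, hp⟩
  obtain ⟨q, hq0, hq⟩ := (IsFractionRing.isAlgebraic_iff (MvPolynomial (Fin 2) ℂ) K L).2 halg
  have hΦ : (eval₂RingHom (algebraMap (MvPolynomial (Fin 2) ℂ) L) S.wX).comp
      (MvPolynomial.finSuccEquiv ℂ 2).toAlgHom.toRingHom =
      (MvPolynomial.aeval ![S.wX, S.i S.w, S.i S.s] : MvPolynomial (Fin 3) ℂ →ₐ[ℂ] L).toRingHom := by
    apply MvPolynomial.ringHom_ext
    · intro c
      have e1 : (MvPolynomial.finSuccEquiv ℂ 2) (MvPolynomial.C c) =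
          Polynomial.C (MvPolynomial.C c) := by
        rw [MvPolynomial.finSuccEquiv_apply, MvPolynomial.coe_eval₂Hom, MvPolynomial.eval₂_C]
        rfl
      show eval₂ (algebraMap (MvPolynomial (Fin 2) ℂ) L) S.wX
        ((MvPolynomial.finSuccEquiv ℂ 2) (MvPolynomial.C c)) =
          MvPolynomial.aeval ![S.wX, S.i S.w, S.i S.s] (MvPolynomial.C c)
      rw [e1, eval₂_C, MvPolynomial.aeval_C]
      show S.i (MvPolynomial.aeval ![S.w, S.s] (MvPolynomial.C c)) = _
      rw [MvPolynomial.aeval_C, S.hi]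
    · intro k
      show eval₂ (algebraMap (MvPolynomial (Fin 2) ℂ) L) S.wX
        ((MvPolynomial.finSuccEquiv ℂ 2) (MvPolynomial.X k)) =
          MvPolynomial.aeval ![S.wX, S.i S.w, S.i S.s] (MvPolynomial.X k)
      rw [MvPolynomial.aeval_X]
      refine Fin.cases ?_ (fun k => ?_) k
      · rw [MvPolynomial.finSuccEquiv_X_zero, eval₂_X]
        rfl
      · rw [MvPolynomial.finSuccEquiv_X_succ, eval₂_C]
        show S.i (MvPolynomial.aeval ![S.w, S.s] (MvPolynomial.X k)) = _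
        rw [MvPolynomial.aeval_X]
        fin_cases k <;> rfl
  have h3 := congrArg (fun φ : MvPolynomial (Fin 3) ℂ →+* L =>
    φ ((MvPolynomial.finSuccEquiv ℂ 2).symm q)) hΦ
  have h4 : (MvPolynomial.aeval ![S.wX, S.i S.w, S.i S.s] : MvPolynomial (Fin 3) ℂ →ₐ[ℂ] L)
      ((MvPolynomial.finSuccEquiv ℂ 2).symm q) = 0 := by
    rw [← hq]
    refine Eq.trans h3.symm ?_
    show eval₂ (algebraMap (MvPolynomial (Fin 2) ℂ) L) S.wX
      ((MvPolynomial.finSuccEquiv ℂ 2) ((MvPolynomial.finSuccEquiv ℂ 2).symm q)) = _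
    rw [AlgEquiv.apply_symm_apply]
    rfl
  have h5 := (injective_iff_map_eq_zero _).1 hind' _ h4
  apply hq0
  have h6 := congrArg (MvPolynomial.finSuccEquiv ℂ 2) h5
  rwa [AlgEquiv.apply_symm_apply, map_zero] at h6

theorem w2_two {K : Type} [Field K] [Algebra ℂ K] : (2 : K) ≠ 0 := by
  have h1 : algebraMap ℂ K 2 = 2 := map_ofNat _ 2
  rw [← h1]
  exact (map_ne_zero (algebraMap ℂ K)).2 two_ne_zero

theorem w2_natDegree : S.wQ.natDegree = 3 ∧ S.wQ ≠ 0 := by
  have h2 : (2 : K) ≠ 0 := w2_two (K := K)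
  have h4 : (4 : K) ≠ 0 := by
    have h5 : (4 : K) = 2 * 2 := by norm_num
    rw [h5]
    exact mul_ne_zero h2 h2
  have h1 : S.wQ.natDegree = 3 := by
    unfold wQ
    compute_degree!
  refine ⟨h1, fun h => ?_⟩
  rw [h, natDegree_zero] at h1
  exact absurd h1 (by norm_num)

theorem w2_indep (p q : K[X])
    (h : eval₂RingHom S.i S.wX p + eval₂RingHom S.i S.wX q * S.wη = 0) : p = 0 ∧ q = 0 := by
  have hinj := S.eval_injective
  have h1 : p ^ 2 = q ^ 2 * S.wQ := by
    apply hinj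
    rw [map_pow, map_mul, map_pow]
    have h2 : eval₂RingHom S.i S.wX S.wQ = S.wη ^ 2 := S.η_sq.symm
    rw [h2]
    linear_combination (eval₂RingHom S.i S.wX p - eval₂RingHom S.i S.wX q * S.wη) * h
  obtain ⟨hd, hQ⟩ := S.w2_natDegree
  by_cases hq : q = 0
  · refine ⟨?_, hq⟩
    rw [hq] at h1
    have h3 : p ^ 2 = 0 := by rw [h1]; ring
    exact pow_eq_zero_iff (two_ne_zero) |>.1 h3
  · exfalso
    have h3 := congrArg natDegree h1
    rw [natDegree_pow, natDegree_mul (pow_ne_zero 2 hq) hQ, natDegree_pow, hd] at h3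
    omega

/-- `K(X) ⊕ K(X) η` -/
def w2_P (f : L) : Prop := ∃ p q r : K[X], r ≠ 0 ∧
  f = (eval₂RingHom S.i S.wX p + eval₂RingHom S.i S.wX q * S.wη) / eval₂RingHom S.i S.wX r

theorem w2_ne {r : K[X]} (hr : r ≠ 0) : eval₂RingHom S.i S.wX r ≠ 0 := fun h =>
  hr (S.eval_injective (h.trans (map_zero _).symm))

theorem w2_mul {f g : L} (hf : S.w2_P f) (hg : S.w2_P g) : S.w2_P (f * g) := by
  obtain ⟨p, q, r, hr, rfl⟩ := hf
  obtain ⟨p', q', r', hr', rfl⟩ := hg
  refine ⟨p * p' + q * q' * S.wQ, p * q' + q * p', r * r', mul_ne_zero hr hr', ?_⟩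
  have h2 : eval₂RingHom S.i S.wX S.wQ = S.wη ^ 2 := S.η_sq.symm
  rw [div_mul_div_comm, map_mul _ r r']
  congr 1
  simp only [map_add, map_mul]
  rw [h2]
  ring

theorem w2_add {f g : L} (hf : S.w2_P f) (hg : S.w2_P g) : S.w2_P (f + g) := by
  obtain ⟨p, q, r, hr, rfl⟩ := hf
  obtain ⟨p', q', r', hr', rfl⟩ := hg
  refine ⟨p * r' + r * p', q * r' + r * q', r * r', mul_ne_zero hr hr', ?_⟩
  rw [div_add_div _ _ (S.w2_ne hr) (S.w2_ne hr'), map_mul _ r r']
  congr 1
  simp only [map_add, map_mul]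
  ring

theorem w2_inv {f : L} (hf : S.w2_P f) : S.w2_P f⁻¹ := by
  obtain ⟨p, q, r, hr, rfl⟩ := hf
  by_cases h0 : eval₂RingHom S.i S.wX p + eval₂RingHom S.i S.wX q * S.wη = 0
  · rw [h0, zero_div, inv_zero]
    exact ⟨0, 0, 1, one_ne_zero, by simp⟩
  · have h2 : eval₂RingHom S.i S.wX S.wQ = S.wη ^ 2 := S.η_sq.symm
    have h1 : p ^ 2 - q ^ 2 * S.wQ ≠ 0 := by
      intro h
      have h3 : (eval₂RingHom S.i S.wX p + eval₂RingHom S.i S.wX q * S.wη) *
          (eval₂RingHom S.i S.wX p - eval₂RingHom S.i S.wX q * S.wη) = 0 := by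
        have h4 := congrArg (eval₂RingHom S.i S.wX) h
        simp only [map_sub, map_mul, map_pow, map_zero] at h4
        rw [h2] at h4
        rw [← h4]
        ring
      rcases mul_eq_zero.1 h3 with h4 | h4
      · exact h0 h4
      · have h5 := S.w2_indep p (-q) (by rw [map_neg]; rw [← h4]; ring)
        apply h0
        rw [h5.1, neg_eq_zero.1 h5.2]
        simp
    refine ⟨r * p, -(r * q), p ^ 2 - q ^ 2 * S.wQ, h1, ?_⟩
    rw [inv_div, div_eq_div_iff h0 (S.w2_ne h1)]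
    simp only [map_sub, map_mul, map_pow, map_neg]
    rw [h2]
    ring

theorem w2_i (c : K) : S.w2_P (S.i c) := by
  refine ⟨C c, 0, 1, one_ne_zero, ?_⟩
  simp

theorem w2_gen (f : L) : S.w2_P f := by
  have hw := S.wX_sub_ne_zero
  have h2 : (2 : L) ≠ 0 := w2_two
  have h2K : (2 : K) ≠ 0 := w2_two
  have hr0 : C (2 : K) * (X - C S.w) ≠ 0 :=
    mul_ne_zero (C_ne_zero.2 h2K) (X_sub_C_ne_zero S.w)
  have hr : eval₂RingHom S.i S.wX (C (2 : K) * (X - C S.w)) = 2 * (S.wX - S.i S.w) := by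
    simp only [map_sub, map_mul, coe_eval₂RingHom, eval₂_C, eval₂_X, map_ofNat]
  have h1 : S.w2_P (S.x 1) := by
    refine ⟨C S.w - C (1 - S.w) * X, -1, C (2 : K) * (X - C S.w), hr0, ?_⟩
    rw [hr, eq_div_iff (mul_ne_zero h2 hw)]
    have h3 := S.x1_wη
    simp only [map_sub, map_mul, map_neg, map_one, coe_eval₂RingHom, eval₂_C, eval₂_X]
    linear_combination h3
  have h0 : S.w2_P (S.x 0) := by
    refine ⟨C S.w - C (1 - S.w) * X, 1, C (2 : K) * (X - C S.w), hr0, ?_⟩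
    rw [hr, eq_div_iff (mul_ne_zero h2 hw)]
    have h3 := S.x0_wη
    simp only [map_sub, map_mul, map_one, coe_eval₂RingHom, eval₂_C, eval₂_X]
    linear_combination h3
  have hone : S.w2_P 1 := by
    have := S.w2_i 1
    rwa [map_one] at this
  have hx2 : S.w2_P (S.x 2) := by
    have h3 : S.x 2 = (1 + S.x 1) * (S.x 0)⁻¹ := by
      have h4 := S.x0_eq
      have h5 := S.cluster.ne_zero 0
      have h6 := S.cluster.ne_zero 2
      rw [eq_mul_inv_iff_mul_eq₀ h5, h4, mul_div_cancel₀ _ h6]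
    rw [h3]
    exact S.w2_mul (S.w2_add hone h1) (S.w2_inv h0)
  have hf : f ∈ IntermediateField.adjoin ℂ (Set.range ![S.x 1, S.x 2, S.i S.s]) := by
    rw [S.hL.adjoin_eq]
    exact IntermediateField.mem_top
  induction hf using IntermediateField.adjoin_induction with
  | mem x hx =>
    obtain ⟨k, rfl⟩ := hx
    fin_cases k
    · exact h1
    · exact hx2
    · exact S.w2_i S.s
  | algebraMap c =>
    rw [← S.hi]
    exact S.w2_i _
  | add x y _ _ hx hy => exact S.w2_add hx hy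
  | inv x _ hx => exact S.w2_inv hx
  | mul x y _ _ hx hy => exact S.w2_mul hx hy

/-- `L = K(X) ⊕ K(X) η`. `indep`: if `p + q η = 0` with `q ≠ 0` then
`p² = q² Q` in `K[X]`, but the degree of the right side is odd. `gen`: the elements
`(p(X) + q(X) η) / r(X)` form a subfield of `L` which contains `K`, `X`, `η`, hence `x₁`, `x₀`
(`x1_wη`, `x0_wη`) and `x₂ = (1 + x₁) / x₀`, and `L = ℂ(x₁, x₂, s)`. `sqfree`: by
`bezout`. -/
noncomputable def sqData : SqData K[X] L where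
  j := eval₂RingHom S.i S.wX
  inj := S.eval_injective
  η := S.wη
  Q := S.wQ
  sq := by
    rw [S.η_sq]
    rfl
  two := by
    have h2 : (2 : K) ≠ 0 := w2_two
    have h3 : (2 : K[X]) = C 2 := (map_ofNat C 2).symm
    rw [h3]
    exact isUnit_C.2 h2.isUnit
  sqfree := by
    rintro π hπ ⟨R, hR⟩
    obtain ⟨P₁, P₂, h⟩ := S.bezout
    apply hπ.not_isUnit
    rw [isUnit_iff_dvd_one, ← h]
    refine dvd_add (Dvd.dvd.mul_left ?_ _) (Dvd.dvd.mul_left ?_ _)
    · rw [hR, pow_two, mul_assoc]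
      exact dvd_mul_right _ _
    · rw [hR, derivative_mul, derivative_pow]
      refine dvd_add (Dvd.dvd.mul_right (Dvd.dvd.mul_right ?_ _) _) ?_
      · norm_num
      · rw [pow_two, mul_assoc]
        exact dvd_mul_right _ _
  indep := S.w2_indep
  gen := S.w2_gen

end Setup

end Pool.Agent.MP_5c6cc8_ag
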