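import Pool.Agent.MP_5c6cc8_ag.Corner1
import Pool.Agent.MP_5c6cc8_ag.Weier

/-! # Row X2: the charts of the double cover of `ℙ¹ × ℙ¹ × ℙ¹` -/

open MvPolynomial

namespace Pool.Agent.MP_5c6cc8_ag

namespace Setup

variable {K L : Type} [Field K] [Algebra ℂ K] [Field L] [Algebra ℂ L] (S : Setup K L)

/-- `v = w` or `1/w`. -/
noncomputable def cv (e : Bool) : L := if e then (S.i S.w)⁻¹ else S.i S.w

/-- `τ = X` or `1/X`. -/
noncomputable def cτ (e : Bool) : L := if e then S.wX⁻¹ else S.wX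

/-- `σ = s` or `1/s`. -/
noncomputable def cσ (e : Bool) : L := if e then (S.i S.s)⁻¹ else S.i S.s

/-- `η`, `η / w`, `η / X²`, `η / (w X²)`. -/
noncomputable def cη (e1 e2 : Bool) : L :=
  S.wη * (if e1 then (S.i S.w)⁻¹ else 1) * (if e2 then S.wX⁻¹ ^ 2 else 1)

theorem corner2_T_ne_zero : T (S.i S.w) S.wX (S.i S.s) ≠ 0 := by
  have h1 : T (S.i S.w) S.wX (S.i S.s) = T (S.i S.s) (S.i S.w) S.wX := by
    rw [T_swap23 (S.i S.w) (S.i S.s) S.wX, T_swap12 (S.i S.s) (S.i S.w) S.wX, neg_neg]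
  rw [h1, S.T_w_X]
  exact smul_ne_zero S.wη_ne_zero S.ω_ne_zero

/-- `w, X, s` are algebraically independent: `ds ∧ dw ∧ dX = η ω ≠ 0` (`T_w_X`,
`algebraicIndependent_of_wedge_ne_zero`). -/
theorem indep_wXs : AlgebraicIndependent ℂ ![S.i S.w, S.wX, S.i S.s] :=
  algebraicIndependent_of_wedge_ne_zero S.corner2_T_ne_zero

theorem wX_ne_zero : S.wX ≠ 0 := S.indep_wXs.ne_zero 1

theorem corner2_w_ne_zero : S.i S.w ≠ 0 := S.indep_wXs.ne_zero 0

theorem corner2_s_ne_zero : S.i S.s ≠ 0 := S.indep_wXs.ne_zero 2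

theorem indep_corner (e1 e2 e3 : Bool) :
    AlgebraicIndependent ℂ ![S.cv e1, S.cτ e2, S.cσ e3] := by
  apply algebraicIndependent_of_wedge_ne_zero
  change T (S.cv e1) (S.cτ e2) (S.cσ e3) ≠ 0
  have h0 := S.corner2_T_ne_zero
  have h1 : T (S.cv e1) S.wX (S.i S.s) ≠ 0 := by
    cases e1
    · exact h0
    · change T (S.i S.w)⁻¹ S.wX (S.i S.s) ≠ 0
      rw [T_inv1]
      exact smul_ne_zero (neg_ne_zero.mpr (pow_ne_zero _ (inv_ne_zero S.corner2_w_ne_zero))) h0
  have h2 : T (S.cv e1) (S.cτ e2) (S.i S.s) ≠ 0 := by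
    cases e2
    · exact h1
    · change T (S.cv e1) S.wX⁻¹ (S.i S.s) ≠ 0
      rw [T_inv2]
      exact smul_ne_zero (neg_ne_zero.mpr (pow_ne_zero _ (inv_ne_zero S.wX_ne_zero))) h1
  cases e3
  · exact h2
  · change T (S.cv e1) (S.cτ e2) (S.i S.s)⁻¹ ≠ 0
    rw [T_inv3]
    exact smul_ne_zero (neg_ne_zero.mpr (pow_ne_zero _ (inv_ne_zero S.corner2_s_ne_zero))) h2

/-- `η_c² = Q_c(v, τ)`; from `η_sq`. -/
theorem cη_sq (e1 e2 e3 : Bool) :
    S.cη e1 e2 ^ 2 = aeval ![S.cv e1, S.cτ e2, S.cσ e3] (Qc e1 e2) := by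
  have h := S.η_sq
  have hX := S.wX_ne_zero
  have hw := S.corner2_w_ne_zero
  simp only [wQ, Polynomial.eval₂_add, Polynomial.eval₂_sub, Polynomial.eval₂_mul,
    Polynomial.eval₂_pow, Polynomial.eval₂_C, Polynomial.eval₂_X] at h
  simp only [map_add, map_sub, map_mul, map_pow, map_one, map_ofNat] at h
  cases e1 <;> cases e2 <;>
    simp only [cη, cv, cτ, Qc, if_true, if_false, Bool.false_eq_true, map_add, map_sub, map_mul,
      map_pow, map_one, map_ofNat, aeval_X, Matrix.cons_val_zero, Matrix.cons_val_one,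
      mul_pow, mul_one] <;> rw [h] <;> field_simp <;> ring

theorem corner2_poly (e1 e2 e3 : Bool) (p : MvPolynomial (Fin 3) ℂ) :
    ∃ (N : ℕ) (P : Polynomial K), S.wX ^ N * aeval ![S.cv e1, S.cτ e2, S.cσ e3] p =
      Polynomial.eval₂RingHom S.i S.wX P := by
  have hX := S.wX_ne_zero
  induction p using MvPolynomial.induction_on with
  | C a =>
    refine ⟨0, Polynomial.C (algebraMap ℂ K a), ?_⟩
    rw [MvPolynomial.aeval_C, Polynomial.coe_eval₂RingHom, Polynomial.eval₂_C, S.hi]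
    simp
  | add p q hp hq =>
    obtain ⟨N, P, hP⟩ := hp
    obtain ⟨M, Q, hQ⟩ := hq
    refine ⟨N + M, Polynomial.X ^ M * P + Polynomial.X ^ N * Q, ?_⟩
    rw [map_add, map_add, map_mul, map_mul, ← hP, ← hQ, map_pow, map_pow,
      Polynomial.coe_eval₂RingHom, Polynomial.eval₂_X]
    ring
  | mul_X p n hp =>
    obtain ⟨N, P, hP⟩ := hp
    fin_cases n
    · refine ⟨N, P * Polynomial.C (if e1 then S.w⁻¹ else S.w), ?_⟩
      rw [map_mul, map_mul, ← hP, Polynomial.coe_eval₂RingHom, Polynomial.eval₂_C,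
        MvPolynomial.aeval_X]
      cases e1 <;> simp [cv, mul_assoc]
    · refine ⟨N + 1, P * (if e2 then 1 else Polynomial.X ^ 2), ?_⟩
      rw [map_mul, map_mul, ← hP, MvPolynomial.aeval_X]
      cases e2
      · simp [cτ]
        ring
      · simp [cτ]
        field_simp
        ring
    · refine ⟨N, P * Polynomial.C (if e3 then S.s⁻¹ else S.s), ?_⟩
      rw [map_mul, map_mul, ← hP, Polynomial.coe_eval₂RingHom, Polynomial.eval₂_C,
        MvPolynomial.aeval_X]
      cases e3 <;> simp [cσ, mul_assoc]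

/-- The inclusion of `K` in `L` as a homomorphism over `ℂ`. -/
noncomputable def corner2_iA : K →ₐ[ℂ] L := { S.i with commutes' := S.hi }

/-- The subfield of `L` generated by `v, τ, σ`. -/
noncomputable def corner2_F (e1 e2 e3 : Bool) : IntermediateField ℂ L :=
  IntermediateField.adjoin ℂ (Set.range ![S.cv e1, S.cτ e2, S.cσ e3])

theorem corner2_w_mem (e1 e2 e3 : Bool) : S.i S.w ∈ S.corner2_F e1 e2 e3 := by
  have h : S.cv e1 ∈ S.corner2_F e1 e2 e3 :=
    IntermediateField.subset_adjoin _ _ ⟨0, rfl⟩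
  cases e1
  · exact h
  · have := (S.corner2_F true e2 e3).inv_mem h
    change (S.i S.w)⁻¹⁻¹ ∈ _ at this
    rwa [inv_inv] at this

theorem corner2_X_mem (e1 e2 e3 : Bool) : S.wX ∈ S.corner2_F e1 e2 e3 := by
  have h : S.cτ e2 ∈ S.corner2_F e1 e2 e3 :=
    IntermediateField.subset_adjoin _ _ ⟨1, rfl⟩
  cases e2
  · exact h
  · have := (S.corner2_F e1 true e3).inv_mem h
    change (S.wX)⁻¹⁻¹ ∈ _ at this
    rwa [inv_inv] at this

theorem corner2_s_mem (e1 e2 e3 : Bool) : S.i S.s ∈ S.corner2_F e1 e2 e3 := by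
  have h : S.cσ e3 ∈ S.corner2_F e1 e2 e3 :=
    IntermediateField.subset_adjoin _ _ ⟨2, rfl⟩
  cases e3
  · exact h
  · have := (S.corner2_F e1 e2 true).inv_mem h
    change (S.i S.s)⁻¹⁻¹ ∈ _ at this
    rwa [inv_inv] at this

theorem corner2_K_mem (e1 e2 e3 : Bool) (k : K) : S.i k ∈ S.corner2_F e1 e2 e3 := by
  have h : IntermediateField.adjoin ℂ (Set.range ![S.w, S.s]) ≤
      (S.corner2_F e1 e2 e3).comap S.corner2_iA := by
    rw [IntermediateField.adjoin_le_iff]
    rintro _ ⟨j, rfl⟩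
    fin_cases j
    · exact S.corner2_w_mem e1 e2 e3
    · exact S.corner2_s_mem e1 e2 e3
  rw [S.hK.adjoin_eq] at h
  exact h (IntermediateField.mem_top (x := k))

theorem corner2_eval_mem (e1 e2 e3 : Bool) (P : Polynomial K) :
    Polynomial.eval₂RingHom S.i S.wX P ∈ S.corner2_F e1 e2 e3 := by
  rw [Polynomial.coe_eval₂RingHom, Polynomial.eval₂_eq_sum_range]
  refine sum_mem fun j _ => ?_
  exact mul_mem (S.corner2_K_mem e1 e2 e3 _) (pow_mem (S.corner2_X_mem e1 e2 e3) _)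

theorem corner2_mem_iff (e1 e2 e3 : Bool) {f : L} (hf : f ∈ S.corner2_F e1 e2 e3) :
    ∃ a b : MvPolynomial (Fin 3) ℂ, b ≠ 0 ∧ f = aeval ![S.cv e1, S.cτ e2, S.cσ e3] a /
      aeval ![S.cv e1, S.cτ e2, S.cσ e3] b := by
  obtain ⟨a, b, h⟩ := (IntermediateField.mem_adjoin_range_iff ℂ _ _).1 hf
  by_cases hb : b = 0
  · refine ⟨0, 1, one_ne_zero, ?_⟩
    rw [h, hb]
    simp
  · exact ⟨a, b, hb, h⟩

/-- The chart ring `ℂ[v, τ, σ] ⊕ ℂ[v, τ, σ] η_c` as a `SqData`. `indep`: if `p + q η_c = 0` with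
`q ≠ 0` then `η` is a rational function of `w, s, X`, so `P(X) + R(X) η = 0` for some `P, R ∈ K[X]`
with `R ≠ 0`, which contradicts `S.sqData.indep`. `gen`: `S.sqData.gen`, clear denominators
(`K = ℂ(w, s)`). -/
noncomputable def corner (e1 e2 e3 : Bool) : SqData (MvPolynomial (Fin 3) ℂ) L where
  j := (aeval ![S.cv e1, S.cτ e2, S.cσ e3] : MvPolynomial (Fin 3) ℂ →ₐ[ℂ] L).toRingHom
  inj := S.indep_corner e1 e2 e3
  η := S.cη e1 e2
  Q := Qc e1 e2
  sq := S.cη_sq e1 e2 e3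
  two := by
    have h : (2 : MvPolynomial (Fin 3) ℂ) = C 2 := (map_ofNat C 2).symm
    rw [h]
    exact (isUnit_iff_ne_zero.mpr (two_ne_zero (α := ℂ))).map C
  sqfree := Qc_sqfree e1 e2
  indep := by
    intro p q h
    have hX := S.wX_ne_zero
    have hw : S.w ≠ 0 := fun h0 => S.corner2_w_ne_zero (by rw [h0, map_zero])
    have hj := S.indep_corner e1 e2 e3
    obtain ⟨N, P, hP⟩ := S.corner2_poly e1 e2 e3 p
    obtain ⟨M, R, hR⟩ := S.corner2_poly e1 e2 e3 q
    change aeval ![S.cv e1, S.cτ e2, S.cσ e3] p +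
      aeval ![S.cv e1, S.cτ e2, S.cσ e3] q * S.cη e1 e2 = 0 at h
    have h1 := S.sqData.indep (P * Polynomial.X ^ (M + 2))
      (R * Polynomial.X ^ N * (Polynomial.C (if e1 then S.w⁻¹ else 1) *
        (if e2 then 1 else Polynomial.X ^ 2))) ?_
    · obtain ⟨h2, h3⟩ := h1
      have hP0 : P = 0 := by
        rcases mul_eq_zero.1 h2 with h4 | h4
        · exact h4
        · exact absurd h4 (pow_ne_zero _ Polynomial.X_ne_zero)
      have hR0 : R = 0 := by
        rcases mul_eq_zero.1 h3 with h4 | h4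
        · rcases mul_eq_zero.1 h4 with h5 | h5
          · exact h5
          · exact absurd h5 (pow_ne_zero _ Polynomial.X_ne_zero)
        · exfalso
          rcases mul_eq_zero.1 h4 with h5 | h5
          · rw [Polynomial.C_eq_zero] at h5
            cases e1
            · simp at h5
            · simp [hw] at h5
          · cases e2
            · simp at h5
            · simp at h5
      rw [hP0, map_zero] at hP
      rw [hR0, map_zero] at hR
      constructor
      · apply hj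
        rw [map_zero]
        exact (mul_eq_zero.1 hP).resolve_left (pow_ne_zero _ hX)
      · apply hj
        rw [map_zero]
        exact (mul_eq_zero.1 hR).resolve_left (pow_ne_zero _ hX)
    · change Polynomial.eval₂RingHom S.i S.wX _ + Polynomial.eval₂RingHom S.i S.wX _ * S.wη = 0
      rw [map_mul, map_mul, map_mul, ← hP, ← hR, map_pow, map_pow, Polynomial.coe_eval₂RingHom,
        Polynomial.eval₂_X]
      have h5 : Polynomial.eval₂ S.i S.wX (Polynomial.C (if e1 then S.w⁻¹ else 1) *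
          (if e2 then 1 else Polynomial.X ^ 2)) * S.wη = S.cη e1 e2 * S.wX ^ 2 := by
        cases e1 <;> cases e2 <;> simp [cη] <;> field_simp
      have h6 : ∀ A B E Z U : L, A + B * E = 0 → Z * U = E * S.wX ^ 2 →
          S.wX ^ N * A * S.wX ^ (M + 2) + S.wX ^ M * B * S.wX ^ N * Z * U = 0 := by
        intro A B E Z U hA hZ
        have : S.wX ^ N * A * S.wX ^ (M + 2) + S.wX ^ M * B * S.wX ^ N * Z * U =
            S.wX ^ N * S.wX ^ M * (A * S.wX ^ 2 + B * (Z * U)) := by ring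
        rw [this, hZ]
        linear_combination S.wX ^ N * S.wX ^ M * S.wX ^ 2 * hA
      exact h6 _ _ _ _ _ h h5
  gen := by
    intro f
    have hX := S.wX_ne_zero
    have hw := S.corner2_w_ne_zero
    have hj := S.indep_corner e1 e2 e3
    obtain ⟨p, q, r, hr, hf⟩ := S.sqData.gen f
    change f = (Polynomial.eval₂RingHom S.i S.wX p + Polynomial.eval₂RingHom S.i S.wX q * S.wη) /
      Polynomial.eval₂RingHom S.i S.wX r at hf
    set u : L := (if e1 then S.i S.w else 1) * (if e2 then S.wX ^ 2 else 1) with hu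
    have hη : S.wη = S.cη e1 e2 * u := by
      cases e1 <;> cases e2 <;> simp [cη, hu] <;> field_simp
    have huF : u ∈ S.corner2_F e1 e2 e3 := by
      refine mul_mem ?_ ?_
      · split_ifs
        · exact S.corner2_w_mem _ e2 e3
        · exact one_mem _
      · split_ifs
        · exact pow_mem (S.corner2_X_mem e1 _ e3) 2
        · exact one_mem _
    have h1 : Polynomial.eval₂RingHom S.i S.wX p / Polynomial.eval₂RingHom S.i S.wX r ∈
        S.corner2_F e1 e2 e3 :=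
      div_mem (S.corner2_eval_mem e1 e2 e3 p) (S.corner2_eval_mem e1 e2 e3 r)
    have h2 : Polynomial.eval₂RingHom S.i S.wX q * u / Polynomial.eval₂RingHom S.i S.wX r ∈
        S.corner2_F e1 e2 e3 :=
      div_mem (mul_mem (S.corner2_eval_mem e1 e2 e3 q) huF) (S.corner2_eval_mem e1 e2 e3 r)
    obtain ⟨a1, b1, hb1, e1'⟩ := S.corner2_mem_iff e1 e2 e3 h1
    obtain ⟨a2, b2, hb2, e2'⟩ := S.corner2_mem_iff e1 e2 e3 h2
    refine ⟨a1 * b2, a2 * b1, b1 * b2, mul_ne_zero hb1 hb2, ?_⟩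
    have hb1' : aeval ![S.cv e1, S.cτ e2, S.cσ e3] b1 ≠ 0 := fun h0 =>
      hb1 (hj (by rw [h0, map_zero]))
    have hb2' : aeval ![S.cv e1, S.cτ e2, S.cσ e3] b2 ≠ 0 := fun h0 =>
      hb2 (hj (by rw [h0, map_zero]))
    change f = (aeval ![S.cv e1, S.cτ e2, S.cσ e3] (a1 * b2) +
      aeval ![S.cv e1, S.cτ e2, S.cσ e3] (a2 * b1) * S.cη e1 e2) /
      aeval ![S.cv e1, S.cτ e2, S.cσ e3] (b1 * b2)
    rw [map_mul, map_mul, map_mul]
    have h3 : f = Polynomial.eval₂RingHom S.i S.wX p / Polynomial.eval₂RingHom S.i S.wX r +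
        Polynomial.eval₂RingHom S.i S.wX q * u / Polynomial.eval₂RingHom S.i S.wX r *
          S.cη e1 e2 := by
      rw [hf, hη]
      ring
    rw [h3, e1', e2']
    field_simp

end Setup

end Pool.Agent.MP_5c6cc8_ag
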