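import Pool.Agent.MP_5c6cc8_ag.SQ

/-! # Row DD1: `A ⊕ A η` is a Dedekind domain for a PID `A` -/

namespace Pool.Agent.MP_5c6cc8_ag

/-- If `A` is a principal ideal domain then `A ⊕ A η` is a Dedekind domain. Proof: it is integrally
closed; a finite `A`-module, so noetherian; integral over `A`, so of dimension at most one
(e.g. via `IsIntegralClosure` and `integralClosure.isDedekindDomain`, or directly: `isDedekindDomain_iff`
and `Ring.DimensionLEOne.isIntegralClosure` / `Ideal.IsMaximal` of an integral extension). -/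
theorem SqData.isDedekindDomain {A L : Type} [CommRing A] [IsDomain A] [IsPrincipalIdealRing A]
    [Field L] (D : SqData A L) : IsDedekindDomain D.ring := by
  have hj : ∀ a : A, D.j a ∈ D.ring := fun a => ⟨a, 0, by simp⟩
  let algR : Algebra A D.ring := (D.j.codRestrict D.ring hj).toAlgebra
  have hηm : D.η ∈ D.ring := ⟨0, 1, by simp⟩
  have hfin : Module.Finite A D.ring := by
    classical
    refine ⟨⟨{1, ⟨D.η, hηm⟩}, ?_⟩⟩
    rw [eq_top_iff]
    rintro ⟨x, p, q, rfl⟩ -
    have h1 : (⟨D.j p + D.j q * D.η, p, q, rfl⟩ : D.ring)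
        = p • (1 : D.ring) + q • (⟨D.η, hηm⟩ : D.ring) := by
      apply Subtype.ext
      change D.j p + D.j q * D.η = D.j p * 1 + D.j q * D.η
      rw [mul_one]
    rw [h1]
    refine Submodule.add_mem _ (Submodule.smul_mem _ _ (Submodule.subset_span (by simp)))
      (Submodule.smul_mem _ _ (Submodule.subset_span (by simp)))
  have hint : Algebra.IsIntegral A D.ring := Algebra.IsIntegral.of_finite A D.ring
  have hN : IsNoetherianRing D.ring := IsNoetherianRing.of_finite A D.ring
  have hdim : Ring.DimensionLEOne D.ring := Ring.DimensionLEOne.of_isIntegral A D.ring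
  have hic : IsIntegrallyClosed D.ring := D.isIntegrallyClosed
  rw [isDedekindDomain_iff D.ring L]
  exact ⟨inferInstance, hN, hdim, fun {x} hx => IsIntegrallyClosed.isIntegral_iff.1 hx⟩

end Pool.Agent.MP_5c6cc8_ag
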