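import Mathlib

/-!
# Lc-trivial fibrations, the moduli b-divisor, effective b-semiampleness

Definitions for the problem MP_5c6cc8_ag. The divisors over a normal projective variety `X` are
described by their valuation rings: the discrete valuation rings of the function field `K(X)` which
are essentially of finite type over `ℂ` (by a lemma of Zariski these are the local rings
`𝒪_{W,E}` of the prime divisors `E` on the normal projective birational models `W → X`).
-/

open AlgebraicGeometry CategoryTheory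

namespace Pool.Agent.MP_5c6cc8_ag

attribute [local instance] MvPolynomial.gradedAlgebra

/-! ### Valuation rings, orders of functions and of forms -/

section Field

variable {F : Type} [Field F] [Algebra ℂ F]

/-- `g` is a unit of the subring `R ⊆ F`. -/
def IsUnitIn (R : Subring F) (g : F) : Prop := g ≠ 0 ∧ g ∈ R ∧ g⁻¹ ∈ R

/-- `ord_R g = m`, for a discrete valuation ring `R` of `F`: `g` is a unit of `R` times the
`m`-th power of a uniformizer. -/
def HasOrd (R : Subring F) (g : F) (m : ℤ) : Prop :=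
  ∃ ϖ : R, Irreducible ϖ ∧ IsUnitIn R (g / (ϖ : F) ^ m)

/-- `R` is a discrete valuation ring with fraction field `F`, essentially of finite type over `ℂ`:
it is a localization of some finitely generated `ℂ`-algebra `ℂ[T] ⊆ R`. -/
structure IsDivisorial (R : Subring F) : Prop where
  dvr : IsDiscreteValuationRing R
  total : ∀ g : F, g ∈ R ∨ g⁻¹ ∈ R
  essFinite : ∃ T : Finset F, (Algebra.adjoin ℂ (T : Set F)).toSubring ≤ R ∧
    ∀ g ∈ R, ∃ p ∈ Algebra.adjoin ℂ (T : Set F), ∃ q ∈ Algebra.adjoin ℂ (T : Set F),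
      IsUnitIn R q ∧ g = p / q

section Abstract

/-! Forms for a map `D : F → Ω`; below `D` is the universal derivation `F → Ω_{F/ℂ}`. -/

variable {Ω : Type} [AddCommGroup Ω] [Module F Ω]

/-- The space `⋀ⁿ Ω`. -/
abbrev FormOf (F Ω : Type) [Field F] [AddCommGroup Ω] [Module F Ω] (n : ℕ) : Type := ⋀[F]^n Ω

/-- `ω` is not zero. -/
abbrev FormOf.IsNonzero {n : ℕ} (ω : FormOf F Ω n) : Prop := ω ≠ 0

/-- The form `D f₁ ∧ … ∧ D fₙ`. -/
noncomputable abbrev wedgeOf (D : F → Ω) {n : ℕ} (f : Fin n → F) : FormOf F Ω n :=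
  exteriorPower.ιMulti F n fun i => D (f i)

/-- The `R`-span of the forms `D f₁ ∧ … ∧ D fₙ` with `fᵢ ∈ R`. -/
noncomputable abbrev latticeOf (D : F → Ω) (R : Subring F) (n : ℕ) : Submodule R (FormOf F Ω n) :=
  Submodule.span R {ω | ∃ f : Fin n → F, (∀ i, f i ∈ R) ∧ ω = wedgeOf D f}

/-- The form `ω` is an element of the lattice times a function of order `m`. -/
abbrev OrdGEOf (D : F → Ω) {n : ℕ} (R : Subring F) (ω : FormOf F Ω n) (m : ℤ) : Prop :=
  ∃ g : F, HasOrd R g m ∧ ∃ η ∈ latticeOf D R n, ω = g • η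

end Abstract

/-- The space `⋀ⁿ Ω_{F/ℂ}` of rational `n`-forms. -/
noncomputable abbrev Form (F : Type) [Field F] [Algebra ℂ F] (n : ℕ) : Type :=
  FormOf F (Ω[F⁄ℂ]) n

/-- The form `df₁ ∧ … ∧ dfₙ`. -/
noncomputable def wedge {n : ℕ} (f : Fin n → F) : Form F n :=
  wedgeOf (KaehlerDifferential.D ℂ F) f

/-- The regular `n`-forms at `R`: the `R`-span of the forms `df₁ ∧ … ∧ dfₙ` with `fᵢ ∈ R`. -/
noncomputable def formLattice (R : Subring F) (n : ℕ) : Submodule R (Form F n) :=
  latticeOf (KaehlerDifferential.D ℂ F) R n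

/-- `ord_R ω ≥ m`: the form `ω` is a regular form times a function of order `m`. -/
def FormOrdGE {n : ℕ} (R : Subring F) (ω : Form F n) (m : ℤ) : Prop :=
  OrdGEOf (KaehlerDifferential.D ℂ F) R ω m

/-- `ord_R ω = m`. -/
def HasFormOrd {n : ℕ} (R : Subring F) (ω : Form F n) (m : ℤ) : Prop :=
  FormOrdGE R ω m ∧ ∀ k : ℤ, FormOrdGE R ω k → k ≤ m

/-- The log discrepancy `a(E; X, Δ)` of the divisor `E` over `X` with valuation ring `R`, for the
`ℚ`-divisor `Δ` with `K_X + Δ + (1/r)(φ) = 0`, where `K_X = div ω`: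
`a = 1 + ord_E (K_W - μ^*(K_X + Δ)) = 1 + ord_E ω + (1/r) ord_E φ`. -/
def HasLogDisc {n : ℕ} (ω : Form F n) (φ : F) (r : ℕ) (R : Subring F) (a : ℚ) : Prop :=
  ∃ k l : ℤ, HasFormOrd R ω k ∧ HasOrd R φ l ∧ a = 1 + k + l / r

end Field

/-! ### Thresholds and the moduli b-divisor, for an extension of function fields `i : K ⟶ L` -/

section Ext

variable {K L : Type} [Field K] [Algebra ℂ K] [Field L] [Algebra ℂ L]

/-- `c = lct_f(P) = inf_E a(E; X, Δ) / mult_E (f^* P)`, over the divisors `E` over `X` dominating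
`P` (here `P` is a divisor over `Y`, given by its valuation ring in `K = K(Y)`). -/
def IsLct {n : ℕ} (i : K →+* L) (ω : Form L n) (φ : L) (r : ℕ) (P : Subring K) (c : ℝ) : Prop :=
  IsGLB {x : ℝ | ∃ E : Subring L, IsDivisorial E ∧ E.comap i = P ∧
    ∃ (t : K) (e : ℤ) (a : ℚ), HasOrd P t 1 ∧ HasOrd E (i t) e ∧ HasLogDisc ω φ r E a ∧
      x = a / e} c

/-- `μ = mult_P M`, for the moduli b-divisor `M = D - K_Y - B_Y` with `D = 0` and
`K_Y = div ω'`: `mult_P M = - ord_P ω' - (1 - lct_f(P))`. -/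
def IsModuliMult {n n' : ℕ} (i : K →+* L) (ω : Form L n) (φ : L) (r : ℕ) (ω' : Form K n')
    (P : Subring K) (μ : ℝ) : Prop :=
  ∃ (k : ℤ) (c : ℝ), HasFormOrd P ω' k ∧ IsLct i ω φ r P c ∧ μ = -k - (1 - c)

end Ext

/-! ### Normal projective varieties over `ℂ` -/

/-- Projective space `Proj ℂ[x₀, …, xₙ]`. -/
noncomputable def ProjSpace (n : ℕ) : Scheme.{0} :=
  Proj (MvPolynomial.homogeneousSubmodule (Fin (n + 1)) (CommRingCat.of ℂ))

/-- The structure morphism of projective space. -/
noncomputable def ProjSpace.str (n : ℕ) : ProjSpace n ⟶ Spec (CommRingCat.of ℂ) :=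
  Proj.toSpecZero (MvPolynomial.homogeneousSubmodule (Fin (n + 1)) (CommRingCat.of ℂ)) ≫
    Spec.map (CommRingCat.ofHom (algebraMap (CommRingCat.of ℂ)
      (MvPolynomial.homogeneousSubmodule (Fin (n + 1)) (CommRingCat.of ℂ) 0)))

/-- A normal projective variety over `ℂ`. -/
structure Variety where
  X : Scheme.{0}
  str : X ⟶ Spec (CommRingCat.of ℂ)
  isIntegral : IsIntegral X
  normal : ∀ x : X, IsIntegrallyClosed (X.presheaf.stalk x)
  projective : ∃ (n : ℕ) (i : X ⟶ ProjSpace n), IsClosedImmersion i ∧ i ≫ ProjSpace.str n = str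

attribute [instance] Variety.isIntegral

/-- The function field. -/
noncomputable def Variety.K (V : Variety) : Type := V.X.functionField

noncomputable instance (V : Variety) : Field V.K :=
  (inferInstance : Field V.X.functionField)

/-- The function field of a variety is an extension of `ℂ`. -/
noncomputable instance (V : Variety) : Algebra ℂ V.K :=
  ((Scheme.ΓSpecIso (CommRingCat.of ℂ)).inv ≫ V.str.appTop ≫
    V.X.presheaf.germ ⊤ (genericPoint V.X) trivial).hom.toAlgebra

/-- The local ring `𝒪_{V,x}` as a subring of the function field. -/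
noncomputable def Variety.localRing (V : Variety) (x : V.X) : Subring V.K :=
  (algebraMap (V.X.presheaf.stalk x) V.X.functionField).range

/-- `dim V = n`, i.e. the transcendence degree of the function field is `n`. -/
def Variety.HasDim (V : Variety) (n : ℕ) : Prop := Algebra.trdeg ℂ V.K = n

/-- A surjective morphism `V → W` over `ℂ`. -/
structure Surjection (V W : Variety) where
  f : V.X ⟶ W.X
  commutes : f ≫ W.str = V.str
  surjective : Function.Surjective f
  generic : f (genericPoint V.X) = genericPoint W.X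

/-- The inclusion of function fields `K(W) → K(V)`. -/
noncomputable def Surjection.pull {V W : Variety} (f : Surjection V W) : W.K →+* V.K :=
  (W.X.presheaf.stalkSpecializes (Inseparable.of_eq f.generic).specializes ≫
    f.f.stalkMap (genericPoint V.X)).hom

/-! ### Lc-trivial fibrations and good models -/

/-- The multiplicity of `⌈A^*(X, Δ)⌉` at a divisor with log discrepancy `a`: here
`A^* = - Δ_W + ∑_{mult_E Δ_W = 1} E` has multiplicity `a - 1` if `a ≠ 0` and `0` if `a = 0`. -/
def ceilAstar (a : ℚ) : ℤ := if a = 0 then 0 else ⌈a - 1⌉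

/-- An lc-trivial fibration `f : (X, Δ) → Y` of relative dimension `d`, satisfying (iii) with `r`
and `D = 0`. The data are `f`, a rational top form `ω` on `X` with `div ω = K_X` and a rational
function `φ` on `X`; then `Δ = - K_X - (1/r)(φ)`, so that `K_X + Δ + (1/r)(φ) = 0 = f^* 0`. -/
structure LCTrivialFibration (d r : ℕ) where
  X : Variety
  Y : Variety
  f : Surjection X Y
  /-- `f` has connected fibres, i.e. (as `Y` is normal) `K(Y)` is algebraically closed in `K(X)`. -/
  connected : ∀ (g : X.K) (p : Polynomial Y.K), p ≠ 0 → p.eval₂ f.pull g = 0 → g ∈ f.pull.range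
  n : ℕ
  dim_Y : Y.HasDim n
  dim_X : X.HasDim (n + d)
  ω : Form X.K (n + d)
  ω_ne_zero : FormOf.IsNonzero ω
  φ : X.K
  φ_ne_zero : φ ≠ 0
  /-- (i) `(X, Δ)` is sub-lc over the generic point of `Y`. -/
  sub_lc : ∀ E : Subring X.K, IsDivisorial E → (∀ c, f.pull c ∈ E) →
    ∃ a, HasLogDisc ω φ r E a ∧ 0 ≤ a
  /-- (ii) `f_* 𝒪_X(⌈A^*(X, Δ)⌉)` has rank one: the rational functions `h` on `X` which are
  sections of it over the generic point of `Y` form a one-dimensional `K(Y)`-vector space. -/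
  rank_one : ∃ h₀ : X.K, h₀ ≠ 0 ∧ ∀ h : X.K,
    (∀ E : Subring X.K, IsDivisorial E → (∀ c, f.pull c ∈ E) → ∀ a, HasLogDisc ω φ r E a →
      h = 0 ∨ ∃ l : ℤ, HasOrd E h l ∧ 0 ≤ l + ceilAstar a) ↔ ∃ c : Y.K, h = f.pull c * h₀

/-- `μ = mult_P M` for the moduli b-divisor `M` of the fibration, with `K_Y = div ω'`. -/
def LCTrivialFibration.IsModuliMult {d r : ℕ} (F : LCTrivialFibration d r) (ω' : Form F.Y.K F.n)
    (P : Subring F.Y.K) (μ : ℝ) : Prop :=
  Pool.Agent.MP_5c6cc8_ag.IsModuliMult F.f.pull F.ω F.φ r ω' P μ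

/-- A birational morphism `ψ : Y' → Y` of normal projective varieties such that `I ⋅ M_{Y'}` is
Cartier and base point free, and `M` descends to `M_{Y'}`. -/
structure GoodModel {d r : ℕ} (F : LCTrivialFibration d r) (ω' : Form F.Y.K F.n) (I : ℕ) where
  Y' : Variety
  ψ : Surjection Y' F.Y
  birational : Function.Bijective ψ.pull
  /-- Local equations `G y ∈ K(Y')ˣ` at all points `y ∈ Y'` for the Cartier divisor `I ⋅ M_{Y'}`. -/
  G : Y'.X → Y'.K
  G_ne_zero : ∀ y, G y ≠ 0
  cartier : ∀ y, ∃ U : Y'.X.Opens, y ∈ U ∧ ∀ z ∈ U, IsUnitIn (Y'.localRing z) (G z / G y)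
  trace : ∀ y, IsDiscreteValuationRing (Y'.X.presheaf.stalk y) → ∃ (m : ℤ) (μ : ℝ),
    HasOrd (Y'.localRing y) (G y) m ∧
      F.IsModuliMult ω' ((Y'.localRing y).comap ψ.pull) μ ∧ (m : ℝ) = I * μ
  /-- `|I ⋅ M_{Y'}|` is base point free: for every `y` some section `h` generates at `y`. -/
  free : ∀ y, ∃ h : Y'.K, (∀ z, h * G z ∈ Y'.localRing z) ∧ IsUnitIn (Y'.localRing y) (h * G y)
  /-- `M` descends to `M_{Y'}`: for every divisor `P` over `Y'`, with centre (the generic point of
  the closed set) `y ∈ Y'`, the multiplicity of `M` at `P` is that of the pullback of `M_{Y'}`. -/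
  descends : ∀ P : Subring Y'.K, IsDivisorial P → ∀ y, Y'.localRing y ≤ P →
    (∀ g ∈ Y'.localRing y, IsUnitIn P g → IsUnitIn (Y'.localRing y) g) → ∃ (m : ℤ) (μ : ℝ),
    HasOrd P (G y) m ∧ F.IsModuliMult ω' (P.comap ψ.pull) μ ∧ (m : ℝ) = I * μ

end Pool.Agent.MP_5c6cc8_ag
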