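import Pool.Agent.MP_5c6cc8_ag.Val
import Pool.Agent.MP_5c6cc8_ag.Coord

/-! # Row Deriv1: partial derivatives -/

open MvPolynomial

namespace Pool.Agent.MP_5c6cc8_ag

variable {F : Type} [Field F] [Algebra ℂ F] {n : ℕ}

/-- The differentials of the coordinates are a basis. -/
theorem deriv1_basis {z : Fin n → F} (hz : IsCoord z) :
    ∃ b : Module.Basis (Fin n) F (Ω[F⁄ℂ]), ∀ k, b k = KaehlerDifferential.D ℂ F (z k) := by
  let alg : Algebra (MvPolynomial (Fin n) ℂ) F :=
    (aeval z : MvPolynomial (Fin n) ℂ →ₐ[ℂ] F).toRingHom.toAlgebra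
  have hfr : IsFractionRing (MvPolynomial (Fin n) ℂ) F := hz.isFractionRing
  have htow : IsScalarTower ℂ (MvPolynomial (Fin n) ℂ) F :=
    IsScalarTower.of_algebraMap_eq fun c => by
      change algebraMap ℂ F c = aeval z (algebraMap ℂ (MvPolynomial (Fin n) ℂ) c)
      rw [AlgHom.commutes]
  let f := KaehlerDifferential.map ℂ ℂ (MvPolynomial (Fin n) ℂ) F
  have hloc : IsLocalizedModule (nonZeroDivisors (MvPolynomial (Fin n) ℂ)) f :=
    KaehlerDifferential.isLocalizedModule_map ℂ (MvPolynomial (Fin n) ℂ) F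
      (nonZeroDivisors (MvPolynomial (Fin n) ℂ))
  refine ⟨(KaehlerDifferential.mvPolynomialBasis ℂ (Fin n)).ofIsLocalizedModule F
    (nonZeroDivisors (MvPolynomial (Fin n) ℂ)) f, fun k => ?_⟩
  rw [Module.Basis.ofIsLocalizedModule_apply, KaehlerDifferential.mvPolynomialBasis_apply]
  change KaehlerDifferential.map ℂ ℂ (MvPolynomial (Fin n) ℂ) F _ = _
  rw [KaehlerDifferential.map_D]
  congr 1
  change aeval z (X k) = z k
  rw [aeval_X]

/-- Partial derivatives exist: there are derivations `∂_j` of `F = ℂ(z)` over `ℂ` with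
`∂_j z_k = δ_{jk}`. Proof: `F` is the fraction field of `A = ℂ[X₁, …, Xₙ]` (`IsCoord.isFractionRing`),
`Ω_{A/ℂ}` has the basis `dX_k` (`KaehlerDifferential.mvPolynomialBasis`) and
`Ω_{F/ℂ}` is its localization (`KaehlerDifferential.isLocalizedModule_map` in
`Mathlib/RingTheory/Etale/Kaehler.lean`), so that `dz_k` is a basis of `Ω_{F/ℂ}` over `F`
(`Module.Basis.ofIsLocalizedModule`). Take `∂_j` = (the `j`-th coordinate) composed with `D`. -/
theorem IsCoord.exists_pderiv {z : Fin n → F} (hz : IsCoord z) :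
    ∃ d : Fin n → Derivation ℂ F F, ∀ j k, d j (z k) = if j = k then 1 else 0 := by
  obtain ⟨b, hb⟩ := deriv1_basis hz
  refine ⟨fun j => (b.coord j).compDer (KaehlerDifferential.D ℂ F), fun j k => ?_⟩
  change b.coord j (KaehlerDifferential.D ℂ F (z k)) = _
  rw [← hb k, Module.Basis.coord_apply, Module.Basis.repr_self, Finsupp.single_apply]
  by_cases h : j = k
  · rw [if_pos h, if_pos h.symm]
  · rw [if_neg h, if_neg (Ne.symm h)]

/-- The partial derivatives. -/
noncomputable def IsCoord.pd {z : Fin n → F} (hz : IsCoord z) : Fin n → Derivation ℂ F F :=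
  hz.exists_pderiv.choose

theorem IsCoord.pd_apply {z : Fin n → F} (hz : IsCoord z) (j k : Fin n) :
    hz.pd j (z k) = if j = k then 1 else 0 :=
  hz.exists_pderiv.choose_spec j k

theorem IsCoord.pd_aeval {z : Fin n → F} (hz : IsCoord z) (j : Fin n)
    (p : MvPolynomial (Fin n) ℂ) : hz.pd j (aeval z p) = aeval z (pderiv j p) := by
  induction p using MvPolynomial.induction_on with
  | C a =>
    rw [pderiv_C, map_zero, ← algebraMap_eq, AlgHom.commutes, Derivation.map_algebraMap]
  | add p q hp hq => rw [map_add, map_add, map_add, map_add, hp, hq]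
  | mul_X p i hp =>
    rw [map_mul, Derivation.leibniz, hp, aeval_X, hz.pd_apply, Derivation.leibniz, map_add,
      smul_eq_mul, smul_eq_mul, smul_eq_mul, smul_eq_mul, map_mul, map_mul, aeval_X, pderiv_X]
    congr 2
    by_cases h : j = i
    · subst h
      rw [if_pos rfl, Pi.single_eq_same, map_one]
    · rw [if_neg h, Pi.single_eq_of_ne (Ne.symm h), map_zero]

/-- Every top form is a multiple of `dz₁ ∧ … ∧ dzₙ`. -/
theorem IsCoord.exists_smul_wedge {z : Fin n → F} (hz : IsCoord z) (ω : Form F n) :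
    ∃ c : F, ω = c • wedge z := by
  obtain ⟨b, hb⟩ := deriv1_basis hz
  have : Module.Finite F (Ω[F⁄ℂ]) := Module.Finite.of_basis b
  have h1 : Module.finrank F (⋀[F]^n (Ω[F⁄ℂ])) = 1 := by
    rw [exteriorPower.finrank_eq, Module.finrank_eq_card_basis b, Fintype.card_fin,
      Nat.choose_self]
  have h2 : wedge z ≠ 0 := by
    intro h
    have h3 := exteriorPower.pairingDual_ιMulti_ιMulti (R := F) (M := Ω[F⁄ℂ])
      (fun j => b.coord j) (fun i => KaehlerDifferential.D ℂ F (z i))
    have h4 : exteriorPower.ιMulti F n (fun i => KaehlerDifferential.D ℂ F (z i)) = 0 := h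
    rw [h4, map_zero] at h3
    have h5 : (Matrix.of fun i j : Fin n => b.coord j (KaehlerDifferential.D ℂ F (z i))) = 1 := by
      ext i j
      rw [Matrix.of_apply, ← hb i, Module.Basis.coord_apply, Module.Basis.repr_self,
        Finsupp.single_apply, Matrix.one_apply]
    rw [h5, Matrix.det_one] at h3
    exact zero_ne_one h3
  obtain ⟨c, hc⟩ := (finrank_eq_one_iff_of_nonzero' (wedge z) h2).1 h1 ω
  exact ⟨c, hc.symm⟩

end Pool.Agent.MP_5c6cc8_ag
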