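import Pool.Agent.MP_5c6cc8_ag.Defs

/-! # Row W1: calculus with `df ∧ dg ∧ dh` -/

namespace Pool.Agent.MP_5c6cc8_ag

/-! ### the alternating maps -/

section
variable {F : Type} [Field F] [Algebra ℂ F]

/-- the alternating map of degree three -/
noncomputable def wdg_B (x y z : Ω[F⁄ℂ]) : Form F 3 := exteriorPower.ιMulti F 3 ![x, y, z]

/-- the alternating map of degree two -/
noncomputable def wdg_B2 (x y : Ω[F⁄ℂ]) : Form F 2 := exteriorPower.ιMulti F 2 ![x, y]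

theorem wdg_up1 {M : Type} (x y z x' : M) : Function.update ![x, y, z] 0 x' = ![x', y, z] := by
  funext i; fin_cases i <;> rfl

theorem wdg_up2 {M : Type} (x y z y' : M) : Function.update ![x, y, z] 1 y' = ![x, y', z] := by
  funext i; fin_cases i <;> rfl

theorem wdg_up3 {M : Type} (x y z z' : M) : Function.update ![x, y, z] 2 z' = ![x, y, z'] := by
  funext i; fin_cases i <;> rfl

theorem wdg_up21 {M : Type} (x y x' : M) : Function.update ![x, y] 0 x' = ![x', y] := by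
  funext i; fin_cases i <;> rfl

theorem wdg_up22 {M : Type} (x y y' : M) : Function.update ![x, y] 1 y' = ![x, y'] := by
  funext i; fin_cases i <;> rfl

theorem wdg_add1 (x x' y z : Ω[F⁄ℂ]) : wdg_B (x + x') y z = wdg_B x y z + wdg_B x' y z := by
  have h := (exteriorPower.ιMulti F 3 (M := Ω[F⁄ℂ])).map_update_add ![x, y, z] 0 x x'
  rw [wdg_up1, wdg_up1, wdg_up1] at h
  exact h

theorem wdg_add2 (x y y' z : Ω[F⁄ℂ]) : wdg_B x (y + y') z = wdg_B x y z + wdg_B x y' z := by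
  have h := (exteriorPower.ιMulti F 3 (M := Ω[F⁄ℂ])).map_update_add ![x, y, z] 1 y y'
  rw [wdg_up2, wdg_up2, wdg_up2] at h
  exact h

theorem wdg_add3 (x y z z' : Ω[F⁄ℂ]) : wdg_B x y (z + z') = wdg_B x y z + wdg_B x y z' := by
  have h := (exteriorPower.ιMulti F 3 (M := Ω[F⁄ℂ])).map_update_add ![x, y, z] 2 z z'
  rw [wdg_up3, wdg_up3, wdg_up3] at h
  exact h

theorem wdg_smul1 (c : F) (x y z : Ω[F⁄ℂ]) : wdg_B (c • x) y z = c • wdg_B x y z := by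
  have h := (exteriorPower.ιMulti F 3 (M := Ω[F⁄ℂ])).map_update_smul ![x, y, z] 0 c x
  rw [wdg_up1, wdg_up1] at h
  exact h

theorem wdg_smul2 (c : F) (x y z : Ω[F⁄ℂ]) : wdg_B x (c • y) z = c • wdg_B x y z := by
  have h := (exteriorPower.ιMulti F 3 (M := Ω[F⁄ℂ])).map_update_smul ![x, y, z] 1 c y
  rw [wdg_up2, wdg_up2] at h
  exact h

theorem wdg_smul3 (c : F) (x y z : Ω[F⁄ℂ]) : wdg_B x y (c • z) = c • wdg_B x y z := by
  have h := (exteriorPower.ιMulti F 3 (M := Ω[F⁄ℂ])).map_update_smul ![x, y, z] 2 c z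
  rw [wdg_up3, wdg_up3] at h
  exact h

theorem wdg_self12 (x z : Ω[F⁄ℂ]) : wdg_B x x z = 0 :=
  (exteriorPower.ιMulti F 3 (M := Ω[F⁄ℂ])).map_eq_zero_of_eq ![x, x, z] (i := 0) (j := 1) rfl
    (by decide)

theorem wdg_self23 (x y : Ω[F⁄ℂ]) : wdg_B x y y = 0 :=
  (exteriorPower.ιMulti F 3 (M := Ω[F⁄ℂ])).map_eq_zero_of_eq ![x, y, y] (i := 1) (j := 2) rfl
    (by decide)

theorem wdg_self13 (x y : Ω[F⁄ℂ]) : wdg_B x y x = 0 :=
  (exteriorPower.ιMulti F 3 (M := Ω[F⁄ℂ])).map_eq_zero_of_eq ![x, y, x] (i := 0) (j := 2) rfl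
    (by decide)

theorem wdg_swap12 (x y z : Ω[F⁄ℂ]) : wdg_B y x z = -wdg_B x y z := by
  have h := wdg_self12 (x + y) z
  rw [wdg_add1, wdg_add2, wdg_add2, wdg_self12, wdg_self12, zero_add, add_zero] at h
  exact eq_neg_of_add_eq_zero_right h

theorem wdg_swap23 (x y z : Ω[F⁄ℂ]) : wdg_B x z y = -wdg_B x y z := by
  have h := wdg_self23 x (y + z)
  rw [wdg_add2, wdg_add3, wdg_add3, wdg_self23, wdg_self23, zero_add, add_zero] at h
  exact eq_neg_of_add_eq_zero_right h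

theorem wdg_swap13 (x y z : Ω[F⁄ℂ]) : wdg_B z y x = -wdg_B x y z := by
  have h := wdg_self13 (x + z) y
  rw [wdg_add1, wdg_add3, wdg_add3, wdg_self13, wdg_self13, zero_add, add_zero] at h
  exact eq_neg_of_add_eq_zero_right h

theorem wdg_zero1 (y z : Ω[F⁄ℂ]) : wdg_B 0 y z = 0 := by
  have h := wdg_smul1 (0 : F) 0 y z
  rwa [zero_smul, zero_smul] at h

theorem wdg_zero2 (x z : Ω[F⁄ℂ]) : wdg_B x 0 z = 0 := by
  have h := wdg_smul2 (0 : F) x 0 z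
  rwa [zero_smul, zero_smul] at h

theorem wdg_zero3 (x y : Ω[F⁄ℂ]) : wdg_B x y 0 = 0 := by
  have h := wdg_smul3 (0 : F) x y 0
  rwa [zero_smul, zero_smul] at h

theorem wdg_neg1 (x y z : Ω[F⁄ℂ]) : wdg_B (-x) y z = -wdg_B x y z := by
  have h := wdg_add1 (-x) x y z
  rw [neg_add_cancel, wdg_zero1] at h
  exact eq_neg_of_add_eq_zero_left h.symm

theorem wdg_neg2 (x y z : Ω[F⁄ℂ]) : wdg_B x (-y) z = -wdg_B x y z := by
  have h := wdg_add2 x (-y) y z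
  rw [neg_add_cancel, wdg_zero2] at h
  exact eq_neg_of_add_eq_zero_left h.symm

theorem wdg_neg3 (x y z : Ω[F⁄ℂ]) : wdg_B x y (-z) = -wdg_B x y z := by
  have h := wdg_add3 x y (-z) z
  rw [neg_add_cancel, wdg_zero3] at h
  exact eq_neg_of_add_eq_zero_left h.symm

theorem wdg_2add1 (x x' y : Ω[F⁄ℂ]) : wdg_B2 (x + x') y = wdg_B2 x y + wdg_B2 x' y := by
  have h := (exteriorPower.ιMulti F 2 (M := Ω[F⁄ℂ])).map_update_add ![x, y] 0 x x'
  rw [wdg_up21, wdg_up21, wdg_up21] at h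
  exact h

theorem wdg_2add2 (x y y' : Ω[F⁄ℂ]) : wdg_B2 x (y + y') = wdg_B2 x y + wdg_B2 x y' := by
  have h := (exteriorPower.ιMulti F 2 (M := Ω[F⁄ℂ])).map_update_add ![x, y] 1 y y'
  rw [wdg_up22, wdg_up22, wdg_up22] at h
  exact h

theorem wdg_2smul1 (c : F) (x y : Ω[F⁄ℂ]) : wdg_B2 (c • x) y = c • wdg_B2 x y := by
  have h := (exteriorPower.ιMulti F 2 (M := Ω[F⁄ℂ])).map_update_smul ![x, y] 0 c x
  rw [wdg_up21, wdg_up21] at h
  exact h

theorem wdg_2smul2 (c : F) (x y : Ω[F⁄ℂ]) : wdg_B2 x (c • y) = c • wdg_B2 x y := by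
  have h := (exteriorPower.ιMulti F 2 (M := Ω[F⁄ℂ])).map_update_smul ![x, y] 1 c y
  rw [wdg_up22, wdg_up22] at h
  exact h

theorem wdg_2self (x : Ω[F⁄ℂ]) : wdg_B2 x x = 0 :=
  (exteriorPower.ιMulti F 2 (M := Ω[F⁄ℂ])).map_eq_zero_of_eq ![x, x] (i := 0) (j := 1) rfl
    (by decide)

theorem wdg_2swap (x y : Ω[F⁄ℂ]) : wdg_B2 y x = -wdg_B2 x y := by
  have h := wdg_2self (x + y)
  rw [wdg_2add1, wdg_2add2, wdg_2add2, wdg_2self, wdg_2self, zero_add, add_zero] at h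
  exact eq_neg_of_add_eq_zero_right h

theorem wdg_2zero1 (y : Ω[F⁄ℂ]) : wdg_B2 0 y = 0 := by
  have h := wdg_2smul1 (0 : F) 0 y
  rwa [zero_smul, zero_smul] at h

theorem wdg_2zero2 (x : Ω[F⁄ℂ]) : wdg_B2 x 0 = 0 := by
  have h := wdg_2smul2 (0 : F) x 0
  rwa [zero_smul, zero_smul] at h

theorem wdg_2neg1 (x y : Ω[F⁄ℂ]) : wdg_B2 (-x) y = -wdg_B2 x y := by
  have h := wdg_2add1 (-x) x y
  rw [neg_add_cancel, wdg_2zero1] at h
  exact eq_neg_of_add_eq_zero_left h.symm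

theorem wdg_2neg2 (x y : Ω[F⁄ℂ]) : wdg_B2 x (-y) = -wdg_B2 x y := by
  have h := wdg_2add2 x (-y) y
  rw [neg_add_cancel, wdg_2zero2] at h
  exact eq_neg_of_add_eq_zero_left h.symm

theorem wdg_mul (f g : F) : KaehlerDifferential.D ℂ F (f * g) =
    f • KaehlerDifferential.D ℂ F g + g • KaehlerDifferential.D ℂ F f :=
  Derivation.leibniz _ f g

theorem wdg_inv (f : F) : KaehlerDifferential.D ℂ F f⁻¹ =
    (-(f⁻¹ ^ 2)) • KaehlerDifferential.D ℂ F f := by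
  have h := Derivation.leibniz_inv (KaehlerDifferential.D ℂ F) f
  rw [h]

theorem wdg_pow (n : ℕ) (f : F) : KaehlerDifferential.D ℂ F (f ^ n) =
    (n * f ^ (n - 1) : F) • KaehlerDifferential.D ℂ F f := by
  have h := Derivation.leibniz_pow (KaehlerDifferential.D ℂ F) f n
  rw [h, mul_smul, Nat.cast_smul_eq_nsmul]

end

variable {F : Type} [Field F] [Algebra ℂ F]

/-- `df ∧ dg ∧ dh`. -/
noncomputable def T (f g h : F) : Form F 3 := wedge ![f, g, h]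

theorem wdg_T (f g h : F) : T f g h = wdg_B (KaehlerDifferential.D ℂ F f)
    (KaehlerDifferential.D ℂ F g) (KaehlerDifferential.D ℂ F h) := by
  unfold T wedge wdg_B
  congr 1

theorem T_self12 (f h : F) : T f f h = 0 := by
  rw [wdg_T, wdg_self12]
theorem T_self23 (f g : F) : T f g g = 0 := by
  rw [wdg_T, wdg_self23]
theorem T_self13 (f g : F) : T f g f = 0 := by
  rw [wdg_T, wdg_self13]
theorem T_swap12 (f g h : F) : T g f h = - T f g h := by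
  rw [wdg_T, wdg_T, wdg_swap12]
theorem T_swap23 (f g h : F) : T f h g = - T f g h := by
  rw [wdg_T, wdg_T, wdg_swap23]
theorem T_swap13 (f g h : F) : T h g f = - T f g h := by
  rw [wdg_T, wdg_T, wdg_swap13]

theorem T_add1 (f f' g h : F) : T (f + f') g h = T f g h + T f' g h := by
  rw [wdg_T, wdg_T, wdg_T, map_add, wdg_add1]
theorem T_add2 (f g g' h : F) : T f (g + g') h = T f g h + T f g' h := by
  rw [wdg_T, wdg_T, wdg_T, map_add, wdg_add2]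
theorem T_add3 (f g h h' : F) : T f g (h + h') = T f g h + T f g h' := by
  rw [wdg_T, wdg_T, wdg_T, map_add, wdg_add3]

theorem T_neg1 (f g h : F) : T (-f) g h = - T f g h := by
  rw [wdg_T, wdg_T, map_neg, wdg_neg1]
theorem T_neg2 (f g h : F) : T f (-g) h = - T f g h := by
  rw [wdg_T, wdg_T, map_neg, wdg_neg2]
theorem T_neg3 (f g h : F) : T f g (-h) = - T f g h := by
  rw [wdg_T, wdg_T, map_neg, wdg_neg3]

theorem T_sub1 (f f' g h : F) : T (f - f') g h = T f g h - T f' g h := by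
  rw [wdg_T, wdg_T, wdg_T, map_sub, sub_eq_add_neg, wdg_add1, wdg_neg1, sub_eq_add_neg]
theorem T_sub2 (f g g' h : F) : T f (g - g') h = T f g h - T f g' h := by
  rw [wdg_T, wdg_T, wdg_T, map_sub, sub_eq_add_neg, wdg_add2, wdg_neg2, sub_eq_add_neg]
theorem T_sub3 (f g h h' : F) : T f g (h - h') = T f g h - T f g h' := by
  rw [wdg_T, wdg_T, wdg_T, map_sub, sub_eq_add_neg, wdg_add3, wdg_neg3, sub_eq_add_neg]

theorem T_mul1 (f f' g h : F) : T (f * f') g h = f • T f' g h + f' • T f g h := by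
  rw [wdg_T, wdg_T, wdg_T, wdg_mul, wdg_add1, wdg_smul1, wdg_smul1]
theorem T_mul2 (f g g' h : F) : T f (g * g') h = g • T f g' h + g' • T f g h := by
  rw [wdg_T, wdg_T, wdg_T, wdg_mul, wdg_add2, wdg_smul2, wdg_smul2]
theorem T_mul3 (f g h h' : F) : T f g (h * h') = h • T f g h' + h' • T f g h := by
  rw [wdg_T, wdg_T, wdg_T, wdg_mul, wdg_add3, wdg_smul3, wdg_smul3]

theorem T_const1 (c : ℂ) (g h : F) : T (algebraMap ℂ F c) g h = 0 := by
  rw [wdg_T, Derivation.map_algebraMap, wdg_zero1]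
theorem T_const2 (c : ℂ) (f h : F) : T f (algebraMap ℂ F c) h = 0 := by
  rw [wdg_T, Derivation.map_algebraMap, wdg_zero2]
theorem T_const3 (c : ℂ) (f g : F) : T f g (algebraMap ℂ F c) = 0 := by
  rw [wdg_T, Derivation.map_algebraMap, wdg_zero3]

theorem T_one1 (g h : F) : T 1 g h = 0 := by
  rw [wdg_T, Derivation.map_one_eq_zero, wdg_zero1]
theorem T_one2 (f h : F) : T f 1 h = 0 := by
  rw [wdg_T, Derivation.map_one_eq_zero, wdg_zero2]
theorem T_one3 (f g : F) : T f g 1 = 0 := by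
  rw [wdg_T, Derivation.map_one_eq_zero, wdg_zero3]

theorem T_inv1 (f g h : F) : T f⁻¹ g h = (-(f⁻¹ ^ 2)) • T f g h := by
  rw [wdg_T, wdg_T, wdg_inv, wdg_smul1]
theorem T_inv2 (f g h : F) : T f g⁻¹ h = (-(g⁻¹ ^ 2)) • T f g h := by
  rw [wdg_T, wdg_T, wdg_inv, wdg_smul2]
theorem T_inv3 (f g h : F) : T f g h⁻¹ = (-(h⁻¹ ^ 2)) • T f g h := by
  rw [wdg_T, wdg_T, wdg_inv, wdg_smul3]

theorem T_pow1 (n : ℕ) (f g h : F) : T (f ^ n) g h = (n * f ^ (n - 1) : F) • T f g h := by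
  rw [wdg_T, wdg_T, wdg_pow, wdg_smul1]
theorem T_pow2 (n : ℕ) (f g h : F) : T f (g ^ n) h = (n * g ^ (n - 1) : F) • T f g h := by
  rw [wdg_T, wdg_T, wdg_pow, wdg_smul2]
theorem T_pow3 (n : ℕ) (f g h : F) : T f g (h ^ n) = (n * h ^ (n - 1) : F) • T f g h := by
  rw [wdg_T, wdg_T, wdg_pow, wdg_smul3]

/-! ### the same for 2-forms -/

/-- `df ∧ dg`. -/
noncomputable def T2 (f g : F) : Form F 2 := wedge ![f, g]

theorem wdg_T2 (f g : F) : T2 f g = wdg_B2 (KaehlerDifferential.D ℂ F f)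
    (KaehlerDifferential.D ℂ F g) := by
  unfold T2 wedge wdg_B2
  congr 1

theorem T2_self (f : F) : T2 f f = 0 := by
  rw [wdg_T2, wdg_2self]
theorem T2_swap (f g : F) : T2 g f = - T2 f g := by
  rw [wdg_T2, wdg_T2, wdg_2swap]
theorem T2_add1 (f f' g : F) : T2 (f + f') g = T2 f g + T2 f' g := by
  rw [wdg_T2, wdg_T2, wdg_T2, map_add, wdg_2add1]
theorem T2_add2 (f g g' : F) : T2 f (g + g') = T2 f g + T2 f g' := by
  rw [wdg_T2, wdg_T2, wdg_T2, map_add, wdg_2add2]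
theorem T2_sub1 (f f' g : F) : T2 (f - f') g = T2 f g - T2 f' g := by
  rw [wdg_T2, wdg_T2, wdg_T2, map_sub, sub_eq_add_neg, wdg_2add1, wdg_2neg1, sub_eq_add_neg]
theorem T2_sub2 (f g g' : F) : T2 f (g - g') = T2 f g - T2 f g' := by
  rw [wdg_T2, wdg_T2, wdg_T2, map_sub, sub_eq_add_neg, wdg_2add2, wdg_2neg2, sub_eq_add_neg]
theorem T2_mul1 (f f' g : F) : T2 (f * f') g = f • T2 f' g + f' • T2 f g := by
  rw [wdg_T2, wdg_T2, wdg_T2, wdg_mul, wdg_2add1, wdg_2smul1, wdg_2smul1]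
theorem T2_mul2 (f g g' : F) : T2 f (g * g') = g • T2 f g' + g' • T2 f g := by
  rw [wdg_T2, wdg_T2, wdg_T2, wdg_mul, wdg_2add2, wdg_2smul2, wdg_2smul2]
theorem T2_const1 (c : ℂ) (g : F) : T2 (algebraMap ℂ F c) g = 0 := by
  rw [wdg_T2, Derivation.map_algebraMap, wdg_2zero1]
theorem T2_const2 (c : ℂ) (f : F) : T2 f (algebraMap ℂ F c) = 0 := by
  rw [wdg_T2, Derivation.map_algebraMap, wdg_2zero2]
theorem T2_inv1 (f g : F) : T2 f⁻¹ g = (-(f⁻¹ ^ 2)) • T2 f g := by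
  rw [wdg_T2, wdg_T2, wdg_inv, wdg_2smul1]
theorem T2_inv2 (f g : F) : T2 f g⁻¹ = (-(g⁻¹ ^ 2)) • T2 f g := by
  rw [wdg_T2, wdg_T2, wdg_inv, wdg_2smul2]
theorem T2_pow1 (n : ℕ) (f g : F) : T2 (f ^ n) g = (n * f ^ (n - 1) : F) • T2 f g := by
  rw [wdg_T2, wdg_T2, wdg_pow, wdg_2smul1]
theorem T2_pow2 (n : ℕ) (f g : F) : T2 f (g ^ n) = (n * g ^ (n - 1) : F) • T2 f g := by
  rw [wdg_T2, wdg_T2, wdg_pow, wdg_2smul2]

end Pool.Agent.MP_5c6cc8_ag
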