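import Pool.Agent.MP_5c6cc8_ag.Val
import Pool.Agent.MP_5c6cc8_ag.Wedge

/-! # Row V2: a wedge of logarithmic forms has at most a simple pole -/

namespace Pool.Agent.MP_5c6cc8_ag

variable {F : Type} [Field F] [Algebra ℂ F] {R : Subring F}

theorem dlog_mem_T {f g h : F} (hf : f ∈ R) (hg : g ∈ R) (hh : h ∈ R) :
    T f g h ∈ formLattice R 3 := by
  refine mem_formLattice_wedge ![f, g, h] ?_
  intro i
  fin_cases i
  · exact hf
  · exact hg
  · exact hh

theorem dlog_smul_mem {n : ℕ} {r : F} (hr : r ∈ R) {ω : Form F n} (hω : ω ∈ formLattice R n) :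
    r • ω ∈ formLattice R n := by
  have h : (⟨r, hr⟩ : R) • ω ∈ formLattice R n := (formLattice R n).smul_mem _ hω
  exact h

theorem dlog_zpow1 {t : F} (ht : t ≠ 0) (n : ℤ) (g h : F) :
    T (t ^ n) g h = ((n : F) * t ^ (n - 1)) • T t g h := by
  have key : ∀ m : ℕ, T (t ^ m) g h = ((m : F) * t ^ ((m : ℤ) - 1)) • T t g h := by
    intro m
    rw [T_pow1]
    congr 1
    rcases Nat.eq_zero_or_pos m with h0 | h0
    · subst h0
      simp
    · congr 1
      rw [← zpow_natCast]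
      congr 1
      omega
  rcases Int.eq_nat_or_neg n with ⟨m, rfl | rfl⟩
  · rw [zpow_natCast, key m]
    push_cast
    rfl
  · rw [zpow_neg, zpow_natCast, T_inv1, key m, smul_smul]
    congr 1
    push_cast
    have e : t ^ (-(m : ℤ) - 1) = (t ^ m)⁻¹ ^ 2 * t ^ ((m : ℤ) - 1) := by
      have hz : t ^ m = t ^ (m : ℤ) := (zpow_natCast t m).symm
      rw [hz, sq, ← zpow_neg, ← zpow_add₀ ht, ← zpow_add₀ ht]
      congr 1
      ring
    rw [e]
    ring

theorem dlog_exp1 {t : F} (ht : t ≠ 0) (n : ℤ) (u g h : F) :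
    T (t ^ n * u) g h = t ^ n • (T u g h + ((n : F) * u * t⁻¹) • T t g h) := by
  rw [T_mul1, dlog_zpow1 ht, smul_add, smul_smul, smul_smul]
  congr 2
  rw [zpow_sub_one₀ ht]
  ring

theorem dlog_exp2 {t : F} (ht : t ≠ 0) (n : ℤ) (f v h : F) :
    T f (t ^ n * v) h = t ^ n • (T f v h + ((n : F) * v * t⁻¹) • T f t h) := by
  rw [T_swap12, dlog_exp1 ht, T_swap12 f v h, T_swap12 f t h, smul_neg, ← neg_add, smul_neg,
    neg_neg]

theorem dlog_exp3 {t : F} (ht : t ≠ 0) (n : ℤ) (f g w : F) :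
    T f g (t ^ n * w) = t ^ n • (T f g w + ((n : F) * w * t⁻¹) • T f g t) := by
  rw [T_swap13, dlog_exp1 ht, T_swap13 f g w, T_swap13 f g t, smul_neg, ← neg_add, smul_neg,
    neg_neg]

/-- `df ∧ dg ∧ dh = f g h ⋅ (dlog f ∧ dlog g ∧ dlog h)` has order at least
`v(f) + v(g) + v(h) - 1`. Proof: let `t` be a uniformizer and `f = t^a u`, `g = t^b v`, `h = t^c w`
with `u, v, w` units of `R`. Then `df = t^a (du + a u t⁻¹ dt)` (use
`Derivation.leibniz` and the derivative of an integral power), and similarly for `g`, `h`. Expanding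
`t^{1 - a - b - c} df ∧ dg ∧ dh = t (du + a u t⁻¹ dt) ∧ (dv + b v t⁻¹ dt) ∧ (dw + c w t⁻¹ dt)`
the terms with two or three factors `dt` vanish, and the other ones
`t du ∧ dv ∧ dw`, `a u dt ∧ dv ∧ dw`, `b v du ∧ dt ∧ dw`, `c w du ∧ dv ∧ dt` are in the
lattice. -/
theorem formOrdGE_T (hR : IsDivisorial R) {f g h : F} (hf : f ≠ 0) (hg : g ≠ 0) (hh : h ≠ 0) :
    FormOrdGE R (T f g h) (vord R f + vord R g + vord R h - 1) := by
  obtain ⟨t, htR, ht, ht1⟩ := exists_uniformizer hR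
  have hsp : ∀ x : F, x ≠ 0 → ∃ u ∈ R, x = t ^ (vord R x) * u := by
    intro x hx
    have hz : t ^ (vord R x) ≠ 0 := zpow_ne_zero _ ht
    refine ⟨x / t ^ (vord R x), ?_, ?_⟩
    · rw [mem_iff hR]
      right
      rw [vord_div hR hx hz, vord_zpow hR, ht1]
      omega
    · rw [mul_div_cancel₀ _ hz]
  obtain ⟨u, hu, hfu⟩ := hsp f hf
  obtain ⟨v, hv, hgv⟩ := hsp g hg
  obtain ⟨w, hw, hhw⟩ := hsp h hh
  set a := vord R f with ha
  set b := vord R g with hb
  set c := vord R h with hc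
  rw [formOrdGE_iff hR ht ht1]
  have e : t ^ (-(a + b + c - 1)) • T f g h =
      t • T u v w + ((c : F) * w) • T u v t + ((b : F) * v) • T u t w + ((a : F) * u) • T t v w := by
    rw [hfu, hgv, hhw]
    rw [dlog_exp1 ht, dlog_exp2 ht, dlog_exp2 ht, dlog_exp3 ht, dlog_exp3 ht, dlog_exp3 ht,
      dlog_exp3 ht, T_self12, T_self12, T_self13, T_self23]
    simp only [smul_zero, add_zero]
    simp only [smul_add, smul_smul]
    have h1 : t ^ (-(a + b + c - 1)) = t * (t ^ a)⁻¹ * (t ^ b)⁻¹ * (t ^ c)⁻¹ := by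
      rw [← zpow_neg, ← zpow_neg, ← zpow_neg]
      nth_rewrite 2 [← zpow_one t]
      rw [← zpow_add₀ ht, ← zpow_add₀ ht, ← zpow_add₀ ht]
      congr 1
      ring
    rw [h1]
    have ha0 : t ^ a ≠ 0 := zpow_ne_zero _ ht
    have hb0 : t ^ b ≠ 0 := zpow_ne_zero _ ht
    have hc0 : t ^ c ≠ 0 := zpow_ne_zero _ ht
    congr 1
    · congr 1
      · congr 1
        · congr 1
          field_simp
        · congr 1
          field_simp
      · congr 1
        field_simp
    · congr 1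
      field_simp
  rw [e]
  have hint : ∀ (n : ℤ) {x : F}, x ∈ R → (n : F) * x ∈ R := by
    intro n x hx
    exact R.mul_mem (intCast_mem R n) hx
  refine (formLattice R 3).add_mem ((formLattice R 3).add_mem ((formLattice R 3).add_mem ?_ ?_) ?_) ?_
  · exact dlog_smul_mem htR (dlog_mem_T hu hv hw)
  · exact dlog_smul_mem (hint _ hw) (dlog_mem_T hu hv htR)
  · exact dlog_smul_mem (hint _ hv) (dlog_mem_T hu htR hw)
  · exact dlog_smul_mem (hint _ hu) (dlog_mem_T htR hv hw)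

/-- If `f, g, h ∈ R` then `df ∧ dg ∧ dh` has order at least `0`. -/
theorem formOrdGE_T_of_mem (hR : IsDivisorial R) {f g h : F} (hf : f ∈ R) (hg : g ∈ R)
    (hh : h ∈ R) : FormOrdGE R (T f g h) 0 := by
  rw [formOrdGE_zero_iff hR]
  exact dlog_mem_T hf hg hh

/-- A variant with a coefficient. -/
theorem formOrdGE_smul_T (hR : IsDivisorial R) {c f g h : F} (hc : c ≠ 0) (hf : f ≠ 0)
    (hg : g ≠ 0) (hh : h ≠ 0) :
    FormOrdGE R (c • T f g h) (vord R c + vord R f + vord R g + vord R h - 1) := by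
  have h1 := (formOrdGE_smul_iff hR hc (vord R f + vord R g + vord R h - 1)).2
    (formOrdGE_T hR hf hg hh)
  have e : vord R c + vord R f + vord R g + vord R h - 1 =
      vord R f + vord R g + vord R h - 1 + vord R c := by ring
  rw [e]
  exact h1

theorem formOrdGE_smul_T_of_mem (hR : IsDivisorial R) {c f g h : F} (hc : c ≠ 0) (hf : f ∈ R)
    (hg : g ∈ R) (hh : h ∈ R) : FormOrdGE R (c • T f g h) (vord R c) := by
  have h1 := (formOrdGE_smul_iff hR hc 0).2 (formOrdGE_T_of_mem hR hf hg hh)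
  rwa [zero_add] at h1

end Pool.Agent.MP_5c6cc8_ag
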