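import Pool.Agent.MP_5c6cc8_ag.Bounds

/-! # Row ElimP: elimination, the polynomial part -/

open MvPolynomial

namespace Pool.Agent.MP_5c6cc8_ag

/-- The restriction `p(c, X)` of a polynomial in two variables, a polynomial in one variable. -/
noncomputable def restr (c : ℂ) (p : MvPolynomial (Fin 2) ℂ) : Polynomial ℂ :=
  aeval ![Polynomial.C c, Polynomial.X] p

theorem elimp_restr_eq (c : ℂ) (p : MvPolynomial (Fin 2) ℂ) :
    restr c p = ∑ m ∈ p.support,
      Polynomial.C (p.coeff m * c ^ (m 0)) * Polynomial.X ^ (m 1) := by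
  unfold restr
  rw [MvPolynomial.aeval_def, MvPolynomial.eval₂_eq']
  refine Finset.sum_congr rfl fun m _ => ?_
  simp [Fin.prod_univ_two, mul_assoc]

theorem elimp_coeff (c : ℂ) (p : MvPolynomial (Fin 2) ℂ) (j : ℕ) :
    (restr c p).coeff j = ∑ m ∈ p.support, if m 1 = j then p.coeff m * c ^ (m 0) else 0 := by
  rw [elimp_restr_eq, Polynomial.finsetSum_coeff]
  refine Finset.sum_congr rfl fun m _ => ?_
  rw [Polynomial.coeff_C_mul_X_pow]
  simp only [eq_comm]

theorem elimp_coeff_single (c : ℂ) (p : MvPolynomial (Fin 2) ℂ) (j i : ℕ)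
    (hu : ∀ m ∈ p.support, m 1 = j → m 0 = i) :
    (restr c p).coeff j = p.coeff (Finsupp.single 0 i + Finsupp.single 1 j) * c ^ i := by
  rw [elimp_coeff]
  rw [Finset.sum_eq_single (Finsupp.single 0 i + Finsupp.single 1 j)]
  · simp
  · intro m hm hne
    rw [if_neg]
    intro h1
    apply hne
    ext k
    fin_cases k
    · simpa using hu m hm h1
    · simpa using h1
  · intro hn
    simp [MvPolynomial.notMem_support_iff.mp hn]

theorem elimp_const_eq_top {q : Polynomial ℂ} {N : ℕ} (hd : q.natDegree ≤ N)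
    (h : (Polynomial.X + 1) ^ N ∣ q) : q.coeff 0 = q.coeff N := by
  obtain ⟨r, hr⟩ := h
  by_cases hq : q = 0
  · simp [hq]
  have hr0 : r ≠ 0 := by
    rintro rfl
    exact hq (by simpa using hr)
  have hX : (Polynomial.X + 1 : Polynomial ℂ) = Polynomial.X + Polynomial.C 1 := by simp
  have hm : ((Polynomial.X + 1 : Polynomial ℂ) ^ N).Monic := by
    rw [hX]
    exact (Polynomial.monic_X_add_C 1).pow N
  have hdeg : ((Polynomial.X + 1 : Polynomial ℂ) ^ N).natDegree = N := by
    rw [hX, Polynomial.natDegree_pow, Polynomial.natDegree_X_add_C, mul_one]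
  have h1 : q.natDegree = N + r.natDegree := by
    rw [hr, hm.natDegree_mul' hr0, hdeg]
  have h2 : r.natDegree = 0 := by omega
  rw [Polynomial.eq_C_of_natDegree_eq_zero h2] at hr
  have h3 : ((Polynomial.X + 1 : Polynomial ℂ) ^ N).coeff 0 = 1 := by
    rw [Polynomial.coeff_zero_eq_eval_zero]
    simp
  have h4 : ((Polynomial.X + 1 : Polynomial ℂ) ^ N).coeff N = 1 := by
    have := hm.coeff_natDegree
    rwa [hdeg] at this
  rw [hr, Polynomial.coeff_mul_C, Polynomial.coeff_mul_C, h3, h4]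

/-- The elimination. Let `p = ∑ c_{ij} w^i s^j`, all its monomials (`i = m 0`, `j = m 1`) satisfying the
inequalities `H`, and let `(X + 1)^N` divide `p(w_±, X)` for both nodes `w_±`. Then `p` has no
monomials with `j = 0`. Proof: by `H`, `j ≤ N`; for `j = 0` we have `2N ≤ i ≤ 2N`, and for
`j = N` we have `3N ≤ i ≤ 3N`. So `p(w_±, X)` has degree at most `N`, its constant term is
`c_{2N,0} w_±^{2N}` and its coefficient of `X^N` is `c_{3N,N} w_±^{3N}`. As it is divisible by
`(X + 1)^N` it is a constant multiple of `(X + 1)^N`, and these two coefficients are equal: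
`c_{2N,0} w_±^{2N} = c_{3N,N} w_±^{3N}`, i.e. `c_{2N,0} = c_{3N,N} w_±^N`. Here
`w_+ = φ⁵`, `w_- = ψ⁵` (`Real.goldenRatio`, `Real.goldenConj`) have different absolute values
(`|φ| > 1 > |ψ|`), so `c_{3N,N} = 0` and `c_{2N,0} = 0`. -/
theorem elim_poly {p : MvPolynomial (Fin 2) ℂ} {N : ℕ} (hN : 0 < N)
    (H : ∀ m ∈ p.support, m 1 ≤ N ∧ 2 * N ≤ m 0 + 2 * m 1 ∧ m 0 ≤ 2 * N + 3 * m 1 ∧
      N + 2 * m 1 ≤ m 0 ∧ m 0 + 3 * m 1 ≤ 6 * N)
    (h : ∀ sgn, (Polynomial.X + 1) ^ N ∣ restr (Setup.node sgn) p) :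
    ∀ m ∈ p.support, m 1 ≠ 0 := by
  have hd : ∀ c, (restr c p).natDegree ≤ N := by
    intro c
    rw [elimp_restr_eq]
    refine Polynomial.natDegree_sum_le_of_forall_le _ _ fun m hm => ?_
    exact (Polynomial.natDegree_C_mul_X_pow_le _ _).trans (H m hm).1
  have h0 : ∀ m ∈ p.support, m 1 = 0 → m 0 = 2 * N := by
    intro m hm h1
    have := H m hm
    omega
  have hNN : ∀ m ∈ p.support, m 1 = N → m 0 = 3 * N := by
    intro m hm h1
    have := H m hm
    omega
  set A : ℂ := p.coeff (Finsupp.single 0 (2 * N) + Finsupp.single 1 0) with hA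
  set B : ℂ := p.coeff (Finsupp.single 0 (3 * N) + Finsupp.single 1 N) with hB
  have key : ∀ sgn, A * Setup.node sgn ^ (2 * N) = B * Setup.node sgn ^ (3 * N) := by
    intro sgn
    have := elimp_const_eq_top (hd (Setup.node sgn)) (h sgn)
    rwa [elimp_coeff_single _ p 0 (2 * N) h0, elimp_coeff_single _ p N (3 * N) hNN] at this
  have hne : ∀ sgn, Setup.node sgn ≠ 0 := by
    intro sgn
    have hA := Real.goldenConj_ne_zero
    have hB := Real.goldenRatio_ne_zero
    cases sgn
    · exact pow_ne_zero _ (by exact_mod_cast hA)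
    · exact pow_ne_zero _ (by exact_mod_cast hB)
  have key2 : ∀ sgn, A = B * Setup.node sgn ^ N := by
    intro sgn
    have h1 := key sgn
    have h2 : Setup.node sgn ^ (3 * N) = Setup.node sgn ^ N * Setup.node sgn ^ (2 * N) := by
      rw [← pow_add]
      congr 1
      omega
    rw [h2, ← mul_assoc] at h1
    exact mul_right_cancel₀ (pow_ne_zero _ (hne sgn)) h1
  have hnt : Setup.node true = ((Real.goldenRatio : ℝ) : ℂ) ^ 5 := rfl
  have hnf : Setup.node false = ((Real.goldenConj : ℝ) : ℂ) ^ 5 := rfl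
  have hn1 : 1 < ‖Setup.node true‖ ^ N := by
    refine one_lt_pow₀ ?_ hN.ne'
    rw [hnt]
    simp only [norm_pow, Complex.norm_real, Real.norm_eq_abs]
    rw [abs_of_pos Real.goldenRatio_pos]
    exact one_lt_pow₀ Real.one_lt_goldenRatio (by norm_num)
  have hn2 : ‖Setup.node false‖ ^ N < 1 := by
    refine pow_lt_one₀ (norm_nonneg _) ?_ hN.ne'
    rw [hnf]
    simp only [norm_pow, Complex.norm_real, Real.norm_eq_abs]
    refine pow_lt_one₀ (abs_nonneg _) ?_ (by norm_num)
    rw [abs_of_neg Real.goldenConj_neg]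
    have := Real.neg_one_lt_goldenConj
    linarith
  have hB0 : B = 0 := by
    by_contra hB0
    have h1 : Setup.node true ^ N = Setup.node false ^ N :=
      mul_left_cancel₀ hB0 ((key2 true).symm.trans (key2 false))
    have h2 := congrArg norm h1
    rw [norm_pow, norm_pow] at h2
    linarith
  have hA0 : A = 0 := by
    rw [key2 true, hB0, zero_mul]
  intro m hm h1
  have h2 : m = Finsupp.single 0 (2 * N) + Finsupp.single 1 0 := by
    ext k
    fin_cases k
    · simpa using h0 m hm h1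
    · simpa using h1
  rw [MvPolynomial.mem_support_iff] at hm
  apply hm
  rw [h2]
  exact hA0

end Pool.Agent.MP_5c6cc8_ag
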