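import Pool.Agent.MP_5c6cc8_ag.Elim1
import Pool.Agent.MP_5c6cc8_ag.ElimP
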