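import Pool.Agent.MP_5c6cc8_ag.Bounds

/-! # Row Elim1: functions without poles are polynomials -/

open MvPolynomial

namespace Pool.Agent.MP_5c6cc8_ag

/-- A function with no poles along the prime polynomials is a polynomial. -/
theorem exists_aeval_of_nonneg {K : Type} [Field K] [Algebra ℂ K] {n : ℕ} {z : Fin n → K}
    (hz : IsCoord z) {f : K} (hf : f ≠ 0)
    (h : ∀ (π : MvPolynomial (Fin n) ℂ) (hπ : Prime π), 0 ≤ vord (chartRing hz hπ) f) :
    ∃ p : MvPolynomial (Fin n) ℂ, f = aeval z p := by
  obtain ⟨p, q, hq, hpq⟩ := hz.exists_div f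
  have hq' := hz.aeval_ne_zero hq
  have key : f * aeval z q = aeval z p := by
    rw [hpq, div_mul_cancel₀ _ hq']
  clear hpq hq'
  induction q using UniqueFactorizationMonoid.induction_on_prime generalizing p with
  | h₁ => exact absurd rfl hq
  | h₂ x hx =>
    obtain ⟨u, rfl⟩ := hx
    refine ⟨p * ((u⁻¹ : (MvPolynomial (Fin n) ℂ)ˣ) : MvPolynomial (Fin n) ℂ), ?_⟩
    rw [map_mul, ← key, mul_assoc, ← map_mul, Units.mul_inv, map_one, mul_one]
  | h₃ a π ha hπ ih =>
    have hπz := hz.aeval_ne_zero hπ.ne_zero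
    by_cases hd : π ∣ p
    · obtain ⟨p', rfl⟩ := hd
      refine ih p' ha ?_
      rw [map_mul, map_mul] at key
      apply mul_left_cancel₀ hπz
      rw [← key]
      ring
    · exfalso
      have hR := chartRing_isDivisorial hz hπ
      have h1 := h π hπ
      have h2 : 0 < vord (chartRing hz hπ) (aeval z (π * a)) :=
        vord_chart_pos hz hπ (dvd_mul_right π a) hq
      have h3 := vord_mul hR hf (hz.aeval_ne_zero hq)
      rw [key, vord_chart_aeval hz hπ hd] at h3
      omega

end Pool.Agent.MP_5c6cc8_ag
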