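import Pool.Agent.MP_5c6cc8_ag.Elim

/-! # Row Elim3: restriction to the nodal fibres -/

open MvPolynomial

namespace Pool.Agent.MP_5c6cc8_ag

/-- Let `v(s + 1) = 1`, `v(w - c) = 2` be the weighted valuation. If `v(p(w, s)) ≥ N` then `(X + 1)^N`
divides `p(c, X)`. Proof: write `p(w, s) = ∑ h_{ij} (s + 1)^i (w - c)^j` (a finite sum over
`i, j ≥ 0`, substitute `w = c + (w - c)`, `s = (s + 1) - 1`). By `vord_wt_le` the monomials
with `h_{ij} ≠ 0` have `i + 2 j ≥ N`. So for `j = 0`: `i ≥ N`; and `p(c, X) = ∑ h_{i0} (X + 1)^i`. -/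
theorem dvd_restr {K : Type} [Field K] [Algebra ℂ K] {w s : K} (c : ℂ)
    (hz : IsCoord ![s + 1, w - algebraMap ℂ K c]) {p : MvPolynomial (Fin 2) ℂ} {N : ℕ}
    (h : (N : ℤ) ≤ vord (wt hz 2) (aeval ![w, s] p)) (hp : aeval ![w, s] p ≠ 0) :
    (Polynomial.X + 1) ^ N ∣ restr c p := by
  classical
  set q : MvPolynomial (Fin 2) ℂ := aeval ![X 1 + C c, X 0 - 1] p with hq
  set z : Fin 2 → K := ![s + 1, w - algebraMap ℂ K c] with hzdef
  have hz0 : z 0 = s + 1 := by simp [hzdef]
  have hz1 : z 1 = w - algebraMap ℂ K c := by simp [hzdef]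
  have hqp : aeval z q = aeval ![w, s] p := by
    rw [hq, ← AlgHom.comp_apply]
    congr 1
    apply MvPolynomial.algHom_ext
    intro i
    fin_cases i
    · simp [hz1]
    · simp [hz0]
  have hrq : restr c p = aeval ![Polynomial.X + 1, 0] q := by
    rw [hq, restr, ← AlgHom.comp_apply]
    congr 1
    apply MvPolynomial.algHom_ext
    intro i
    fin_cases i
    · simp
    · simp
  -- expansion
  have hexp : ∀ {R : Type} [CommRing R] [Algebra ℂ R] (y : Fin 2 → R),
      aeval y q = ∑ m ∈ q.support, algebraMap ℂ R (coeff m q) * y 0 ^ m 0 * y 1 ^ m 1 := by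
    intro R _ _ y
    rw [aeval_def, eval₂_eq']
    refine Finset.sum_congr rfl fun m _ => ?_
    rw [Fin.prod_univ_two, mul_assoc]
  let e : (Fin 2 →₀ ℕ) → ℤ × ℤ := fun m => ((m 0 : ℤ), (m 1 : ℤ))
  have he : Function.Injective e := by
    intro m m' hmm
    have h1 : (m 0 : ℤ) = m' 0 := congrArg Prod.fst hmm
    have h2 : (m 1 : ℤ) = m' 1 := congrArg Prod.snd hmm
    ext i
    fin_cases i
    · exact_mod_cast h1
    · exact_mod_cast h2
  let c' : ℤ × ℤ → ℂ := fun x => coeff (Function.invFun e x) q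
  have hc' : ∀ m, c' (e m) = coeff m q := by
    intro m
    show coeff (Function.invFun e (e m)) q = _
    rw [Function.leftInverse_invFun he]
  have hf : aeval ![w, s] p = ∑ x ∈ q.support.image e,
      algebraMap ℂ K (c' x) * (s + 1) ^ x.1 * (w - algebraMap ℂ K c) ^ x.2 := by
    rw [← hqp, hexp, Finset.sum_image (fun a _ b _ hab => he hab)]
    refine Finset.sum_congr rfl fun m _ => ?_
    rw [hc', hz0, hz1]
    simp [e]
  have hge : ∀ m ∈ q.support, (N : ℤ) ≤ m 0 + 2 * m 1 := by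
    intro m hm
    have := vord_wt_le hz 2 (q.support.image e) c' hf (p := e m)
      (Finset.mem_image_of_mem _ hm) (by rw [hc']; exact mem_support_iff.1 hm)
    exact h.trans this
  rw [hrq, hexp]
  refine Finset.dvd_sum fun m hm => ?_
  by_cases h1 : m 1 = 0
  · have h2 := hge m hm
    rw [h1] at h2
    have h3 : N ≤ m 0 := by simpa using h2
    refine Dvd.dvd.mul_right (Dvd.dvd.mul_left ?_ _) _
    show (Polynomial.X + 1) ^ N ∣ (Polynomial.X + 1) ^ m 0
    exact pow_dvd_pow _ h3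
  · have : (![Polynomial.X + 1, 0] : Fin 2 → Polynomial ℂ) 1 = 0 := by simp
    rw [this, zero_pow h1, mul_zero]
    exact dvd_zero _

end Pool.Agent.MP_5c6cc8_ag
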