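import Pool.Agent.MP_5c6cc8_ag.Surj1

/-! # Row Surj2: centres of valuations -/

open AlgebraicGeometry CategoryTheory CategoryTheory.Limits
open Pool.Agent.MP_4d8271_ag (PX toK chartA Dc secGr secAlg el)

namespace Pool.Agent.MP_5c6cc8_ag

/-- Scheme-level form: a morphism `l : Spec A ⟶ X` extending the generic point. -/
theorem surj2_local (X : Scheme.{0}) [IsIntegral X] (A : Type) [CommRing A] [IsLocalRing A]
    [Algebra A X.functionField] (l : Spec (.of A) ⟶ X)
    (hl : Spec.map (CommRingCat.ofHom (algebraMap A X.functionField)) ≫ l =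
      X.fromSpecStalk (genericPoint X)) :
    Scheme.stalkClosedPointTo l ≫ CommRingCat.ofHom (algebraMap A X.functionField) =
      X.presheaf.stalkSpecializes ((genericPoint_spec X).specializes trivial) := by
  apply Spec.map_injective
  rw [← cancel_mono (X.fromSpecStalk (l (IsLocalRing.closedPoint A)))]
  have h1 := Scheme.SpecMap_stalkSpecializes_fromSpecStalk
    (X := X) ((genericPoint_spec X).specializes
      (show l (IsLocalRing.closedPoint A) ∈ Set.univ from trivial))
  have h2 := Scheme.Spec_stalkClosedPointTo_fromSpecStalk l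
  rw [Spec.map_comp, Category.assoc]
  refine Eq.trans ?_ h1.symm
  rw [← hl]
  congr 1

/-- The commutative square of the valuative criterion. -/
theorem surj2_sq (V : Variety) (A : Type) [CommRing A] [Algebra A V.X.functionField]
    (ι : ℂ →+* A)
    (hι : ∀ c, algebraMap A V.X.functionField (ι c) = (algebraMap ℂ V.K c : V.K)) :
    V.X.fromSpecStalk (genericPoint V.X) ≫ V.str =
      Spec.map (CommRingCat.ofHom (algebraMap A V.X.functionField)) ≫
        Spec.map (CommRingCat.ofHom ι) := by
  rw [← Spec.map_comp]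
  have h0 : (CommRingCat.ofHom ι : CommRingCat.of ℂ ⟶ .of A) ≫
      CommRingCat.ofHom (algebraMap A V.X.functionField) =
      (Scheme.ΓSpecIso (CommRingCat.of ℂ)).inv ≫ V.str.appTop ≫
        V.X.presheaf.germ ⊤ (genericPoint V.X) trivial := by
    ext c
    exact hι c
  refine Eq.trans ?_ (congrArg Spec.map h0).symm
  rw [Spec.map_comp, Spec.map_comp, ← Scheme.fromSpecStalk_toSpecΓ, Category.assoc,
    Category.assoc]
  congr 1
  have h1 := Scheme.toSpecΓ_naturality V.str
  have h2 := toSpecΓ_SpecMap_ΓSpecIso_inv (CommRingCat.of ℂ)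
  rw [← Category.assoc, ← h1, Category.assoc, h2]
  exact (Category.comp_id _).symm

/-- Every divisorial valuation ring `P` of `K(V)` has a centre `y ∈ V`: the local ring of `y` is
contained in `P` and dominated by it. Proof: the existence part of the valuative criterion for the
proper morphism `V.str` (`IsProper.eq_valuativeCriterion`,
`Mathlib/AlgebraicGeometry/ValuativeCriterion.lean`) applied to `Spec K(V) ⟶ V` and
`Spec P ⟶ Spec ℂ` gives `l : Spec P ⟶ V`; let `y` be the image of the closed point. The map
`𝒪_{V,y} → P` induced by `l` is local, and its composition with `P → K(V)` is the canonical map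
`𝒪_{V,y} → K(V)`. -/
theorem exists_centre (V : Variety) {P : Subring V.K} (hP : IsDivisorial P) :
    ∃ y : V.X, V.localRing y ≤ P ∧
      ∀ g ∈ V.localRing y, IsUnitIn P g → IsUnitIn (V.localRing y) g := by
  have hproper := V.isProper
  obtain ⟨T, hT, -⟩ := hP.essFinite
  have hC : ∀ c : ℂ, algebraMap ℂ V.K c ∈ P := fun c =>
    hT ((Algebra.adjoin ℂ (T : Set V.K)).algebraMap_mem c)
  let A : ValuationSubring V.X.functionField :=
    { toSubring := P
      mem_or_inv_mem' := hP.total }
  have hA : ∀ g : V.X.functionField, g ∈ A ↔ (g : V.K) ∈ P := fun g => Iff.rfl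
  let ι : ℂ →+* A := RingHom.codRestrict (algebraMap ℂ V.K) P hC
  have hι : ∀ c, algebraMap A V.X.functionField (ι c) = (algebraMap ℂ V.K c : V.K) :=
    fun c => rfl
  have w := surj2_sq V A ι hι
  have H : ValuativeCriterion.Existence V.str := by
    have h := UniversallyClosed.eq_valuativeCriterion
    have h3 : UniversallyClosed V.str := inferInstance
    rw [h] at h3
    exact h3.1
  obtain ⟨l, hl₁, hl₂⟩ := (H { R := A, K := V.X.functionField, commSq := ⟨w⟩, .. }).exists_lift
  dsimp only at hl₁ hl₂
  have key := surj2_local V.X A l hl₁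
  have key' : ∀ a : V.X.presheaf.stalk (l (IsLocalRing.closedPoint A)),
      ((Scheme.stalkClosedPointTo l).hom a : V.X.functionField) =
        algebraMap _ V.X.functionField a := fun a =>
    congrArg (fun f => f.hom a) key
  refine ⟨l (IsLocalRing.closedPoint A), ?_, ?_⟩
  · rintro _ ⟨a, rfl⟩
    rw [← key' a]
    exact ((Scheme.stalkClosedPointTo l).hom a).2
  · rintro _ ⟨a, rfl⟩ ⟨h0, h1, h2⟩
    have hu : IsUnit ((Scheme.stalkClosedPointTo l).hom a) := by
      refine IsUnit.of_mul_eq_one (⟨_, h2⟩ : A) ?_
      apply Subtype.ext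
      change ((Scheme.stalkClosedPointTo l).hom a : V.X.functionField) * _ = 1
      rw [key' a]
      exact mul_inv_cancel₀ h0
    have hu' : IsUnit a := isUnit_of_map_unit (Scheme.stalkClosedPointTo l).hom a hu
    obtain ⟨b, hb⟩ := hu'.exists_right_inv
    refine ⟨h0, ⟨a, rfl⟩, ⟨b, ?_⟩⟩
    apply eq_inv_of_mul_eq_one_right
    rw [← map_mul, hb, map_one]

end Pool.Agent.MP_5c6cc8_ag
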