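import Pool.Agent.MP_5c6cc8_ag.Base
import Pool.Agent.MP_5c6cc8_ag.ChartsX
import Pool.Agent.MP_5c6cc8_ag.ChartsY
import Pool.Agent.MP_5c6cc8_ag.Surj

/-! # Assembly A1: the varieties `X → Y` -/

open AlgebraicGeometry CategoryTheory CategoryTheory.Limits
open Pool.Agent.MP_4d8271_ag (PX toK chartA Dc)

namespace Pool.Agent.MP_5c6cc8_ag

theorem Setup.chartA_le {K L : Type} [Field K] [Algebra ℂ K] [Field L] [Algebra ℂ L]
    (S : Setup K L) (e : Bool × Bool × Bool) :
    chartA S.VY (S.cY (e.1, e.2.2)) ≤ chartA S.VX (S.cX e) := by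
  rw [S.chartA_VY, Algebra.adjoin_le_iff]
  have h : ∀ f ∈ (S.corner e.1 e.2.1 e.2.2).ring, f ∈ chartA S.VX (S.cX e) := by
    intro f hf
    rw [← S.chartA_VX] at hf
    exact hf
  rintro f hf
  refine h f ?_
  rcases hf with rfl | hf
  · refine ⟨MvPolynomial.X 0, 0, ?_⟩
    rw [map_zero, zero_mul, add_zero]
    change _ = MvPolynomial.aeval _ (MvPolynomial.X 0)
    rw [MvPolynomial.aeval_X]
    rfl
  · rw [Set.mem_singleton_iff] at hf
    subst hf
    refine ⟨MvPolynomial.X 2, 0, ?_⟩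
    rw [map_zero, zero_mul, add_zero]
    change _ = MvPolynomial.aeval _ (MvPolynomial.X 2)
    rw [MvPolynomial.aeval_X]
    rfl

theorem exists_fields : ∃ (X Y : Variety) (f : Surjection X Y) (S : Setup Y.K X.K),
    S.i = f.pull := by
  obtain ⟨K, L, _, _, _, _, ⟨S⟩⟩ := exists_base
  obtain ⟨f, hf⟩ := exists_surjection (V := S.VX) (V' := S.VY) S.normal_VX S.normal_VY
    S.cX (fun e => S.cY (e.1, e.2.2)) S.cX_mem S.cX_ne S.cover_VX
    (fun e => S.cY_mem _) (fun e => S.cY_ne _) S.chartA_le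
  obtain ⟨S', hS'⟩ := S.transport f.pull (toF S.VY S.normal_VY) (toF S.VX S.normal_VX)
    f.pull_algebraMap (toF_algebraMap _ _) (toF_algebraMap _ _) hf
    (by rw [range_toF, S.adjoin_VY]) (by
      intro x
      have hx : x ∈ (toF S.VX S.normal_VX).fieldRange := by
        rw [range_toF, S.adjoin_VX]
        exact trivial
      exact hx)
  exact ⟨_, _, f, S', hS'⟩

end Pool.Agent.MP_5c6cc8_ag
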