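import Pool.Agent.MP_5c6cc8_ag.Gen1

/-! # Row Gen2: (ii) and connectedness -/

open Polynomial

namespace Pool.Agent.MP_5c6cc8_ag

namespace Setup

variable {K L : Type} [Field K] [Algebra ℂ K] [Field L] [Algebra ℂ L] (S : Setup K L)

/-- On the affine generic fibre `v(g) ≥ 0`. -/
theorem gen2_vg {E : Subring L} (hE : IsDivisorial E) (hK : ∀ c, S.i c ∈ E) (hX : S.wX ∈ E) :
    0 ≤ vord E S.g := by
  have hn := S.cluster.ne_zero
  rcases S.pattern_K hE hK with h0 | ⟨j, m, hp⟩
  · have hF1 : vord E S.F1 = 0 := by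
      unfold Setup.F1
      rw [vord_div hE (mul_ne_zero (pow_ne_zero _ (hn _)) (hn _))
        (mul_ne_zero (pow_ne_zero _ (hn _)) (hn _)), vord_mul hE (pow_ne_zero _ (hn _)) (hn _),
        vord_mul hE (pow_ne_zero _ (hn _)) (hn _), vord_pow hE, vord_pow hE, h0, h0, h0, h0]
      norm_num
    have hF2 : vord E S.F2 = 0 := by
      unfold Setup.F2
      rw [vord_div hE (mul_ne_zero (pow_ne_zero _ (hn _)) (hn _))
        (mul_ne_zero (hn _) (pow_ne_zero _ (hn _))), vord_mul hE (pow_ne_zero _ (hn _)) (hn _),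
        vord_mul hE (hn _) (pow_ne_zero _ (hn _)), vord_pow hE, vord_pow hE, h0, h0, h0, h0]
      norm_num
    have hg : S.g ∈ E := E.add_mem ((mem_iff hE).2 (Or.inr hF1.ge))
      (E.mul_mem (hK _) ((mem_iff hE).2 (Or.inr hF2.ge)))
    rcases (mem_iff hE).1 hg with h | h
    · exact absurd h S.g_ne_zero
    · exact h
  · rw [S.vord_g_section hE hK hp]
    have hpos := hp.pos
    split_ifs with hj
    · exfalso
      subst hj
      have hw0 : S.i S.w ≠ 0 := (map_ne_zero S.i).2 S.w_ne_zero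
      have hv : vord E S.wX = -(2 * m) := by
        unfold Setup.wX
        rw [vord_div hE (neg_ne_zero.2 hw0) (hn _), vord_neg hE, S.vord_K hE hK, hp.v0]
        ring
      rcases (mem_iff hE).1 hX with h | h
      · rw [h, vord_zero] at hv
        omega
      · omega
    · exact le_rfl

/-- (ii) with `h₀ = 1`. Direction `→`: for a nonzero prime `𝔭` of `A = S.sqData.ring` let
`E = A_𝔭` (`locAt_isDivisorial`); `v(g) ≥ 0` (by `pattern_K`: at the sections `j ≠ 3`, as `X ∈ E` and
`v(X) = v(w) - v(x₃) = -2m` for `j = 3`; and `v(F₁) = v(F₂) = v(s) = 0` if all `v(x_j) = 0`), so `a ≤ 1`,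
`ceilAstar a ≤ 0` and `h ∈ E`. So `h ∈ A` (`mem_of_forall_locAt`). At `E₃` we have `v(g) = -5`, `a = 2`,
`ceilAstar 2 = 1`, so `v(h) ≥ -1` and `mem_K_of_pole` applies. Direction `←`: `v(h) = 0`, and
`ceilAstar a ≥ 0` as `a ≥ 0` (`sub_lc` and `HasLogDisc.unique`). -/
theorem rank_one : ∃ h₀ : L, h₀ ≠ 0 ∧ ∀ h : L,
    (∀ E : Subring L, IsDivisorial E → (∀ c, S.i c ∈ E) → ∀ a, HasLogDisc S.ω S.φ 5 E a →
      h = 0 ∨ ∃ l : ℤ, HasOrd E h l ∧ 0 ≤ l + ceilAstar a) ↔ ∃ c : K, h = S.i c * h₀ := by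
  refine ⟨1, one_ne_zero, fun h => ⟨fun H => ?_, ?_⟩⟩
  · by_cases hh : h = 0
    · exact ⟨0, by rw [hh, map_zero, zero_mul]⟩
    have hA : h ∈ S.sqData.ring := by
      have := S.sqData.isDedekindDomain
      refine mem_of_forall_locAt _ fun 𝔭 _ h0 => ?_
      obtain ⟨hE, hK, hX⟩ := S.locAt_isDivisorial 𝔭 h0
      have hg := S.gen2_vg hE hK hX
      rcases H _ hE hK _ (S.hasLogDisc_generic hE hK) with h1 | ⟨l, hl, h2⟩
      · exact absurd h1 hh
      · have hc : ceilAstar (1 - (vord (locAt S.sqData.ring 𝔭) S.g : ℚ) / 5) ≤ 0 := by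
          unfold ceilAstar
          split_ifs
          · exact le_rfl
          · rw [Int.ceil_le]
            have : (0 : ℚ) ≤ (vord (locAt S.sqData.ring 𝔭) S.g : ℚ) := by exact_mod_cast hg
            push_cast
            linarith
        refine (mem_iff hE).2 (Or.inr ?_)
        rw [((hasOrd_iff hE).1 hl).2]
        omega
    have h3 : -1 ≤ vord S.E3 h := by
      rcases H _ S.E3_isDivisorial S.K_le_E3 _
        (S.hasLogDisc_generic S.E3_isDivisorial S.K_le_E3) with h1 | ⟨l, hl, h2⟩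
      · exact absurd h1 hh
      · have hv := S.vord_g_section S.E3_isDivisorial S.K_le_E3 S.E3_pattern
        rw [if_pos rfl] at hv
        rw [hv] at h2
        have hc : ceilAstar (1 - ((-5 * 1 : ℤ) : ℚ) / 5) = 1 := by
          have : (1 - ((-5 * 1 : ℤ) : ℚ) / 5) = 2 := by norm_num
          rw [this]
          unfold ceilAstar
          norm_num
        rw [hc] at h2
        rw [((hasOrd_iff S.E3_isDivisorial).1 hl).2]
        omega
    obtain ⟨c, hc⟩ := S.mem_K_of_pole hA h3
    exact ⟨c, by rw [hc, mul_one]⟩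
  · rintro ⟨c, rfl⟩ E hE hK a ha
    rw [mul_one]
    by_cases hc : S.i c = 0
    · exact Or.inl hc
    · right
      refine ⟨0, (hasOrd_iff hE).2 ⟨hc, S.vord_K hE hK c⟩, ?_⟩
      have h1 := HasLogDisc.unique hE ha (S.hasLogDisc_generic hE hK)
      have h2 := S.vord_g_le hE hK
      have h3 : (vord E S.g : ℚ) ≤ 1 := by exact_mod_cast h2
      rw [zero_add]
      unfold ceilAstar
      split_ifs
      · exact le_rfl
      · have h4 : (-1 : ℚ) < a - 1 := by rw [h1]; linarith
        exact Int.ceil_nonneg_of_neg_one_lt h4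

/-- An element of `L` which is integral over `K` is in every divisorial `E ⊇ K`. -/
theorem gen2_integral {E : Subring L} (hE : IsDivisorial E) (hK : ∀ c, S.i c ∈ E) {g : L}
    {p : K[X]} (hp : p.Monic) (h : p.eval₂ S.i g = 0) : g ∈ E := by
  rcases hE.total g with h1 | h1
  · exact h1
  by_cases hg : g = 0
  · rw [hg]; exact E.zero_mem
  obtain ⟨n, hn⟩ : ∃ n, p.natDegree = n + 1 := by
    refine Nat.exists_eq_succ_of_ne_zero ?_
    intro h0
    have h0' := eq_one_of_monic_natDegree_zero hp h0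
    rw [h0', eval₂_one] at h
    exact one_ne_zero h
  rw [eval₂_eq_sum_range, Finset.sum_range_succ, hp.coeff_natDegree, map_one, one_mul, hn] at h
  have h2 : g = -∑ k ∈ Finset.range (n + 1), S.i (p.coeff k) * g⁻¹ ^ (n - k) := by
    have h3 : g * g ^ n = -∑ k ∈ Finset.range (n + 1), S.i (p.coeff k) * g ^ k := by
      rw [← pow_succ']
      linear_combination h
    have h4 : g = g * g ^ n * (g ^ n)⁻¹ := by
      rw [mul_assoc, mul_inv_cancel₀ (pow_ne_zero _ hg), mul_one]
    rw [h3, neg_mul, Finset.sum_mul] at h4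
    refine h4.trans ?_
    congr 1
    refine Finset.sum_congr rfl fun k hk => ?_
    rw [Finset.mem_range] at hk
    rw [mul_assoc]
    congr 1
    have h5 : g ^ n = g ^ k * g ^ (n - k) := by rw [← pow_add]; congr 1; omega
    rw [h5, inv_pow]
    have := pow_ne_zero k hg
    have := pow_ne_zero (n - k) hg
    field_simp
  rw [h2]
  exact E.neg_mem (E.sum_mem fun k _ => E.mul_mem (hK _) (E.pow_mem h1 _))

/-- `K` is algebraically closed in `L`: if `g ∈ L` is algebraic over `K` then it is integral over `K`, so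
it is in `A = S.sqData.ring` (`SqData.mem_ring_of_integral`; `K ⊆ K[X]`) and in `E₃` (a valuation
ring containing `K`), so `v(g) ≥ 0` at `E₃` and `mem_K_of_pole` applies. -/
theorem alg_closed (g : L) (p : K[X]) (hp : p ≠ 0) (h : p.eval₂ S.i g = 0) : g ∈ S.i.range := by
  have hm := monic_mul_leadingCoeff_inv hp
  have he : (p * C p.leadingCoeff⁻¹).eval₂ S.i g = 0 := by
    rw [eval₂_mul, h, zero_mul]
  have hA : g ∈ S.sqData.ring := by
    refine S.sqData.mem_ring_of_integral (P := (p * C p.leadingCoeff⁻¹).map C) (hm.map _) ?_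
    rw [eval₂_map]
    have : S.sqData.j.comp C = S.i := by
      ext c
      show (C c).eval₂ S.i S.wX = S.i c
      rw [eval₂_C]
    rw [this, he]
  have h3 := S.gen2_integral S.E3_isDivisorial S.K_le_E3 hm he
  obtain ⟨c, hc⟩ := S.mem_K_of_pole hA (by
    rcases (mem_iff S.E3_isDivisorial).1 h3 with h | h
    · rw [h, vord_zero]; norm_num
    · omega)
  exact ⟨c, hc.symm⟩

end Setup

end Pool.Agent.MP_5c6cc8_ag
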