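import Pool.Agent.MP_5c6cc8_ag.Val

/-! # Row T1: transport of divisorial valuation rings along an isomorphism of fields -/

namespace Pool.Agent.MP_5c6cc8_ag

set_option linter.unusedSectionVars false

variable {F G : Type} [Field F] [Algebra ℂ F] [Field G] [Algebra ℂ G]

theorem Transp_isUnitIn {R : Subring F} (e : F →+* G) {g : F} (h : IsUnitIn R g) :
    IsUnitIn (R.map e) (e g) := by
  obtain ⟨h0, h1, h2⟩ := h
  refine ⟨by simpa using h0, Subring.mem_map.2 ⟨g, h1, rfl⟩, Subring.mem_map.2 ⟨g⁻¹, h2, ?_⟩⟩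
  exact map_inv₀ e g

theorem Transp_hasOrd {R : Subring F} (e : F →+* G) {g : F} {m : ℤ} (h : HasOrd R g m) :
    HasOrd (R.map e) (e g) m := by
  obtain ⟨ϖ, hϖ, hu⟩ := h
  let φ := R.equivMapOfInjective e e.injective
  refine ⟨φ ϖ, (MulEquiv.irreducible_iff φ).2 hϖ, ?_⟩
  have := Transp_isUnitIn e hu
  rw [map_div₀, map_zpow₀] at this
  exact this

theorem IsDivisorial.map {R : Subring F} (hR : IsDivisorial R) (e : F →+* G)
    (he : ∀ c, e (algebraMap ℂ F c) = algebraMap ℂ G c) (hb : Function.Bijective e) :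
    IsDivisorial (R.map e) := by
  classical
  let e' : F →ₐ[ℂ] G := { e with commutes' := he }
  have hee : ∀ x, e' x = e x := fun x => rfl
  refine ⟨?_, ?_, ?_⟩
  · have := hR.dvr
    exact IsDiscreteValuationRing.RingEquivClass.isDiscreteValuationRing (R.equivMapOfInjective e e.injective)
  · intro g
    obtain ⟨f, rfl⟩ := hb.2 g
    rcases hR.total f with h | h
    · exact Or.inl (Subring.mem_map.2 ⟨f, h, rfl⟩)
    · exact Or.inr (Subring.mem_map.2 ⟨f⁻¹, h, map_inv₀ e f⟩)
  · obtain ⟨T, hT, hfr⟩ := hR.essFinite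
    have hmem : ∀ y, y ∈ Algebra.adjoin ℂ ((T.image e : Finset G) : Set G) ↔
        ∃ x ∈ Algebra.adjoin ℂ (T : Set F), e x = y := by
      intro y
      have h1 : ((T.image e : Finset G) : Set G) = e' '' (T : Set F) := by
        rw [Finset.coe_image]; rfl
      rw [h1, ← AlgHom.map_adjoin, Subalgebra.mem_map]
      rfl
    refine ⟨T.image e, ?_, ?_⟩
    · intro y hy
      obtain ⟨x, hx, rfl⟩ := (hmem y).1 hy
      exact Subring.mem_map.2 ⟨x, hT hx, rfl⟩
    · rintro _ ⟨g, hg, rfl⟩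
      obtain ⟨p, hp, q, hq, hu, rfl⟩ := hfr g hg
      exact ⟨e p, (hmem _).2 ⟨p, hp, rfl⟩, e q, (hmem _).2 ⟨q, hq, rfl⟩, Transp_isUnitIn e hu,
        map_div₀ e p q⟩

theorem vord_map {R : Subring F} (hR : IsDivisorial R) (e : F →+* G)
    (he : ∀ c, e (algebraMap ℂ F c) = algebraMap ℂ G c) (hb : Function.Bijective e) (g : F) :
    vord (R.map e) (e g) = vord R g := by
  by_cases hg : g = 0
  · subst hg
    rw [map_zero, vord_zero, vord_zero]
  · exact ((hasOrd_iff (hR.map e he hb)).1 (Transp_hasOrd e ((hasOrd_iff hR).2 ⟨hg, rfl⟩))).2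

theorem comap_map_eq (R : Subring F) (e : F →+* G) (hb : Function.Injective e) :
    (R.map e).comap e = R :=
  Subring.comap_map_eq_self_of_injective hb R

end Pool.Agent.MP_5c6cc8_ag
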