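import Pool.Agent.MP_5c6cc8_ag.Surj
import Pool.Agent.MP_5c6cc8_ag.Transp

/-! # Assembly A3: valuative consequences of a good model -/

open AlgebraicGeometry CategoryTheory

namespace Pool.Agent.MP_5c6cc8_ag

theorem GoodModel.valuative {d r : ℕ} {F : LCTrivialFibration d r} {ω'' : Form F.Y.K F.n} {I : ℕ}
    (M : GoodModel F ω'' I) (P : Subring F.Y.K) (hP : IsDivisorial P) :
    ∃ (μ : ℝ) (h : F.Y.K), h ≠ 0 ∧ F.IsModuliMult ω'' P μ ∧ (vord P h : ℝ) = -(I * μ) ∧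
      ∀ P' : Subring F.Y.K, IsDivisorial P' → ∃ μ' : ℝ, F.IsModuliMult ω'' P' μ' ∧
        -(I * μ') ≤ (vord P' h : ℝ) := by
  have he : ∀ c, M.ψ.pull (algebraMap ℂ _ c) = algebraMap ℂ _ c := M.ψ.pull_algebraMap
  have hb : Function.Bijective M.ψ.pull := M.birational
  -- the divisors over `Y` and over `Y'` are the same
  have key : ∀ P : Subring F.Y.K, IsDivisorial P → ∃ y : M.Y'.X, ∃ (μ : ℝ),
      (∃ m : ℤ, (m : ℝ) = I * μ ∧ HasOrd (P.map M.ψ.pull) (M.G y) m) ∧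
      F.IsModuliMult ω'' P μ ∧ M.Y'.localRing y ≤ P.map M.ψ.pull := by
    intro P hP
    have hP' : IsDivisorial (P.map M.ψ.pull) := hP.map M.ψ.pull he hb
    obtain ⟨y, hy1, hy2⟩ := exists_centre M.Y' hP'
    obtain ⟨m, μ, h1, h2, h3⟩ := M.descends _ hP' y hy1 hy2
    refine ⟨y, μ, ⟨m, h3, h1⟩, ?_, hy1⟩
    rwa [comap_map_eq P M.ψ.pull hb.1] at h2
  obtain ⟨y, μ, ⟨m, hm, hord⟩, hμ, hle⟩ := key P hP
  obtain ⟨h, hh1, hh2⟩ := M.free y
  have hP' : IsDivisorial (P.map M.ψ.pull) := hP.map M.ψ.pull he hb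
  obtain ⟨h', rfl⟩ := hb.2 h
  have hG : M.G y ≠ 0 := M.G_ne_zero y
  have hh0 : h' ≠ 0 := by
    rintro rfl
    rw [map_zero, zero_mul] at hh2
    exact hh2.1 rfl
  have hh0' : M.ψ.pull h' ≠ 0 := (map_ne_zero M.ψ.pull).mpr hh0
  have hunit : IsUnitIn (P.map M.ψ.pull) (M.ψ.pull h' * M.G y) :=
    ⟨hh2.1, hle hh2.2.1, hle hh2.2.2⟩
  have hv : vord P h' + m = 0 := by
    have := ((isUnitIn_iff hP').mp hunit).2
    rwa [vord_mul hP' hh0' hG, vord_map hP _ he hb, ((hasOrd_iff hP').mp hord).2] at this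
  refine ⟨μ, h', hh0, hμ, ?_, ?_⟩
  · have : (vord P h' : ℝ) + m = 0 := by exact_mod_cast hv
    linarith
  · intro Q hQ
    obtain ⟨z, ν, ⟨l, hl, hord'⟩, hν, hle'⟩ := key Q hQ
    have hQ' : IsDivisorial (Q.map M.ψ.pull) := hQ.map M.ψ.pull he hb
    refine ⟨ν, hν, ?_⟩
    have hGz : M.G z ≠ 0 := M.G_ne_zero z
    have h1 : M.ψ.pull h' * M.G z ∈ Q.map M.ψ.pull := hle' (hh1 z)
    have h2 : 0 ≤ vord Q h' + l := by
      rcases (mem_iff hQ').mp h1 with h | h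
      · exact absurd h (mul_ne_zero hh0' hGz)
      · rwa [vord_mul hQ' hh0' hGz, vord_map hQ _ he hb, ((hasOrd_iff hQ').mp hord').2] at h
    have : (0 : ℝ) ≤ (vord Q h' : ℝ) + l := by exact_mod_cast h2
    linarith

end Pool.Agent.MP_5c6cc8_ag
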