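import Pool.Agent.MP_5c6cc8_ag.Core
import Pool.Agent.MP_5c6cc8_ag.Fields
import Pool.Agent.MP_5c6cc8_ag.Generic
import Pool.Agent.MP_5c6cc8_ag.Good

/-! # Assembly A4: the theorem -/

open AlgebraicGeometry CategoryTheory

namespace Pool.Agent.MP_5c6cc8_ag

/-- The fibration. -/
noncomputable def fib (X Y : Variety) (f : Surjection X Y) (S : Setup Y.K X.K)
    (hS : S.i = f.pull) : LCTrivialFibration 1 5 where
  X := X
  Y := Y
  f := f
  connected := fun g p hp h => by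
    rw [← hS] at h ⊢
    exact S.alg_closed g p hp h
  n := 2
  dim_Y := S.hK.trdeg
  dim_X := S.hL.trdeg
  ω := S.ω
  ω_ne_zero := S.ω_ne_zero
  φ := S.φ
  φ_ne_zero := inv_ne_zero S.g_ne_zero
  sub_lc := fun E hE hK => by
    rw [← hS] at hK
    exact S.sub_lc hE hK
  rank_one := by
    rw [← hS]
    exact S.rank_one

/-- Change of the canonical form of `Y`. -/
theorem isModuliMult_smul {K L : Type} [Field K] [Algebra ℂ K] [Field L] [Algebra ℂ L] {n n' : ℕ}
    {i : K →+* L} {ω : Form L n} {φ : L} {r : ℕ} {ω' : Form K n'} {P : Subring K} {μ : ℝ}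
    (hP : IsDivisorial P) {u : K} (hu : u ≠ 0) (h : IsModuliMult i ω φ r (u • ω') P μ) :
    IsModuliMult i ω φ r ω' P (μ + vord P u) := by
  obtain ⟨k, c, hk, hc, rfl⟩ := h
  refine ⟨k - vord P u, c, ?_, hc, ?_⟩
  · rw [← hasFormOrd_smul_iff hP hu, sub_add_cancel]
    exact hk
  · push_cast
    ring

theorem contra {K L : Type} [Field K] [Algebra ℂ K] [Field L] [Algebra ℂ L] (S : Setup K L)
    (ω'' : Form K 2) (hω'' : ω'' ≠ 0) (I : ℕ) (hI : 0 < I)
    (H : ∀ P : Subring K, IsDivisorial P → ∃ (μ : ℝ) (h : K), h ≠ 0 ∧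
      IsModuliMult S.i S.ω S.φ 5 ω'' P μ ∧ (vord P h : ℝ) = -(I * μ) ∧
      ∀ P' : Subring K, IsDivisorial P' → ∃ μ' : ℝ, IsModuliMult S.i S.ω S.φ 5 ω'' P' μ' ∧
        -(I * μ') ≤ (vord P' h : ℝ)) : False := by
  obtain ⟨u, hu⟩ := S.hK.exists_smul_wedge ω''
  have hu0 : u ≠ 0 := by
    rintro rfl
    rw [zero_smul] at hu
    exact hω'' hu
  have hu' : ω'' = u • S.ω' := hu
  subst hu'
  refine S.core hI fun P hP => ?_
  obtain ⟨μ, h, h0, hμ, hv, hall⟩ := H P hP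
  refine ⟨μ + vord P u, h * u⁻¹ ^ I, mul_ne_zero h0 (pow_ne_zero _ (inv_ne_zero hu0)),
    isModuliMult_smul hP hu0 hμ, ?_, ?_⟩
  · rw [vord_mul hP h0 (pow_ne_zero _ (inv_ne_zero hu0)), vord_pow hP, vord_inv hP]
    push_cast
    linarith
  · intro Q hQ
    obtain ⟨ν, hν, hle⟩ := hall Q hQ
    refine ⟨ν + vord Q u, isModuliMult_smul hQ hu0 hν, ?_⟩
    rw [vord_mul hQ h0 (pow_ne_zero _ (inv_ne_zero hu0)), vord_pow hQ, vord_inv hQ]
    push_cast
    linarith

theorem no_good_model (X Y : Variety) (f : Surjection X Y) (S : Setup Y.K X.K)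
    (hS : S.i = f.pull) (ω'' : Form Y.K 2) (hω'' : ω'' ≠ 0) (I : ℕ) (hI : 0 < I) :
    IsEmpty (GoodModel (fib X Y f S hS) ω'' I) := by
  constructor
  intro M
  refine contra S ω'' hω'' I hI fun P hP => ?_
  have h := M.valuative P hP
  obtain ⟨μ, h, h0, hμ, hv, hall⟩ := h
  refine ⟨μ, h, h0, ?_, hv, fun P' hP' => ?_⟩
  · rw [hS]
    exact hμ
  · obtain ⟨μ', hμ', hle⟩ := hall P' hP'
    refine ⟨μ', ?_, hle⟩
    rw [hS]
    exact hμ'

/-- There is an lc-trivial fibration of relative dimension `1` satisfying (iii) with `r = 5` for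
which, for no `I > 0`, there is a birational model `Y' → Y` to which the moduli b-divisor `M` descends
and on which `I M_{Y'}` is Cartier and base point free. -/
theorem main : ∃ F : LCTrivialFibration 1 5, ∀ ω' : Form F.Y.K F.n, ω' ≠ 0 →
    ∀ I : ℕ, 0 < I → IsEmpty (GoodModel F ω' I) := by
  obtain ⟨X, Y, f, S, hS⟩ := exists_fields
  exact ⟨fib X Y f S hS, fun ω' hω' I hI => no_good_model X Y f S hS ω' hω' I hI⟩

end Pool.Agent.MP_5c6cc8_ag
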