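import Pool.Agent.MP_5c6cc8_ag.Forms1

/-! # Row Forms2: the form `ds ∧ dg ∧ dw` -/

open MvPolynomial

namespace Pool.Agent.MP_5c6cc8_ag

namespace Setup

variable {K L : Type} [Field K] [Algebra ℂ K] [Field L] [Algebra ℂ L] (S : Setup K L)

/-- The coefficient `J` in `ds ∧ dg ∧ dw = J ω`. -/
noncomputable def J : L :=
  S.i S.w * (S.F1 * (5 * pp S.x 4 - ∑ k, pp S.x k) +
    S.i S.s * S.F2 * (5 * (pp S.x 1 + pp S.x 4) - 2 * ∑ k, pp S.x k))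

/-- logarithmic derivative along `ds ∧ · ∧ dw` -/
def forms2_LD (f a : L) : Prop := T (S.i S.s) f (S.i S.w) = (f * a) • S.ω

theorem forms2_mul {f h a b : L} (hf : S.forms2_LD f a) (hh : S.forms2_LD h b) :
    S.forms2_LD (f * h) (a + b) := by
  unfold forms2_LD at *
  rw [T_mul2, hf, hh, smul_smul, smul_smul, ← add_smul]
  congr 1
  ring

theorem forms2_inv {f a : L} (h0 : f ≠ 0) (hf : S.forms2_LD f a) : S.forms2_LD f⁻¹ (-a) := by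
  unfold forms2_LD at *
  rw [T_inv2, hf, smul_smul]
  congr 1
  field_simp

theorem forms2_x (j k l : Fin 5) (hk : j + 4 = k) (hl : j + 1 = l) :
    S.forms2_LD (S.x j) (S.i S.w * (pp S.x k - pp S.x l)) := by
  unfold forms2_LD
  rw [S.T_x_w, hk, hl]
  congr 1
  ring

/-- `ds ∧ dg ∧ dw = J ω`. Proof: `g = F₁ + s F₂` with `F₁ = x₀² x₂ / (x₃² x₁)` and
`F₂ = x₂³ x₄ / (x₁ x₃³)`; `ds ∧ ds = 0`; use the Leibniz rule and `T_x_w`. With
`u_j = p_{j+4} - p_{j+1}`: `2 u₀ + u₂ - 2 u₃ - u₁ = 5 p₄ - ∑ p_k` and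
`3 u₂ + u₄ - u₁ - 3 u₃ = 5 (p₁ + p₄) - 2 ∑ p_k`. -/
theorem T_g_w : T (S.i S.s) S.g (S.i S.w) = S.J • S.ω := by
  have n1 := S.cluster.ne_zero 1
  have n3 := S.cluster.ne_zero 3
  have l0 := S.forms2_x 0 4 1 rfl rfl
  have l1 := S.forms2_x 1 0 2 rfl rfl
  have l2 := S.forms2_x 2 1 3 rfl rfl
  have l3 := S.forms2_x 3 2 4 rfl rfl
  have l4 := S.forms2_x 4 3 0 rfl rfl
  have i1 := S.forms2_inv n1 l1
  have i3 := S.forms2_inv n3 l3
  have hF1 := S.forms2_mul (S.forms2_mul (S.forms2_mul l0 l0) l2) (S.forms2_mul (S.forms2_mul i3 i3) i1)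
  have hF2 := S.forms2_mul (S.forms2_mul (S.forms2_mul (S.forms2_mul l2 l2) l2) l4)
    (S.forms2_mul i1 (S.forms2_mul (S.forms2_mul i3 i3) i3))
  have e1 : S.x 0 * S.x 0 * S.x 2 * ((S.x 3)⁻¹ * (S.x 3)⁻¹ * (S.x 1)⁻¹) = S.F1 := by
    unfold F1
    field_simp
  have e2 : S.x 2 * S.x 2 * S.x 2 * S.x 4 * ((S.x 1)⁻¹ * ((S.x 3)⁻¹ * (S.x 3)⁻¹ * (S.x 3)⁻¹)) =
      S.F2 := by
    unfold F2
    field_simp
  rw [e1] at hF1
  rw [e2] at hF2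
  unfold forms2_LD at hF1 hF2
  unfold g
  rw [T_add2, T_mul2, T_self12, smul_zero, add_zero, hF1, hF2, smul_smul, ← add_smul]
  congr 1
  unfold J
  rw [Fin.sum_univ_five]
  ring

end Setup

end Pool.Agent.MP_5c6cc8_ag
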