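import Pool.Agent.MP_5c6cc8_ag.Setup
import Pool.Agent.MP_5c6cc8_ag.Deriv2

/-! # Row Forms3: formulas in terms of `a = x₁`, `b = x₂` -/

open MvPolynomial

namespace Pool.Agent.MP_5c6cc8_ag

namespace Setup

variable {K L : Type} [Field K] [Algebra ℂ K] [Field L] [Algebra ℂ L] (S : Setup K L)

/-- The formulas for the cluster variables in terms of `a = x₁`, `b = x₂`. -/
theorem x3_eq : S.x 3 = (1 + S.x 2) / S.x 1 := by
  have h := S.cluster.rel 2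
  have e1 : (2 - 1 : Fin 5) = 1 := rfl
  have e2 : (2 + 1 : Fin 5) = 3 := rfl
  rw [e1, e2] at h
  rw [eq_div_iff (S.cluster.ne_zero 1), ← h, mul_comm]

theorem x4_eq' : S.x 4 = (1 + S.x 1 + S.x 2) / (S.x 1 * S.x 2) := by
  have h := S.cluster.rel 0
  have h1 := S.cluster.rel 1
  have e1 : (0 - 1 : Fin 5) = 4 := rfl
  have e2 : (0 + 1 : Fin 5) = 1 := rfl
  have e3 : (1 - 1 : Fin 5) = 0 := rfl
  have e4 : (1 + 1 : Fin 5) = 2 := rfl
  rw [e1, e2] at h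
  rw [e3, e4] at h1
  rw [eq_div_iff (mul_ne_zero (S.cluster.ne_zero 1) (S.cluster.ne_zero 2))]
  linear_combination S.x 2 * h + h1

theorem x0_eq : S.x 0 = (1 + S.x 1) / S.x 2 := by
  have h1 := S.cluster.rel 1
  have e3 : (1 - 1 : Fin 5) = 0 := rfl
  have e4 : (1 + 1 : Fin 5) = 2 := rfl
  rw [e3, e4] at h1
  rw [eq_div_iff (S.cluster.ne_zero 2), h1]

theorem w_eq : S.i S.w * (S.x 1 * S.x 2) = (1 + S.x 1) * (1 + S.x 2) * (1 + S.x 1 + S.x 2) := by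
  have h1 := S.cluster.ne_zero 1
  have h2 := S.cluster.ne_zero 2
  rw [S.hw, S.x0_eq, S.x3_eq, S.x4_eq']
  field_simp

/-- `g b (1 + b)³ = a ((1 + a)² (1 + b) + s b³ (1 + a + b))`. -/
theorem g_eq : S.g * (S.x 2 * (1 + S.x 2) ^ 3) =
    S.x 1 * ((1 + S.x 1) ^ 2 * (1 + S.x 2) +
      S.i S.s * S.x 2 ^ 3 * (1 + S.x 1 + S.x 2)) := by
  have h1 := S.cluster.ne_zero 1
  have h2 := S.cluster.ne_zero 2
  have h3 := S.cluster.one_add_ne_zero 2
  rw [g, F1, F2, S.x0_eq, S.x3_eq, S.x4_eq']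
  field_simp

theorem forms3_coord {p : MvPolynomial (Fin 3) ℂ} (hp : p ≠ 0) :
    aeval ![S.x 1, S.x 2, S.i S.s] p ≠ 0 := S.hL.aeval_ne_zero hp

theorem forms3_s : S.i S.s ≠ 0 := by
  have h := S.forms3_coord (p := X 2) (X_ne_zero 2)
  rw [aeval_X] at h
  exact h

theorem g_ne_zero : S.g ≠ 0 := by
  have hp : ((1 + X 0) ^ 2 * (1 + X 1) + X 2 * X 1 ^ 3 * (1 + X 0 + X 1) :
      MvPolynomial (Fin 3) ℂ) ≠ 0 := by
    intro h
    have h1 := congrArg (eval (0 : Fin 3 → ℂ)) h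
    simp at h1
  have h := S.forms3_coord hp
  simp only [map_add, map_mul, map_pow, map_one, aeval_X] at h
  intro hg
  have h2 := S.g_eq
  rw [hg, zero_mul] at h2
  rcases mul_eq_zero.1 h2.symm with h3 | h3
  · exact S.cluster.ne_zero 1 h3
  · exact h h3

theorem F1_ne_zero : S.F1 ≠ 0 :=
  div_ne_zero (mul_ne_zero (pow_ne_zero _ (S.cluster.ne_zero 0)) (S.cluster.ne_zero 2))
    (mul_ne_zero (pow_ne_zero _ (S.cluster.ne_zero 3)) (S.cluster.ne_zero 1))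

theorem F2_ne_zero : S.F2 ≠ 0 :=
  div_ne_zero (mul_ne_zero (pow_ne_zero _ (S.cluster.ne_zero 2)) (S.cluster.ne_zero 4))
    (mul_ne_zero (S.cluster.ne_zero 1) (pow_ne_zero _ (S.cluster.ne_zero 3)))

theorem w_ne_zero : S.w ≠ 0 := by
  intro h
  have h1 := S.hw
  rw [h, map_zero] at h1
  exact (mul_ne_zero (mul_ne_zero (mul_ne_zero (mul_ne_zero (S.cluster.ne_zero 0)
    (S.cluster.ne_zero 1)) (S.cluster.ne_zero 2)) (S.cluster.ne_zero 3))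
    (S.cluster.ne_zero 4)) h1.symm

theorem s_ne_zero : S.s ≠ 0 := by
  intro h
  apply S.forms3_s
  rw [h, map_zero]

/-- `ω ≠ 0`, as `wedge ![x₁, x₂, s] ≠ 0` (`IsCoord.wedge_ne_zero`). -/
theorem ω_ne_zero : S.ω ≠ 0 := by
  unfold ω
  refine smul_ne_zero (inv_ne_zero (mul_ne_zero (S.cluster.ne_zero 1) (S.cluster.ne_zero 2))) ?_
  have h : T (S.x 1) (S.x 2) (S.i S.s) ≠ 0 := S.hL.wedge_ne_zero
  rw [T_swap12 (S.x 1) (S.i S.s) (S.x 2), T_swap23 (S.x 1) (S.x 2) (S.i S.s), neg_neg]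
  exact h

end Setup

end Pool.Agent.MP_5c6cc8_ag
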