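import Pool.Agent.MP_5c6cc8_ag.Clust

/-! # Row Forms1: the form `ω` in cluster coordinates -/

open MvPolynomial

namespace Pool.Agent.MP_5c6cc8_ag

/-- `p_j = 1 / (1 + x_j)`. -/
noncomputable def pp {L : Type} [Field L] (x : Fin 5 → L) (j : Fin 5) : L := (1 + x j)⁻¹


theorem forms1_step {F : Type} [Field F] [Algebra ℂ F] (s X0 X1 X2 : F) (h0 : X0 ≠ 0)
    (h : X0 * X2 = 1 + X1) : T s X1 X2 = (X2 * X0⁻¹) • T s X0 X1 := by
  have h2 : X2 = (1 + X1) * X0⁻¹ := by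
    rw [← h]
    field_simp
  conv_lhs => rw [h2]
  rw [T_mul3, T_add3, T_one3, T_self23, T_inv3, T_swap23 s X0 X1]
  simp only [smul_neg, neg_smul, neg_neg, add_zero, smul_zero, smul_smul]
  congr 1
  rw [← h]
  field_simp

theorem forms1_step2 {F : Type} [Field F] [Algebra ℂ F] (s X0 X1 X2 : F) (h0 : X0 ≠ 0)
    (h : X0 * X2 = 1 + X1) : T s X0 X2 = X0⁻¹ • T s X0 X1 := by
  have h2 : X2 = (1 + X1) * X0⁻¹ := by
    rw [← h]
    field_simp
  rw [h2, T_mul3, T_add3, T_one3, T_inv3, T_self23]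
  simp only [zero_add, smul_zero]

namespace Setup

variable {K L : Type} [Field K] [Algebra ℂ K] [Field L] [Algebra ℂ L] (S : Setup K L)

include S in
theorem forms1_rel (j : Fin 5) : S.x j * S.x (j + 2) = 1 + S.x (j + 1) := by
  have h := S.cluster.rel (j + 1)
  have e1 : j + 1 - 1 = j := (by decide : ∀ j : Fin 5, j + 1 - 1 = j) j
  have e2 : j + 1 + 1 = j + 2 := (by decide : ∀ j : Fin 5, j + 1 + 1 = j + 2) j
  rw [e1, e2] at h
  exact h

/-- `ω = ds ∧ dlog x_j ∧ dlog x_{j+1}` for all `j`. Proof: from `j` to `j + 1`: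
`x_{j+2} = (1 + x_{j+1}) / x_j`, so `dx_{j+1} ∧ dx_{j+2} = - (1 + x_{j+1}) x_j⁻² dx_{j+1} ∧ dx_j`,
and `x_j x_{j+2} = 1 + x_{j+1}`. -/
theorem ω_rotate (j : Fin 5) :
    S.ω = (S.x j * S.x (j + 1))⁻¹ • T (S.i S.s) (S.x j) (S.x (j + 1)) := by
  have hne := S.cluster.ne_zero
  have step : ∀ k : Fin 5,
      S.ω = (S.x k * S.x (k + 1))⁻¹ • T (S.i S.s) (S.x k) (S.x (k + 1)) →
      S.ω = (S.x (k + 1) * S.x (k + 1 + 1))⁻¹ •
        T (S.i S.s) (S.x (k + 1)) (S.x (k + 1 + 1)) := by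
    intro k hk
    have e2 : k + 1 + 1 = k + 2 := (by decide : ∀ k : Fin 5, k + 1 + 1 = k + 2) k
    rw [e2, hk, forms1_step (S.i S.s) (S.x k) (S.x (k + 1)) (S.x (k + 2)) (hne k)
      (S.forms1_rel k), smul_smul]
    congr 1
    have h0 := hne k
    have h1 := hne (k + 1)
    have h2 := hne (k + 2)
    field_simp
  have h1 : S.ω = (S.x 1 * S.x (1 + 1))⁻¹ • T (S.i S.s) (S.x 1) (S.x (1 + 1)) := rfl
  have h2 := step _ h1
  have h3 := step _ h2
  have h4 := step _ h3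
  have h5 := step _ h4
  have hj : j = 1 ∨ j = 1 + 1 ∨ j = 1 + 1 + 1 ∨ j = 1 + 1 + 1 + 1 ∨ j = 1 + 1 + 1 + 1 + 1 := by
    revert j; decide
  rcases hj with rfl | rfl | rfl | rfl | rfl
  · exact h1
  · exact h2
  · exact h3
  · exact h4
  · exact h5

/-- `ds ∧ dx_j ∧ dx_{j+1} = x_j x_{j+1} ω`. -/
theorem T_succ (j : Fin 5) :
    T (S.i S.s) (S.x j) (S.x (j + 1)) = (S.x j * S.x (j + 1)) • S.ω := by
  rw [S.ω_rotate j, smul_smul, mul_inv_cancel₀ (mul_ne_zero (S.cluster.ne_zero _)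
    (S.cluster.ne_zero _)), one_smul]

/-- `ds ∧ dx_j ∧ dx_{j+2} = x_{j+1} ω`: as `x_{j+2} = (1 + x_{j+1}) / x_j`. -/
theorem T_succ2 (j : Fin 5) :
    T (S.i S.s) (S.x j) (S.x (j + 2)) = (S.x (j + 1)) • S.ω := by
  rw [forms1_step2 (S.i S.s) (S.x j) (S.x (j + 1)) (S.x (j + 2)) (S.cluster.ne_zero j)
    (S.forms1_rel j), S.T_succ j, smul_smul]
  congr 1
  have h0 := S.cluster.ne_zero j
  field_simp

/-- With `ξ = 1 / x_{j+2}` and `W' = x_j x_{j+2} x_{j+3} = 1 + x_{j+2} + x_{j+3}` we have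
`ω = - (x_{j+2} / x_{j+3}) ds ∧ dξ ∧ dW'`. -/
theorem ω_section (j : Fin 5) :
    S.ω = (-(S.x (j + 2) / S.x (j + 3))) •
      T (S.i S.s) (S.x (j + 2))⁻¹ (S.x j * S.x (j + 2) * S.x (j + 3)) := by
  have h2 := S.cluster.ne_zero (j + 2)
  have h3 := S.cluster.ne_zero (j + 3)
  have h := S.T_succ (j + 2)
  have e2 : j + 2 + 1 = j + 3 := (by decide : ∀ j : Fin 5, j + 2 + 1 = j + 3) j
  rw [e2] at h
  rw [W_eq S.cluster j, T_add3, T_add3, T_one3, T_inv2, T_inv2, T_self23, h]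
  simp only [smul_zero, zero_add, smul_smul]
  conv_lhs => rw [← one_smul L S.ω]
  congr 1
  field_simp

/-- `ds ∧ dx_j ∧ dw = w x_j (p_{j+4} - p_{j+1}) ω`. Proof: `w = ∏ x_k`, so
`ds ∧ dx_j ∧ dw = w ∑_{k ≠ j} x_k⁻¹ ds ∧ dx_j ∧ dx_k` and by `T_succ`, `T_succ2`
this is `w (x_j + x_{j+1} / x_{j+2} - x_j - x_{j+4} / x_{j+3}) ω`; finally
`x_{j+1} / x_{j+2} = x_j (1 - p_{j+1})` and `x_{j+4} / x_{j+3} = x_j (1 - p_{j+4})` from the
relations. -/
theorem T_x_w (j : Fin 5) :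
    T (S.i S.s) (S.x j) (S.i S.w) =
      (S.i S.w * S.x j * (pp S.x (j + 4) - pp S.x (j + 1))) • S.ω := by
  have hw : S.i S.w = S.x j * S.x (j + 1) * S.x (j + 2) * S.x (j + 3) * S.x (j + 4) := by
    rw [prod_rotate, S.hw]
  have n0 := S.cluster.ne_zero j
  have n1 := S.cluster.ne_zero (j + 1)
  have n2 := S.cluster.ne_zero (j + 2)
  have n3 := S.cluster.ne_zero (j + 3)
  have n4 := S.cluster.ne_zero (j + 4)
  have t1 := S.T_succ j
  have t2 := S.T_succ2 j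
  have t4 : T (S.i S.s) (S.x j) (S.x (j + 4)) = (-(S.x (j + 4) * S.x j)) • S.ω := by
    have h := S.T_succ (j + 4)
    have e : j + 4 + 1 = j := (by decide : ∀ j : Fin 5, j + 4 + 1 = j) j
    rw [e] at h
    rw [T_swap23, h]
    exact (neg_smul _ _).symm
  have t3 : T (S.i S.s) (S.x j) (S.x (j + 3)) = (-(S.x (j + 4))) • S.ω := by
    have h := S.T_succ2 (j + 3)
    have e : j + 3 + 2 = j := (by decide : ∀ j : Fin 5, j + 3 + 2 = j) j
    have e' : j + 3 + 1 = j + 4 := (by decide : ∀ j : Fin 5, j + 3 + 1 = j + 4) j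
    rw [e, e'] at h
    rw [T_swap23, h]
    exact (neg_smul _ _).symm
  have r1 : S.x j * S.x (j + 2) = 1 + S.x (j + 1) := S.forms1_rel j
  have r2 : S.x (j + 1) * S.x (j + 3) = 1 + S.x (j + 2) := by
    have h := S.forms1_rel (j + 1)
    have e : j + 1 + 2 = j + 3 := (by decide : ∀ j : Fin 5, j + 1 + 2 = j + 3) j
    have e' : j + 1 + 1 = j + 2 := (by decide : ∀ j : Fin 5, j + 1 + 1 = j + 2) j
    rw [e, e'] at h
    exact h
  have r3 : S.x (j + 2) * S.x (j + 4) = 1 + S.x (j + 3) := by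
    have h := S.forms1_rel (j + 2)
    have e : j + 2 + 2 = j + 4 := (by decide : ∀ j : Fin 5, j + 2 + 2 = j + 4) j
    have e' : j + 2 + 1 = j + 3 := (by decide : ∀ j : Fin 5, j + 2 + 1 = j + 3) j
    rw [e, e'] at h
    exact h
  have r4 : S.x (j + 3) * S.x j = 1 + S.x (j + 4) := by
    have h := S.forms1_rel (j + 3)
    have e : j + 3 + 2 = j := (by decide : ∀ j : Fin 5, j + 3 + 2 = j) j
    have e' : j + 3 + 1 = j + 4 := (by decide : ∀ j : Fin 5, j + 3 + 1 = j + 4) j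
    rw [e, e'] at h
    exact h
  rw [hw, T_mul3, T_mul3, T_mul3, T_mul3, T_self23, t1, t2, t3, t4]
  simp only [smul_zero, add_zero, smul_smul, ← add_smul]
  congr 1
  unfold pp
  rw [← r1, ← r4]
  have e1 : (S.x (j + 3) * S.x j)⁻¹ - (S.x j * S.x (j + 2))⁻¹ =
      (S.x (j + 2) - S.x (j + 3)) / (S.x j * S.x (j + 2) * S.x (j + 3)) := by
    field_simp
  have e2 : S.x (j + 2) - S.x (j + 3) = S.x (j + 1) * S.x (j + 3) - S.x (j + 2) * S.x (j + 4) := by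
    rw [r2, r3]
    ring
  rw [e1, e2]
  field_simp
  ring

end Setup

end Pool.Agent.MP_5c6cc8_ag
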