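import Pool.Agent.MP_5c6cc8_ag.Infty1

/-! # Row Infty2: poles at `S₃` -/

open Polynomial

namespace Pool.Agent.MP_5c6cc8_ag

namespace Setup

variable {K L : Type} [Field K] [Algebra ℂ K] [Field L] [Algebra ℂ L] (S : Setup K L)

/-- `v(P(X)) = -2 deg P` -/
theorem infty2_poly (n : ℕ) : ∀ p : K[X], p ≠ 0 → p.natDegree = n →
    eval₂ S.i S.wX p ≠ 0 ∧ vord S.E3 (eval₂ S.i S.wX p) = -2 * (n : ℤ) := by
  have hE := S.E3_isDivisorial
  have hX := S.vord_E3_wX
  have hX0 : S.wX ≠ 0 := by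
    intro h0
    rw [h0, vord_zero] at hX
    norm_num at hX
  induction n using Nat.strong_induction_on with
  | _ n ih =>
    intro p hp hn
    have hlc : p.leadingCoeff ≠ 0 := leadingCoeff_ne_zero.2 hp
    have hi : S.i p.leadingCoeff ≠ 0 := (map_ne_zero S.i).2 hlc
    have hXn : S.wX ^ p.natDegree ≠ 0 := pow_ne_zero _ hX0
    have hdec : eval₂ S.i S.wX p =
        S.i p.leadingCoeff * S.wX ^ p.natDegree + eval₂ S.i S.wX p.eraseLead := by
      conv_lhs => rw [← p.eraseLead_add_C_mul_X_pow]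
      rw [eval₂_add, eval₂_mul, eval₂_C, eval₂_X_pow, add_comm]
    have hlead : vord S.E3 (S.i p.leadingCoeff * S.wX ^ p.natDegree) = -2 * (n : ℤ) := by
      rw [vord_mul hE hi hXn, vord_pow hE, hX, S.vord_K hE S.K_le_E3, hn]
      ring
    have hadd := vord_add_eq hE (g := S.i p.leadingCoeff * S.wX ^ p.natDegree)
      (h := eval₂ S.i S.wX p.eraseLead) (mul_ne_zero hi hXn) ?_
    · rw [← hdec] at hadd
      exact ⟨hadd.1, hadd.2.trans hlead⟩
    · rcases p.eraseLead_natDegree_lt_or_eraseLead_eq_zero with h1 | h1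
      · by_cases h2 : p.eraseLead = 0
        · left
          rw [h2, eval₂_zero]
        · right
          rw [hlead, (ih _ (by omega) _ h2 rfl).2]
          have h3 : (p.eraseLead.natDegree : ℤ) < n := by exact_mod_cast (by omega)
          linarith
      · left
        rw [h1, eval₂_zero]

theorem infty2_poly' {p : K[X]} (hp : p ≠ 0) :
    eval₂ S.i S.wX p ≠ 0 ∧ vord S.E3 (eval₂ S.i S.wX p) = -2 * (p.natDegree : ℤ) :=
  S.infty2_poly _ p hp rfl

/-- If `f = P(X) + Q(X) η` has at most a simple pole at `E₃` then `f ∈ K`: for a nonzero polynomial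
`v(P(X)) = - 2 deg P` and `v(Q(X) η) = - 2 deg Q - 3` (note that `v = 0` on `Kˣ`). -/
theorem mem_K_of_pole {f : L} (hf : f ∈ S.sqData.ring) (h : -1 ≤ vord S.E3 f) :
    ∃ c : K, f = S.i c := by
  have hE := S.E3_isDivisorial
  obtain ⟨P, Q, hPQ⟩ := hf
  have hj : ∀ p : K[X], S.sqData.j p = eval₂ S.i S.wX p := fun p => rfl
  have hη : S.sqData.η = S.wη := rfl
  rw [hj, hj, hη] at hPQ
  have hη0 := S.wη_ne_zero
  have hvη := S.vord_E3_wη
  by_cases hQ : Q = 0
  · rw [hQ, eval₂_zero, zero_mul, add_zero] at hPQ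
    by_cases hP : P = 0
    · refine ⟨0, ?_⟩
      rw [hPQ, hP, eval₂_zero, map_zero]
    · have h1 := (S.infty2_poly' hP).2
      rw [← hPQ] at h1
      have h2 : P.natDegree = 0 := by
        rw [h1] at h
        omega
      refine ⟨P.coeff 0, ?_⟩
      rw [hPQ, eq_C_of_natDegree_eq_zero h2, eval₂_C, coeff_C_zero]
  · exfalso
    obtain ⟨hQ0, hQv⟩ := S.infty2_poly' hQ
    have h1 : vord S.E3 (eval₂ S.i S.wX Q * S.wη) = -2 * (Q.natDegree : ℤ) - 3 := by
      rw [vord_mul hE hQ0 hη0, hQv, hvη]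
      ring
    have hQη : eval₂ S.i S.wX Q * S.wη ≠ 0 := mul_ne_zero hQ0 hη0
    by_cases hP : P = 0
    · rw [hP, eval₂_zero, zero_add] at hPQ
      rw [hPQ, h1] at h
      omega
    · obtain ⟨hP0, hPv⟩ := S.infty2_poly' hP
      rcases lt_trichotomy (vord S.E3 (eval₂ S.i S.wX P))
        (vord S.E3 (eval₂ S.i S.wX Q * S.wη)) with h2 | h2 | h2
      · have h3 := (vord_add_eq hE hP0 (Or.inr h2)).2
        rw [← hPQ] at h3
        rw [h3] at h
        omega
      · rw [h1, hPv] at h2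
        omega
      · have h3 := (vord_add_eq hE hQη (Or.inr h2)).2
        rw [add_comm, ← hPQ] at h3
        rw [h3] at h
        omega

/-- congruent arguments give congruent values of a polynomial -/
theorem infty2_cong {E : Subring L} (hE : IsDivisorial E) {n : ℕ} {z y : Fin n → L}
    (hz : ∀ k, z k ∈ E) (hy : ∀ k, y k ∈ E) (h : ∀ k, Cong E (z k) (y k))
    (q : MvPolynomial (Fin n) ℂ) :
    Cong E (MvPolynomial.aeval z q) (MvPolynomial.aeval y q) ∧ MvPolynomial.aeval z q ∈ E ∧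
      MvPolynomial.aeval y q ∈ E := by
  induction q using MvPolynomial.induction_on with
  | C a =>
    rw [MvPolynomial.aeval_C, MvPolynomial.aeval_C]
    exact ⟨Cong.refl _, algebraMap_mem hE a, algebraMap_mem hE a⟩
  | add p q hp hq =>
    rw [map_add, map_add]
    exact ⟨Cong.add hE hp.1 hq.1, E.add_mem hp.2.1 hq.2.1, E.add_mem hp.2.2 hq.2.2⟩
  | mul_X p k hp =>
    rw [map_mul, map_mul, MvPolynomial.aeval_X, MvPolynomial.aeval_X]
    exact ⟨Cong.mul hE hp.1 (h k) hp.2.2 (hz k), E.mul_mem hp.2.1 (hz k), E.mul_mem hp.2.2 (hy k)⟩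

/-- the constant term with respect to the first variable -/
theorem infty2_const {F : Type} [Field F] [Algebra ℂ F] (a b : F) (q : MvPolynomial (Fin 3) ℂ) :
    MvPolynomial.aeval ![(0 : F), a, b] q =
      MvPolynomial.aeval ![a, b] ((MvPolynomial.finSuccEquiv ℂ 2 q).coeff 0) := by
  have h1 : (MvPolynomial.aeval ![(0 : F), a, b] : MvPolynomial (Fin 3) ℂ →ₐ[ℂ] F).toRingHom =
      (MvPolynomial.aeval ![a, b] : MvPolynomial (Fin 2) ℂ →ₐ[ℂ] F).toRingHom.comp
        (constantCoeff.comp (MvPolynomial.finSuccEquiv ℂ 2 : MvPolynomial (Fin 3) ℂ →+* _)) := by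
    apply MvPolynomial.ringHom_ext
    · intro c
      simp only [AlgHom.toRingHom_eq_coe, RingHom.coe_coe, RingHom.comp_apply,
        MvPolynomial.aeval_C]
      rw [show (MvPolynomial.finSuccEquiv ℂ 2) (MvPolynomial.C c) =
        Polynomial.C (MvPolynomial.C c) by simp [MvPolynomial.finSuccEquiv_apply]]
      simp
    · intro k
      simp only [AlgHom.toRingHom_eq_coe, RingHom.coe_coe, RingHom.comp_apply,
        MvPolynomial.aeval_X]
      refine Fin.cases ?_ (fun k => ?_) k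
      · rw [MvPolynomial.finSuccEquiv_X_zero]
        simp
      · rw [MvPolynomial.finSuccEquiv_X_succ]
        fin_cases k <;> simp
  exact congrArg (fun φ : MvPolynomial (Fin 3) ℂ →+* F => φ q) h1

theorem infty2_const_ne {q : MvPolynomial (Fin 3) ℂ} (hq : ¬ MvPolynomial.X 0 ∣ q) :
    (MvPolynomial.finSuccEquiv ℂ 2 q).coeff 0 ≠ 0 := by
  intro h
  apply hq
  rw [← X_dvd_iff] at h
  obtain ⟨r, hr⟩ := h
  refine ⟨(MvPolynomial.finSuccEquiv ℂ 2).symm r, ?_⟩
  apply (MvPolynomial.finSuccEquiv ℂ 2).injective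
  rw [map_mul, MvPolynomial.finSuccEquiv_X_zero, AlgEquiv.apply_symm_apply]
  exact hr

/-- Every divisorial `E ⊇ K` with `X ∉ E` is `E₃`. Proof: `v(X) < 0` gives
`v(x₃) > 0`, so in `pattern_K` we are in the second case, and `j = 3`. So `ξ = 1/x₀ ∈ 𝔪_E`, `W' ∈ E`,
and `E₃ ≤ E`: a polynomial `q(ξ, W', s)` with `X₀ ∤ q` is congruent to `q(0, w, s)`, a nonzero element of
`K`, so it is a unit in `E`. Now `IsDivisorial.eq_of_le`. -/
theorem eq_E3 {E : Subring L} (hE : IsDivisorial E) (hK : ∀ c, S.i c ∈ E) (hX : S.wX ∉ E) :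
    E = S.E3 := by
  have hw0 : S.w ≠ 0 := S.w_ne_zero
  have hiw : S.i S.w ≠ 0 := (map_ne_zero S.i).2 hw0
  have hvK := fun c => S.vord_K hE hK c
  -- the valuation of `x₃` is positive
  have hX' : ¬ (S.wX = 0 ∨ 0 ≤ vord E S.wX) := fun h => hX ((mem_iff hE).2 h)
  push Not at hX'
  have hx3 : vord E S.wX = -vord E (S.x 3) := by
    unfold wX
    rw [vord_div hE (neg_ne_zero.2 hiw) (S.cluster.ne_zero 3), vord_neg hE, hvK]
    ring
  have hpos : 0 < vord E (S.x 3) := by
    have := hX'.2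
    omega
  obtain ⟨m, hp⟩ : ∃ m, SecPattern E S.x 3 m := by
    rcases S.pattern_K hE hK with h | ⟨j, m, hp⟩
    · rw [h 3] at hpos
      exact absurd hpos (lt_irrefl _)
    · refine ⟨m, ?_⟩
      have hm := hp.pos
      have e1 := hp.v1
      have e2 := hp.v2
      have e3 := hp.v3
      have e4 := hp.v4
      have key : j = 3 := by
        by_contra hne
        have hall : ∀ j : Fin 5, j ≠ 3 → j + 1 = 3 ∨ j + 2 = 3 ∨ j + 3 = 3 ∨ j + 4 = 3 := by
          decide
        have hc := hall j hne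
        rcases hc with h | h | h | h
        · rw [h] at e1; omega
        · rw [h] at e2; omega
        · rw [h] at e3; omega
        · rw [h] at e4; omega
      rw [← key]
      exact hp
  have hm := hp.pos
  have v3 : vord E (S.x 3) = 2 * m := hp.v0
  have v0 : vord E (S.x 0) = -m := hp.v2
  have v1 : vord E (S.x 1) = -m := hp.v3
  have n0 := S.cluster.ne_zero 0
  have n1 := S.cluster.ne_zero 1
  have n3 := S.cluster.ne_zero 3
  have hξv : vord E (S.x 0)⁻¹ = m := by rw [vord_inv hE, v0, neg_neg]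
  have hWv : vord E (S.x 3 * S.x 0 * S.x 1) = 0 := by
    rw [vord_mul hE (mul_ne_zero n3 n0) n1, vord_mul hE n3 n0, v3, v0, v1]
    ring
  have hξ : (S.x 0)⁻¹ ∈ E := (mem_iff hE).2 (Or.inr (by rw [hξv]; exact hm.le))
  have hW : S.x 3 * S.x 0 * S.x 1 ∈ E := (mem_iff hE).2 (Or.inr (by rw [hWv]))
  have hcW : Cong E (S.x 3 * S.x 0 * S.x 1) (S.i S.w) := by
    have h1 := SecPattern.congW hE S.cluster hp
    rw [← S.hw] at h1
    exact Cong.symm hE h1
  have hcξ : Cong E (S.x 0)⁻¹ 0 := Or.inr (by rw [sub_zero, hξv]; exact hm)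
  refine (IsDivisorial.eq_of_le S.E3_isDivisorial hE ?_).symm
  rintro f ⟨p, q, hq, rfl⟩
  have hz : ∀ k, ![(S.x 0)⁻¹, S.x 3 * S.x 0 * S.x 1, S.i S.s] k ∈ E := by
    intro k
    fin_cases k
    · exact hξ
    · exact hW
    · exact hK _
  have hy : ∀ k, ![(0 : L), S.i S.w, S.i S.s] k ∈ E := by
    intro k
    fin_cases k
    · exact E.zero_mem
    · exact hK _
    · exact hK _
  have hc : ∀ k, Cong E (![(S.x 0)⁻¹, S.x 3 * S.x 0 * S.x 1, S.i S.s] k)
      (![(0 : L), S.i S.w, S.i S.s] k) := by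
    intro k
    fin_cases k
    · exact hcξ
    · exact hcW
    · exact Cong.refl _
  have hpE := (infty2_cong hE hz hy hc p).2.1
  obtain ⟨hcq, hqE, -⟩ := infty2_cong hE hz hy hc q
  -- the residue of the denominator
  have hres : MvPolynomial.aeval ![(0 : L), S.i S.w, S.i S.s] q =
      S.i (MvPolynomial.aeval ![S.w, S.s] ((MvPolynomial.finSuccEquiv ℂ 2 q).coeff 0)) := by
    rw [infty2_const]
    generalize (MvPolynomial.finSuccEquiv ℂ 2 q).coeff 0 = r
    induction r using MvPolynomial.induction_on with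
    | C a => rw [MvPolynomial.aeval_C, MvPolynomial.aeval_C, S.hi]
    | add p q hp hq => rw [map_add, map_add, map_add, hp, hq]
    | mul_X p k hp =>
      rw [map_mul, map_mul, map_mul, hp, MvPolynomial.aeval_X, MvPolynomial.aeval_X]
      congr 1
      fin_cases k <;> rfl
  have hne : MvPolynomial.aeval ![S.w, S.s] ((MvPolynomial.finSuccEquiv ℂ 2 q).coeff 0) ≠ 0 :=
    S.hK.aeval_ne_zero (infty2_const_ne hq)
  have hne' : MvPolynomial.aeval ![(0 : L), S.i S.w, S.i S.s] q ≠ 0 := by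
    rw [hres]
    exact (map_ne_zero S.i).2 hne
  have hv0 : vord E (MvPolynomial.aeval ![(0 : L), S.i S.w, S.i S.s] q) = 0 := by
    rw [hres, hvK]
  obtain ⟨hqne, hqv⟩ := Cong.vord_eq hE hcq hne' hv0
  rw [div_eq_mul_inv]
  refine E.mul_mem hpE ((mem_iff hE).2 (Or.inr ?_))
  rw [vord_inv hE, hqv, neg_zero]

end Setup

end Pool.Agent.MP_5c6cc8_ag
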