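import Pool.Agent.MP_5c6cc8_ag.Sect

/-! # Row K4: the zeros of `g` on the generic fibre are simple -/

open MvPolynomial

namespace Pool.Agent.MP_5c6cc8_ag

/-- If two algebraically independent elements are rational functions of `z 0, z 1`, then
`z 0, z 1` are algebraically independent. -/
theorem trans_indep {κ : Type} [Field κ] [Algebra ℂ κ] {z z' : Fin 2 → κ}
    (h : AlgebraicIndependent ℂ z')
    (hz : ∀ i, z' i ∈ IntermediateField.adjoin ℂ (Set.range z)) : AlgebraicIndependent ℂ z := by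
  let y : Fin 2 → IntermediateField.adjoin ℂ (Set.range z) :=
    fun i => ⟨z i, IntermediateField.subset_adjoin _ _ ⟨i, rfl⟩⟩
  let y' : Fin 2 → IntermediateField.adjoin ℂ (Set.range z) := fun i => ⟨z' i, hz i⟩
  have h1 : AlgebraicIndependent ℂ y' :=
    AlgebraicIndependent.of_comp (IntermediateField.adjoin ℂ (Set.range z)).val (x := y') h
  have e : ∀ p : MvPolynomial (Fin 2) ℂ,
      ((aeval y p : IntermediateField.adjoin ℂ (Set.range z)) : κ) = aeval z p := by
    intro p
    exact comp_aeval_apply y (IntermediateField.adjoin ℂ (Set.range z)).val p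
  have h2 : Algebra.IsAlgebraic (Algebra.adjoin ℂ (Set.range y))
      (IntermediateField.adjoin ℂ (Set.range z)) := by
    constructor
    intro m
    obtain ⟨r, s, hrs⟩ := (IntermediateField.mem_adjoin_range_iff ℂ z (m : κ)).1 m.2
    have hm : m = aeval y r / aeval y s := by
      apply Subtype.ext
      rw [hrs, IntermediateField.coe_div, e, e]
    have hmem : ∀ p : MvPolynomial (Fin 2) ℂ, aeval y p ∈ Algebra.adjoin ℂ (Set.range y) := by
      intro p
      rw [Algebra.adjoin_range_eq_range_aeval]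
      exact ⟨p, rfl⟩
    rw [hm, div_eq_mul_inv]
    have k1 : IsAlgebraic (Algebra.adjoin ℂ (Set.range y)) (aeval y r) :=
      isAlgebraic_algebraMap (⟨_, hmem r⟩ : Algebra.adjoin ℂ (Set.range y))
    have k2 : IsAlgebraic (Algebra.adjoin ℂ (Set.range y)) (aeval y s) :=
      isAlgebraic_algebraMap (⟨_, hmem s⟩ : Algebra.adjoin ℂ (Set.range y))
    exact k1.mul k2.inv
  have h3 : Cardinal.mk (Fin 2) ≤ Algebra.trdeg ℂ (IntermediateField.adjoin ℂ (Set.range z)) :=
    h1.cardinalMk_le_trdeg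
  have h4 := Algebra.IsAlgebraic.isTranscendenceBasis_of_le_trdeg_of_finite ℂ y h3
  exact AlgebraicIndependent.map' h4.1
    (f := (IntermediateField.adjoin ℂ (Set.range z)).val) Subtype.val_injective

/-- The elements of the maximal ideal. -/
theorem trans_res {L : Type} [Field L] [Algebra ℂ L] {E : Subring L} (hE : IsDivisorial E)
    [IsDiscreteValuationRing E] {f : L} {hf : f ∈ E} :
    IsLocalRing.residue E ⟨f, hf⟩ = 0 ↔ ¬ (f ≠ 0 ∧ vord E f = 0) := by
  rw [IsLocalRing.residue_eq_zero_iff, IsLocalRing.mem_maximalIdeal, mem_nonunits_iff,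
    not_iff_not, ← isUnitIn_iff hE]
  constructor
  · intro h
    obtain ⟨u, hu⟩ := h
    have h1 : ((u : E) : L) * (((u⁻¹ : Eˣ) : E) : L) = 1 :=
      congrArg (Subtype.val : E → L) (Units.mul_inv u)
    rw [hu] at h1
    have h0 : f ≠ 0 := left_ne_zero_of_mul_eq_one h1
    refine ⟨h0, hf, ?_⟩
    rw [← eq_inv_of_mul_eq_one_right h1]
    exact ((u⁻¹ : Eˣ) : E).2
  · rintro ⟨h0, _, h1⟩
    refine IsUnit.of_mul_eq_one ⟨f⁻¹, h1⟩ ?_
    apply Subtype.ext
    show f * f⁻¹ = 1
    exact mul_inv_cancel₀ h0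

namespace Setup

variable {K L : Type} [Field K] [Algebra ℂ K] [Field L] [Algebra ℂ L] (S : Setup K L)

/-- Let `K ⊆ E` and `v(x_j) = 0` for all `j`. Then `g` and `∑ p_k - 5 p₁` are not both in the
maximal ideal `𝔪` of `E`. Proof: let `κ = E/𝔪`, and `ā, b̄ ∈ κ` the classes of `x₁, x₂`. Suppose
both are in `𝔪`. The classes of the `x_j`, `1 + x_j` (all nonzero) are rational functions of
`ā, b̄` (`x3_eq`, `x4_eq'`, `x0_eq`). From `p₁ = 1 / (1 + a)`, `p₂ = 1 / (1 + b)`,
`p₀ = b / (1 + a + b)`, `p₃ = a / (1 + a + b)`, `p₄ = a b / ((1 + a)(1 + b))` the relation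
`∑ p_k = 5 p₁` gives, after multiplication by `(1 + a)(1 + b)(1 + a + b)`, `P(ā, b̄) = 0` with
`P = b(1+a)(1+b) + (1+a)(1+a+b) + a(1+a)(1+b) + ab(1+a+b) - 4(1+b)(1+a+b)`, and `P(0, 0) = -3 ≠ 0`,
so `ā, b̄` are algebraically dependent over `ℂ` and `ℂ(ā, b̄)` has transcendence degree `≤ 1`.
But `w̄ = (1+ā)(1+b̄)(1+ā+b̄)/(āb̄)` and `s̄ = - F₁(ā, b̄) / F₂(ā, b̄)` (from `g ∈ 𝔪`, `F₂ ∉ 𝔪`) are
in `ℂ(ā, b̄)`, and they are algebraically independent over `ℂ`, because `K → κ` is injective and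
`w, s` are algebraically independent. Contradiction. -/
theorem no_double_zero {E : Subring L} (hE : IsDivisorial E) (hK : ∀ c, S.i c ∈ E)
    (h0 : ∀ j, vord E (S.x j) = 0) (hg : 0 < vord E S.g) :
    (∑ k, pp S.x k) - 5 * pp S.x 1 ≠ 0 ∧ vord E ((∑ k, pp S.x k) - 5 * pp S.x 1) = 0 := by
  have := hE.dvr
  have hmem : ∀ j, S.x j ∈ E := fun j => (mem_iff hE).2 (Or.inr (h0 j).ge)
  have hne := S.cluster.ne_zero
  have hne1 := S.cluster.one_add_ne_zero
  have h1 : ∀ j, vord E (1 + S.x j) = 0 := by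
    intro j
    rw [← S.cluster.rel j, vord_mul hE (hne _) (hne _), h0, h0, add_zero]
  have hp : ∀ j, pp S.x j ∈ E := by
    intro j
    refine (mem_iff hE).2 (Or.inr ?_)
    rw [pp, vord_inv hE, h1, neg_zero]
  have hYmem : (∑ k, pp S.x k) - 5 * pp S.x 1 ∈ E := by
    refine E.sub_mem (E.sum_mem fun k _ => hp k) (E.mul_mem ?_ (hp 1))
    exact_mod_cast natCast_mem E 5
  by_contra hcon
  have hYres : IsLocalRing.residue E ⟨_, hYmem⟩ = 0 := by
    rw [trans_res hE]
    exact hcon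
  have hgmem : S.g ∈ E := (mem_iff hE).2 (Or.inr hg.le)
  have hgres : IsLocalRing.residue E ⟨_, hgmem⟩ = 0 := by
    rw [trans_res hE]
    rintro ⟨-, h2⟩
    rw [h2] at hg
    exact lt_irrefl _ hg
  -- the residue field
  let ρ : K →+* IsLocalRing.ResidueField E :=
    (IsLocalRing.residue E).comp (S.i.codRestrict E hK)
  let _ : Algebra ℂ (IsLocalRing.ResidueField E) := (ρ.comp (algebraMap ℂ K)).toAlgebra
  let ρ' : K →ₐ[ℂ] IsLocalRing.ResidueField E := { ρ with commutes' := fun _ => rfl }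
  have hind : AlgebraicIndependent ℂ (fun k => ρ (![S.w, S.s] k)) :=
    AlgebraicIndependent.map' S.hK.indep (f := ρ') ρ.injective
  -- the elements of `E`
  set A : E := ⟨S.x 1, hmem 1⟩ with hA
  set B : E := ⟨S.x 2, hmem 2⟩ with hB
  set W : E := ⟨S.i S.w, hK S.w⟩ with hW
  set s : E := ⟨S.i S.s, hK S.s⟩ with hs
  set a := IsLocalRing.residue E A with ha
  set b := IsLocalRing.residue E B with hb
  have hρw : ρ S.w = IsLocalRing.residue E W := rfl
  have hρs : ρ S.s = IsLocalRing.residue E s := rfl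
  have ha0 : a ≠ 0 := by
    rw [ha, Ne, trans_res hE, not_not]
    exact ⟨hne 1, h0 1⟩
  have hb0 : b ≠ 0 := by
    rw [hb, Ne, trans_res hE, not_not]
    exact ⟨hne 2, h0 2⟩
  have hc0 : 1 + a + b ≠ 0 := by
    have e1 : S.x 4 * (S.x 1 * S.x 2) = 1 + S.x 1 + S.x 2 := by
      rw [S.x4_eq', div_mul_cancel₀ _ (mul_ne_zero (hne 1) (hne 2))]
    have e2 : (⟨S.x 4, hmem 4⟩ : E) * (A * B) = 1 + A + B := Subtype.ext e1
    have e3 := congrArg (IsLocalRing.residue E) e2
    rw [map_mul, map_mul, map_add, map_add, map_one] at e3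
    rw [← ha, ← hb] at e3
    rw [← e3]
    refine mul_ne_zero ?_ (mul_ne_zero ha0 hb0)
    rw [Ne, trans_res hE, not_not]
    exact ⟨hne 4, h0 4⟩
  -- `w` and `s` are rational functions of `a, b`
  have hw1 : ρ S.w * (a * b) = (1 + a) * (1 + b) * (1 + a + b) := by
    have e2 : W * (A * B) = (1 + A) * (1 + B) * (1 + A + B) := Subtype.ext S.w_eq
    have e3 := congrArg (IsLocalRing.residue E) e2
    simp only [map_mul, map_add, map_one] at e3
    exact e3
  have hs1 : (1 + a) ^ 2 * (1 + b) + ρ S.s * b ^ 3 * (1 + a + b) = 0 := by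
    have e2 : (⟨S.g, hgmem⟩ : E) * (B * (1 + B) ^ 3) =
        A * ((1 + A) ^ 2 * (1 + B) + s * B ^ 3 * (1 + A + B)) := Subtype.ext S.g_eq
    have e3 := congrArg (IsLocalRing.residue E) e2
    rw [map_mul, hgres, zero_mul] at e3
    simp only [map_mul, map_add, map_one, map_pow] at e3
    have e4 := e3.symm
    rw [mul_eq_zero] at e4
    exact e4.resolve_left ha0
  let z : Fin 2 → IsLocalRing.ResidueField E := ![a, b]
  have hma : a ∈ IntermediateField.adjoin ℂ (Set.range z) :=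
    IntermediateField.subset_adjoin _ _ ⟨0, rfl⟩
  have hmb : b ∈ IntermediateField.adjoin ℂ (Set.range z) :=
    IntermediateField.subset_adjoin _ _ ⟨1, rfl⟩
  have hz : ∀ k, ρ (![S.w, S.s] k) ∈ IntermediateField.adjoin ℂ (Set.range z) := by
    intro k
    fin_cases k
    · have e1 : ρ S.w = (1 + a) * (1 + b) * (1 + a + b) / (a * b) := by
        rw [eq_div_iff (mul_ne_zero ha0 hb0), hw1]
      show ρ S.w ∈ _
      rw [e1]
      refine div_mem (mul_mem (mul_mem ?_ ?_) ?_) (mul_mem hma hmb)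
      · exact add_mem (one_mem _) hma
      · exact add_mem (one_mem _) hmb
      · exact add_mem (add_mem (one_mem _) hma) hmb
    · have e1 : ρ S.s = -((1 + a) ^ 2 * (1 + b)) / (b ^ 3 * (1 + a + b)) := by
        rw [eq_div_iff (mul_ne_zero (pow_ne_zero 3 hb0) hc0)]
        linear_combination hs1
      show ρ S.s ∈ _
      rw [e1]
      refine div_mem (neg_mem (mul_mem (pow_mem ?_ 2) ?_)) (mul_mem (pow_mem hmb 3) ?_)
      · exact add_mem (one_mem _) hma
      · exact add_mem (one_mem _) hmb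
      · exact add_mem (add_mem (one_mem _) hma) hmb
  have hindz : AlgebraicIndependent ℂ z := trans_indep hind hz
  -- the relation
  have hrel : b * (1 + a) * (1 + b) + (1 + a) * (1 + a + b) + a * (1 + a) * (1 + b) +
      a * b * (1 + a + b) - 4 * (1 + b) * (1 + a + b) = 0 := by
    have e1 : S.x 2 * (1 + S.x 1) * (1 + S.x 2) + (1 + S.x 1) * (1 + S.x 1 + S.x 2) +
        S.x 1 * (1 + S.x 1) * (1 + S.x 2) + S.x 1 * S.x 2 * (1 + S.x 1 + S.x 2) -
        4 * (1 + S.x 2) * (1 + S.x 1 + S.x 2) = ((1 + S.x 1) * (1 + S.x 2) *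
        (1 + S.x 1 + S.x 2)) * ((∑ k, pp S.x k) - 5 * pp S.x 1) := by
      have n1 := hne 1
      have n2 := hne 2
      have n3 := hne1 1
      have n4 := hne1 2
      have n5 : 1 + S.x 1 + S.x 2 ≠ 0 := by
        intro h
        apply hne 4
        rw [S.x4_eq', h, zero_div]
      have q0 : pp S.x 0 = S.x 2 / (1 + S.x 1 + S.x 2) := by
        rw [pp, S.x0_eq]
        have : 1 + (1 + S.x 1) / S.x 2 = (1 + S.x 1 + S.x 2) / S.x 2 := by
          field_simp
          ring
        rw [this, inv_div]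
      have q3 : pp S.x 3 = S.x 1 / (1 + S.x 1 + S.x 2) := by
        rw [pp, S.x3_eq]
        have : 1 + (1 + S.x 2) / S.x 1 = (1 + S.x 1 + S.x 2) / S.x 1 := by
          field_simp
          ring
        rw [this, inv_div]
      have q4 : pp S.x 4 = S.x 1 * S.x 2 / ((1 + S.x 1) * (1 + S.x 2)) := by
        rw [pp, S.x4_eq']
        have : 1 + (1 + S.x 1 + S.x 2) / (S.x 1 * S.x 2) =
            ((1 + S.x 1) * (1 + S.x 2)) / (S.x 1 * S.x 2) := by
          field_simp
          ring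
        rw [this, inv_div]
      rw [Fin.sum_univ_five, q0, q3, q4, pp, pp]
      field_simp
      ring
    have e2 : B * (1 + A) * (1 + B) + (1 + A) * (1 + A + B) + A * (1 + A) * (1 + B) +
        A * B * (1 + A + B) - 4 * (1 + B) * (1 + A + B) = ((1 + A) * (1 + B) *
        (1 + A + B)) * (⟨(∑ k, pp S.x k) - 5 * pp S.x 1, hYmem⟩ : E) := Subtype.ext e1
    have e3 := congrArg (IsLocalRing.residue E) e2
    rw [map_mul, hYres, mul_zero] at e3
    simp only [map_mul, map_add, map_one, map_sub, map_ofNat] at e3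
    exact e3
  let P : MvPolynomial (Fin 2) ℂ := X 1 * (1 + X 0) * (1 + X 1) + (1 + X 0) * (1 + X 0 + X 1) +
      X 0 * (1 + X 0) * (1 + X 1) + X 0 * X 1 * (1 + X 0 + X 1) -
      4 * (1 + X 1) * (1 + X 0 + X 1)
  have hP : aeval z P = 0 := by
    simp only [P, map_mul, map_add, map_one, map_sub, map_ofNat, aeval_X]
    exact hrel
  have hP0 := (injective_iff_map_eq_zero _).1 hindz P hP
  have hP1 := congrArg (eval (fun _ => (0 : ℂ))) hP0
  simp only [P, map_mul, map_add, map_one, map_sub, map_ofNat, eval_X, map_zero] at hP1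
  norm_num at hP1

end Setup

end Pool.Agent.MP_5c6cc8_ag
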