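import Pool.Agent.MP_5c6cc8_ag.Upper
import Pool.Agent.MP_5c6cc8_ag.Infty
import Pool.Agent.MP_5c6cc8_ag.Trans

/-! # Row Gen1: (i), sub-lc over the generic point -/

open Polynomial

namespace Pool.Agent.MP_5c6cc8_ag

namespace Setup

variable {K L : Type} [Field K] [Algebra ℂ K] [Field L] [Algebra ℂ L] (S : Setup K L)

/-- `ω_regular` and `ω_upper` if `X ∈ E`, and `eq_E3`, `hasFormOrd_E3` otherwise. -/
theorem hasFormOrd_generic {E : Subring L} (hE : IsDivisorial E) (hK : ∀ c, S.i c ∈ E) :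
    HasFormOrd E S.ω 0 := by
  by_cases hX : S.wX ∈ E
  · exact ⟨S.ω_regular hE hK, fun k hk => S.ω_upper hE hK hX hk⟩
  · rw [S.eq_E3 hE hK hX]
    exact S.hasFormOrd_E3

theorem gen1_pp {E : Subring L} (hE : IsDivisorial E) (h0 : ∀ j, vord E (S.x j) = 0)
    (k : Fin 5) : vord E (pp S.x k) = 0 := by
  have hn := S.cluster.ne_zero
  rw [pp, ← S.cluster.rel k, vord_inv hE, vord_mul hE (hn _) (hn _), h0, h0]
  rfl

/-- `v(g) ≤ 1` at all `E ⊇ K`: at the sections `vord_g_section`; if `v(x_j) = 0` for all `j` and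
`v(g) > 0`, then `J = w (F₁ (∑ p - 5 p₁) + g (5 (p₁ + p₄) - 2 ∑ p))` (as `s F₂ = g - F₁`) has
valuation `0` by `no_double_zero` (`v(p_k) = 0`, `p_k = 1 / (x_{k-1} x_{k+1})`), so `ω = J⁻¹ ds ∧ dg ∧ dw` (`T_g_w`) and
`formOrdGE_smul_T` gives `v(g) - 1 ≤ 0`. -/
theorem vord_g_le {E : Subring L} (hE : IsDivisorial E) (hK : ∀ c, S.i c ∈ E) :
    vord E S.g ≤ 1 := by
  have hn := S.cluster.ne_zero
  rcases S.pattern_K hE hK with h0 | ⟨j, m, hp⟩
  · by_contra hcon
    push Not at hcon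
    obtain ⟨hD0, hD⟩ := S.no_double_zero hE hK h0 (by omega)
    have hF1 : vord E S.F1 = 0 := by
      unfold Setup.F1
      rw [vord_div hE (mul_ne_zero (pow_ne_zero _ (hn _)) (hn _))
        (mul_ne_zero (pow_ne_zero _ (hn _)) (hn _)), vord_mul hE (pow_ne_zero _ (hn _)) (hn _),
        vord_mul hE (pow_ne_zero _ (hn _)) (hn _), vord_pow hE, vord_pow hE, h0, h0, h0, h0]
      norm_num
    have hpp : ∀ k, pp S.x k ∈ E := fun k => (mem_iff hE).2 (Or.inr (S.gen1_pp hE h0 k).ge)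
    have hR : 5 * (pp S.x 1 + pp S.x 4) - 2 * ∑ k, pp S.x k ∈ E := by
      have h5 : (5 : L) ∈ E := by
        have := algebraMap_mem hE 5
        simpa using this
      have h2 : (2 : L) ∈ E := by
        have := algebraMap_mem hE 2
        simpa using this
      exact E.sub_mem (E.mul_mem h5 (E.add_mem (hpp _) (hpp _)))
        (E.mul_mem h2 (E.sum_mem fun k _ => hpp k))
    obtain ⟨R, hRdef⟩ : ∃ R : L, R = 5 * (pp S.x 1 + pp S.x 4) - 2 * ∑ k, pp S.x k := ⟨_, rfl⟩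
    obtain ⟨D, hDdef⟩ : ∃ D : L, D = (∑ k, pp S.x k) - 5 * pp S.x 1 := ⟨_, rfl⟩
    rw [← hRdef] at hR
    rw [← hDdef] at hD0 hD
    have hJ : S.J = S.i S.w * (S.F1 * D + S.g * R) := by
      have h1 : S.i S.s * S.F2 = S.g - S.F1 := by unfold Setup.g; ring
      unfold Setup.J
      rw [h1, hDdef, hRdef]
      ring
    have hw0 : S.i S.w ≠ 0 := (map_ne_zero S.i).2 S.w_ne_zero
    have hs0 : S.i S.s ≠ 0 := (map_ne_zero S.i).2 S.s_ne_zero
    have hFD : vord E (S.F1 * D) = 0 := by rw [vord_mul hE S.F1_ne_zero hD0, hF1, hD, add_zero]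
    have hgR : S.g * R = 0 ∨ vord E (S.F1 * D) < vord E (S.g * R) := by
      rcases (mem_iff hE).1 hR with h | h
      · left; rw [h, mul_zero]
      · by_cases hR0 : R = 0
        · left; rw [hR0, mul_zero]
        · right
          rw [hFD, vord_mul hE S.g_ne_zero hR0]
          omega
    obtain ⟨hsum0, hsum⟩ := vord_add_eq hE (mul_ne_zero S.F1_ne_zero hD0) hgR
    have hJ0 : S.J ≠ 0 := by rw [hJ]; exact mul_ne_zero hw0 hsum0
    have hJv : vord E S.J = 0 := by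
      rw [hJ, vord_mul hE hw0 hsum0, hsum, hFD, S.vord_K hE hK, add_zero]
    have hω : S.ω = S.J⁻¹ • T (S.i S.s) S.g (S.i S.w) := by
      rw [S.T_g_w, smul_smul, inv_mul_cancel₀ hJ0, one_smul]
    have h1 := formOrdGE_smul_T hE (inv_ne_zero hJ0) hs0 S.g_ne_zero hw0
    rw [← hω, vord_inv hE, hJv, S.vord_K hE hK, S.vord_K hE hK] at h1
    have h2 := (S.hasFormOrd_generic hE hK).2 _ h1
    omega
  · rw [S.vord_g_section hE hK hp]
    have := hp.pos
    split_ifs <;> omega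

/-- The log discrepancy is `1 - v(g) / 5`. -/
theorem hasLogDisc_generic {E : Subring L} (hE : IsDivisorial E) (hK : ∀ c, S.i c ∈ E) :
    HasLogDisc S.ω S.φ 5 E (1 - vord E S.g / 5) := by
  refine ⟨0, -vord E S.g, S.hasFormOrd_generic hE hK, (hasOrd_iff hE).2 ⟨?_, ?_⟩, ?_⟩
  · exact inv_ne_zero S.g_ne_zero
  · exact vord_inv hE _
  · push_cast; ring

theorem sub_lc {E : Subring L} (hE : IsDivisorial E) (hK : ∀ c, S.i c ∈ E) :
    ∃ a, HasLogDisc S.ω S.φ 5 E a ∧ 0 ≤ a := by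
  refine ⟨_, S.hasLogDisc_generic hE hK, ?_⟩
  have h1 := S.vord_g_le hE hK
  have h2 : (vord E S.g : ℚ) ≤ 1 := by exact_mod_cast h1
  linarith

end Setup

end Pool.Agent.MP_5c6cc8_ag
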