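import Pool.Agent.MP_5c6cc8_ag.Forms

/-! # Row K5: the order of `g` at the sections, over the generic point of `Y` -/

open MvPolynomial

namespace Pool.Agent.MP_5c6cc8_ag

/-- `f` is congruent to the unit `c`. -/
structure SectUC {L : Type} [Field L] [Algebra ℂ L] (E : Subring L) (f c : L) : Prop where
  cong : Cong E f c
  ne : c ≠ 0
  v : vord E c = 0

namespace SectUC

variable {L : Type} [Field L] [Algebra ℂ L] {E : Subring L} {f c f' c' : L}

theorem mem_c (hE : IsDivisorial E) (h : SectUC E f c) : c ∈ E :=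
  (mem_iff hE).2 (Or.inr h.v.ge)

theorem mem (hE : IsDivisorial E) (h : SectUC E f c) : f ∈ E :=
  h.cong.mem hE (h.mem_c hE)

theorem mul (hE : IsDivisorial E) (h : SectUC E f c) (h' : SectUC E f' c') :
    SectUC E (f * f') (c * c') :=
  ⟨h.cong.mul hE h'.cong (h.mem_c hE) (h'.mem hE), mul_ne_zero h.ne h'.ne, by
    rw [vord_mul hE h.ne h'.ne, h.v, h'.v, add_zero]⟩

theorem inv (hE : IsDivisorial E) (h : SectUC E f c) : SectUC E f⁻¹ c⁻¹ :=
  ⟨h.cong.inv hE h.ne h.v, inv_ne_zero h.ne, by rw [vord_inv hE, h.v, neg_zero]⟩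

theorem pow (hE : IsDivisorial E) (h : SectUC E f c) (n : ℕ) : SectUC E (f ^ n) (c ^ n) := by
  induction n with
  | zero => exact ⟨by rw [pow_zero, pow_zero]; exact Cong.refl _, by simp, by
      rw [pow_zero, vord_one hE]⟩
  | succ n ih => rw [pow_succ, pow_succ]; exact ih.mul hE h

end SectUC

namespace Setup

variable {K L : Type} [Field K] [Algebra ℂ K] [Field L] [Algebra ℂ L] (S : Setup K L)

/-- If `K ⊆ E` then `v(c) = 0` for all `c ∈ Kˣ`. -/
theorem vord_K {E : Subring L} (hE : IsDivisorial E) (hK : ∀ c, S.i c ∈ E) (c : K) :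
    vord E (S.i c) = 0 := by
  by_cases hc : c = 0
  · rw [hc, map_zero, vord_zero]
  · have h1 : S.i c ≠ 0 := (map_ne_zero S.i).2 hc
    have h2 := (mem_iff hE).1 (hK c)
    have h3 := (mem_iff hE).1 (hK c⁻¹)
    rw [map_inv₀, vord_inv hE] at h3
    have h4 : (S.i c)⁻¹ ≠ 0 := inv_ne_zero h1
    rcases h2 with h2 | h2
    · exact absurd h2 h1
    rcases h3 with h3 | h3
    · exact absurd h3 h4
    omega

/-- For `K ⊆ E` the conditions of `pattern` hold, so there are the two cases. -/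
theorem pattern_K {E : Subring L} (hE : IsDivisorial E) (hK : ∀ c, S.i c ∈ E) :
    (∀ j, vord E (S.x j) = 0) ∨ ∃ j m, SecPattern E S.x j m := by
  refine pattern hE S.cluster ?_
  rw [← S.hw]
  exact S.vord_K hE hK _

theorem sect_UC_K {E : Subring L} (hE : IsDivisorial E) (hK : ∀ c, S.i c ∈ E) {c : K}
    (hc : c ≠ 0) : SectUC E (S.i c) (S.i c) :=
  ⟨Cong.refl _, (map_ne_zero S.i).2 hc, S.vord_K hE hK c⟩

theorem sect_neg_one {E : Subring L} (hE : IsDivisorial E) {f : L} (h : Cong E f (-1)) :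
    SectUC E f (-1) :=
  ⟨h, by simp, by rw [vord_neg hE, vord_one hE]⟩

theorem sect_ne (p : MvPolynomial (Fin 2) ℂ) (v : Fin 2 → ℂ) (hv : eval v p ≠ 0) :
    aeval ![S.w, S.s] p ≠ 0 :=
  S.hK.aeval_ne_zero (by rintro rfl; simp at hv)

theorem sect_sum {E : Subring L} (hE : IsDivisorial E) (hK : ∀ c, S.i c ∈ E) {P Q : L} {p q : K}
    (hP : SectUC E P (S.i p)) (hQ : SectUC E Q (S.i q)) (hne : p + S.s * q ≠ 0) :
    P + S.i S.s * Q ≠ 0 ∧ vord E (P + S.i S.s * Q) = 0 := by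
  have hs := S.sect_UC_K hE hK S.s_ne_zero
  have h1 : Cong E (P + S.i S.s * Q) (S.i p + S.i S.s * S.i q) :=
    hP.cong.add hE (hs.mul hE hQ).cong
  rw [← map_mul, ← map_add] at h1
  exact h1.vord_eq hE ((map_ne_zero S.i).2 hne) (S.vord_K hE hK _)

/-- At the sections. Write `W' = x_j x_{j+2} x_{j+3}`; by `SecPattern.congW` we have `W' ≡ w`.
* `j = 0`: `v(F₁) = 5m > 0`, `v(F₂) = 0`, `v(s) = 0`, so `v(g) = 0`.
* `j = 2`: `v(F₁) = 0`, `v(F₂) = 5m > 0`, so `v(g) = 0`.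
* `j = 1`: `F₁ = x₀² x₂ (x₄ / x₃) / W' ≡ 1 / w` and `F₂ = x₂³ (x₄ / x₃)² / W' ≡ - 1 / w` where
  `W' = x₁ x₃ x₄`, using `x₀ ≡ x₂ ≡ x₄ / x₃ ≡ -1`. So `g ≡ (1 - s) / w`, a nonzero element of `K`.
* `j = 4`: `F₁ = (x₀² / x₃²) (x₂ / x₁) ≡ - 1` and `F₂ = (x₂ / x₁)² W' / x₃³ ≡ - w`, where
  `W' = x₄ x₁ x₂` and `x₀ ≡ x₃ ≡ x₂ / x₁ ≡ -1`. So `g ≡ - 1 - s w`.
* `j = 3`: `F₁ x₀⁻⁵ = x₂ (x₁ / x₀) / W'² ≡ w⁻²`, `F₂ x₀⁻⁵ = x₂³ x₄ (x₁ / x₀)² / W'³ ≡ w⁻³`
  with `W' = x₃ x₀ x₁`, `x₄ ≡ x₂ ≡ x₁ / x₀ ≡ -1`. So `g x₀⁻⁵ ≡ w⁻² + s w⁻³ ≠ 0`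
  and `v(g) = 5 v(x₀) = - 5m`. -/
theorem vord_g_section {E : Subring L} (hE : IsDivisorial E) (hK : ∀ c, S.i c ∈ E) {j : Fin 5}
    {m : ℤ} (hp : SecPattern E S.x j m) : vord E S.g = if j = 3 then -5 * m else 0 := by
  have hn := S.cluster.ne_zero
  have hA := sect_neg_one hE (hp.cong1 hE S.cluster)
  have hB := sect_neg_one hE (hp.cong4 hE S.cluster)
  have hC := sect_neg_one hE (hp.cong3 hE S.cluster)
  have hW : SectUC E (S.x j * S.x (j + 2) * S.x (j + 3)) (S.i S.w) := by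
    refine ⟨?_, (map_ne_zero S.i).2 S.w_ne_zero, S.vord_K hE hK _⟩
    have := (hp.congW hE S.cluster).symm hE
    rwa [← S.hw] at this
  have hF1 : vord E S.F1 = 2 * vord E (S.x 0) + vord E (S.x 2) -
      (2 * vord E (S.x 3) + vord E (S.x 1)) := by
    unfold Setup.F1
    rw [vord_div hE (mul_ne_zero (pow_ne_zero _ (hn _)) (hn _))
      (mul_ne_zero (pow_ne_zero _ (hn _)) (hn _)), vord_mul hE (pow_ne_zero _ (hn _)) (hn _),
      vord_mul hE (pow_ne_zero _ (hn _)) (hn _), vord_pow hE, vord_pow hE]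
    norm_num
  have hF2 : vord E S.F2 = 3 * vord E (S.x 2) + vord E (S.x 4) -
      (vord E (S.x 1) + 3 * vord E (S.x 3)) := by
    unfold Setup.F2
    rw [vord_div hE (mul_ne_zero (pow_ne_zero _ (hn _)) (hn _))
      (mul_ne_zero (hn _) (pow_ne_zero _ (hn _))), vord_mul hE (pow_ne_zero _ (hn _)) (hn _),
      vord_mul hE (hn _) (pow_ne_zero _ (hn _)), vord_pow hE, vord_pow hE]
    norm_num
  have hs0 : S.i S.s ≠ 0 := (map_ne_zero S.i).2 S.s_ne_zero
  have hsF2 : vord E (S.i S.s * S.F2) = vord E S.F2 := by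
    rw [vord_mul hE hs0 S.F2_ne_zero, S.vord_K hE hK, zero_add]
  have hw0 := S.w_ne_zero
  have hpos := hp.pos
  fin_cases j
  · -- j = 0
    have v0 : vord E (S.x 0) = 2 * m := hp.v0
    have v1 : vord E (S.x 1) = 0 := hp.v1
    have v2 : vord E (S.x 2) = -m := hp.v2
    have v3 : vord E (S.x 3) = -m := hp.v3
    have v4 : vord E (S.x 4) = 0 := hp.v4
    have h := (vord_add_eq hE (g := S.i S.s * S.F2) (h := S.F1) (mul_ne_zero hs0 S.F2_ne_zero)
      (Or.inr (by rw [hsF2, hF1, hF2]; omega))).2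
    rw [add_comm, hsF2, hF2] at h
    show vord E (S.F1 + S.i S.s * S.F2) = if (0 : Fin 5) = 3 then -5 * m else 0
    rw [h, if_neg (by decide)]
    omega
  · -- j = 1
    have hA' : SectUC E (S.x 2) (-1) := hA
    have hB' : SectUC E (S.x 0) (-1) := hB
    have hC' : SectUC E (S.x 4 / S.x 3) (-1) := hC
    have hW' : SectUC E (S.x 1 * S.x 3 * S.x 4) (S.i S.w) := hW
    have hP : SectUC E S.F1 (S.i (S.w⁻¹)) := by
      have h := (((hB'.pow hE 2).mul hE hA').mul hE hC').mul hE (hW'.inv hE)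
      have e1 : S.x 0 ^ 2 * S.x 2 * (S.x 4 / S.x 3) * (S.x 1 * S.x 3 * S.x 4)⁻¹ = S.F1 := by
        have := hn 0; have := hn 1; have := hn 2; have := hn 3; have := hn 4
        unfold Setup.F1
        field_simp
      have e2 : (-1 : L) ^ 2 * -1 * -1 * (S.i S.w)⁻¹ = S.i (S.w⁻¹) := by
        rw [map_inv₀]; ring
      rwa [e1, e2] at h
    have hQ : SectUC E S.F2 (S.i (-S.w⁻¹)) := by
      have h := ((hA'.pow hE 3).mul hE (hC'.pow hE 2)).mul hE (hW'.inv hE)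
      have e1 : S.x 2 ^ 3 * (S.x 4 / S.x 3) ^ 2 * (S.x 1 * S.x 3 * S.x 4)⁻¹ = S.F2 := by
        have := hn 0; have := hn 1; have := hn 2; have := hn 3; have := hn 4
        unfold Setup.F2
        field_simp
      have e2 : (-1 : L) ^ 3 * (-1) ^ 2 * (S.i S.w)⁻¹ = S.i (-S.w⁻¹) := by
        rw [map_neg, map_inv₀]; ring
      rwa [e1, e2] at h
    have hne : S.w⁻¹ + S.s * (-S.w⁻¹) ≠ 0 := by
      have h1 := S.sect_ne (1 - X 1) 0 (by simp)
      simp only [map_sub, map_one, aeval_X] at h1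
      have h2 : S.w⁻¹ + S.s * (-S.w⁻¹) = (1 - S.s) * S.w⁻¹ := by ring
      rw [h2]
      exact mul_ne_zero h1 (inv_ne_zero hw0)
    show vord E (S.F1 + S.i S.s * S.F2) = if (1 : Fin 5) = 3 then -5 * m else 0
    rw [if_neg (by decide)]
    exact (S.sect_sum hE hK hP hQ hne).2
  · -- j = 2
    have v0 : vord E (S.x 2) = 2 * m := hp.v0
    have v1 : vord E (S.x 3) = 0 := hp.v1
    have v2 : vord E (S.x 4) = -m := hp.v2
    have v3 : vord E (S.x 0) = -m := hp.v3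
    have v4 : vord E (S.x 1) = 0 := hp.v4
    have h := (vord_add_eq hE (g := S.F1) (h := S.i S.s * S.F2) S.F1_ne_zero
      (Or.inr (by rw [hsF2, hF1, hF2]; omega))).2
    rw [hF1] at h
    show vord E (S.F1 + S.i S.s * S.F2) = if (2 : Fin 5) = 3 then -5 * m else 0
    rw [h, if_neg (by decide)]
    omega
  · -- j = 3
    have hA' : SectUC E (S.x 4) (-1) := hA
    have hB' : SectUC E (S.x 2) (-1) := hB
    have hC' : SectUC E (S.x 1 / S.x 0) (-1) := hC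
    have hW' : SectUC E (S.x 3 * S.x 0 * S.x 1) (S.i S.w) := hW
    have v2 : vord E (S.x 0) = -m := hp.v2
    have hP : SectUC E (S.F1 * (S.x 0 ^ 5)⁻¹) (S.i ((S.w ^ 2)⁻¹)) := by
      have h := (hB'.mul hE hC').mul hE ((hW'.pow hE 2).inv hE)
      have e1 : S.x 2 * (S.x 1 / S.x 0) * ((S.x 3 * S.x 0 * S.x 1) ^ 2)⁻¹ =
          S.F1 * (S.x 0 ^ 5)⁻¹ := by
        have := hn 0; have := hn 1; have := hn 2; have := hn 3; have := hn 4
        unfold Setup.F1
        field_simp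
      have e2 : (-1 : L) * -1 * (S.i S.w ^ 2)⁻¹ = S.i ((S.w ^ 2)⁻¹) := by
        rw [map_inv₀, map_pow]; ring
      rwa [e1, e2] at h
    have hQ : SectUC E (S.F2 * (S.x 0 ^ 5)⁻¹) (S.i ((S.w ^ 3)⁻¹)) := by
      have h := (((hB'.pow hE 3).mul hE hA').mul hE (hC'.pow hE 2)).mul hE ((hW'.pow hE 3).inv hE)
      have e1 : S.x 2 ^ 3 * S.x 4 * (S.x 1 / S.x 0) ^ 2 * ((S.x 3 * S.x 0 * S.x 1) ^ 3)⁻¹ =
          S.F2 * (S.x 0 ^ 5)⁻¹ := by
        have := hn 0; have := hn 1; have := hn 2; have := hn 3; have := hn 4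
        unfold Setup.F2
        field_simp
      have e2 : (-1 : L) ^ 3 * -1 * (-1) ^ 2 * (S.i S.w ^ 3)⁻¹ = S.i ((S.w ^ 3)⁻¹) := by
        rw [map_inv₀, map_pow]; ring
      rwa [e1, e2] at h
    have hne : (S.w ^ 2)⁻¹ + S.s * (S.w ^ 3)⁻¹ ≠ 0 := by
      have h1 := S.sect_ne (X 0 + X 1) ![1, 0] (by simp)
      simp only [map_add, aeval_X] at h1
      have h2 : (S.w ^ 2)⁻¹ + S.s * (S.w ^ 3)⁻¹ = (S.w + S.s) * (S.w ^ 3)⁻¹ := by
        field_simp
      rw [h2]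
      exact mul_ne_zero h1 (inv_ne_zero (pow_ne_zero _ hw0))
    obtain ⟨h3, h4⟩ := S.sect_sum hE hK hP hQ hne
    have h5 : S.F1 * (S.x 0 ^ 5)⁻¹ + S.i S.s * (S.F2 * (S.x 0 ^ 5)⁻¹) =
        S.g * (S.x 0 ^ 5)⁻¹ := by
      unfold Setup.g; ring
    rw [h5, vord_mul hE S.g_ne_zero (inv_ne_zero (pow_ne_zero _ (hn _))), vord_inv hE,
      vord_pow hE, v2] at h4
    show vord E S.g = if (3 : Fin 5) = 3 then -5 * m else 0
    rw [if_pos rfl]
    push_cast at h4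
    omega
  · -- j = 4
    have hA' : SectUC E (S.x 0) (-1) := hA
    have hB' : SectUC E (S.x 3) (-1) := hB
    have hC' : SectUC E (S.x 2 / S.x 1) (-1) := hC
    have hW' : SectUC E (S.x 4 * S.x 1 * S.x 2) (S.i S.w) := hW
    have hP : SectUC E S.F1 (S.i (-1)) := by
      have h := ((hA'.pow hE 2).mul hE ((hB'.pow hE 2).inv hE)).mul hE hC'
      have e1 : S.x 0 ^ 2 * (S.x 3 ^ 2)⁻¹ * (S.x 2 / S.x 1) = S.F1 := by
        have := hn 0; have := hn 1; have := hn 2; have := hn 3; have := hn 4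
        unfold Setup.F1
        field_simp
      have e2 : (-1 : L) ^ 2 * ((-1) ^ 2)⁻¹ * -1 = S.i (-1) := by
        rw [map_neg, map_one]; norm_num
      rwa [e1, e2] at h
    have hQ : SectUC E S.F2 (S.i (-S.w)) := by
      have h := ((hC'.pow hE 2).mul hE hW').mul hE ((hB'.pow hE 3).inv hE)
      have e1 : (S.x 2 / S.x 1) ^ 2 * (S.x 4 * S.x 1 * S.x 2) * (S.x 3 ^ 3)⁻¹ = S.F2 := by
        have := hn 0; have := hn 1; have := hn 2; have := hn 3; have := hn 4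
        unfold Setup.F2
        field_simp
      have e2 : (-1 : L) ^ 2 * S.i S.w * ((-1) ^ 3)⁻¹ = S.i (-S.w) := by
        rw [map_neg]
        have : ((-1 : L) ^ 3)⁻¹ = -1 := by
          rw [show (-1 : L) ^ 3 = -1 by ring, inv_neg, inv_one]
        rw [this]; ring
      rwa [e1, e2] at h
    have hne : -1 + S.s * (-S.w) ≠ 0 := by
      have h1 := S.sect_ne (1 + X 1 * X 0) 0 (by simp)
      simp only [map_add, map_one, map_mul, aeval_X] at h1
      have h1' : 1 + S.s * S.w ≠ 0 := h1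
      have h2 : -1 + S.s * (-S.w) = -(1 + S.s * S.w) := by ring
      rw [h2]
      exact neg_ne_zero.2 h1'
    show vord E (S.F1 + S.i S.s * S.F2) = if (4 : Fin 5) = 3 then -5 * m else 0
    rw [if_neg (by decide)]
    exact (S.sect_sum hE hK hP hQ hne).2

/-- `ω` is regular at all `E ⊇ K`: in the first case of `pattern_K` use
`ω = (x₁ x₂)⁻¹ ds ∧ dx₁ ∧ dx₂`, in the second one `ω_section`, with `formOrdGE_smul_T_of_mem`. -/
theorem ω_regular {E : Subring L} (hE : IsDivisorial E) (hK : ∀ c, S.i c ∈ E) :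
    FormOrdGE E S.ω 0 := by
  have hn := S.cluster.ne_zero
  rcases S.pattern_K hE hK with h | ⟨j, m, hp⟩
  · have h1 := formOrdGE_smul_T_of_mem hE (c := (S.x 1 * S.x 2)⁻¹) (f := S.i S.s) (g := S.x 1)
      (h := S.x 2) (inv_ne_zero (mul_ne_zero (hn _) (hn _))) (hK _)
      ((mem_iff hE).2 (Or.inr (h 1).ge)) ((mem_iff hE).2 (Or.inr (h 2).ge))
    rw [vord_inv hE, vord_mul hE (hn _) (hn _), h, h, add_zero, neg_zero] at h1
    exact h1
  · have hpos := hp.pos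
    have v0 := hp.v0
    have v2 := hp.v2
    have v3 := hp.v3
    rw [S.ω_section j]
    have h1 := formOrdGE_smul_T_of_mem hE (c := -(S.x (j + 2) / S.x (j + 3))) (f := S.i S.s)
      (g := (S.x (j + 2))⁻¹) (h := S.x j * S.x (j + 2) * S.x (j + 3))
      (neg_ne_zero.2 (div_ne_zero (hn _) (hn _))) (hK _)
      ((mem_iff hE).2 (Or.inr (by rw [vord_inv hE, v2]; omega)))
      ((mem_iff hE).2 (Or.inr (by
        rw [vord_mul hE (mul_ne_zero (hn _) (hn _)) (hn _), vord_mul hE (hn _) (hn _), v0, v2, v3]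
        omega)))
    rw [vord_neg hE, vord_div hE (hn _) (hn _), v2, v3, sub_self] at h1
    exact h1

end Setup

end Pool.Agent.MP_5c6cc8_ag
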