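import Pool.Agent.MP_5c6cc8_ag.Weier
import Pool.Agent.MP_5c6cc8_ag.Sect

/-! # Row Infty1: the section `S₃` at infinity -/

open Polynomial

namespace Pool.Agent.MP_5c6cc8_ag

namespace Setup

variable {K L : Type} [Field K] [Algebra ℂ K] [Field L] [Algebra ℂ L] (S : Setup K L)

/-! ### Helper lemmas -/

theorem infty1_W : S.x 3 * S.x 0 * S.x 1 = 1 + S.x 0 + S.x 1 := W_eq S.cluster 3

theorem infty1_x2 : S.x 0 * S.x 2 = 1 + S.x 1 := S.cluster.rel 1

theorem infty1_x4 : S.x 3 * S.x 0 = 1 + S.x 4 := S.cluster.rel 4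

/-- The coordinates `ξ = 1 / x₀`, `W' = x₃ x₀ x₁ = 1 + x₀ + x₁`, `s` of `L` (`IsCoord.change`:
`x₀ = 1/ξ`, `x₁ = W' - 1 - x₀`, `x₂ = (1 + x₁) / x₀`). -/
theorem hE3 : IsCoord ![(S.x 0)⁻¹, S.x 3 * S.x 0 * S.x 1, S.i S.s] := by
  refine S.hL.change ?_
  set A := IntermediateField.adjoin ℂ
    (Set.range ![(S.x 0)⁻¹, S.x 3 * S.x 0 * S.x 1, S.i S.s]) with hA
  have hz : ∀ j, ![(S.x 0)⁻¹, S.x 3 * S.x 0 * S.x 1, S.i S.s] j ∈ A := fun j =>
    IntermediateField.subset_adjoin ℂ _ ⟨j, rfl⟩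
  have h0 : S.x 0 ∈ A := by
    have h := A.inv_mem (hz 0)
    change (S.x 0)⁻¹⁻¹ ∈ A at h
    rwa [inv_inv] at h
  have h1 : S.x 1 ∈ A := by
    have h : S.x 3 * S.x 0 * S.x 1 ∈ A := hz 1
    have e : S.x 1 = S.x 3 * S.x 0 * S.x 1 - 1 - S.x 0 := by
      rw [S.infty1_W]
      ring
    rw [e]
    exact A.sub_mem (A.sub_mem h A.one_mem) h0
  have h2 : S.x 2 ∈ A := by
    have e : S.x 2 = (1 + S.x 1) / S.x 0 := by
      rw [← S.infty1_x2, mul_div_cancel_left₀ _ (S.cluster.ne_zero 0)]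
    rw [e]
    exact A.div_mem (A.add_mem A.one_mem h1) h0
  intro j
  fin_cases j
  · exact h1
  · exact h2
  · exact hz 2

/-- The divisor `S₃`. -/
noncomputable def E3 : Subring L := divX S.hE3

theorem E3_isDivisorial : IsDivisorial S.E3 := divX_isDivisorial _

theorem infty1_aevalX (j : Fin 3) :
    MvPolynomial.aeval ![(S.x 0)⁻¹, S.x 3 * S.x 0 * S.x 1, S.i S.s]
      (MvPolynomial.X j : MvPolynomial (Fin 3) ℂ) =
      ![(S.x 0)⁻¹, S.x 3 * S.x 0 * S.x 1, S.i S.s] j := MvPolynomial.aeval_X _ j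

/-- the polynomial `D = ξ (W' - 1) - 1` -/
noncomputable def infty1_D : MvPolynomial (Fin 3) ℂ :=
  MvPolynomial.X 0 * (MvPolynomial.X 1 - 1) - 1

theorem infty1_aevalD :
    MvPolynomial.aeval ![(S.x 0)⁻¹, S.x 3 * S.x 0 * S.x 1, S.i S.s] infty1_D =
      (S.x 0)⁻¹ * S.x 1 := by
  unfold infty1_D
  rw [map_sub, map_mul, map_sub, map_one, infty1_aevalX, infty1_aevalX]
  change (S.x 0)⁻¹ * (S.x 3 * S.x 0 * S.x 1 - 1) - 1 = _
  rw [S.infty1_W]
  have h := S.cluster.ne_zero 0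
  field_simp
  ring

theorem infty1_evalD : MvPolynomial.eval (0 : Fin 3 → ℂ) infty1_D ≠ 0 := by
  unfold infty1_D
  simp

theorem infty1_v0 : vord S.E3 (S.x 0) = -1 := by
  refine (vord_divX S.hE3 (m := -1) 1 1 0 0 rfl rfl (by simp) (by simp) ?_).2
  rw [map_one, mul_one, mul_one]
  change S.x 0 = (S.x 0)⁻¹ ^ (-1 : ℤ)
  rw [zpow_neg_one, inv_inv]

theorem infty1_v1 : vord S.E3 (S.x 1) = -1 := by
  refine (vord_divX S.hE3 (m := -1) infty1_D 1 0 0 rfl rfl infty1_evalD (by simp) ?_).2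
  rw [map_one, mul_one, infty1_aevalD]
  change S.x 1 = (S.x 0)⁻¹ ^ (-1 : ℤ) * _
  rw [zpow_neg_one, inv_inv, ← mul_assoc, mul_inv_cancel₀ (S.cluster.ne_zero 0), one_mul]

theorem infty1_v2 : vord S.E3 (S.x 2) = 0 := by
  refine (vord_divX S.hE3 (m := 0) (MvPolynomial.X 0 * MvPolynomial.X 1 - 1) 1 0 0 rfl rfl
    (by simp) (by simp) ?_).2
  rw [map_one, mul_one, map_sub, map_mul, map_one, infty1_aevalX, infty1_aevalX, zpow_zero,
    one_mul]
  change S.x 2 = (S.x 0)⁻¹ * (S.x 3 * S.x 0 * S.x 1) - 1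
  rw [S.infty1_W]
  have h := S.cluster.ne_zero 0
  field_simp
  linear_combination S.infty1_x2

theorem infty1_v3 : vord S.E3 (S.x 3) = 2 := by
  refine (vord_divX S.hE3 (m := 2) (MvPolynomial.X 1) infty1_D ![0, 1, 0] 0 rfl rfl
    (by simp) infty1_evalD ?_).2
  rw [infty1_aevalD, infty1_aevalX]
  change S.x 3 * ((S.x 0)⁻¹ * S.x 1) = (S.x 0)⁻¹ ^ (2 : ℤ) * (S.x 3 * S.x 0 * S.x 1)
  have h := S.cluster.ne_zero 0
  rw [show (S.x 0)⁻¹ ^ (2 : ℤ) = (S.x 0)⁻¹ ^ 2 from by norm_cast]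
  field_simp

theorem infty1_v4 : vord S.E3 (S.x 4) = 0 := by
  refine (vord_divX S.hE3 (m := 0) (MvPolynomial.X 0 + 1) infty1_D 0 0 rfl rfl
    (by simp) infty1_evalD ?_).2
  rw [infty1_aevalD, map_add, map_one, infty1_aevalX, zpow_zero, one_mul]
  change S.x 4 * ((S.x 0)⁻¹ * S.x 1) = (S.x 0)⁻¹ + 1
  have h := S.cluster.ne_zero 0
  have h1 := S.infty1_x4
  have h2 := S.infty1_W
  field_simp
  linear_combination h2 - S.x 1 * h1

/-- `x₀ = 1 / ξ`, `x₁ = D / ξ` with `D = ξ (W' - 1) - 1`, `x₃ = ξ² W' / D`, `x₄ = (ξ + 1) / D`,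
`x₂ = ξ W' - 1`. -/
theorem E3_pattern : SecPattern S.E3 S.x 3 1 :=
  ⟨one_pos, S.infty1_v3, S.infty1_v4, S.infty1_v0, S.infty1_v1, S.infty1_v2⟩

theorem infty1_not_dvd {p : MvPolynomial (Fin 2) ℂ} (hp : p ≠ 0) :
    ¬ (MvPolynomial.X 0 : MvPolynomial (Fin 3) ℂ) ∣ MvPolynomial.rename Fin.succ p := by
  rintro ⟨r, hr⟩
  apply hp
  have h1 := congrArg (MvPolynomial.aeval
    (Fin.cons 0 MvPolynomial.X : Fin 3 → MvPolynomial (Fin 2) ℂ)) hr
  rw [map_mul, MvPolynomial.aeval_X, Fin.cons_zero, zero_mul, MvPolynomial.aeval_rename] at h1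
  have h2 : (Fin.cons 0 MvPolynomial.X : Fin 3 → MvPolynomial (Fin 2) ℂ) ∘ Fin.succ =
      MvPolynomial.X := by
    funext j
    exact Fin.cons_succ _ _ _
  rw [h2, MvPolynomial.aeval_X_left] at h1
  exact h1

theorem infty1_aeval_rename (p : MvPolynomial (Fin 2) ℂ) :
    MvPolynomial.aeval ![(S.x 0)⁻¹, S.x 3 * S.x 0 * S.x 1, S.i S.s]
      (MvPolynomial.rename Fin.succ p) =
      MvPolynomial.aeval ![S.x 3 * S.x 0 * S.x 1, S.i S.s] p := by
  rw [MvPolynomial.aeval_rename]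
  congr 1

theorem infty1_mem (p : MvPolynomial (Fin 2) ℂ) :
    MvPolynomial.aeval ![S.x 3 * S.x 0 * S.x 1, S.i S.s] p ∈ S.E3 := by
  rw [← S.infty1_aeval_rename]
  exact aeval_mem_chartRing S.hE3 (prime_X0 2) _

theorem infty1_congW : Cong S.E3 (S.i S.w) (S.x 3 * S.x 0 * S.x 1) := by
  have h := SecPattern.congW S.E3_isDivisorial S.cluster S.E3_pattern
  rw [← S.hw] at h
  exact h

theorem infty1_cong (p : MvPolynomial (Fin 2) ℂ) :
    Cong S.E3 (MvPolynomial.aeval ![S.i S.w, S.i S.s] p)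
      (MvPolynomial.aeval ![S.x 3 * S.x 0 * S.x 1, S.i S.s] p) := by
  have hE := S.E3_isDivisorial
  have hW : S.x 3 * S.x 0 * S.x 1 ∈ S.E3 := by
    have h := S.infty1_mem (MvPolynomial.X 0)
    rwa [MvPolynomial.aeval_X] at h
  have hs : S.i S.s ∈ S.E3 := by
    have h := S.infty1_mem (MvPolynomial.X 1)
    rwa [MvPolynomial.aeval_X] at h
  induction p using MvPolynomial.induction_on with
  | C a =>
    rw [MvPolynomial.aeval_C, MvPolynomial.aeval_C]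
    exact Cong.refl _
  | add p q hp hq =>
    rw [map_add, map_add]
    exact Cong.add hE hp hq
  | mul_X p j hp =>
    rw [map_mul, map_mul, MvPolynomial.aeval_X, MvPolynomial.aeval_X]
    refine Cong.mul hE hp ?_ (S.infty1_mem p) ?_
    · fin_cases j
      · exact S.infty1_congW
      · exact Cong.refl _
    · fin_cases j
      · exact Cong.mem hE S.infty1_congW hW
      · exact hs

theorem infty1_unit {p : MvPolynomial (Fin 2) ℂ} (hp : p ≠ 0) :
    MvPolynomial.aeval ![S.i S.w, S.i S.s] p ≠ 0 ∧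
      vord S.E3 (MvPolynomial.aeval ![S.i S.w, S.i S.s] p) = 0 := by
  have hE := S.E3_isDivisorial
  refine Cong.vord_eq hE (S.infty1_cong p) ?_ ?_
  · rw [← S.infty1_aeval_rename]
    refine S.hE3.aeval_ne_zero ?_
    intro h0
    apply infty1_not_dvd hp
    rw [h0]
    exact dvd_zero _
  · rw [← S.infty1_aeval_rename]
    exact vord_chart_aeval S.hE3 (prime_X0 2) (infty1_not_dvd hp)

theorem infty1_map (p : MvPolynomial (Fin 2) ℂ) :
    S.i (MvPolynomial.aeval ![S.w, S.s] p) = MvPolynomial.aeval ![S.i S.w, S.i S.s] p := by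
  induction p using MvPolynomial.induction_on with
  | C a => rw [MvPolynomial.aeval_C, MvPolynomial.aeval_C, S.hi]
  | add p q hp hq => rw [map_add, map_add, map_add, hp, hq]
  | mul_X p j hp =>
    rw [map_mul, map_mul, map_mul, MvPolynomial.aeval_X, MvPolynomial.aeval_X, hp]
    congr 1
    fin_cases j <;> rfl

/-- `K ⊆ E₃`: for a nonzero polynomial `p`, `p(w, s) ≡ p(W', s)` by `SecPattern.congW`, and
`p(W', s)` is a unit in `E₃` (`vord_chart_aeval`). -/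
theorem K_le_E3 (c : K) : S.i c ∈ S.E3 := by
  have hE := S.E3_isDivisorial
  obtain ⟨p, q, hq, rfl⟩ := S.hK.exists_div c
  by_cases hp : p = 0
  · rw [hp, map_zero, zero_div, map_zero]
    exact zero_mem _
  · rw [map_div₀, S.infty1_map, S.infty1_map]
    obtain ⟨hp1, hp2⟩ := S.infty1_unit hp
    obtain ⟨hq1, hq2⟩ := S.infty1_unit hq
    rw [mem_iff hE]
    right
    rw [vord_div hE hp1 hq1, hp2, hq2, sub_zero]

theorem infty1_iw_ne : S.i S.w ≠ 0 := (map_ne_zero S.i).2 S.w_ne_zero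

theorem infty1_iw : vord S.E3 (S.i S.w) = 0 := S.vord_K S.E3_isDivisorial S.K_le_E3 S.w

theorem infty1_wX_ne : S.wX ≠ 0 :=
  div_ne_zero (neg_ne_zero.2 S.infty1_iw_ne) (S.cluster.ne_zero 3)

/-- `v(X) = -2`, as `X = - w / x₃`, `v(w) = 0`. -/
theorem vord_E3_wX : vord S.E3 S.wX = -2 := by
  have hE := S.E3_isDivisorial
  unfold wX
  rw [vord_div hE (neg_ne_zero.2 S.infty1_iw_ne) (S.cluster.ne_zero 3), vord_neg hE,
    S.infty1_iw, S.infty1_v3]
  norm_num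

/-- `v(η) = -3`, as `η = 2 y + (1 - w) X - w`, `y = - x₀² x₁ x₂² x₄²`. -/
theorem vord_E3_wη : vord S.E3 S.wη = -3 := by
  have hE := S.E3_isDivisorial
  have hx := S.cluster.ne_zero
  have hch : CharZero L := charZero_of_injective_algebraMap (algebraMap ℂ L).injective
  have hy0 : S.x 0 ^ 2 * S.x 1 * S.x 2 ^ 2 * S.x 4 ^ 2 ≠ 0 :=
    mul_ne_zero (mul_ne_zero (mul_ne_zero (pow_ne_zero 2 (hx 0)) (hx 1)) (pow_ne_zero 2 (hx 2)))
      (pow_ne_zero 2 (hx 4))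
  have hy : vord S.E3 S.wy = -3 := by
    unfold wy
    rw [vord_neg hE, vord_mul hE (mul_ne_zero (mul_ne_zero (pow_ne_zero 2 (hx 0)) (hx 1))
      (pow_ne_zero 2 (hx 2))) (pow_ne_zero 2 (hx 4)),
      vord_mul hE (mul_ne_zero (pow_ne_zero 2 (hx 0)) (hx 1)) (pow_ne_zero 2 (hx 2)),
      vord_mul hE (pow_ne_zero 2 (hx 0)) (hx 1), vord_pow hE, vord_pow hE, vord_pow hE,
      S.infty1_v0, S.infty1_v1, S.infty1_v2, S.infty1_v4]
    norm_num
  have hy1 : S.wy ≠ 0 := neg_ne_zero.2 hy0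
  have h2 : (2 : L) ≠ 0 := two_ne_zero
  have h2v : vord S.E3 (2 : L) = 0 := by
    have h := vord_const hE (2 : ℂ)
    rwa [map_ofNat] at h
  have h2y : vord S.E3 (2 * S.wy) = -3 := by
    rw [vord_mul hE h2 hy1, h2v, hy, zero_add]
  have hsmall : (1 - S.i S.w) * S.wX = 0 ∨ vord S.E3 ((1 - S.i S.w) * S.wX) = -2 := by
    by_cases h : 1 - S.i S.w = 0
    · left
      rw [h, zero_mul]
    · right
      have h3 : vord S.E3 (1 - S.i S.w) = 0 := by
        have e : 1 - S.i S.w = S.i (1 - S.w) := by rw [map_sub, map_one]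
        rw [e]
        exact S.vord_K hE S.K_le_E3 _
      rw [vord_mul hE h S.infty1_wX_ne, h3, S.vord_E3_wX, zero_add]
  have hw : -(S.i S.w) ≠ 0 := neg_ne_zero.2 S.infty1_iw_ne
  have hwv : vord S.E3 (-(S.i S.w)) = 0 := by rw [vord_neg hE, S.infty1_iw]
  have hrest : (1 - S.i S.w) * S.wX + -(S.i S.w) = 0 ∨
      -3 < vord S.E3 ((1 - S.i S.w) * S.wX + -(S.i S.w)) := by
    by_cases h0 : (1 - S.i S.w) * S.wX + -(S.i S.w) = 0
    · exact Or.inl h0
    · right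
      by_cases h3 : (1 - S.i S.w) * S.wX = 0
      · rw [h3, zero_add, hwv]
        norm_num
      · have h4 := vord_add hE h3 hw h0
        rw [hsmall.resolve_left h3, hwv] at h4
        have h5 : min (-2 : ℤ) 0 = -2 := by norm_num
        rw [h5] at h4
        linarith
  have h6 := vord_add_eq hE (g := 2 * S.wy) (h := (1 - S.i S.w) * S.wX + -(S.i S.w))
    (mul_ne_zero h2 hy1) (by rw [h2y]; exact hrest)
  have e : S.wη = 2 * S.wy + ((1 - S.i S.w) * S.wX + -(S.i S.w)) := by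
    unfold wη
    ring
  rw [e, h6.2, h2y]

/-- `ord ω = 0` at `E₃`: use `ω_section` with `j = 3` and `hasFormOrd_chart` (the form
`ds ∧ dξ ∧ dW'` is `wedge ![ξ, W', s]`, a cyclic permutation). -/
theorem hasFormOrd_E3 : HasFormOrd S.E3 S.ω 0 := by
  have hE := S.E3_isDivisorial
  have h1 : S.ω = (-(S.x 0 / S.x 1)) • T (S.i S.s) (S.x 0)⁻¹ (S.x 3 * S.x 0 * S.x 1) :=
    S.ω_section 3
  have h2 : T (S.i S.s) (S.x 0)⁻¹ (S.x 3 * S.x 0 * S.x 1) =
      wedge ![(S.x 0)⁻¹, S.x 3 * S.x 0 * S.x 1, S.i S.s] := by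
    rw [T_swap12, T_swap23, neg_neg]
    rfl
  have hc : -(S.x 0 / S.x 1) ≠ 0 :=
    neg_ne_zero.2 (div_ne_zero (S.cluster.ne_zero 0) (S.cluster.ne_zero 1))
  have hv : vord S.E3 (-(S.x 0 / S.x 1)) = 0 := by
    rw [vord_neg hE, vord_div hE (S.cluster.ne_zero 0) (S.cluster.ne_zero 1), S.infty1_v0,
      S.infty1_v1, sub_self]
  have h3 := hasFormOrd_chart S.hE3 (prime_X0 2) hc
  rw [h1, h2, ← hv]
  exact h3

end Setup

end Pool.Agent.MP_5c6cc8_ag
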