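import Pool.Agent.MP_5c6cc8_ag.Final

/-! # The fibration is klt-trivial -/

open AlgebraicGeometry CategoryTheory

namespace Pool.Agent.MP_5c6cc8_ag

/-- `(X, Δ)` is sub-klt over the generic point of `Y`, i.e. `f` is a klt-trivial fibration. -/
def LCTrivialFibration.IsKlt {d r : ℕ} (F : LCTrivialFibration d r) : Prop :=
  ∀ E : Subring F.X.K, IsDivisorial E → (∀ c, F.f.pull c ∈ E) →
    ∃ a, HasLogDisc F.ω F.φ r E a ∧ 0 < a

theorem Setup.klt {K L : Type} [Field K] [Algebra ℂ K] [Field L] [Algebra ℂ L] (S : Setup K L)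
    {E : Subring L} (hE : IsDivisorial E) (hK : ∀ c, S.i c ∈ E) :
    ∃ a, HasLogDisc S.ω S.φ 5 E a ∧ 0 < a := by
  refine ⟨_, S.hasLogDisc_generic hE hK, ?_⟩
  have h1 := S.vord_g_le hE hK
  have h2 : (vord E S.g : ℚ) ≤ 1 := by exact_mod_cast h1
  linarith

theorem isKlt_fib (X Y : Variety) (f : Surjection X Y) (S : Setup Y.K X.K) (hS : S.i = f.pull) :
    (fib X Y f S hS).IsKlt := by
  intro E hE hK
  have hK' : ∀ c, S.i c ∈ E := by
    rw [hS]
    exact hK
  exact S.klt hE hK'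

/-- The example of `main` is klt-trivial. -/
theorem main_klt : ∃ F : LCTrivialFibration 1 5, F.IsKlt ∧
    ∀ ω' : Form F.Y.K F.n, FormOf.IsNonzero ω' → ∀ I : ℕ, 0 < I → IsEmpty (GoodModel F ω' I) := by
  obtain ⟨X, Y, f, S, hS⟩ := exists_fields
  exact ⟨fib X Y f S hS, isKlt_fib X Y f S hS,
    fun ω' hω' I hI => no_good_model X Y f S hS ω' hω' I hI⟩

end Pool.Agent.MP_5c6cc8_ag
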