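import Pool.Agent.MP_5c6cc8_ag.Defs
import Pool.Agent.MP_4d8271_ag.Glob2

/-! # Row Model1: the projective variety `Proj (⨁ Vⁿ Tⁿ)` -/

open AlgebraicGeometry CategoryTheory CategoryTheory.Limits
open Pool.Agent.MP_4d8271_ag (PX toK chartA Dc secGr secAlg el isIntegral_PX ne_bot_of_one_mem)

namespace Pool.Agent.MP_5c6cc8_ag

variable {F : Type} [Field F] [Algebra ℂ F]

/-- The structure morphism. -/
noncomputable def strPX (V : Submodule ℂ F) : PX V ⟶ Spec (CommRingCat.of ℂ) :=
  Proj.toSpecZero (secGr V) ≫ Spec.map (CommRingCat.ofHom (algebraMap ℂ (secGr V 0)))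

instance isIntegral_PX' {V : Submodule ℂ F} [h : Fact ((1 : F) ∈ V)] : IsIntegral (PX V) :=
  isIntegral_PX (ne_bot_of_one_mem h.out)

theorem model1_comp {X : Scheme.{0}} {R A : CommRingCat.{0}} (f : X ⟶ Spec A) (φ : R ⟶ A) :
    (Scheme.ΓSpecIso R).inv ≫ (f ≫ Spec.map φ).appTop = φ ≫ (Scheme.ΓSpecIso A).inv ≫ f.appTop := by
  rw [Scheme.Hom.comp_appTop, ← Category.assoc, ← Category.assoc]
  congr 1
  exact (Scheme.ΓSpecIso_inv_naturality _).symm

theorem model1_toK {k K : Type} [Field k] [Field K] [Algebra k K] {V : Submodule k K}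
    [IsIntegral (PX V)] (h1 : (1 : K) ∈ V) (c : k) :
    toK h1 (((Scheme.ΓSpecIso (CommRingCat.of k)).inv ≫ (Proj.toSpecZero (secGr V) ≫
      Spec.map (CommRingCat.ofHom (algebraMap k (secGr V 0)))).appTop ≫
        (PX V).presheaf.germ ⊤ (genericPoint (PX V)) trivial).hom c) = algebraMap k K c := by
  have h3 : ((Scheme.ΓSpecIso (CommRingCat.of k)).inv ≫ (Proj.toSpecZero (secGr V) ≫
      Spec.map (CommRingCat.ofHom (algebraMap k (secGr V 0)))).appTop).hom c =
      (MP_4d8271_ag.sig V).hom (MP_4d8271_ag.toZero V c) := by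
    rw [model1_comp]
    rfl
  have h4 := MP_4d8271_ag.glob_sig h1 (MP_4d8271_ag.toZero V c)
  rw [MP_4d8271_ag.ev_toZero, ← h3] at h4
  exact h4

theorem model1_projective (V : Submodule ℂ F) [Module.Finite ℂ V] :
    ∃ (n : ℕ) (i : PX V ⟶ ProjSpace n), IsClosedImmersion i ∧ i ≫ ProjSpace.str n = strPX V := by
  obtain ⟨n, b, hb⟩ := Module.Finite.exists_fin (R := ℂ) (M := V)
  let g : Fin (n + 1) → V := Fin.cons 0 b
  have hg : Submodule.span ℂ (Set.range g) = ⊤ := by
    rw [eq_top_iff, ← hb, Submodule.span_le]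
    rintro _ ⟨i, rfl⟩
    exact Submodule.subset_span ⟨i.succ, rfl⟩
  have hgen : Algebra.adjoin ℂ (Set.range fun j => el (g j : F) (g j).2) = ⊤ := by
    have h0 : ∀ x : ℂ, (MP_4d8271_ag.toZero V x : secAlg V) ∈
        (Algebra.adjoin ℂ (Set.range fun j => el (g j : F) (g j).2)).toSubring := by
      intro x
      exact Subalgebra.algebraMap_mem _ x
    have h1 := MP_4d8271_ag.eq_top_of_mem _ h0 (MP_4d8271_ag.el_mem_subring _ h0 g hg fun j =>
      Algebra.subset_adjoin ⟨j, rfl⟩)
    rw [eq_top_iff]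
    intro x _
    have h2 : x ∈ (⊤ : Subring (secAlg V)) := Subring.mem_top x
    rw [← h1] at h2
    exact h2
  exact ⟨n, MP_4d8271_ag.exists_closedImmersion_projSpace (CommRingCat.of ℂ) (secGr V) n
    (fun j => el (g j : F) (g j).2) (fun j => MP_4d8271_ag.el_mem _ _) hgen⟩

/-- `PX V` as a normal projective variety. For `projective` see the proof of
`isProjectiveVariety_PX` in `MP_4d8271_ag/Glob2.lean` and `exists_closedImmersion_projSpace` in
`MP_4d8271_ag/PieceC.lean`, with `k = CommRingCat.of ℂ` (`ProjSpace n` here and `ProjSpace k n` there are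
the same by definition). -/
noncomputable def mkVar (V : Submodule ℂ F) [Fact ((1 : F) ∈ V)] [Module.Finite ℂ V]
    (hn : ∀ x : PX V, IsIntegrallyClosed ((PX V).presheaf.stalk x)) : Variety where
  X := PX V
  str := strPX V
  isIntegral := inferInstance
  normal := hn
  projective := model1_projective V

section

variable (V : Submodule ℂ F) [h1 : Fact ((1 : F) ∈ V)] [Module.Finite ℂ V]
  (hn : ∀ x : PX V, IsIntegrallyClosed ((PX V).presheaf.stalk x))

/-- The embedding of the function field into `F`. -/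
noncomputable def toF : (mkVar V hn).K →+* F := toK h1.out

theorem toF_algebraMap (c : ℂ) : toF V hn (algebraMap ℂ _ c) = algebraMap ℂ F c :=
  model1_toK h1.out c

/-- The image of `toF` is the field generated by `V` (`exists_toK_eq` in
`MP_4d8271_ag/Assembly.lean`, or `exists_evAway_eq`, `toK_germ`). -/
theorem range_toF : (toF V hn).fieldRange =
    (IntermediateField.adjoin ℂ (V : Set F)).toSubfield := by
  have key : ∀ v ∈ V, ∃ u : (mkVar V hn).K, toF V hn u = v := by
    intro v hv
    have hv' : v ∈ chartA V 1 := Algebra.subset_adjoin ⟨v, hv, by rw [div_one]⟩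
    have := MP_4d8271_ag.nonempty_Dc h1.out h1.out one_ne_zero
    have hf0 : MP_4d8271_ag.ev V (el 1 h1.out) ≠ 0 := by simp
    obtain ⟨a, ha⟩ := MP_4d8271_ag.exists_evAway_eq h1.out one_ne_zero hf0 hv'
    refine ⟨(PX V).germToFunctionField (Dc 1 h1.out)
        ((Proj.awayToSection (secGr V) (el 1 h1.out)).hom a), ?_⟩
    have h2 := MP_4d8271_ag.toK_germ h1.out (el 1 h1.out) (MP_4d8271_ag.el_mem 1 h1.out) hf0 a
    rw [ha] at h2
    exact h2
  have hle : (chartA V 1 : Set F) ⊆ IntermediateField.adjoin ℂ (V : Set F) := by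
    have h2 : chartA V 1 ≤ (IntermediateField.adjoin ℂ (V : Set F)).toSubalgebra := by
      refine Algebra.adjoin_le ?_
      rintro _ ⟨a, ha, rfl⟩
      rw [div_one]
      exact IntermediateField.subset_adjoin ℂ _ ha
    exact h2
  apply le_antisymm
  · rintro _ ⟨u, rfl⟩
    have hne := MP_4d8271_ag.nonempty_Dc h1.out h1.out one_ne_zero
    have := functionField_isFractionRing_of_isAffineOpen (X := PX V) (Dc 1 h1.out)
      (MP_4d8271_ag.isAffineOpen_Dc 1 h1.out)
    obtain ⟨s, t, hst⟩ := IsFractionRing.div_surjective (A := Γ(PX V, Dc 1 h1.out))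
      (K := (PX V).functionField) u
    have hs := hle (MP_4d8271_ag.germ_mem_chartF h1.out h1.out one_ne_zero s)
    have ht := hle (MP_4d8271_ag.germ_mem_chartF h1.out h1.out one_ne_zero t)
    have h2 : toF V hn u = toK h1.out ((PX V).germToFunctionField (Dc 1 h1.out) s) /
        toK h1.out ((PX V).germToFunctionField (Dc 1 h1.out) t) := by
      rw [← map_div₀]
      exact congrArg (toK h1.out) hst.2.symm
    rw [h2]
    exact div_mem hs ht
  · have h3 : ∀ x : ℂ, algebraMap ℂ F x ∈ (toF V hn).fieldRange :=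
      fun x => ⟨algebraMap ℂ _ x, toF_algebraMap V hn x⟩
    have h4 : IntermediateField.adjoin ℂ (V : Set F) ≤
        (toF V hn).fieldRange.toIntermediateField h3 := by
      rw [IntermediateField.adjoin_le_iff]
      intro v hv
      exact key v hv
    exact h4

end

end Pool.Agent.MP_5c6cc8_ag
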