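import Pool.Agent.MP_5c6cc8_ag.Model

open AlgebraicGeometry CategoryTheory CategoryTheory.Limits
open Pool.Agent.MP_4d8271_ag (PX toK chartA Dc secGr secAlg el secEquiv secToK secToK_awayToSection
  toK_germ el_mem ev_el nonempty_Dc isAffineOpen_Dc toK_injective exists_evAway_eq sig
  toSpecZero_eq glob glob_sig ev_toZero toZero secToK_mem_chartA ev)

universe u

namespace Pool.Agent.MP_5c6cc8_ag

section
variable {F : Type} [Field F] [Algebra ℂ F] {V : Submodule ℂ F} [h1 : Fact ((1 : F) ∈ V)]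

theorem toK_germ_secEquiv {c : F} (hcV : c ∈ V) (hc : c ≠ 0)
    (hx : genericPoint (PX V) ∈ Dc c hcV) (s : Γ(PX V, Dc c hcV)) :
    toK h1.out ((PX V).presheaf.germ (Dc c hcV) (genericPoint (PX V)) hx s) =
      (secEquiv hcV hc s : F) := by
  have hne := nonempty_Dc h1.out hcV hc
  have hf0 : ev V (el c hcV) ≠ 0 := by simpa using hc
  obtain ⟨a, rfl⟩ : ∃ a, (Proj.awayToSection (secGr V) (el c hcV)).hom a = s := by
    refine ⟨(Proj.basicOpenIsoAway (secGr V) (el c hcV) (el_mem c hcV) one_pos).inv.hom s, ?_⟩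
    rw [← Proj.basicOpenIsoAway_hom (secGr V) (el c hcV) (el_mem c hcV) one_pos]
    exact (Proj.basicOpenIsoAway (secGr V) (el c hcV) (el_mem c hcV) one_pos).inv_hom_id_apply s
  have h2 := toK_germ h1.out (el c hcV) (el_mem c hcV) hf0 a
  have h3 := secToK_awayToSection (el c hcV) one_pos (el_mem c hcV) hf0 a
  refine Eq.trans ?_ (h2.trans h3.symm)
  rfl

theorem generic_mem_Dc {c : F} (hcV : c ∈ V) (hc : c ≠ 0) :
    genericPoint (PX V) ∈ Dc c hcV := by
  obtain ⟨⟨x, hx⟩⟩ := nonempty_Dc h1.out hcV hc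
  exact (genericPoint_specializes x).mem_open (Dc c hcV).2 hx

/-- The structure morphism at the generic point. -/
theorem fromSpecStalk_strPX :
    (PX V).fromSpecStalk (genericPoint (PX V)) ≫ strPX V =
      Spec.map (CommRingCat.ofHom (algebraMap ℂ (secGr V 0)) ≫ sig V ≫
        (PX V).presheaf.germ ⊤ (genericPoint (PX V)) trivial) := by
  rw [strPX, toSpecZero_eq, Category.assoc, Scheme.fromSpecStalk_toSpecΓ_assoc,
    ← Spec.map_comp, ← Spec.map_comp, Category.assoc]

theorem toK_str (c : ℂ) :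
    toK h1.out (((PX V).presheaf.germ ⊤ (genericPoint (PX V)) trivial).hom
      ((sig V).hom (algebraMap ℂ (secGr V 0) c))) = algebraMap ℂ F c := by
  have h := glob_sig h1.out (algebraMap ℂ (secGr V 0) c)
  have h2 : ev V ((algebraMap ℂ (secGr V 0) c : secGr V 0) : secAlg V) = algebraMap ℂ F c :=
    ev_toZero c
  rw [h2] at h
  exact h

end

theorem morph_general {X X' : Scheme.{u}} [IsIntegral X] [IsIntegral X'] [X'.IsSeparated]
    {ι : Type} (U : ι → X.Opens) (hU : ⨆ i, U i = ⊤) (hne : ∀ i, genericPoint X ∈ U i)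
    (U' : ι → X'.Opens) (hU' : ∀ i, IsAffineOpen (U' i)) (hne' : ∀ i, genericPoint X' ∈ U' i)
    (κ : X'.functionField ⟶ X.functionField) (ρ : ∀ i, Γ(X', U' i) ⟶ Γ(X, U i))
    (hρ : ∀ i, ρ i ≫ X.presheaf.germ (U i) (genericPoint X) (hne i) =
      X'.presheaf.germ (U' i) (genericPoint X') (hne' i) ≫ κ) [Nonempty ι] :
    ∃ f : X ⟶ X', X.fromSpecStalk (genericPoint X) ≫ f =
      Spec.map κ ≫ X'.fromSpecStalk (genericPoint X') := by
  classical
  let G : ι → X.PartialMap X' := fun i =>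
    { domain := U i
      dense_domain := (U i).2.dense ⟨_, hne i⟩
      hom := (U i).toSpecΓ ≫ Spec.map (ρ i) ≫ (hU' i).fromSpec }
  have hG : ∀ i, (G i).fromFunctionField = Spec.map κ ≫ X'.fromSpecStalk (genericPoint X') := by
    intro i
    change (U i).fromSpecStalkOfMem (genericPoint X) (hne i) ≫
      (U i).toSpecΓ ≫ Spec.map (ρ i) ≫ (hU' i).fromSpec = _
    rw [Scheme.Opens.fromSpecStalkOfMem_toSpecΓ_assoc, ← Spec.map_comp_assoc, hρ i,
      Spec.map_comp_assoc, ← (hU' i).fromSpecStalk_eq_fromSpecStalk (hne' i)]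
    rfl
  obtain ⟨i0⟩ := ‹Nonempty ι›
  let r : X.RationalMap X' := (G i0).toRationalMap
  have hr : ∀ i, (G i).toRationalMap = r := fun i =>
    Scheme.RationalMap.eq_of_fromFunctionField_eq _ _ (by
      rw [Scheme.RationalMap.fromFunctionField_toRationalMap,
        Scheme.RationalMap.fromFunctionField_toRationalMap, hG, hG])
  have hdom : r.domain = ⊤ := by
    rw [eq_top_iff, ← hU]
    refine iSup_le fun i => ?_
    rw [← hr i]
    exact (G i).le_domain_toRationalMap
  let F := r.toPartialMap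
  have hF : F.domain = ⊤ := hdom
  let f : X ⟶ X' := X.topIso.inv ≫ (X.isoOfEq hF.symm).hom ≫ F.hom
  have hf : f.toPartialMap = F := by
    ext1
    · exact hF.symm
    · exact Iso.hom_inv_id_assoc X.topIso ((X.isoOfEq hF.symm).hom ≫ F.hom)
  refine ⟨f, ?_⟩
  have h1 := Scheme.PartialMap.fromSpecStalkOfMem_toPartialMap f (genericPoint X)
  rw [← h1]
  have h2 : f.toPartialMap.toRationalMap = r := by
    rw [hf]
    exact Scheme.RationalMap.toRationalMap_toPartialMap r
  have h3 : f.toPartialMap.toRationalMap.fromFunctionField = r.fromFunctionField := by rw [h2]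
  rw [Scheme.RationalMap.fromFunctionField_toRationalMap] at h3
  have h4 : r.fromFunctionField = (G i0).fromFunctionField :=
    Scheme.RationalMap.fromFunctionField_toRationalMap _
  rw [h4, hG] at h3
  exact h3

theorem morph_generic {X X' : Scheme.{u}} [IsIntegral X] [IsIntegral X']
    (κ : X'.functionField ⟶ X.functionField) (f : X ⟶ X')
    (hf : X.fromSpecStalk (genericPoint X) ≫ f =
      Spec.map κ ≫ X'.fromSpecStalk (genericPoint X')) :
    ∃ hg : f (genericPoint X) = genericPoint X',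
      X'.presheaf.stalkSpecializes (Inseparable.of_eq hg).specializes ≫
            f.stalkMap (genericPoint X) = κ := by
  have hg : f (genericPoint X) = genericPoint X' := by
    have h1 : X.fromSpecStalk (genericPoint X) (IsLocalRing.closedPoint _) = genericPoint X :=
      Scheme.fromSpecStalk_closedPoint
    have h2 : X'.fromSpecStalk (genericPoint X') (IsLocalRing.closedPoint _) = genericPoint X' :=
      Scheme.fromSpecStalk_closedPoint
    have e := congrArg (fun φ : Spec X.functionField ⟶ X' =>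
      φ (IsLocalRing.closedPoint (X.presheaf.stalk (genericPoint X)))) hf
    change f (X.fromSpecStalk (genericPoint X) (IsLocalRing.closedPoint _)) =
      X'.fromSpecStalk (genericPoint X') (Spec.map κ (IsLocalRing.closedPoint _)) at e
    have h3 : Spec.map κ (IsLocalRing.closedPoint (X.presheaf.stalk (genericPoint X))) =
        IsLocalRing.closedPoint (X'.presheaf.stalk (genericPoint X')) := by
      have : Subsingleton (PrimeSpectrum X'.functionField) := inferInstance
      exact this.elim _ _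
    rw [h3, h2] at e
    rw [← e]
    exact congrArg f h1.symm
  refine ⟨hg, ?_⟩
  apply Spec.map_injective
  rw [← cancel_mono (X'.fromSpecStalk (genericPoint X')), ← hf, Spec.map_comp, Category.assoc,
    Scheme.SpecMap_stalkSpecializes_fromSpecStalk, Scheme.SpecMap_stalkMap_fromSpecStalk]



theorem exists_rho_aux {F : Type} [Field F] [Algebra ℂ F] {A B : CommRingCat.{0}}
    {S T : Subalgebra ℂ F} (e : A ≃+* S) (e' : B ≃+* T) (hle : T ≤ S) :
    ∃ ρ : B ⟶ A, ∀ s, (e (ρ.hom s) : F) = e' s := by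
  refine ⟨CommRingCat.ofHom
    (e.symm.toRingHom.comp ((Subalgebra.inclusion hle).toRingHom.comp e'.toRingHom)), ?_⟩
  intro s
  have : e (e.symm (Subalgebra.inclusion hle (e' s))) = Subalgebra.inclusion hle (e' s) :=
    e.apply_symm_apply _
  exact congrArg Subtype.val this

theorem exists_kappa_aux {F : Type} [Field F] {K K' : CommRingCat.{0}} (φ : K →+* F)
    (φ' : K' →+* F) (hφ : Function.Injective φ) (hr : ∀ u, φ' u ∈ φ.range) :
    ∃ κ : K' ⟶ K, ∀ u, φ (κ.hom u) = φ' u := by
  let e : K ≃+* φ.range :=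
    RingEquiv.ofBijective φ.rangeRestrict
      ⟨fun a b hab => hφ (congrArg Subtype.val hab), φ.rangeRestrict_surjective⟩
  refine ⟨CommRingCat.ofHom (e.symm.toRingHom.comp (φ'.codRestrict φ.range hr)), ?_⟩
  intro u
  exact congrArg Subtype.val (e.apply_symm_apply (φ'.codRestrict φ.range hr u))

theorem isDominant_fromSpecStalk {X : Scheme.{u}} [IsIntegral X] :
    IsDominant (X.fromSpecStalk (genericPoint X)) := by
  constructor
  rw [DenseRange, Scheme.range_fromSpecStalk]
  refine Dense.mono (s₁ := {genericPoint X}) ?_ ?_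
  · rintro _ rfl
    exact specializes_rfl
  · rw [dense_iff_closure_eq]
    exact genericPoint_closure X

variable {F : Type} [Field F] [Algebra ℂ F]

theorem exists_rho {V V' : Submodule ℂ F} [h1 : Fact ((1 : F) ∈ V)]
    [h1' : Fact ((1 : F) ∈ V')] {c c' : F}
    (hcV : c ∈ V) (hc : c ≠ 0) (hcV' : c' ∈ V') (hc' : c' ≠ 0)
    (hle : chartA V' c' ≤ chartA V c) :
    ∃ ρ : Γ(PX V', Dc c' hcV') ⟶ Γ(PX V, Dc c hcV), ∀ s,
      toK h1.out ((PX V).presheaf.germ (Dc c hcV) (genericPoint (PX V)) (generic_mem_Dc hcV hc)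
        (ρ.hom s)) =
      toK h1'.out ((PX V').presheaf.germ (Dc c' hcV') (genericPoint (PX V'))
        (generic_mem_Dc hcV' hc') s) := by
  obtain ⟨ρ, hρ⟩ := exists_rho_aux (A := Γ(PX V, Dc c hcV)) (B := Γ(PX V', Dc c' hcV'))
    (secEquiv hcV hc) (secEquiv hcV' hc') hle
  refine ⟨ρ, fun s => ?_⟩
  refine (toK_germ_secEquiv hcV hc (generic_mem_Dc hcV hc) _).trans ?_
  exact (hρ s).trans (toK_germ_secEquiv hcV' hc' (generic_mem_Dc hcV' hc') s).symm

/-- An element of a chart algebra is in the image of `toK`. -/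
theorem mem_range_toK {V : Submodule ℂ F} [h1 : Fact ((1 : F) ∈ V)] {c : F} (hcV : c ∈ V)
    (hc : c ≠ 0) {g : F} (hg : g ∈ chartA V c) : g ∈ (toK h1.out).fieldRange := by
  refine ⟨(PX V).presheaf.germ (Dc c hcV) (genericPoint (PX V)) (generic_mem_Dc hcV hc)
    ((secEquiv hcV hc).symm ⟨g, hg⟩), ?_⟩
  rw [toK_germ_secEquiv hcV hc, RingEquiv.apply_symm_apply]

theorem exists_div_toK {V : Submodule ℂ F} [h1 : Fact ((1 : F) ∈ V)] {c : F} (hcV : c ∈ V)
    (hc : c ≠ 0) (u : (PX V).functionField) :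
    ∃ a ∈ chartA V c, ∃ b ∈ chartA V c, toK h1.out u = a / b := by
  have hU : Nonempty (Dc c hcV) := ⟨⟨_, generic_mem_Dc hcV hc⟩⟩
  have hfr := functionField_isFractionRing_of_isAffineOpen (X := PX V)
    (Dc c hcV) (isAffineOpen_Dc _ _)
  obtain ⟨a, b, hb, rfl⟩ := IsFractionRing.div_surjective (A := Γ(PX V, Dc c hcV)) u
  refine ⟨_, (secEquiv hcV hc a).2, _, (secEquiv hcV hc b).2, ?_⟩
  rw [map_div₀]
  congr 1
  · exact toK_germ_secEquiv hcV hc (generic_mem_Dc hcV hc) a
  · exact toK_germ_secEquiv hcV hc (generic_mem_Dc hcV hc) b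

/-- The inclusion of function fields. -/
theorem exists_kappa {V V' : Submodule ℂ F} [h1 : Fact ((1 : F) ∈ V)]
    [h1' : Fact ((1 : F) ∈ V')] {c c' : F}
    (hcV : c ∈ V) (hc : c ≠ 0) (hcV' : c' ∈ V') (hc' : c' ≠ 0)
    (hle : chartA V' c' ≤ chartA V c) :
    ∃ κ : (PX V').functionField ⟶ (PX V).functionField,
      ∀ u, toK h1.out (κ.hom u) = toK h1'.out u := by
  have hrange : ∀ u : (PX V').functionField, toK h1'.out u ∈ (toK h1.out).range := by
    intro u
    obtain ⟨a, ha, b, hb, hab⟩ := exists_div_toK (h1 := h1') hcV' hc' u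
    rw [hab]
    change a / b ∈ (toK h1.out).fieldRange
    exact div_mem (mem_range_toK hcV hc (hle ha)) (mem_range_toK hcV hc (hle hb))
  exact exists_kappa_aux (K := (PX V).functionField) (K' := (PX V').functionField)
    (toK h1.out) (toK h1'.out) (toK_injective h1.out) hrange

theorem exists_morphism {V V' : Submodule ℂ F} [h1 : Fact ((1 : F) ∈ V)]
    [h1' : Fact ((1 : F) ∈ V')] {ι : Type} [Fintype ι] (c c' : ι → F)
    (hcV : ∀ i, c i ∈ V) (hc : ∀ i, c i ≠ 0) (hcov : ⨆ i, Dc (c i) (hcV i) = ⊤)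
    (hcV' : ∀ i, c' i ∈ V') (hc' : ∀ i, c' i ≠ 0)
    (hle : ∀ i, chartA V' (c' i) ≤ chartA V (c i)) [Nonempty ι] :
    ∃ f : PX V ⟶ PX V', f ≫ strPX V' = strPX V ∧
      ∃ hg : f (genericPoint (PX V)) = genericPoint (PX V'),
        ∀ u : (PX V').functionField, toK h1.out
          (((PX V').presheaf.stalkSpecializes (Inseparable.of_eq hg).specializes ≫
            f.stalkMap (genericPoint (PX V))).hom u) = toK h1'.out u := by
  classical
  obtain ⟨i0⟩ := ‹Nonempty ι›
  obtain ⟨κ, hκ⟩ := exists_kappa (h1 := h1) (h1' := h1') (hcV i0) (hc i0) (hcV' i0) (hc' i0)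
    (hle i0)
  choose ρ hρ0 using fun i => exists_rho (h1 := h1) (h1' := h1') (hcV i) (hc i) (hcV' i) (hc' i)
    (hle i)
  have hρ : ∀ i, ρ i ≫
      (PX V).presheaf.germ (Dc (c i) (hcV i)) (genericPoint (PX V))
        (generic_mem_Dc (hcV i) (hc i)) =
      (PX V').presheaf.germ (Dc (c' i) (hcV' i)) (genericPoint (PX V'))
        (generic_mem_Dc (hcV' i) (hc' i)) ≫ κ := by
    intro i
    ext s
    apply toK_injective h1.out
    exact (hρ0 i s).trans (hκ _).symm
  obtain ⟨f, hf⟩ := morph_general (ι := ι) (fun i => Dc (c i) (hcV i)) hcov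
    (fun i => generic_mem_Dc (hcV i) (hc i))
    (fun i => Dc (c' i) (hcV' i)) (fun i => isAffineOpen_Dc _ _)
    (fun i => generic_mem_Dc (hcV' i) (hc' i)) κ ρ hρ
  obtain ⟨hg, hg'⟩ := morph_generic _ f hf
  refine ⟨f, ?_, hg, fun u => ?_⟩
  · have hdom : IsDominant ((PX V).fromSpecStalk (genericPoint (PX V))) :=
      isDominant_fromSpecStalk
    refine ext_of_isDominant (ι := (PX V).fromSpecStalk (genericPoint (PX V))) ?_
    rw [reassoc_of% hf, fromSpecStalk_strPX, fromSpecStalk_strPX, ← Spec.map_comp]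
    congr 1
    ext x
    apply toK_injective h1.out
    exact (hκ _).trans ((toK_str (h1 := h1') x).trans (toK_str (h1 := h1) x).symm)
  · rw [hg']
    exact hκ u

end Pool.Agent.MP_5c6cc8_ag
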