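import Pool.Agent.MP_5c6cc8_ag.Bounds

/-! # Row Prime0: coprime polynomials in two variables -/

open MvPolynomial

namespace Pool.Agent.MP_5c6cc8_ag

/-- removing factors of the variable, first form -/
theorem prime0_step1 {A B : Type*} [CommRing A] [IsDomain A] [CommRing B] (φ : B →+* A) {π : A}
    (hπ : π ≠ 0) : ∀ (n : ℕ) (R : Polynomial B), R.natDegree ≤ n → R ≠ 0 →
    Polynomial.eval₂ φ π R = 0 → ∃ r : B, r ≠ 0 ∧ π ∣ φ r := by
  intro n
  induction n with
  | zero =>
    intro R hR hR0 h
    have h1 : R = Polynomial.C (R.coeff 0) := Polynomial.eq_C_of_natDegree_le_zero hR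
    refine ⟨R.coeff 0, ?_, ?_⟩
    · intro h2
      rw [h2, map_zero] at h1
      exact hR0 h1
    · rw [h1, Polynomial.eval₂_C] at h
      rw [h]
      exact dvd_zero _
  | succ n ih =>
    intro R hR hR0 h
    have h1 := Polynomial.divX_mul_X_add R
    by_cases hc : R.coeff 0 = 0
    · rw [hc, map_zero, add_zero] at h1
      have h2 : R.divX ≠ 0 := by
        intro h3
        rw [h3, zero_mul] at h1
        exact hR0 h1.symm
      have h4 : Polynomial.eval₂ φ π R.divX * π = 0 := by
        rw [← h1, Polynomial.eval₂_mul, Polynomial.eval₂_X] at h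
        exact h
      refine ih R.divX ?_ h2 ((mul_eq_zero.1 h4).resolve_right hπ)
      rw [Polynomial.natDegree_divX_eq_natDegree_tsub_one]
      omega
    · refine ⟨R.coeff 0, hc, ?_⟩
      rw [← h1, Polynomial.eval₂_add, Polynomial.eval₂_mul, Polynomial.eval₂_X,
        Polynomial.eval₂_C] at h
      have h5 : φ (R.coeff 0) = -(Polynomial.eval₂ φ π R.divX) * π := by
        linear_combination h
      rw [h5]
      exact dvd_mul_left _ _

/-- second form -/
theorem prime0_step2 {A B : Type*} [CommRing A] [IsDomain A] [CommRing B] (φ : B →+* A) {π p : A}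
    (hπ : Prime π) (hp : ¬ π ∣ p) : ∀ (n : ℕ) (R : Polynomial B), R.natDegree ≤ n → R ≠ 0 →
    π ∣ Polynomial.eval₂ φ p R → ∃ r : B, r ≠ 0 ∧ ∃ α β : A, φ r = α * π + β * p := by
  intro n
  induction n with
  | zero =>
    intro R hR hR0 h
    have h1 : R = Polynomial.C (R.coeff 0) := Polynomial.eq_C_of_natDegree_le_zero hR
    refine ⟨R.coeff 0, ?_, ?_⟩
    · intro h2
      rw [h2, map_zero] at h1
      exact hR0 h1
    · rw [h1, Polynomial.eval₂_C] at h
      obtain ⟨q, hq⟩ := h
      exact ⟨q, 0, by rw [hq]; ring⟩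
  | succ n ih =>
    intro R hR hR0 h
    have h1 := Polynomial.divX_mul_X_add R
    by_cases hc : R.coeff 0 = 0
    · rw [hc, map_zero, add_zero] at h1
      have h2 : R.divX ≠ 0 := by
        intro h3
        rw [h3, zero_mul] at h1
        exact hR0 h1.symm
      have h4 : π ∣ Polynomial.eval₂ φ p R.divX * p := by
        rw [← h1, Polynomial.eval₂_mul, Polynomial.eval₂_X] at h
        exact h
      refine ih R.divX ?_ h2 ((hπ.dvd_or_dvd h4).resolve_right hp)
      rw [Polynomial.natDegree_divX_eq_natDegree_tsub_one]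
      omega
    · refine ⟨R.coeff 0, hc, ?_⟩
      rw [← h1, Polynomial.eval₂_add, Polynomial.eval₂_mul, Polynomial.eval₂_X,
        Polynomial.eval₂_C] at h
      obtain ⟨q, hq⟩ := h
      exact ⟨q, -(Polynomial.eval₂ φ p R.divX), by linear_combination hq⟩

/-- evaluation through `finSuccEquiv` -/
theorem prime0_fin {A : Type*} [CommRing A] [Algebra ℂ A] {n : ℕ} (a : A) (s : Fin n → A)
    (R : MvPolynomial (Fin (n + 1)) ℂ) :
    Polynomial.eval₂ (aeval s : MvPolynomial (Fin n) ℂ →ₐ[ℂ] A).toRingHom a (finSuccEquiv ℂ n R) =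
      aeval (Fin.cons a s : Fin (n + 1) → A) R := by
  induction R using MvPolynomial.induction_on with
  | C c =>
    rw [finSuccEquiv_apply, eval₂Hom_C]
    simp
  | add p q hp hq => rw [map_add, Polynomial.eval₂_add, hp, hq, map_add]
  | mul_X p i hp =>
    rw [map_mul, Polynomial.eval₂_mul, hp, map_mul]
    refine congrArg (HMul.hMul (aeval (Fin.cons a s : Fin (n + 1) → A) p)) ?_
    refine Fin.cases ?_ (fun j => ?_) i
    · rw [finSuccEquiv_X_zero, Polynomial.eval₂_X, aeval_X, Fin.cons_zero]
    · rw [finSuccEquiv_X_succ, Polynomial.eval₂_C, aeval_X, Fin.cons_succ]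
      exact aeval_X s j

/-- Let `π` be a prime polynomial in two variables and `π ∤ p`. Then there is a nonzero polynomial
in the second variable only (`X 1`) in the ideal `(π, p)`, and similarly for the first variable.
Proof for the second one: view `π` and `p` as polynomials in `X 0` over `A = ℂ[X 1]`. If the
degree of `π` in `X 0` is zero then `π` itself will do. Otherwise `π` is primitive and irreducible
over `Frac A` (Gauss), `π ∤ p` over `Frac A` (Gauss again), so `π, p` are coprime over `Frac A`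
and clearing denominators in a Bezout identity gives the claim.
(Alternatively: resultants.) -/
theorem exists_elim (π p : MvPolynomial (Fin 2) ℂ) (hπ : Prime π) (hp : ¬ π ∣ p) (j : Fin 2) :
    ∃ u : Polynomial ℂ, u ≠ 0 ∧ ∃ α β : MvPolynomial (Fin 2) ℂ,
      Polynomial.aeval (X j) u = α * π + β * p := by
  -- three polynomials in two variables are dependent
  set v : Fin 3 → MvPolynomial (Fin 2) ℂ :=
    Fin.cons π (Fin.cons p (fun _ : Fin 1 => X j)) with hv
  have hdep : ¬ AlgebraicIndependent ℂ v := by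
    intro h
    have h1 := h.cardinalMk_le_trdeg
    rw [MvPolynomial.trdeg_of_isDomain] at h1
    simp only [Cardinal.mk_fin, Cardinal.lift_natCast] at h1
    have h2 : (3 : ℕ) ≤ 2 := by exact_mod_cast h1
    omega
  rw [algebraicIndependent_iff] at hdep
  push Not at hdep
  obtain ⟨R, hR, hR0⟩ := hdep
  rw [hv, ← prime0_fin] at hR
  have hR1 : finSuccEquiv ℂ 2 R ≠ 0 := by
    intro h
    exact hR0 ((map_eq_zero_iff _ (finSuccEquiv ℂ 2).injective).1 h)
  obtain ⟨Q, hQ0, hQ⟩ := prime0_step1 _ hπ.ne_zero _ _ le_rfl hR1 hR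
  have hQ' : π ∣ aeval (Fin.cons p (fun _ : Fin 1 => X j) : Fin 2 → MvPolynomial (Fin 2) ℂ) Q := hQ
  rw [← prime0_fin] at hQ'
  have hQ1 : finSuccEquiv ℂ 1 Q ≠ 0 := by
    intro h
    exact hQ0 ((map_eq_zero_iff _ (finSuccEquiv ℂ 1).injective).1 h)
  obtain ⟨c, hc0, α, β, hc⟩ := prime0_step2 _ hπ hp _ _ le_rfl hQ1 hQ'
  have hc' : aeval (fun _ : Fin 1 => (X j : MvPolynomial (Fin 2) ℂ)) c = α * π + β * p := hc
  refine ⟨aeval (fun _ : Fin 1 => (Polynomial.X : Polynomial ℂ)) c, ?_, α, β, ?_⟩
  · intro h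
    have h1 : ((Polynomial.aeval (X 0 : MvPolynomial (Fin 1) ℂ)).comp
        (aeval (fun _ : Fin 1 => (Polynomial.X : Polynomial ℂ)))) = AlgHom.id ℂ _ := by
      refine MvPolynomial.algHom_ext fun i => ?_
      have hi : i = 0 := Subsingleton.elim _ _
      subst hi
      rw [AlgHom.comp_apply, aeval_X, Polynomial.aeval_X, AlgHom.id_apply]
    have h2 := congrArg (fun f => f c) (congrArg DFunLike.coe h1)
    simp only [AlgHom.comp_apply, AlgHom.id_apply] at h2
    rw [h, map_zero] at h2
    exact hc0 h2.symm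
  · rw [← hc']
    have h1 : ((Polynomial.aeval (X j : MvPolynomial (Fin 2) ℂ)).comp
        (aeval (fun _ : Fin 1 => (Polynomial.X : Polynomial ℂ)))) =
        aeval (fun _ : Fin 1 => (X j : MvPolynomial (Fin 2) ℂ)) := by
      refine MvPolynomial.algHom_ext fun i => ?_
      rw [AlgHom.comp_apply, aeval_X, Polynomial.aeval_X, aeval_X]
    rw [← h1, AlgHom.comp_apply]

end Pool.Agent.MP_5c6cc8_ag
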