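import Pool.Agent.MP_5c6cc8_ag.Prime0

/-! # Row Prime1a: restriction to `K` of the valuation of a prime polynomial -/

open MvPolynomial

namespace Pool.Agent.MP_5c6cc8_ag

/-! Elements of the maximal ideal of a divisorial ring. -/

theorem prime1a_pos_or {F : Type} [Field F] [Algebra ℂ F] {E : Subring F} (hE : IsDivisorial E)
    {g h : F} (hg : g ∈ E) (hh : h ∈ E) (H : g * h = 0 ∨ 0 < vord E (g * h)) :
    (g = 0 ∨ 0 < vord E g) ∨ (h = 0 ∨ 0 < vord E h) := by
  by_cases g0 : g = 0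
  · exact Or.inl (Or.inl g0)
  by_cases h0 : h = 0
  · exact Or.inr (Or.inl h0)
  rcases H with H | H
  · exact absurd H (mul_ne_zero g0 h0)
  · rw [vord_mul hE g0 h0] at H
    rcases (mem_iff hE).1 hg with h1 | h1
    · exact absurd h1 g0
    rcases (mem_iff hE).1 hh with h2 | h2
    · exact absurd h2 h0
    by_cases h3 : 0 < vord E g
    · exact Or.inl (Or.inr h3)
    · exact Or.inr (Or.inr (by omega))

theorem prime1a_mul_pos {F : Type} [Field F] [Algebra ℂ F] {E : Subring F} (hE : IsDivisorial E)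
    {g h : F} (hg : g ∈ E) (H : h = 0 ∨ 0 < vord E h) :
    g * h = 0 ∨ 0 < vord E (g * h) := by
  by_cases g0 : g = 0
  · exact Or.inl (by rw [g0, zero_mul])
  by_cases h0 : h = 0
  · exact Or.inl (by rw [h0, mul_zero])
  rcases H with H | H
  · exact absurd H h0
  · rcases (mem_iff hE).1 hg with h1 | h1
    · exact absurd h1 g0
    · right
      rw [vord_mul hE g0 h0]
      omega

theorem prime1a_add_pos {F : Type} [Field F] [Algebra ℂ F] {E : Subring F} (hE : IsDivisorial E)
    {g h : F} (G : g = 0 ∨ 0 < vord E g) (H : h = 0 ∨ 0 < vord E h) :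
    g + h = 0 ∨ 0 < vord E (g + h) := by
  by_cases g0 : g = 0
  · rw [g0, zero_add]; exact H
  by_cases h0 : h = 0
  · rw [h0, add_zero]; exact G
  by_cases gh : g + h = 0
  · exact Or.inl gh
  · right
    have h1 := G.resolve_left g0
    have h2 := H.resolve_left h0
    have h3 := vord_add hE g0 h0 gh
    rcases min_choice (vord E g) (vord E h) with h4 | h4 <;> rw [h4] at h3 <;> omega

theorem prime1a_not_pos_of_unit {F : Type} [Field F] [Algebra ℂ F] {E : Subring F}
    (hE : IsDivisorial E) {c : ℂ} (hc : c ≠ 0) :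
    ¬ (algebraMap ℂ F c = 0 ∨ 0 < vord E (algebraMap ℂ F c)) := by
  rintro (h | h)
  · exact hc ((map_eq_zero _).1 h)
  · rw [vord_const hE] at h
    exact lt_irrefl _ h

theorem prime1a_aeval_mem {F : Type} [Field F] [Algebra ℂ F] {E : Subring F}
    (hE : IsDivisorial E) {σ : Type} (z : σ → F) (hz : ∀ j, z j ∈ E) (p : MvPolynomial σ ℂ) :
    aeval z p ∈ E := by
  induction p using MvPolynomial.induction_on with
  | C a =>
    rw [aeval_C]
    exact algebraMap_mem hE a
  | add p q hp hq =>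
    rw [map_add]
    exact E.add_mem hp hq
  | mul_X p i hp =>
    rw [map_mul, aeval_X]
    exact E.mul_mem hp (hz i)

/-- A nonzero polynomial in one element of `E` which is in the maximal ideal. -/
theorem prime1a_root {F : Type} [Field F] [Algebra ℂ F] {E : Subring F} (hE : IsDivisorial E)
    {z : F} (hz : z ∈ E) (n : ℕ) : ∀ u : Polynomial ℂ, u.natDegree ≤ n → u ≠ 0 →
    (Polynomial.aeval z u = 0 ∨ 0 < vord E (Polynomial.aeval z u)) →
    ∃ c : ℂ, z - algebraMap ℂ F c = 0 ∨ 0 < vord E (z - algebraMap ℂ F c) := by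
  induction n with
  | zero =>
    intro u hu u0 h
    rw [Polynomial.eq_C_of_natDegree_le_zero hu, Polynomial.aeval_C] at h
    refine absurd h (prime1a_not_pos_of_unit hE ?_)
    intro hc
    apply u0
    rw [Polynomial.eq_C_of_natDegree_le_zero hu, hc, Polynomial.C_0]
  | succ n ih =>
    intro u hu u0 h
    by_cases hd : u.natDegree ≤ n
    · exact ih u hd u0 h
    · have hdeg : u.degree ≠ 0 := by
        intro h0
        have := Polynomial.natDegree_eq_zero_iff_degree_le_zero.2 h0.le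
        omega
      obtain ⟨c, hc⟩ := IsAlgClosed.exists_root u hdeg
      obtain ⟨v, hv⟩ := Polynomial.dvd_iff_isRoot.2 hc
      have v0 : v ≠ 0 := by
        rintro rfl
        exact u0 (by rw [hv, mul_zero])
      have hvd : v.natDegree ≤ n := by
        have h1 : u.natDegree = 1 + v.natDegree := by
          rw [hv, Polynomial.natDegree_mul (Polynomial.X_sub_C_ne_zero c) v0,
            Polynomial.natDegree_X_sub_C]
        omega
      rw [hv, map_mul, map_sub, Polynomial.aeval_X, Polynomial.aeval_C] at h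
      have hvE : Polynomial.aeval z v ∈ E := by
        have := prime1a_aeval_mem hE (fun _ : Unit => z) (fun _ => hz)
          (Polynomial.aeval (X ()) v)
        rwa [← Polynomial.aeval_algHom_apply, aeval_X] at this
      rcases prime1a_pos_or hE (E.sub_mem hz (algebraMap_mem hE c)) hvE h with h1 | h1
      · exact ⟨c, h1⟩
      · exact ih v hvd v0 h1

/-- So, `ℂ` being algebraically closed: a ring homomorphism to `F` after which `π` and `p` are both in
the maximal ideal of the valuation ring `E` has `X j - c` in the maximal ideal for some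
constant `c`. -/
theorem exists_const {F : Type} [Field F] [Algebra ℂ F] {E : Subring F} (hE : IsDivisorial E)
    (z : Fin 2 → F) (hz : ∀ j, z j ∈ E) (π p : MvPolynomial (Fin 2) ℂ) (hπ : Prime π)
    (hp : ¬ π ∣ p) (h1 : aeval z π = 0 ∨ 0 < vord E (aeval z π))
    (h2 : aeval z p = 0 ∨ 0 < vord E (aeval z p)) (j : Fin 2) :
    ∃ c : ℂ, z j - algebraMap ℂ F c = 0 ∨ 0 < vord E (z j - algebraMap ℂ F c) := by
  obtain ⟨u, u0, α, β, h⟩ := exists_elim π p hπ hp j
  have h3 := congrArg (aeval z) h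
  rw [← Polynomial.aeval_algHom_apply, aeval_X, map_add, map_mul, map_mul] at h3
  refine prime1a_root hE (hz j) u.natDegree u le_rfl u0 ?_
  rw [h3]
  exact prime1a_add_pos hE (prime1a_mul_pos hE (prime1a_aeval_mem hE z hz α) h1)
    (prime1a_mul_pos hE (prime1a_aeval_mem hE z hz β) h2)

/-- A polynomial dividing both `s - c₂` and a nonzero polynomial in `a, b` is constant. -/
theorem prime1a_not_dvd {q : MvPolynomial (Fin 3) ℂ} (hq : Prime q) (c₁ c₂ : ℂ)
    (h1 : q ∣ (1 + X 0) * (1 + X 1) * (1 + X 0 + X 1) - C c₁ * (X 0 * X 1))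
    (h2 : q ∣ X 2 - C c₂) : False := by
  have key : ∀ (j : Fin 3) (f : MvPolynomial (Fin 3) ℂ), f ≠ 0 → degreeOf j f = 0 → q ∣ f →
      degreeOf j q = 0 := by
    rintro j f hf hj ⟨r, rfl⟩
    have hr : r ≠ 0 := right_ne_zero_of_mul hf
    rw [degreeOf_mul_eq hq.ne_zero hr] at hj
    omega
  have X0 : degreeOf (2 : Fin 3) (X 0 : MvPolynomial (Fin 3) ℂ) = 0 := by
    rw [degreeOf_X]; exact if_neg (by decide)
  have X1 : degreeOf (2 : Fin 3) (X 1 : MvPolynomial (Fin 3) ℂ) = 0 := by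
    rw [degreeOf_X]; exact if_neg (by decide)
  have one : degreeOf (2 : Fin 3) (1 : MvPolynomial (Fin 3) ℂ) = 0 := degreeOf_one _
  have add : ∀ f g : MvPolynomial (Fin 3) ℂ, degreeOf 2 f = 0 → degreeOf 2 g = 0 →
      degreeOf 2 (f + g) = 0 := by
    intro f g hf hg
    have := degreeOf_add_le 2 f g
    rw [hf, hg] at this
    exact Nat.le_zero.1 this
  have mul : ∀ f g : MvPolynomial (Fin 3) ℂ, degreeOf 2 f = 0 → degreeOf 2 g = 0 →
      degreeOf 2 (f * g) = 0 := by
    intro f g hf hg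
    have := degreeOf_mul_le 2 f g
    rw [hf, hg] at this
    exact Nat.le_zero.1 this
  have hW : degreeOf 2 ((1 + X 0) * (1 + X 1) * (1 + X 0 + X 1) -
      C c₁ * (X 0 * X 1) : MvPolynomial (Fin 3) ℂ) = 0 := by
    have h3 : ((1 + X 0) * (1 + X 1) * (1 + X 0 + X 1) - C c₁ * (X 0 * X 1) :
        MvPolynomial (Fin 3) ℂ) =
        (1 + X 0) * (1 + X 1) * (1 + X 0 + X 1) + C (-c₁) * (X 0 * X 1) := by
      rw [map_neg]; ring
    rw [h3]
    exact add _ _ (mul _ _ (mul _ _ (add _ _ one X0) (add _ _ one X1))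
      (add _ _ (add _ _ one X0) X1)) (mul _ _ (degreeOf_C _ _) (mul _ _ X0 X1))
  have hW0 : ((1 + X 0) * (1 + X 1) * (1 + X 0 + X 1) - C c₁ * (X 0 * X 1) :
        MvPolynomial (Fin 3) ℂ) ≠ 0 := by
    intro h
    have := congrArg (eval (fun _ => (0 : ℂ))) h
    simp at this
  have hs0 : (X 2 - C c₂ : MvPolynomial (Fin 3) ℂ) ≠ 0 := by
    intro h
    have := congrArg (eval (fun _ => c₂ + 1)) h
    simp at this
  have hs : ∀ j : Fin 3, j ≠ 2 → degreeOf j (X 2 - C c₂ : MvPolynomial (Fin 3) ℂ) = 0 := by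
    intro j hj
    have h3 := degreeOf_add_le j (X 2) (C (-c₂) : MvPolynomial (Fin 3) ℂ)
    rw [degreeOf_X, if_neg hj, degreeOf_C, map_neg, ← sub_eq_add_neg] at h3
    exact Nat.le_zero.1 h3
  have hall : ∀ j, degreeOf j q = 0 := by
    intro j
    by_cases hj : j = 2
    · subst hj
      exact key 2 _ hW0 hW h1
    · exact key j _ hs0 (hs j hj) h2
  have hvars : q.vars = ∅ := by
    classical
    rw [Finset.eq_empty_iff_forall_notMem]
    intro j hj
    have h4 := hall j
    rw [degreeOf_def, Multiset.count_eq_zero] at h4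
    rw [vars_def, Multiset.mem_toFinset] at hj
    exact h4 hj
  rw [vars_eq_empty_iff_eq_C] at hvars
  apply hq.not_isUnit
  have hc : q.coeff 0 ≠ 0 := by
    intro h
    rw [h, map_zero] at hvars
    exact hq.ne_zero hvars
  rw [hvars]
  exact (isUnit_iff_ne_zero.2 hc).map C

namespace Setup

variable {K L : Type} [Field K] [Algebra ℂ K] [Field L] [Algebra ℂ L] (S : Setup K L)

theorem prime1a_i_aeval (p : MvPolynomial (Fin 2) ℂ) :
    S.i (aeval ![S.w, S.s] p) = aeval ![S.i S.w, S.i S.s] p := by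
  induction p using MvPolynomial.induction_on with
  | C a => rw [aeval_C, aeval_C, S.hi]
  | add p q hp hq => rw [map_add, map_add, map_add, hp, hq]
  | mul_X p j hp =>
    rw [map_mul, map_mul, map_mul, aeval_X, aeval_X, hp]
    fin_cases j <;> rfl

theorem prime1a_x1 : S.x 1 = aeval ![S.x 1, S.x 2, S.i S.s] (X 0 : MvPolynomial (Fin 3) ℂ) := by
  rw [aeval_X]; rfl

theorem prime1a_x2 : S.x 2 = aeval ![S.x 1, S.x 2, S.i S.s] (X 1 : MvPolynomial (Fin 3) ℂ) := by
  rw [aeval_X]; rfl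

theorem prime1a_s : S.i S.s = aeval ![S.x 1, S.x 2, S.i S.s] (X 2 : MvPolynomial (Fin 3) ℂ) := by
  rw [aeval_X]; rfl

/-- Let `q` be a prime polynomial of `ℂ[a, b, s]`, not dividing `a` or `b`, and let the prime
polynomial `π(w, s)` have positive valuation at `E = (q)`. Then `E ∩ K` is the divisor `(π)` of `K`.
Proof: it is enough to show that `chartRing S.hK hπ ≤ E.comap i` (then
`IsDivisorial.eq_of_le_of_ne_top`, as `(π(w,s))⁻¹` is not in `E.comap i`). `i w, i s ∈ E` as `a, b`
are units of `E`. Suppose that `π ∤ p` but `i (p(w, s))` is in the maximal ideal. By `exists_const`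
there are constants `c₁, c₂` with `i w - c₁` and `i s - c₂` in the maximal ideal of `E`, i.e.
`q ∣ (1+a)(1+b)(1+a+b) - c₁ a b` and `q ∣ s - c₂` (`X 2 - C c₂`) in `ℂ[a, b, s]`. The second one is
prime, so `q` is associated to it, and it does not divide the first one, which is a nonzero
polynomial not depending on `s`. -/
theorem comap_prime {π : MvPolynomial (Fin 2) ℂ} (hπ : Prime π) {q : MvPolynomial (Fin 3) ℂ}
    (hq : Prime q) (ha : ¬ q ∣ X 0) (hb : ¬ q ∣ X 1)
    (h : 0 < vord (chartRing S.hL hq) (S.i (aeval ![S.w, S.s] π))) :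
    (chartRing S.hL hq).comap S.i = chartRing S.hK hπ := by
  have hE := chartRing_isDivisorial S.hL hq
  have hab : ¬ q ∣ X 0 * X 1 := fun H => (hq.dvd_or_dvd H).elim ha hb
  have hx1 : S.x 1 ≠ 0 := S.cluster.ne_zero 1
  have hx2 : S.x 2 ≠ 0 := S.cluster.ne_zero 2
  have hW : aeval ![S.x 1, S.x 2, S.i S.s]
      ((1 + X 0) * (1 + X 1) * (1 + X 0 + X 1) : MvPolynomial (Fin 3) ℂ) =
      (1 + S.x 1) * (1 + S.x 2) * (1 + S.x 1 + S.x 2) := by
    simp only [map_mul, map_add, map_one, aeval_X]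
    rfl
  have habv : aeval ![S.x 1, S.x 2, S.i S.s] (X 0 * X 1 : MvPolynomial (Fin 3) ℂ) =
      S.x 1 * S.x 2 := by
    rw [map_mul, aeval_X, aeval_X]; rfl
  have hiw : S.i S.w ∈ chartRing S.hL hq := by
    rw [mem_chartRing]
    refine ⟨(1 + X 0) * (1 + X 1) * (1 + X 0 + X 1), X 0 * X 1, hab, ?_⟩
    rw [hW, habv, eq_div_iff (mul_ne_zero hx1 hx2), S.w_eq]
  have his : S.i S.s ∈ chartRing S.hL hq := by
    have h5 := aeval_mem_chartRing S.hL hq (X 2)
    rw [aeval_X] at h5
    exact h5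
  have hz : ∀ j, (![S.i S.w, S.i S.s] : Fin 2 → L) j ∈ chartRing S.hL hq := by
    intro j
    fin_cases j
    · exact hiw
    · exact his
  -- units
  have hunit : ∀ p : MvPolynomial (Fin 2) ℂ, ¬ π ∣ p →
      S.i (aeval ![S.w, S.s] p) ≠ 0 ∧ vord (chartRing S.hL hq) (S.i (aeval ![S.w, S.s] p)) = 0 := by
    intro p hp
    have hmem : S.i (aeval ![S.w, S.s] p) ∈ chartRing S.hL hq := by
      rw [S.prime1a_i_aeval]
      exact prime1a_aeval_mem hE _ hz p
    by_contra hcon
    have hpos : S.i (aeval ![S.w, S.s] p) = 0 ∨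
        0 < vord (chartRing S.hL hq) (S.i (aeval ![S.w, S.s] p)) := by
      by_cases h0 : S.i (aeval ![S.w, S.s] p) = 0
      · exact Or.inl h0
      · right
        rcases (mem_iff hE).1 hmem with h1 | h1
        · exact absurd h1 h0
        · have : vord (chartRing S.hL hq) (S.i (aeval ![S.w, S.s] p)) ≠ 0 := fun h2 => hcon ⟨h0, h2⟩
          omega
    have hex : ∀ j : Fin 2, ∃ c : ℂ, (![S.i S.w, S.i S.s] : Fin 2 → L) j - algebraMap ℂ L c = 0 ∨
        0 < vord (chartRing S.hL hq) ((![S.i S.w, S.i S.s] : Fin 2 → L) j - algebraMap ℂ L c) := by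
      intro j
      refine exists_const hE _ hz π p hπ hp (Or.inr ?_) ?_ j
      · rw [← S.prime1a_i_aeval]; exact h
      · rw [← S.prime1a_i_aeval]; exact hpos
    obtain ⟨c₁, hc₁⟩ := hex 0
    obtain ⟨c₂, hc₂⟩ := hex 1
    change S.i S.w - algebraMap ℂ L c₁ = 0 ∨ 0 < vord (chartRing S.hL hq)
      (S.i S.w - algebraMap ℂ L c₁) at hc₁
    change S.i S.s - algebraMap ℂ L c₂ = 0 ∨ 0 < vord (chartRing S.hL hq)
      (S.i S.s - algebraMap ℂ L c₂) at hc₂
    have hdvd : ∀ f : MvPolynomial (Fin 3) ℂ, (aeval ![S.x 1, S.x 2, S.i S.s] f = 0 ∨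
        0 < vord (chartRing S.hL hq) (aeval ![S.x 1, S.x 2, S.i S.s] f)) → q ∣ f := by
      intro f hf
      by_contra hqf
      rcases hf with hf | hf
      · refine S.hL.aeval_ne_zero ?_ hf
        rintro rfl
        exact hqf (dvd_zero q)
      · rw [vord_chart_aeval S.hL hq hqf] at hf
        exact lt_irrefl _ hf
    refine prime1a_not_dvd hq c₁ c₂ (hdvd _ ?_) (hdvd _ ?_)
    · have h3 := prime1a_mul_pos hE (aeval_mem_chartRing S.hL hq (X 0 * X 1)) hc₁
      have h4 : aeval ![S.x 1, S.x 2, S.i S.s] (X 0 * X 1 : MvPolynomial (Fin 3) ℂ) *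
          (S.i S.w - algebraMap ℂ L c₁) = aeval ![S.x 1, S.x 2, S.i S.s]
          ((1 + X 0) * (1 + X 1) * (1 + X 0 + X 1) - C c₁ * (X 0 * X 1) :
            MvPolynomial (Fin 3) ℂ) := by
        have hC : aeval ![S.x 1, S.x 2, S.i S.s] (C c₁ * (X 0 * X 1) : MvPolynomial (Fin 3) ℂ) =
            algebraMap ℂ L c₁ * (S.x 1 * S.x 2) := by rw [map_mul, aeval_C, habv]
        rw [map_sub, hW, hC, habv, ← S.w_eq]
        ring
      rwa [h4] at h3
    · have h4 : aeval ![S.x 1, S.x 2, S.i S.s] (X 2 - C c₂ : MvPolynomial (Fin 3) ℂ) =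
          S.i S.s - algebraMap ℂ L c₂ := by
        rw [map_sub, aeval_C, ← S.prime1a_s]
      rwa [h4]
  have hle : chartRing S.hK hπ ≤ (chartRing S.hL hq).comap S.i := by
    intro f hf
    obtain ⟨p, r, hr, rfl⟩ := (mem_chartRing S.hK hπ).1 hf
    rw [Subring.mem_comap, map_div₀, div_eq_mul_inv]
    obtain ⟨hr0, hrv⟩ := hunit r hr
    refine Subring.mul_mem _ ?_ ?_
    · rw [S.prime1a_i_aeval]
      exact prime1a_aeval_mem hE _ hz p
    · rw [mem_iff hE]
      right
      rw [vord_inv hE, hrv, neg_zero]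
  refine ((chartRing_isDivisorial S.hK hπ).eq_of_le_of_ne_top ?_ hle).symm
  intro htop
  have h1 : (aeval ![S.w, S.s] π)⁻¹ ∈ (chartRing S.hL hq).comap S.i := by
    rw [htop]; trivial
  rw [Subring.mem_comap, map_inv₀, mem_iff hE] at h1
  rcases h1 with h1 | h1
  · rw [inv_eq_zero, map_eq_zero] at h1
    exact S.hK.aeval_ne_zero hπ.ne_zero h1
  · rw [vord_inv hE] at h1
    omega

end Setup

end Pool.Agent.MP_5c6cc8_ag
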