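import Pool.Agent.MP_5c6cc8_ag.Prime1

/-! # Row Prime2a: a prime polynomial over `π(w, s)` -/

open MvPolynomial

namespace Pool.Agent.MP_5c6cc8_ag

theorem prime2a_ren (p : MvPolynomial (Fin 1) ℂ) :
    finSuccEquiv ℂ 1 (rename Fin.succ p) = Polynomial.C p := by
  induction p using MvPolynomial.induction_on with
  | C a =>
    rw [rename_C]
    exact (finSuccEquiv ℂ 1).commutes a
  | add p q hp hq => rw [map_add, map_add, hp, hq, Polynomial.C_add]
  | mul_X p i hp => rw [map_mul, map_mul, hp, rename_X, finSuccEquiv_X_succ, Polynomial.C_mul]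

/-- Expansion along powers of the first variable. -/
theorem prime2a_expand (π : MvPolynomial (Fin 2) ℂ) :
    π = ∑ k ∈ Finset.range ((finSuccEquiv ℂ 1 π).natDegree + 1),
      rename Fin.succ ((finSuccEquiv ℂ 1 π).coeff k) * X 0 ^ k := by
  apply (finSuccEquiv ℂ 1).injective
  rw [map_sum]
  conv_lhs => rw [(finSuccEquiv ℂ 1 π).as_sum_range_C_mul_X_pow]
  refine Finset.sum_congr rfl fun k _ => ?_
  rw [map_mul, map_pow, finSuccEquiv_X_zero, prime2a_ren]

/-- The numerator of `w`. -/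
noncomputable def prime2a_W : MvPolynomial (Fin 3) ℂ := (1 + X 0) * (1 + X 1) * (1 + X 0 + X 1)

/-- `N = (a b)^d π(W / (a b), s)`. -/
noncomputable def prime2a_N (π : MvPolynomial (Fin 2) ℂ) : MvPolynomial (Fin 3) ℂ :=
  ∑ k ∈ Finset.range ((finSuccEquiv ℂ 1 π).natDegree + 1),
    rename (fun _ => (2 : Fin 3)) ((finSuccEquiv ℂ 1 π).coeff k) * prime2a_W ^ k *
      (X 0 * X 1) ^ ((finSuccEquiv ℂ 1 π).natDegree - k)

/-- A homomorphism which kills `a b`. -/
theorem prime2a_map_N {A : Type} [CommRing A] [Algebra ℂ A] (π : MvPolynomial (Fin 2) ℂ)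
    (ev : MvPolynomial (Fin 3) ℂ →ₐ[ℂ] A) (h : ev (X 0 * X 1) = 0) :
    ev (prime2a_N π) = ev (rename (fun _ => (2 : Fin 3))
      ((finSuccEquiv ℂ 1 π).coeff (finSuccEquiv ℂ 1 π).natDegree)) *
      ev prime2a_W ^ (finSuccEquiv ℂ 1 π).natDegree := by
  unfold prime2a_N
  rw [map_sum, Finset.sum_range_succ, Finset.sum_eq_zero, zero_add, Nat.sub_self, pow_zero,
    mul_one, map_mul, map_pow]
  intro k hk
  rw [map_mul, map_pow ev (X 0 * X 1), h, zero_pow, mul_zero]
  have := Finset.mem_range.1 hk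
  omega

theorem prime2a_ren_ne_zero {p : MvPolynomial (Fin 1) ℂ} (hp : p ≠ 0) :
    rename (fun _ => (2 : Fin 3)) p ≠ 0 := by
  intro h
  apply hp
  have hinj : Function.Injective (fun _ : Fin 1 => (2 : Fin 3)) := fun a b _ => Subsingleton.elim _ _
  exact rename_injective _ hinj (by rw [h, map_zero])

theorem prime2a_coeff_ne_zero {π : MvPolynomial (Fin 2) ℂ} (hπ : π ≠ 0) :
    (finSuccEquiv ℂ 1 π).coeff (finSuccEquiv ℂ 1 π).natDegree ≠ 0 := by
  rw [Polynomial.coeff_natDegree, Polynomial.leadingCoeff_ne_zero]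
  intro h
  exact hπ ((finSuccEquiv ℂ 1).injective (by rw [h, map_zero]))

theorem prime2a_ev_ren (v : Fin 3 → MvPolynomial (Fin 3) ℂ) (hv : v 2 = X 2)
    (p : MvPolynomial (Fin 1) ℂ) : aeval v (rename (fun _ => (2 : Fin 3)) p) =
      rename (fun _ => (2 : Fin 3)) p := by
  rw [aeval_rename]
  induction p using MvPolynomial.induction_on with
  | C a => rw [aeval_C, rename_C]; rfl
  | add p q hp hq => rw [map_add, map_add, hp, hq]
  | mul_X p i hp =>
    rw [map_mul, map_mul, hp, aeval_X, rename_X]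
    exact congrArg _ hv

theorem prime2a_not_X0 {π : MvPolynomial (Fin 2) ℂ} (hπ : π ≠ 0) : ¬ X 0 ∣ prime2a_N π := by
  rintro ⟨r, hr⟩
  have h1 := congrArg (aeval (![0, X 1, X 2] : Fin 3 → MvPolynomial (Fin 3) ℂ)) hr
  rw [map_mul, aeval_X, prime2a_map_N π _ (by rw [map_mul, aeval_X]; exact zero_mul _),
    prime2a_ev_ren ![0, X 1, X 2] rfl] at h1
  change _ = 0 * _ at h1
  rw [zero_mul] at h1
  rcases mul_eq_zero.1 h1 with h2 | h2
  · exact prime2a_ren_ne_zero (prime2a_coeff_ne_zero hπ) h2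
  · have h3 := eq_zero_of_pow_eq_zero h2
    unfold prime2a_W at h3
    simp only [map_mul, map_add, map_one, aeval_X] at h3
    have h4 := congrArg (eval (fun _ => (0 : ℂ))) h3
    simp at h4

theorem prime2a_not_X1 {π : MvPolynomial (Fin 2) ℂ} (hπ : π ≠ 0) : ¬ X 1 ∣ prime2a_N π := by
  rintro ⟨r, hr⟩
  have h1 := congrArg (aeval (![X 0, 0, X 2] : Fin 3 → MvPolynomial (Fin 3) ℂ)) hr
  rw [map_mul, aeval_X, prime2a_map_N π _ (by rw [map_mul, aeval_X, aeval_X]; exact mul_zero _),
    prime2a_ev_ren ![X 0, 0, X 2] rfl] at h1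
  change _ = 0 * _ at h1
  rw [zero_mul] at h1
  rcases mul_eq_zero.1 h1 with h2 | h2
  · exact prime2a_ren_ne_zero (prime2a_coeff_ne_zero hπ) h2
  · have h3 := eq_zero_of_pow_eq_zero h2
    unfold prime2a_W at h3
    simp only [map_mul, map_add, map_one, aeval_X] at h3
    have h4 := congrArg (eval (fun _ => (0 : ℂ))) h3
    simp at h4

theorem prime2a_N_ne_zero {π : MvPolynomial (Fin 2) ℂ} (hπ : π ≠ 0) : prime2a_N π ≠ 0 := by
  intro h
  exact prime2a_not_X0 hπ (by rw [h]; exact dvd_zero _)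

theorem prime2a_N_not_unit {π : MvPolynomial (Fin 2) ℂ} (hπ : Prime π) :
    ¬ IsUnit (prime2a_N π) := by
  intro h
  have hd : (finSuccEquiv ℂ 1 π).natDegree = 0 := by
    by_contra hd
    have h1 : IsUnit (aeval (![0, -1, 0] : Fin 3 → ℂ) (prime2a_N π)) :=
      h.map (aeval (![0, -1, 0] : Fin 3 → ℂ))
    rw [prime2a_map_N π _ (by rw [map_mul, aeval_X]; exact zero_mul _)] at h1
    have h2 : aeval (![0, -1, 0] : Fin 3 → ℂ) prime2a_W = 0 := by
      unfold prime2a_W
      simp only [map_mul, map_add, map_one, aeval_X]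
      simp
    rw [h2, zero_pow hd, mul_zero] at h1
    exact not_isUnit_zero h1
  have hN : prime2a_N π = rename (fun _ => (2 : Fin 3)) ((finSuccEquiv ℂ 1 π).coeff 0) := by
    unfold prime2a_N
    rw [hd]
    simp
  have hpi : π = rename Fin.succ ((finSuccEquiv ℂ 1 π).coeff 0) := by
    conv_lhs => rw [prime2a_expand π, hd]
    simp
  apply hπ.not_isUnit
  rw [hpi]
  refine IsUnit.map _ ?_
  rw [hN] at h
  have h3 := h.map (aeval (fun _ => X 0 : Fin 3 → MvPolynomial (Fin 1) ℂ))
  rw [aeval_rename] at h3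
  have h4 : ∀ p : MvPolynomial (Fin 1) ℂ,
      aeval ((fun _ => X 0 : Fin 3 → MvPolynomial (Fin 1) ℂ) ∘ fun _ => (2 : Fin 3)) p = p := by
    intro p
    induction p using MvPolynomial.induction_on with
    | C a => rw [aeval_C]; rfl
    | add p q hp hq => rw [map_add, hp, hq]
    | mul_X p i hp =>
      rw [map_mul, hp, aeval_X, Subsingleton.elim i 0]
      rfl
  rwa [h4] at h3

theorem prime2a_aeval_N {L : Type} [Field L] [Algebra ℂ L] {a b s w : L}
    (hw : w * (a * b) = (1 + a) * (1 + b) * (1 + a + b)) (π : MvPolynomial (Fin 2) ℂ) :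
    aeval ![a, b, s] (prime2a_N π) =
      (a * b) ^ (finSuccEquiv ℂ 1 π).natDegree * aeval ![w, s] π := by
  have hW : aeval ![a, b, s] prime2a_W = w * (a * b) := by
    rw [hw]
    unfold prime2a_W
    simp only [map_mul, map_add, map_one, aeval_X]
    rfl
  have hab : aeval ![a, b, s] (X 0 * X 1 : MvPolynomial (Fin 3) ℂ) = a * b := by
    rw [map_mul, aeval_X, aeval_X]
    rfl
  have hexp := congrArg (aeval ![w, s]) (prime2a_expand π)
  rw [map_sum] at hexp
  rw [hexp, prime2a_N, map_sum, Finset.mul_sum]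
  refine Finset.sum_congr rfl fun k hk => ?_
  have hkd : k ≤ (finSuccEquiv ℂ 1 π).natDegree := by
    have := Finset.mem_range.1 hk
    omega
  have h0 : aeval ![w, s] (X 0 : MvPolynomial (Fin 2) ℂ) = w := by rw [aeval_X]; rfl
  rw [map_mul, map_mul, map_pow, map_pow, hW, hab, aeval_rename,
    map_mul (aeval ![w, s]), map_pow (aeval ![w, s]), h0, aeval_rename]
  have hfun : (![a, b, s] : Fin 3 → L) ∘ (fun _ : Fin 1 => (2 : Fin 3)) =
      (![w, s] : Fin 2 → L) ∘ Fin.succ := by
    funext i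
    fin_cases i
    rfl
  rw [hfun]
  obtain ⟨m, hm⟩ := Nat.exists_eq_add_of_le hkd
  rw [hm, Nat.add_sub_cancel_left, mul_pow, pow_add]
  ring

namespace Setup

variable {K L : Type} [Field K] [Algebra ℂ K] [Field L] [Algebra ℂ L] (S : Setup K L)

theorem prime2a_i_aeval (p : MvPolynomial (Fin 2) ℂ) :
    S.i (aeval ![S.w, S.s] p) = aeval ![S.i S.w, S.i S.s] p := by
  induction p using MvPolynomial.induction_on with
  | C a => rw [aeval_C, aeval_C, S.hi]
  | add p q hp hq => rw [map_add, map_add, map_add, hp, hq]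
  | mul_X p j hp =>
    rw [map_mul, map_mul, map_mul, aeval_X, aeval_X, hp]
    fin_cases j <;> rfl

/-- If the prime `q` does not divide `a b` but divides the numerator of `f(w, s)`, then `f(w, s)`
has positive valuation. -/
theorem prime2a_pos {f : MvPolynomial (Fin 2) ℂ} (hf : f ≠ 0) {q : MvPolynomial (Fin 3) ℂ}
    (hq : Prime q) (h0 : ¬ q ∣ X 0) (h1 : ¬ q ∣ X 1) (hN : q ∣ prime2a_N f) :
    0 < vord (chartRing S.hL hq) (S.i (aeval ![S.w, S.s] f)) := by
  have hE := chartRing_isDivisorial S.hL hq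
  have hx1 : S.x 1 ≠ 0 := S.cluster.ne_zero 1
  have hx2 : S.x 2 ≠ 0 := S.cluster.ne_zero 2
  have hf0 : S.i (aeval ![S.w, S.s] f) ≠ 0 := by
    rw [Ne, map_eq_zero]
    exact S.hK.aeval_ne_zero hf
  have h2 := prime2a_aeval_N (s := S.i S.s) S.w_eq f
  have h3 := vord_chart_pos S.hL hq hN (prime2a_N_ne_zero hf)
  rw [h2, ← S.prime2a_i_aeval, vord_mul hE (pow_ne_zero _ (mul_ne_zero hx1 hx2)) hf0,
    vord_pow hE, vord_mul hE hx1 hx2] at h3
  have h4 : vord (chartRing S.hL hq) (S.x 1) = 0 := by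
    have := vord_chart_aeval S.hL hq h0
    rw [aeval_X] at this
    exact this
  have h5 : vord (chartRing S.hL hq) (S.x 2) = 0 := by
    have := vord_chart_aeval S.hL hq h1
    rw [aeval_X] at this
    exact this
  rw [h4, h5, add_zero, mul_zero, zero_add] at h3
  exact h3

/-- Let `π` be prime, not associated to `w` (`X 0`). There is a prime polynomial `q` of
`ℂ[a, b, s]`, not dividing `a`, `b`, `1 + b`, with `v_q(i (π(w, s))) > 0`. Proof: `i w = W / (a b)` with
`W = (1 + a)(1 + b)(1 + a + b)`. Let `d` be the degree of `π` in `w` and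
`N = (a b)^d π(W / (a b), s)`, a nonzero polynomial in `a, b, s`.

Case 1: `π` does not depend on `s`. As `ℂ` is algebraically closed `π` is `w - c` up to a constant,
`c ≠ 0`, and `N = W - c a b` is not constant with `N(0, 0) = 1`: take any prime factor `q` of `N`; it
divides neither `a` nor `b` (else `N` would vanish at `a = b = 0`).
Case 2: `π` depends on `s`. Then `N` has positive degree in `s` (the coefficient of the highest power
of `s` is `(a b)^d π_n(W / (a b))`, nonzero since `w` is transcendental); take a prime factor `q` of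
`N` of positive degree in `s`.

Finally if `q ∣ 1 + b` then `v_q(w) > 0` (as `q ∤ a b`), so that `(w)` and `(π)` are both the
restriction of `v_q` to `K` (`comap_prime`), hence `π` is associated to `w`. -/
theorem exists_prime_over {π : MvPolynomial (Fin 2) ℂ} (hπ : Prime π)
    (hw : ¬ Associated π (X 0)) : ∃ (q : MvPolynomial (Fin 3) ℂ) (hq : Prime q),
      ¬ q ∣ X 0 ∧ ¬ q ∣ X 1 ∧ ¬ q ∣ 1 + X 1 ∧
      0 < vord (chartRing S.hL hq) (S.i (aeval ![S.w, S.s] π)) := by
  have hπ0 : π ≠ 0 := hπ.ne_zero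
  obtain ⟨q, hqi, hqN⟩ := WfDvdMonoid.exists_irreducible_factor (prime2a_N_not_unit hπ)
    (prime2a_N_ne_zero hπ0)
  have hq : Prime q := hqi.prime
  have hX : ∀ j : Fin 3, Prime (X j : MvPolynomial (Fin 3) ℂ) := fun j => X_prime
  have h0 : ¬ q ∣ X 0 := fun h =>
    prime2a_not_X0 hπ0 (((hq.irreducible.associated_of_dvd (hX 0).irreducible h).symm.dvd).trans hqN)
  have h1 : ¬ q ∣ X 1 := fun h =>
    prime2a_not_X1 hπ0 (((hq.irreducible.associated_of_dvd (hX 1).irreducible h).symm.dvd).trans hqN)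
  have hpos := S.prime2a_pos hπ0 hq h0 h1 hqN
  refine ⟨q, hq, h0, h1, ?_, hpos⟩
  intro hq1
  have hX0 : Prime (X 0 : MvPolynomial (Fin 2) ℂ) := X_prime
  have hN0 : q ∣ prime2a_N (X 0) := by
    have hN : prime2a_N (X 0) = prime2a_W := by
      unfold prime2a_N
      rw [finSuccEquiv_X_zero, Polynomial.natDegree_X, Finset.sum_range_succ,
        Finset.sum_range_succ, Finset.sum_range_zero, Polynomial.coeff_X_zero, map_zero,
        Polynomial.coeff_X_one, map_one]
      ring
    rw [hN]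
    unfold prime2a_W
    exact (hq1.mul_left _).mul_right _
  have hpos0 := S.prime2a_pos hX0.ne_zero hq h0 h1 hN0
  have e1 := S.comap_prime hπ hq h0 h1 hpos
  have e2 := S.comap_prime hX0 hq h0 h1 hpos0
  have e3 : chartRing S.hK hπ = chartRing S.hK hX0 := by rw [← e1, ← e2]
  apply hw
  refine hπ.irreducible.associated_of_dvd hX0.irreducible ?_
  by_contra hnd
  have h5 := vord_chart_aeval S.hK hπ hnd
  rw [e3, vord_chart_pi S.hK hX0] at h5
  exact one_ne_zero h5

end Setup

end Pool.Agent.MP_5c6cc8_ag
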