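import Pool.Agent.MP_5c6cc8_ag.SQ1

/-! # Row SQ2: `A ⊕ A η` is integrally closed -/

namespace Pool.Agent.MP_5c6cc8_ag

namespace SqData

variable {A L : Type} [CommRing A] [IsDomain A] [Field L] (D : SqData A L)

theorem SQ2_j_ne {r : A} (hr : r ≠ 0) : D.j r ≠ 0 := by
  intro h
  exact hr (D.inj (by rw [h, map_zero]))

/-- values of a polynomial at `α ± β η` -/
theorem SQ2_conj (p q r : A) (hr : r ≠ 0) (P : Polynomial A) :
    ∃ u v w : A, w ≠ 0 ∧
      P.eval₂ D.j ((D.j p + D.j q * D.η) / D.j r) = (D.j u + D.j v * D.η) / D.j w ∧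
      P.eval₂ D.j ((D.j p - D.j q * D.η) / D.j r) = (D.j u - D.j v * D.η) / D.j w := by
  have hr' := D.SQ2_j_ne hr
  have hC : ∀ a : A, ∃ u v w : A, w ≠ 0 ∧
      (Polynomial.C a).eval₂ D.j ((D.j p + D.j q * D.η) / D.j r) = (D.j u + D.j v * D.η) / D.j w ∧
      (Polynomial.C a).eval₂ D.j ((D.j p - D.j q * D.η) / D.j r)
        = (D.j u - D.j v * D.η) / D.j w := fun a => ⟨a, 0, 1, one_ne_zero, by simp, by simp⟩
  induction P using Polynomial.induction_on with
  | C a => exact hC a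
  | add f g hf hg =>
    obtain ⟨u, v, w, hw, h1, h2⟩ := hf
    obtain ⟨u', v', w', hw', h1', h2'⟩ := hg
    have hjw := D.SQ2_j_ne hw
    have hjw' := D.SQ2_j_ne hw'
    refine ⟨u * w' + u' * w, v * w' + v' * w, w * w', mul_ne_zero hw hw', ?_, ?_⟩
    · rw [Polynomial.eval₂_add, h1, h1']
      simp only [map_add, map_mul]
      field_simp
      ring
    · rw [Polynomial.eval₂_add, h2, h2']
      simp only [map_add, map_mul]
      field_simp
      ring
  | monomial n a h =>
    obtain ⟨u, v, w, hw, h1, h2⟩ := h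
    have hjw := D.SQ2_j_ne hw
    refine ⟨u * p + v * q * D.Q, u * q + v * p, w * r, mul_ne_zero hw hr, ?_, ?_⟩
    · rw [pow_succ, ← mul_assoc, Polynomial.eval₂_mul_X, h1]
      simp only [map_add, map_mul]
      rw [div_mul_div_comm]
      congr 1
      linear_combination (D.j v * D.j q) * D.sq
    · rw [pow_succ, ← mul_assoc, Polynomial.eval₂_mul_X, h2]
      simp only [map_add, map_mul]
      rw [div_mul_div_comm]
      congr 1
      linear_combination (D.j v * D.j q) * D.sq

/-- an element `j p / j r` integral over `A` lies in `A` -/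
theorem SQ2_int [UniqueFactorizationMonoid A] {p r : A} (hr : r ≠ 0)
    (h : D.j.IsIntegralElem (D.j p / D.j r)) : r ∣ p := by
  classical
  obtain ⟨P, hP, h0⟩ := h
  let K := FractionRing A
  let φ : K →+* L := IsFractionRing.lift D.inj
  have hφ : ∀ a : A, φ (algebraMap A K a) = D.j a := fun a => IsFractionRing.lift_algebraMap D.inj a
  have hcomp : φ.comp (algebraMap A K) = D.j := by
    ext a; exact hφ a
  have hx : φ (algebraMap A K p / algebraMap A K r) = D.j p / D.j r := by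
    rw [map_div₀, hφ, hφ]
  have hint : IsIntegral A (algebraMap A K p / algebraMap A K r) := by
    refine ⟨P, hP, ?_⟩
    apply φ.injective
    rw [Polynomial.hom_eval₂, hcomp, hx, map_zero]
    exact h0
  obtain ⟨y, hy⟩ := IsIntegrallyClosed.isIntegral_iff.1 hint
  have hr' : algebraMap A K r ≠ 0 := by
    simpa using hr
  rw [eq_div_iff hr', ← map_mul] at hy
  have := IsFractionRing.injective A K hy
  exact ⟨y, by rw [← this, mul_comm]⟩

theorem SQ2_dvd [UniqueFactorizationMonoid A] (r : A) (hr : r ≠ 0) :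
    ∀ q : A, r ^ 2 ∣ q ^ 2 * D.Q → r ∣ q := by
  induction r using UniqueFactorizationMonoid.induction_on_prime with
  | h₁ => exact absurd rfl hr
  | h₂ x hx => exact fun q _ => hx.dvd
  | h₃ a π ha hπ ih =>
    intro q hq
    have ha' : a ≠ 0 := ha
    by_cases hd : π ∣ q
    · obtain ⟨q', rfl⟩ := hd
      have : a ^ 2 ∣ q' ^ 2 * D.Q := by
        have h1 : π ^ 2 * a ^ 2 ∣ π ^ 2 * (q' ^ 2 * D.Q) := by
          have : (π * a) ^ 2 ∣ (π * q') ^ 2 * D.Q := hq
          have e1 : (π * a) ^ 2 = π ^ 2 * a ^ 2 := by ring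
          have e2 : (π * q') ^ 2 * D.Q = π ^ 2 * (q' ^ 2 * D.Q) := by ring
          rwa [e1, e2] at this
        exact (mul_dvd_mul_iff_left (pow_ne_zero 2 hπ.ne_zero)).1 h1
      exact mul_dvd_mul_left π (ih ha' q' this)
    · exfalso
      have h1 : π ^ 2 ∣ q ^ 2 * D.Q := (pow_dvd_pow_of_dvd (dvd_mul_right π a) 2).trans hq
      have h2 : ¬ π ∣ q ^ 2 := fun h => hd (hπ.dvd_of_dvd_pow h)
      exact D.sqfree π hπ (hπ.pow_dvd_of_dvd_mul_left 2 h2 h1)

/-- If `f ∈ L` is integral over `A` then `f ∈ A ⊕ A η`. Proof: `f = α + β η` with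
`α, β ∈ Frac(A) ⊂ L` and `f' = α - β η` is a root of the same monic polynomial (a monic
`P` satisfies `P(α ± β η) = U ± V η` with `U, V ∈ Frac(A)`, and `U + V η = 0` forces `U = V = 0`).
So `2 α = f + f'` and `α² - β² Q = f f'` are integral over `A` and in `Frac(A)`, so they are in `A`
(`A` is integrally closed). As `2` is a unit, `α ∈ A`; then `β² Q ∈ A`, and
`β ∈ A` as `Q` is squarefree: write `β = m / n` in lowest terms; if a prime `π` divides `n` then
`π² ∣ n² ∣ m² Q` and `π ∤ m`, so `π² ∣ Q`. -/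
theorem mem_ring_of_integral [UniqueFactorizationMonoid A] {f : L} {P : Polynomial A}
    (hP : P.Monic) (h : P.eval₂ D.j f = 0) : f ∈ D.ring := by
  obtain ⟨p, q, r, hr, rfl⟩ := D.gen f
  have hr' := D.SQ2_j_ne hr
  obtain ⟨u, v, w, hw, h1, h2⟩ := D.SQ2_conj p q r hr P
  have hw' := D.SQ2_j_ne hw
  have huv : D.j u + D.j v * D.η = 0 := by
    rw [h1] at h
    rcases div_eq_zero_iff.1 h with h | h
    · exact h
    · exact absurd h hw'
  obtain ⟨rfl, rfl⟩ := D.indep u v huv
  have h' : P.eval₂ D.j ((D.j p - D.j q * D.η) / D.j r) = 0 := by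
    rw [h2]; simp
  have i1 : D.j.IsIntegralElem ((D.j p + D.j q * D.η) / D.j r) := ⟨P, hP, h⟩
  have i2 : D.j.IsIntegralElem ((D.j p - D.j q * D.η) / D.j r) := ⟨P, hP, h'⟩
  have i3 := i1.add D.j i2
  have i4 := i1.mul D.j i2
  have e3 : (D.j p + D.j q * D.η) / D.j r + (D.j p - D.j q * D.η) / D.j r
      = D.j (2 * p) / D.j r := by
    rw [map_mul, map_ofNat]; field_simp; ring
  rw [e3] at i3
  have d1 : r ∣ 2 * p := D.SQ2_int hr i3
  have d2 : r ∣ p := (D.two.dvd_mul_left).1 d1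
  obtain ⟨α, rfl⟩ := d2
  have i5 : D.j.IsIntegralElem (D.j α) := D.j.isIntegralElem_map
  have i6 := (i5.mul D.j i5).sub D.j i4
  have e6 : D.j α * D.j α - (D.j (r * α) + D.j q * D.η) / D.j r
      * ((D.j (r * α) - D.j q * D.η) / D.j r) = D.j (q ^ 2 * D.Q) / D.j (r ^ 2) := by
    simp only [map_mul, map_pow]
    field_simp
    linear_combination (D.j q ^ 2) * D.sq
  rw [e6] at i6
  have d3 : r ^ 2 ∣ q ^ 2 * D.Q := D.SQ2_int (pow_ne_zero 2 hr) i6
  obtain ⟨β, rfl⟩ := D.SQ2_dvd r hr q d3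
  refine ⟨α, β, ?_⟩
  simp only [map_mul]
  field_simp

/-- So `A ⊕ A η` is integrally closed (it is integral over `A`). -/
theorem isIntegrallyClosed [UniqueFactorizationMonoid A] : IsIntegrallyClosed D.ring := by
  let algL : Algebra A L := D.j.toAlgebra
  have hj : ∀ a : A, D.j a ∈ D.ring := fun a => ⟨a, 0, by simp⟩
  let algR : Algebra A D.ring := (D.j.codRestrict D.ring hj).toAlgebra
  have : IsScalarTower A D.ring L := IsScalarTower.of_algebraMap_eq (fun a => rfl)
  have hη : IsIntegral A D.η := by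
    refine ⟨Polynomial.X ^ 2 - Polynomial.C D.Q, Polynomial.monic_X_pow_sub_C _ two_ne_zero, ?_⟩
    simp only [Polynomial.eval₂_sub, Polynomial.eval₂_X_pow, Polynomial.eval₂_C]
    rw [D.sq]
    exact sub_self _
  have : Algebra.IsIntegral A D.ring := by
    refine ⟨fun x => ?_⟩
    rw [← isIntegral_algebraMap_iff (A := D.ring) (B := L) Subtype.val_injective]
    obtain ⟨x, p, q, rfl⟩ := x
    exact (isIntegral_algebraMap (R := A) (x := p)).add
      ((isIntegral_algebraMap (R := A) (x := q)).mul hη)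
  rw [isIntegrallyClosed_iff L]
  intro x hx
  have hx' : IsIntegral A x := isIntegral_trans x hx
  obtain ⟨P, hP, h⟩ := hx'
  exact ⟨⟨x, D.mem_ring_of_integral hP h⟩, rfl⟩

end SqData

end Pool.Agent.MP_5c6cc8_ag
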