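import Mathlib

/-! # Row SQ1: quadratic extensions `A ⊕ A η`, `η² = Q` squarefree -/

namespace Pool.Agent.MP_5c6cc8_ag

/-- A quadratic extension `L = Frac(A)(η)` of the fraction field of a factorial ring `A`,
`η² = Q` with `Q ∈ A` squarefree. -/
structure SqData (A L : Type) [CommRing A] [IsDomain A] [Field L] where
  j : A →+* L
  inj : Function.Injective j
  η : L
  Q : A
  sq : η ^ 2 = j Q
  two : IsUnit (2 : A)
  sqfree : ∀ π : A, Prime π → ¬ π ^ 2 ∣ Q
  indep : ∀ p q : A, j p + j q * η = 0 → p = 0 ∧ q = 0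
  gen : ∀ f : L, ∃ p q r : A, r ≠ 0 ∧ f = (j p + j q * η) / j r

namespace SqData

variable {A L : Type} [CommRing A] [IsDomain A] [Field L] (D : SqData A L)

/-- The ring `A ⊕ A η`. -/
def ring : Subring L where
  carrier := {f | ∃ p q : A, f = D.j p + D.j q * D.η}
  mul_mem' := by
    rintro _ _ ⟨p, q, rfl⟩ ⟨p', q', rfl⟩
    refine ⟨p * p' + q * q' * D.Q, p * q' + q * p', ?_⟩
    simp only [map_add, map_mul]
    linear_combination (D.j q * D.j q') * D.sq
  one_mem' := ⟨1, 0, by simp⟩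
  add_mem' := by
    rintro _ _ ⟨p, q, rfl⟩ ⟨p', q', rfl⟩
    refine ⟨p + p', q + q', ?_⟩
    simp only [map_add]
    ring
  zero_mem' := ⟨0, 0, by simp⟩
  neg_mem' := by
    rintro _ ⟨p, q, rfl⟩
    refine ⟨-p, -q, ?_⟩
    simp only [map_neg]
    ring

theorem mem_ring {f : L} : f ∈ D.ring ↔ ∃ p q : A, f = D.j p + D.j q * D.η := Iff.rfl

instance isFractionRing : IsFractionRing D.ring L := by
  refine IsFractionRing.of_field D.ring L (fun z => ?_)
  obtain ⟨p, q, r, -, h⟩ := D.gen z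
  exact ⟨⟨D.j p + D.j q * D.η, p, q, rfl⟩, ⟨D.j r, r, 0, by simp⟩, h⟩

end SqData

end Pool.Agent.MP_5c6cc8_ag
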