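import Pool.Agent.MP_5c6cc8_ag.Weight
import Pool.Agent.MP_5c6cc8_ag.Dlog

/-! # The fields `K = ℂ(w, s) ⊂ L = ℂ(x₁, x₂, s)` (no row: definitions) -/

open MvPolynomial

namespace Pool.Agent.MP_5c6cc8_ag

/-- The cluster relations `x_{j-1} x_{j+1} = 1 + x_j` (indices modulo 5). -/
structure IsCluster {L : Type} [Field L] (x : Fin 5 → L) : Prop where
  rel : ∀ j, x (j - 1) * x (j + 1) = 1 + x j
  ne_zero : ∀ j, x j ≠ 0
  one_add_ne_zero : ∀ j, 1 + x j ≠ 0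

/-- The function fields. -/
structure Setup (K L : Type) [Field K] [Algebra ℂ K] [Field L] [Algebra ℂ L] where
  i : K →+* L
  hi : ∀ c, i (algebraMap ℂ K c) = algebraMap ℂ L c
  w : K
  s : K
  x : Fin 5 → L
  cluster : IsCluster x
  hw : i w = x 0 * x 1 * x 2 * x 3 * x 4
  hK : IsCoord ![w, s]
  hL : IsCoord ![x 1, x 2, i s]

namespace Setup

variable {K L : Type} [Field K] [Algebra ℂ K] [Field L] [Algebra ℂ L] (S : Setup K L)

/-- `F₁ = x₀² x₂ / (x₃² x₁)`. -/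
noncomputable def F1 : L := S.x 0 ^ 2 * S.x 2 / (S.x 3 ^ 2 * S.x 1)

/-- `F₂ = x₂³ x₄ / (x₁ x₃³)`. -/
noncomputable def F2 : L := S.x 2 ^ 3 * S.x 4 / (S.x 1 * S.x 3 ^ 3)

/-- `g = F₁ + s F₂`. -/
noncomputable def g : L := S.F1 + S.i S.s * S.F2

/-- `φ = 1 / g`, so that `5 (K_X + Δ) = div g`. -/
noncomputable def φ : L := S.g⁻¹

/-- `ω = ds ∧ dlog x₁ ∧ dlog x₂`. -/
noncomputable def ω : Form L 3 := (S.x 1 * S.x 2)⁻¹ • T (S.i S.s) (S.x 1) (S.x 2)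

/-- `ω' = dw ∧ ds`. -/
noncomputable def ω' : Form K 2 := T2 S.w S.s

end Setup

end Pool.Agent.MP_5c6cc8_ag
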