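import Pool.Agent.MP_5c6cc8_ag.Morph

/-! # Row Surj1: properness, surjectivity -/

open AlgebraicGeometry CategoryTheory CategoryTheory.Limits
open Pool.Agent.MP_4d8271_ag (PX toK chartA Dc secGr secAlg el)

namespace Pool.Agent.MP_5c6cc8_ag

attribute [local instance] MvPolynomial.gradedAlgebra

theorem surj1_algebraMap_surjective (n : ℕ) : Function.Surjective
    (algebraMap (CommRingCat.of ℂ)
      (MvPolynomial.homogeneousSubmodule (Fin (n + 1)) (CommRingCat.of ℂ) 0)) := by
  rintro ⟨p, hp⟩
  rw [MvPolynomial.mem_homogeneousSubmodule] at hp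
  have h1 : p.totalDegree = 0 := by
    have := hp.totalDegree_le
    omega
  refine ⟨MvPolynomial.coeff 0 p, ?_⟩
  apply Subtype.ext
  exact (MvPolynomial.totalDegree_eq_zero_iff_eq_C.1 h1).symm

theorem surj1_isProper (n : ℕ) : IsProper (ProjSpace.str n) := by
  have hst : IsScalarTower (CommRingCat.of ℂ) (MvPolynomial.homogeneousSubmodule (Fin (n + 1))
      (CommRingCat.of ℂ) 0) (MvPolynomial (Fin (n + 1)) (CommRingCat.of ℂ)) :=
    IsScalarTower.of_algebraMap_eq (R := CommRingCat.of ℂ)
      (S := MvPolynomial.homogeneousSubmodule (Fin (n + 1)) (CommRingCat.of ℂ) 0)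
      (A := MvPolynomial (Fin (n + 1)) (CommRingCat.of ℂ)) fun r => rfl
  have hfin : Algebra.FiniteType (MvPolynomial.homogeneousSubmodule (Fin (n + 1))
      (CommRingCat.of ℂ) 0) (MvPolynomial (Fin (n + 1)) (CommRingCat.of ℂ)) :=
    Algebra.FiniteType.of_restrictScalars_finiteType (CommRingCat.of ℂ) _ _
  have h1 : IsClosedImmersion (Spec.map (CommRingCat.ofHom (algebraMap (CommRingCat.of ℂ)
      (MvPolynomial.homogeneousSubmodule (Fin (n + 1)) (CommRingCat.of ℂ) 0)))) :=
    IsClosedImmersion.spec_of_surjective _ (surj1_algebraMap_surjective n)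
  have h2 : IsProper (Proj.toSpecZero
      (MvPolynomial.homogeneousSubmodule (Fin (n + 1)) (CommRingCat.of ℂ))) := inferInstance
  have h3 : IsProper (Spec.map (CommRingCat.ofHom (algebraMap (CommRingCat.of ℂ)
      (MvPolynomial.homogeneousSubmodule (Fin (n + 1)) (CommRingCat.of ℂ) 0)))) := inferInstance
  unfold ProjSpace.str
  exact MorphismProperty.comp_mem _ _ _ h2 h3

/-- The structure morphism of projective space is proper (an instance in
`Mathlib/AlgebraicGeometry/ProjectiveSpectrum/Proper.lean` for `Proj.toSpecZero`; the map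
`ℂ → ℂ[x₀, …, xₙ]₀` is an isomorphism), so the one of a `Variety` is proper. -/
theorem Variety.isProper (V : Variety) : IsProper V.str := by
  obtain ⟨n, i, hi, h⟩ := V.projective
  rw [← h]
  have := surj1_isProper n
  infer_instance

/-- A dominant morphism of projective varieties is surjective. -/
theorem surjective_of_generic {V W : Variety} (f : V.X ⟶ W.X) (hf : f ≫ W.str = V.str)
    (hg : f (genericPoint V.X) = genericPoint W.X) : Function.Surjective f := by
  have hV := V.isProper
  have hW := W.isProper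
  have h1 : IsProper (f ≫ W.str) := by
    rw [hf]
    exact hV
  have h2 : IsProper f := IsProper.of_comp f W.str
  have h3 : IsClosed (Set.range f) := f.isClosedMap.isClosed_range
  have h4 : genericPoint W.X ∈ Set.range f := ⟨_, hg⟩
  have h5 : closure {genericPoint W.X} ⊆ Set.range f :=
    closure_minimal (Set.singleton_subset_iff.2 h4) h3
  have h6 : closure {genericPoint W.X} = Set.univ := genericPoint_closure _
  rw [h6] at h5
  exact Set.range_eq_univ.1 (Set.univ_subset_iff.1 h5)

/-- Combination with `exists_morphism`. -/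
theorem exists_surjection {F : Type} [Field F] [Algebra ℂ F]
    {V V' : Submodule ℂ F} [h1 : Fact ((1 : F) ∈ V)]
    [h1' : Fact ((1 : F) ∈ V')] [Module.Finite ℂ V] [Module.Finite ℂ V']
    (hn : ∀ x : PX V, IsIntegrallyClosed ((PX V).presheaf.stalk x))
    (hn' : ∀ x : PX V', IsIntegrallyClosed ((PX V').presheaf.stalk x))
    {ι : Type} [Fintype ι] [Nonempty ι] (c c' : ι → F)
    (hcV : ∀ i, c i ∈ V) (hc : ∀ i, c i ≠ 0) (hcov : ⨆ i, Dc (c i) (hcV i) = ⊤)
    (hcV' : ∀ i, c' i ∈ V') (hc' : ∀ i, c' i ≠ 0)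
    (hle : ∀ i, chartA V' (c' i) ≤ chartA V (c i)) :
    ∃ f : Surjection (mkVar V hn) (mkVar V' hn'), ∀ u, toF V hn (f.pull u) = toF V' hn' u := by
  obtain ⟨f, hf, hg, hpull⟩ := exists_morphism c c' hcV hc hcov hcV' hc' hle
  refine ⟨⟨f, hf, surjective_of_generic (V := mkVar V hn) (W := mkVar V' hn') f hf hg, hg⟩, ?_⟩
  intro u
  exact hpull u

/-- The inclusion of function fields is a homomorphism over `ℂ`. -/
theorem Surjection.pull_algebraMap {V W : Variety} (f : Surjection V W) (c : ℂ) :
    f.pull (algebraMap ℂ W.K c) = algebraMap ℂ V.K c := by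
  have h1 : W.X.presheaf.germ ⊤ (genericPoint W.X) trivial ≫
      W.X.presheaf.stalkSpecializes (Inseparable.of_eq f.generic).specializes ≫
        f.f.stalkMap (genericPoint V.X) =
      f.f.appTop ≫ V.X.presheaf.germ ⊤ (genericPoint V.X) trivial := by
    rw [← Category.assoc, TopCat.Presheaf.germ_stalkSpecializes]
    exact Scheme.Hom.germ_stalkMap f.f ⊤ (genericPoint V.X) trivial
  have h2 : ((Scheme.ΓSpecIso (CommRingCat.of ℂ)).inv ≫ W.str.appTop ≫
      W.X.presheaf.germ ⊤ (genericPoint W.X) trivial) ≫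
      (W.X.presheaf.stalkSpecializes (Inseparable.of_eq f.generic).specializes ≫
        f.f.stalkMap (genericPoint V.X)) =
      (Scheme.ΓSpecIso (CommRingCat.of ℂ)).inv ≫ V.str.appTop ≫
      V.X.presheaf.germ ⊤ (genericPoint V.X) trivial := by
    rw [Category.assoc, Category.assoc, h1, ← f.commutes, Scheme.Hom.comp_appTop]
    simp only [Category.assoc]
  have h3 := congrArg (fun g => g.hom c) h2
  exact h3

end Pool.Agent.MP_5c6cc8_ag
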