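import Pool.Agent.MP_5c6cc8_ag.Brack

/-! # Row Upper1: `ω` does not vanish at the divisors of the affine generic fibre -/

open Polynomial

namespace Pool.Agent.MP_5c6cc8_ag

namespace Setup

variable {K L : Type} [Field K] [Algebra ℂ K] [Field L] [Algebra ℂ L] (S : Setup K L)

/-- `K[X] → L` in the subring -/
theorem upper1_mem_i (c : K) : S.i c ∈ S.sqData.ring := by
  rw [SqData.mem_ring]
  refine ⟨C c, 0, ?_⟩
  rw [map_zero, zero_mul, add_zero]
  change S.i c = eval₂ S.i S.wX (C c)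
  rw [eval₂_C]

theorem upper1_mem_j (p : K[X]) : eval₂ S.i S.wX p ∈ S.sqData.ring := by
  rw [SqData.mem_ring]
  refine ⟨p, 0, ?_⟩
  rw [map_zero, zero_mul, add_zero]
  rfl

theorem upper1_mem_X : S.wX ∈ S.sqData.ring := by
  have h := S.upper1_mem_j X
  rwa [eval₂_X] at h

theorem upper1_mem_η : S.wη ∈ S.sqData.ring := by
  rw [SqData.mem_ring]
  refine ⟨0, 1, ?_⟩
  rw [map_zero, map_one, one_mul, zero_add]
  rfl

theorem upper1_cases {f : L} (hf : f ∈ S.sqData.ring) :
    ∃ p q : K[X], f = eval₂ S.i S.wX p + eval₂ S.i S.wX q * S.wη := by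
  rw [SqData.mem_ring] at hf
  exact hf

/-- If `K ⊆ E` and `X ∈ E` then `A = K[X] ⊕ K[X] η ⊆ E` (`η² = Q(X) ∈ E`). -/
theorem ring_le {E : Subring L} (hE : IsDivisorial E) (hK : ∀ c, S.i c ∈ E) (hX : S.wX ∈ E) :
    S.sqData.ring ≤ E := by
  have hp : ∀ p : K[X], eval₂ S.i S.wX p ∈ E := by
    intro p
    rw [eval₂_eq_sum_range]
    exact Subring.sum_mem _ fun n _ => E.mul_mem (hK _) (E.pow_mem hX n)
  have hη : S.wη ∈ E := by
    rcases hE.total S.wη with h | h
    · exact h
    · have h1 : S.wη ^ 2 ∈ E := by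
        rw [S.η_sq]
        exact hp _
      have h2 : S.wη = S.wη ^ 2 * S.wη⁻¹ := by
        rw [sq, mul_assoc, mul_inv_cancel₀ S.wη_ne_zero, mul_one]
      rw [h2]
      exact E.mul_mem h1 h
  intro f hf
  obtain ⟨p, q, rfl⟩ := S.upper1_cases hf
  exact E.add_mem (hp p) (E.mul_mem (hp q) hη)

/-- A derivation of `L` on `K = ℂ(w, s)`. -/
theorem upper1_D_i (D : Derivation ℂ L L) (c : K) :
    D (S.i c) = D (S.i S.w) * S.i (S.hK.pd 0 c) + D (S.i S.s) * S.i (S.hK.pd 1 c) := by
  have hc : c ∈ IntermediateField.adjoin ℂ (Set.range ![S.w, S.s]) := by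
    rw [S.hK.adjoin_eq]
    trivial
  have h00 : S.hK.pd 0 S.w = 1 := by
    have := S.hK.pd_apply 0 0
    simpa using this
  have h01 : S.hK.pd 0 S.s = 0 := by
    have := S.hK.pd_apply 0 1
    simpa using this
  have h10 : S.hK.pd 1 S.w = 0 := by
    have := S.hK.pd_apply 1 0
    simpa using this
  have h11 : S.hK.pd 1 S.s = 1 := by
    have := S.hK.pd_apply 1 1
    simpa using this
  induction hc using IntermediateField.adjoin_induction with
  | mem x hx =>
    obtain ⟨k, rfl⟩ := hx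
    fin_cases k
    · simp [h00, h10]
    · simp [h01, h11]
  | algebraMap x =>
    rw [S.hi, Derivation.map_algebraMap, Derivation.map_algebraMap, Derivation.map_algebraMap,
      map_zero, mul_zero, mul_zero, add_zero]
  | add x y _ _ hx hy =>
    rw [map_add, map_add, hx, hy, map_add, map_add, map_add, map_add]
    ring
  | inv x _ hx =>
    rw [map_inv₀, Derivation.leibniz_inv, hx, Derivation.leibniz_inv, Derivation.leibniz_inv]
    simp only [smul_eq_mul, map_neg, map_mul, map_pow, map_inv₀]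
    ring
  | mul x y _ _ hx hy =>
    rw [map_mul, Derivation.leibniz, hx, hy, Derivation.leibniz, Derivation.leibniz]
    simp only [smul_eq_mul, map_add, map_mul]
    ring

/-- the derivative of the cubic with respect to `X` -/
noncomputable def upper1_Q1 : L :=
  12 * S.wX ^ 2 + 2 * (1 - 6 * S.i S.w + S.i S.w ^ 2) * S.wX - 2 * S.i S.w * (1 - S.i S.w)

/-- the derivative of the cubic with respect to `w` -/
noncomputable def upper1_Qw : L :=
  (2 * S.i S.w - 6) * S.wX ^ 2 - (2 - 4 * S.i S.w) * S.wX + 2 * S.i S.w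

theorem upper1_Q : eval₂ S.i S.wX S.wQ = 4 * S.wX ^ 3 + (1 - 6 * S.i S.w + S.i S.w ^ 2) * S.wX ^ 2 -
    2 * S.i S.w * (1 - S.i S.w) * S.wX + S.i S.w ^ 2 := by
  unfold wQ
  simp only [eval₂_add, eval₂_sub, eval₂_mul, eval₂_pow, eval₂_C, eval₂_X]
  simp only [map_add, map_sub, map_mul, map_pow, map_one, map_ofNat]

theorem upper1_Q' : eval₂ S.i S.wX (derivative S.wQ) = S.upper1_Q1 := by
  unfold wQ upper1_Q1
  rw [derivative_add, derivative_sub, derivative_add, derivative_C_mul_X_pow,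
    derivative_C_mul_X_pow, derivative_C_mul_X, derivative_C, add_zero]
  simp only [eval₂_add, eval₂_sub, eval₂_mul, eval₂_pow, eval₂_C, eval₂_X]
  simp only [map_add, map_sub, map_mul, map_pow, map_one, map_ofNat, map_natCast]
  push_cast
  ring

theorem upper1_DQ (D : Derivation ℂ L L) :
    2 * S.wη * D S.wη = S.upper1_Q1 * D S.wX + S.upper1_Qw * D (S.i S.w) := by
  have h := congrArg D (S.η_sq.trans S.upper1_Q)
  have hn : ∀ n : ℕ, D ((n : L)) = 0 := fun n => D.map_natCast n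
  have h2 : D (2 : L) = 0 := by exact_mod_cast hn 2
  have h4 : D (4 : L) = 0 := by exact_mod_cast hn 4
  have h6 : D (6 : L) = 0 := by exact_mod_cast hn 6
  have h1 : D (1 : L) = 0 := D.map_one_eq_zero
  simp only [map_add, map_sub, Derivation.leibniz, Derivation.leibniz_pow, h2, h4, h6, h1,
    smul_eq_mul, nsmul_eq_mul, mul_zero, add_zero, zero_sub, Nat.cast_ofNat,
    Nat.add_one_sub_one, pow_one] at h
  unfold upper1_Q1 upper1_Qw
  linear_combination h

theorem upper1_ω_ne_zero : S.ω ≠ 0 := by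
  have h1 : wedge ![S.x 1, S.x 2, S.i S.s] ≠ 0 := S.hL.wedge_ne_zero
  have h2 : T (S.i S.s) (S.x 1) (S.x 2) = T (S.x 1) (S.x 2) (S.i S.s) := by
    rw [T_swap23 (S.i S.s) (S.x 2) (S.x 1), T_swap13 (S.x 1) (S.x 2) (S.i S.s), neg_neg]
  unfold ω
  rw [h2]
  exact smul_ne_zero (inv_ne_zero (mul_ne_zero (S.cluster.ne_zero 1) (S.cluster.ne_zero 2))) h1

/-- derivations which preserve the ring -/
theorem upper1_D_ring (D : Derivation ℂ L L) (h1 : D (S.i S.w) ∈ S.sqData.ring)
    (h2 : D (S.i S.s) ∈ S.sqData.ring) (h3 : D S.wX ∈ S.sqData.ring)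
    (h4 : D S.wη ∈ S.sqData.ring) {f : L} (hf : f ∈ S.sqData.ring) : D f ∈ S.sqData.ring := by
  have hi : ∀ c, D (S.i c) ∈ S.sqData.ring := by
    intro c
    rw [S.upper1_D_i D c]
    exact Subring.add_mem _ (Subring.mul_mem _ h1 (S.upper1_mem_i _))
      (Subring.mul_mem _ h2 (S.upper1_mem_i _))
  have hj : ∀ p : K[X], D (eval₂ S.i S.wX p) ∈ S.sqData.ring := by
    intro p
    induction p using Polynomial.induction_on with
    | C a =>
      rw [eval₂_C]
      exact hi a
    | add p q hp hq =>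
      rw [eval₂_add, map_add]
      exact Subring.add_mem _ hp hq
    | monomial n a hn =>
      have e : eval₂ S.i S.wX (C a * X ^ (n + 1)) = eval₂ S.i S.wX (C a * X ^ n) * S.wX := by
        simp only [eval₂_mul, eval₂_pow, eval₂_X, pow_succ, mul_assoc]
      rw [e, Derivation.leibniz, smul_eq_mul, smul_eq_mul]
      exact Subring.add_mem _ (Subring.mul_mem _ (S.upper1_mem_j _) h3)
        (Subring.mul_mem _ S.upper1_mem_X hn)
  obtain ⟨p, q, rfl⟩ := S.upper1_cases hf
  rw [map_add, Derivation.leibniz, smul_eq_mul, smul_eq_mul]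
  exact Subring.add_mem _ (hj p) (Subring.add_mem _ (Subring.mul_mem _ (S.upper1_mem_j q) h4)
    (Subring.mul_mem _ S.upper1_mem_η (hj q)))

end Setup

/-- the quotient rule -/
theorem upper1_quot {L : Type} [Field L] [Algebra ℂ L] (B : Subring L) (𝔭 : Ideal B)
    [h𝔭 : 𝔭.IsPrime] (D : Derivation ℂ L L) (hD : ∀ f ∈ B, D f ∈ B) {g : L}
    (hg : g ∈ locAt B 𝔭) : D g ∈ locAt B 𝔭 := by
  obtain ⟨a, b, hb, rfl⟩ := (mem_locAt B).1 hg
  have hb0 : (b : L) ≠ 0 := by
    intro h
    apply hb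
    have : b = 0 := Subtype.ext h
    rw [this]
    exact 𝔭.zero_mem
  refine (mem_locAt B).2 ⟨b * ⟨D a, hD a a.2⟩ - a * ⟨D b, hD b b.2⟩, b * b, ?_, ?_⟩
  · intro h
    rcases h𝔭.mem_or_mem h with h | h
    · exact hb h
    · exact hb h
  · rw [div_eq_mul_inv, Derivation.leibniz, Derivation.leibniz_inv]
    simp only [smul_eq_mul]
    push_cast
    field_simp
    ring

namespace Setup

variable {K L : Type} [Field K] [Algebra ℂ K] [Field L] [Algebra ℂ L] (S : Setup K L)

/-- the derivative with respect to `s` -/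
theorem upper1_pd : S.hL.pd 2 (S.i S.w) = 0 ∧ S.hL.pd 2 (S.i S.s) = 1 ∧ S.hL.pd 2 S.wX = 0 ∧
    S.hL.pd 2 S.wη = 0 := by
  obtain ⟨D, hD⟩ : ∃ D, D = S.hL.pd 2 := ⟨_, rfl⟩
  rw [← hD]
  have d1 : D (S.x 1) = 0 := by
    have := S.hL.pd_apply 2 0
    rw [hD]
    simpa using this
  have d2 : D (S.x 2) = 0 := by
    have := S.hL.pd_apply 2 1
    rw [hD]
    simpa using this
  have ds : D (S.i S.s) = 1 := by
    have := S.hL.pd_apply 2 2
    rw [hD]
    simpa using this
  have hr1 : S.x 0 * S.x 2 = 1 + S.x 1 := S.cluster.rel 1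
  have hr2 : S.x 1 * S.x 3 = 1 + S.x 2 := S.cluster.rel 2
  have hr3 : S.x 2 * S.x 4 = 1 + S.x 3 := S.cluster.rel 3
  have h1 : D (1 : L) = 0 := D.map_one_eq_zero
  have d0 : D (S.x 0) = 0 := by
    have := congrArg D hr1
    rw [Derivation.leibniz, map_add, d1, d2, h1, smul_zero, zero_add, add_zero, smul_eq_mul] at this
    exact (mul_eq_zero.1 this).resolve_left (S.cluster.ne_zero 2)
  have d3 : D (S.x 3) = 0 := by
    have := congrArg D hr2
    rw [Derivation.leibniz, map_add, d1, d2, h1, smul_zero, add_zero, add_zero, smul_eq_mul] at this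
    exact (mul_eq_zero.1 this).resolve_left (S.cluster.ne_zero 1)
  have d4 : D (S.x 4) = 0 := by
    have := congrArg D hr3
    rw [Derivation.leibniz, map_add, d3, d2, h1, smul_zero, add_zero, add_zero, smul_eq_mul] at this
    exact (mul_eq_zero.1 this).resolve_left (S.cluster.ne_zero 2)
  have dw : D (S.i S.w) = 0 := by
    rw [S.hw]
    simp only [Derivation.leibniz, d0, d1, d2, d3, d4, smul_zero, add_zero]
  have dX : D S.wX = 0 := by
    unfold wX
    rw [div_eq_mul_inv, Derivation.leibniz, Derivation.leibniz_inv, d3, map_neg, dw, neg_zero,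
      smul_zero, smul_zero, smul_zero, add_zero]
  have dy : D S.wy = 0 := by
    unfold wy
    simp only [map_neg, Derivation.leibniz, Derivation.leibniz_pow, d0, d1, d2, d4, smul_zero,
      add_zero, neg_zero]
  have hn2 : D (2 : L) = 0 := by
    have := D.map_natCast 2
    exact_mod_cast this
  refine ⟨dw, ds, dX, ?_⟩
  unfold wη
  simp only [map_add, map_sub, Derivation.leibniz, dy, dw, dX, h1, hn2, smul_zero, add_zero,
    sub_zero]

/-- Let `K ⊆ E` and `X ∈ E`. Then `ord_E ω ≤ 0`. Proof: `A ⊆ E` with `A = S.sqData.ring`, so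
`E = A_𝔭` (`exists_eq_locAt`, `SqData.isDedekindDomain`). Let `H` be as in `exists_bracket`. Values:
* `H_w : w ↦ 0, s ↦ 0, X ↦ η, η ↦ Q'(X) / 2`; * `H_X : w ↦ - η, s ↦ 0, X ↦ 0, η ↦ - Q_w / 2`;
* `H_η : w ↦ - Q'(X) / 2, s ↦ 0, X ↦ Q_w / 2, η ↦ 0`; * `∂₃ : w ↦ 0, s ↦ 1, X ↦ 0, η ↦ 0`.
Here `Q_w` is the derivative of `Q` with respect to `w`, at `X`. Indeed `H_w X = η` from `T_w_X`
(note `ω ≠ 0`), and `η² = Q(X)`, so `2 η H_w(η) = Q'(X) H_w(X)` and
`2 η H_X(η) = Q_w H_X(w) = - Q_w η`; `∂₃ η = 0` as `w, X, η` are rational functions of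
`x₁, x₂`. So all four derivations map `K = ℂ(w, s)` into `A` (on `K` they are combinations of
the partial derivatives of `K`: `D (i c) = D(w) i(∂_w c) + D(s) i(∂_s c)`, with `S.hK.pd`), hence they
map `A` to `A`, and `A_𝔭` to `A_𝔭` by the quotient rule. Let `FormOrdGE E ω k` and `k ≥ 1`. By
`le_of_formOrdGE` for `![∂₃, H_w, H_X]` and `![∂₃, H_w, H_η]`, with the coefficients `H_w(X) = η` and
`H_w(η) = Q'(X) / 2` of `ω` we get `v(η) ≥ 1` and `v(Q'(X)) ≥ 1` (both are nonzero; `Q'(X) ≠ 0` because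
`X` is transcendental over `K`). So `v(Q(X)) = 2 v(η) ≥ 1`, which contradicts `bezout`
evaluated at `X`. -/
theorem ω_upper {E : Subring L} (hE : IsDivisorial E) (hK : ∀ c, S.i c ∈ E) (hX : S.wX ∈ E)
    {k : ℤ} (hk : FormOrdGE E S.ω k) : k ≤ 0 := by
  have hAE := S.ring_le hE hK hX
  have hDed : IsDedekindDomain S.sqData.ring := S.sqData.isDedekindDomain
  have hdvr : IsDiscreteValuationRing E := hE.dvr
  obtain ⟨𝔭, h𝔭, -, hEp⟩ := exists_eq_locAt S.sqData.ring hE.total hAE
  obtain ⟨H, hT, hHs, hself, hanti, hcoef⟩ := S.exists_bracket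
  have hη0 := S.wη_ne_zero
  have h20 : (2 : L) ≠ 0 := by
    have : CharZero L := charZero_of_injective_algebraMap (algebraMap ℂ L).injective
    exact two_ne_zero
  -- the values of the derivations
  have hwX : H (S.i S.w) S.wX = S.wη := by
    have h1 := hT (S.i S.w) S.wX
    rw [S.T_w_X] at h1
    exact (smul_left_injective L S.upper1_ω_ne_zero h1).symm
  have hwη : H (S.i S.w) S.wη = S.upper1_Q1 / 2 := by
    have h1 := S.upper1_DQ (H (S.i S.w))
    rw [hwX, hself, mul_zero, add_zero] at h1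
    rw [eq_div_iff h20]
    apply mul_right_cancel₀ hη0
    linear_combination h1
  have hXw : H S.wX (S.i S.w) = -S.wη := by rw [hanti, hwX]
  have hXη : H S.wX S.wη = -(S.upper1_Qw / 2) := by
    have h1 := S.upper1_DQ (H S.wX)
    rw [hXw, hself, mul_zero, zero_add] at h1
    rw [eq_neg_iff_add_eq_zero, ← eq_neg_iff_add_eq_zero, ← neg_div, eq_div_iff h20]
    apply mul_right_cancel₀ hη0
    linear_combination h1
  have hηw : H S.wη (S.i S.w) = -(S.upper1_Q1 / 2) := by rw [hanti, hwη]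
  have hηX : H S.wη S.wX = S.upper1_Qw / 2 := by rw [hanti, hXη, neg_neg]
  -- membership in the ring
  have mη := S.upper1_mem_η
  have mX := S.upper1_mem_X
  have mw := S.upper1_mem_i S.w
  have mn : ∀ n : ℕ, ((n : ℕ) : L) ∈ S.sqData.ring := fun n => natCast_mem _ n
  have m2 : (2 : L) ∈ S.sqData.ring := by exact_mod_cast mn 2
  have m4 : (4 : L) ∈ S.sqData.ring := by exact_mod_cast mn 4
  have m6 : (6 : L) ∈ S.sqData.ring := by exact_mod_cast mn 6
  have mhalf : ∀ f ∈ S.sqData.ring, f / 2 ∈ S.sqData.ring := by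
    intro f hf
    have h1 := S.upper1_mem_i (2⁻¹ : K)
    rw [map_inv₀, map_ofNat] at h1
    rw [div_eq_mul_inv]
    exact Subring.mul_mem _ hf h1
  have mQ1 : S.upper1_Q1 ∈ S.sqData.ring := by
    rw [← S.upper1_Q']
    exact S.upper1_mem_j _
  have mQw : S.upper1_Qw ∈ S.sqData.ring := by
    unfold upper1_Qw
    exact Subring.add_mem _ (Subring.sub_mem _ (Subring.mul_mem _ (Subring.sub_mem _
      (Subring.mul_mem _ m2 mw) m6) (Subring.pow_mem _ mX 2)) (Subring.mul_mem _ (Subring.sub_mem _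
        m2 (Subring.mul_mem _ m4 mw)) mX)) (Subring.mul_mem _ m2 mw)
  have m0 : (0 : L) ∈ S.sqData.ring := Subring.zero_mem _
  -- the derivations preserve `E`
  obtain ⟨p1, p2, p3, p4⟩ := S.upper1_pd
  have key : ∀ D : Derivation ℂ L L, D (S.i S.w) ∈ S.sqData.ring → D (S.i S.s) ∈ S.sqData.ring →
      D S.wX ∈ S.sqData.ring → D S.wη ∈ S.sqData.ring → ∀ g ∈ E, D g ∈ E := by
    intro D h1 h2 h3 h4 g hg
    rw [hEp] at hg ⊢
    exact upper1_quot S.sqData.ring 𝔭 D (fun f hf => S.upper1_D_ring D h1 h2 h3 h4 hf) hg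
  have k3 := key (S.hL.pd 2) (by rw [p1]; exact m0) (by rw [p2]; exact Subring.one_mem _)
    (by rw [p3]; exact m0) (by rw [p4]; exact m0)
  have kw := key (H (S.i S.w)) (by rw [hself]; exact m0) (by rw [hHs]; exact m0)
    (by rw [hwX]; exact mη) (by rw [hwη]; exact mhalf _ mQ1)
  have kX := key (H S.wX) (by rw [hXw]; exact Subring.neg_mem _ mη) (by rw [hHs]; exact m0)
    (by rw [hself]; exact m0) (by rw [hXη]; exact Subring.neg_mem _ (mhalf _ mQw))
  have kη := key (H S.wη) (by rw [hηw]; exact Subring.neg_mem _ (mhalf _ mQ1))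
    (by rw [hHs]; exact m0) (by rw [hηX]; exact mhalf _ mQw) (by rw [hself]; exact m0)
  -- the coefficients
  have c1 := hcoef (S.i S.w) S.wX
  rw [hwX] at c1
  have c2 := hcoef (S.i S.w) S.wη
  rw [hwη] at c2
  have hQ10 : S.upper1_Q1 ≠ 0 := by
    rw [← S.upper1_Q']
    intro h0
    have h1 : eval₂RingHom S.i S.wX (derivative S.wQ) = eval₂RingHom S.i S.wX 0 := by
      rw [map_zero]
      exact h0
    have h2 := S.eval_injective h1
    have h3 : (derivative S.wQ).coeff 2 = 12 := by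
      unfold wQ
      simp only [coeff_derivative, coeff_add, coeff_sub, coeff_C_mul, coeff_X_pow, coeff_X,
        coeff_C]
      norm_num
    rw [h2, coeff_zero] at h3
    have : CharZero K := charZero_of_injective_algebraMap (algebraMap ℂ K).injective
    norm_num at h3
  have e1 : k ≤ vord E S.wη := by
    have h1 := le_of_formOrdGE hE (d := ![S.hL.pd 2, H (S.i S.w), H S.wX]) (by
      intro j
      fin_cases j
      · exact k3
      · exact kw
      · exact kX) (by rw [c1]; exact hη0) hk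
    rwa [c1] at h1
  have e2 : k ≤ vord E (S.upper1_Q1 / 2) := by
    have h1 := le_of_formOrdGE hE (d := ![S.hL.pd 2, H (S.i S.w), H S.wη]) (by
      intro j
      fin_cases j
      · exact k3
      · exact kw
      · exact kη) (by rw [c2]; exact div_ne_zero hQ10 h20) hk
    rwa [c2] at h1
  by_contra hcon
  push Not at hcon
  obtain ⟨t, ht, ht0, ht1⟩ := exists_uniformizer hE
  have f1 : S.wη / t ∈ E := by
    rw [mem_iff hE]
    right
    rw [vord_div hE hη0 ht0, ht1]
    omega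
  have f2 : S.upper1_Q1 / 2 / t ∈ E := by
    rw [mem_iff hE]
    right
    rw [vord_div hE (div_ne_zero hQ10 h20) ht0, ht1]
    omega
  obtain ⟨P₁, P₂, hP⟩ := S.bezout
  have hev := congrArg (eval₂ S.i S.wX) hP
  rw [eval₂_add, eval₂_mul, eval₂_mul, eval₂_one, ← S.η_sq, S.upper1_Q'] at hev
  have g1 : eval₂ S.i S.wX P₁ ∈ E := hAE (S.upper1_mem_j _)
  have g2 : eval₂ S.i S.wX P₂ ∈ E := hAE (S.upper1_mem_j _)
  have hinv : t⁻¹ ∈ E := by
    have h1 : t⁻¹ = eval₂ S.i S.wX P₁ * S.wη * (S.wη / t) +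
        eval₂ S.i S.wX P₂ * 2 * (S.upper1_Q1 / 2 / t) := by
      field_simp
      linear_combination -hev
    rw [h1]
    exact E.add_mem (E.mul_mem (E.mul_mem g1 (hAE mη)) f1) (E.mul_mem (E.mul_mem g2 (hAE m2)) f2)
  rw [mem_iff hE, vord_inv hE, ht1] at hinv
  rcases hinv with h | h
  · exact inv_ne_zero ht0 h
  · omega

end Setup

end Pool.Agent.MP_5c6cc8_ag
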