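import Pool.Agent.MP_5c6cc8_ag.Weier

/-! # Row Upper2: the local rings of the affine generic fibre are divisorial -/

open Polynomial

namespace Pool.Agent.MP_5c6cc8_ag

namespace Setup

variable {K L : Type} [Field K] [Algebra ℂ K] [Field L] [Algebra ℂ L] (S : Setup K L)

/-- `ℂ[w, s, X, η]` -/
noncomputable def upper2_T : Finset L := by
  classical exact {S.i S.w, S.i S.s, S.wX, S.wη}

theorem upper2_w : S.i S.w ∈ Algebra.adjoin ℂ (S.upper2_T : Set L) := by
  classical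
  exact Algebra.subset_adjoin (by simp [upper2_T])

theorem upper2_s : S.i S.s ∈ Algebra.adjoin ℂ (S.upper2_T : Set L) := by
  classical
  exact Algebra.subset_adjoin (by simp [upper2_T])

theorem upper2_X : S.wX ∈ Algebra.adjoin ℂ (S.upper2_T : Set L) := by
  classical
  exact Algebra.subset_adjoin (by simp [upper2_T])

theorem upper2_η : S.wη ∈ Algebra.adjoin ℂ (S.upper2_T : Set L) := by
  classical
  exact Algebra.subset_adjoin (by simp [upper2_T])

theorem upper2_i (c : K) : S.i c ∈ S.sqData.ring := by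
  refine (SqData.mem_ring _).2 ⟨C c, 0, ?_⟩
  show S.i c = eval₂RingHom S.i S.wX (C c) + eval₂RingHom S.i S.wX 0 * S.wη
  rw [map_zero, zero_mul, add_zero, coe_eval₂RingHom, eval₂_C]

theorem upper2_wX : S.wX ∈ S.sqData.ring := by
  refine (SqData.mem_ring _).2 ⟨X, 0, ?_⟩
  show S.wX = eval₂RingHom S.i S.wX X + eval₂RingHom S.i S.wX 0 * S.wη
  rw [map_zero, zero_mul, add_zero, coe_eval₂RingHom, eval₂_X]

theorem upper2_wη : S.wη ∈ S.sqData.ring := by
  refine (SqData.mem_ring _).2 ⟨0, 1, ?_⟩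
  show S.wη = eval₂RingHom S.i S.wX 0 + eval₂RingHom S.i S.wX 1 * S.wη
  rw [map_zero, map_one, one_mul, zero_add]

theorem upper2_le {f : L} (hf : f ∈ Algebra.adjoin ℂ (S.upper2_T : Set L)) : f ∈ S.sqData.ring := by
  classical
  induction hf using Algebra.adjoin_induction with
  | mem x hx =>
    simp only [upper2_T, Finset.coe_insert, Finset.coe_singleton, Set.mem_insert_iff,
      Set.mem_singleton_iff] at hx
    rcases hx with rfl | rfl | rfl | rfl
    · exact S.upper2_i _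
    · exact S.upper2_i _
    · exact S.upper2_wX
    · exact S.upper2_wη
  | algebraMap c =>
    rw [← S.hi]
    exact S.upper2_i _
  | add x y _ _ hx hy => exact S.sqData.ring.add_mem hx hy
  | mul x y _ _ hx hy => exact S.sqData.ring.mul_mem hx hy

theorem upper2_aeval (p : MvPolynomial (Fin 2) ℂ) :
    S.i (MvPolynomial.aeval ![S.w, S.s] p) ∈ Algebra.adjoin ℂ (S.upper2_T : Set L) := by
  induction p using MvPolynomial.induction_on with
  | C c =>
    rw [MvPolynomial.aeval_C, S.hi]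
    exact Subalgebra.algebraMap_mem _ _
  | add p q hp hq =>
    rw [map_add, map_add]
    exact Subalgebra.add_mem _ hp hq
  | mul_X p j hp =>
    rw [map_mul, map_mul, MvPolynomial.aeval_X]
    refine Subalgebra.mul_mem _ hp ?_
    match j with
    | 0 => exact S.upper2_w
    | 1 => exact S.upper2_s

/-- denominators of elements of `K` -/
theorem upper2_K (c : K) : ∃ d : K, d ≠ 0 ∧ S.i d ∈ Algebra.adjoin ℂ (S.upper2_T : Set L) ∧
    S.i d * S.i c ∈ Algebra.adjoin ℂ (S.upper2_T : Set L) := by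
  obtain ⟨p, q, hq, hc⟩ := S.hK.exists_div c
  have hq' := S.hK.aeval_ne_zero hq
  refine ⟨MvPolynomial.aeval ![S.w, S.s] q, hq', S.upper2_aeval q, ?_⟩
  rw [← map_mul, hc, mul_div_cancel₀ _ hq']
  exact S.upper2_aeval p

/-- denominators of polynomials -/
theorem upper2_poly (p : K[X]) : ∃ d : K, d ≠ 0 ∧ S.i d ∈ Algebra.adjoin ℂ (S.upper2_T : Set L) ∧
    S.i d * eval₂RingHom S.i S.wX p ∈ Algebra.adjoin ℂ (S.upper2_T : Set L) := by
  induction p using Polynomial.induction_on' with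
  | add p q hp hq =>
    obtain ⟨d, hd, h1, h2⟩ := hp
    obtain ⟨e, he, h3, h4⟩ := hq
    refine ⟨d * e, mul_ne_zero hd he, ?_, ?_⟩
    · rw [map_mul]
      exact Subalgebra.mul_mem _ h1 h3
    · rw [map_mul, map_add]
      have : S.i d * S.i e * (eval₂RingHom S.i S.wX p + eval₂RingHom S.i S.wX q) =
          S.i e * (S.i d * eval₂RingHom S.i S.wX p) + S.i d * (S.i e * eval₂RingHom S.i S.wX q) := by
        ring
      rw [this]
      exact Subalgebra.add_mem _ (Subalgebra.mul_mem _ h3 h2) (Subalgebra.mul_mem _ h1 h4)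
  | monomial n c =>
    obtain ⟨d, hd, h1, h2⟩ := S.upper2_K c
    refine ⟨d, hd, h1, ?_⟩
    rw [coe_eval₂RingHom, eval₂_monomial, ← mul_assoc]
    exact Subalgebra.mul_mem _ h2 (Subalgebra.pow_mem _ S.upper2_X n)

/-- denominators of elements of the ring -/
theorem upper2_ring {f : L} (hf : f ∈ S.sqData.ring) : ∃ d : K, d ≠ 0 ∧
    S.i d ∈ Algebra.adjoin ℂ (S.upper2_T : Set L) ∧
    S.i d * f ∈ Algebra.adjoin ℂ (S.upper2_T : Set L) := by
  obtain ⟨p, q, hpq⟩ := (SqData.mem_ring _).1 hf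
  have hf' : f = eval₂RingHom S.i S.wX p + eval₂RingHom S.i S.wX q * S.wη := hpq
  obtain ⟨d, hd, h1, h2⟩ := S.upper2_poly p
  obtain ⟨e, he, h3, h4⟩ := S.upper2_poly q
  refine ⟨d * e, mul_ne_zero hd he, ?_, ?_⟩
  · rw [map_mul]
    exact Subalgebra.mul_mem _ h1 h3
  · rw [map_mul, hf']
    have : S.i d * S.i e * (eval₂RingHom S.i S.wX p + eval₂RingHom S.i S.wX q * S.wη) =
        S.i e * (S.i d * eval₂RingHom S.i S.wX p) +
          S.i d * (S.i e * eval₂RingHom S.i S.wX q) * S.wη := by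
      ring
    rw [this]
    exact Subalgebra.add_mem _ (Subalgebra.mul_mem _ h3 h2)
      (Subalgebra.mul_mem _ (Subalgebra.mul_mem _ h1 h4) S.upper2_η)

/-- For a nonzero prime `𝔭` of `A = K[X] ⊕ K[X] η` the ring `A_𝔭` is divisorial. Proof: `locAt_dvr`,
`locAt_total`; for `essFinite` take `T = {w, s, X, η}`: an element of `A_𝔭` is `a / b`, `a, b ∈ A`,
`b ∉ 𝔭`, and multiplying `a` and `b` by a nonzero `c ∈ ℂ[w, s]` (a unit in `A_𝔭`) we may assume that
`a, b ∈ ℂ[w, s, X, η]`. -/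
theorem locAt_isDivisorial (𝔭 : Ideal S.sqData.ring) [h𝔭 : 𝔭.IsPrime] (h0 : 𝔭 ≠ ⊥) :
    IsDivisorial (locAt S.sqData.ring 𝔭) ∧ (∀ c, S.i c ∈ locAt S.sqData.ring 𝔭) ∧
      S.wX ∈ locAt S.sqData.ring 𝔭 := by
  classical
  have hD : IsDedekindDomain S.sqData.ring := SqData.isDedekindDomain _
  have hle := le_locAt S.sqData.ring 𝔭
  have hi : ∀ c, S.i c ∈ locAt S.sqData.ring 𝔭 := fun c => hle (S.upper2_i c)
  refine ⟨⟨locAt_dvr _ 𝔭 h0, locAt_total _ 𝔭 h0, S.upper2_T, ?_, ?_⟩, hi, hle S.upper2_wX⟩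
  · intro f hf
    exact hle (S.upper2_le hf)
  · intro g hg
    obtain ⟨a, b, hb, hgab⟩ := (mem_locAt _).1 hg
    obtain ⟨d, hd, h1, h2⟩ := S.upper2_ring a.2
    obtain ⟨e, he, h3, h4⟩ := S.upper2_ring b.2
    have hd' : S.i d ≠ 0 := (map_ne_zero S.i).2 hd
    have he' : S.i e ≠ 0 := (map_ne_zero S.i).2 he
    have hb' : (b : L) ≠ 0 := by
      intro h
      apply hb
      have h5 : b = 0 := Subtype.ext h
      rw [h5]
      exact 𝔭.zero_mem
    refine ⟨S.i e * (S.i d * a), Subalgebra.mul_mem _ h3 h2, S.i d * (S.i e * b),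
      Subalgebra.mul_mem _ h1 h4, ⟨?_, ?_, ?_⟩, ?_⟩
    · exact mul_ne_zero hd' (mul_ne_zero he' hb')
    · exact Subring.mul_mem _ (hi d) (Subring.mul_mem _ (hi e) (hle b.2))
    · have h5 : (S.i d * (S.i e * (b : L)))⁻¹ = S.i d⁻¹ * (S.i e⁻¹ * (1 / (b : L))) := by
        rw [map_inv₀, map_inv₀, mul_inv, mul_inv, one_div]
      rw [h5]
      refine Subring.mul_mem _ (hi _) (Subring.mul_mem _ (hi _) ?_)
      exact (mem_locAt _).2 ⟨1, b, hb, by simp⟩
    · rw [hgab]
      field_simp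

end Setup

end Pool.Agent.MP_5c6cc8_ag
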