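import Pool.Agent.MP_5c6cc8_ag.Val1

/-! # Row Val2: orders of forms -/

namespace Pool.Agent.MP_5c6cc8_ag

variable {F : Type} [Field F] [Algebra ℂ F] {R : Subring F}

variable {n : ℕ} {ω : Form F n}

theorem val2_smul_mem {u : F} (hu : u ∈ R) {η : Form F n} (hη : η ∈ formLattice R n) :
    u • η ∈ formLattice R n :=
  (formLattice R n).smul_mem (⟨u, hu⟩ : R) hη


theorem formOrdGE_iff (hR : IsDivisorial R) {t : F} (ht : t ≠ 0) (ht1 : vord R t = 1) (m : ℤ) :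
    FormOrdGE R ω m ↔ (t ^ (-m)) • ω ∈ formLattice R n := by
  constructor
  · rintro ⟨g, hg, η, hη, rfl⟩
    rw [hasOrd_iff hR] at hg
    rw [smul_smul]
    refine val2_smul_mem ?_ hη
    rw [mem_iff hR]
    right
    rw [vord_mul hR (zpow_ne_zero _ ht) hg.1, vord_zpow hR, ht1, hg.2]
    omega
  · intro h
    refine ⟨t ^ m, ?_, _, h, ?_⟩
    · rw [hasOrd_iff hR, vord_zpow hR, ht1]
      exact ⟨zpow_ne_zero _ ht, by omega⟩
    · rw [smul_smul, ← zpow_add₀ ht, add_neg_cancel, zpow_zero, one_smul]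

theorem formOrdGE_mono (hR : IsDivisorial R) {m m' : ℤ} (h : FormOrdGE R ω m) (hm : m' ≤ m) :
    FormOrdGE R ω m' := by
  obtain ⟨t, -, ht, ht1⟩ := exists_uniformizer hR
  rw [formOrdGE_iff hR ht ht1] at h ⊢
  have h1 : (t ^ (-m')) • ω = (t ^ (m - m')) • ((t ^ (-m)) • ω) := by
    rw [smul_smul, ← zpow_add₀ ht]
    congr 2
    omega
  rw [h1]
  refine val2_smul_mem ?_ h
  rw [mem_iff hR]
  right
  rw [vord_zpow hR, ht1]
  omega

theorem formOrdGE_smul_iff (hR : IsDivisorial R) {c : F} (hc : c ≠ 0) (m : ℤ) :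
    FormOrdGE R (c • ω) (m + vord R c) ↔ FormOrdGE R ω m := by
  constructor
  · rintro ⟨g, hg, η, hη, h⟩
    rw [hasOrd_iff hR] at hg
    refine ⟨c⁻¹ * g, ?_, η, hη, ?_⟩
    · rw [hasOrd_iff hR, vord_mul hR (inv_ne_zero hc) hg.1, vord_inv hR, hg.2]
      exact ⟨mul_ne_zero (inv_ne_zero hc) hg.1, by omega⟩
    · rw [mul_smul, ← h, smul_smul, inv_mul_cancel₀ hc, one_smul]
  · rintro ⟨g, hg, η, hη, rfl⟩
    rw [hasOrd_iff hR] at hg
    refine ⟨c * g, ?_, η, hη, ?_⟩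
    · rw [hasOrd_iff hR, vord_mul hR hc hg.1, hg.2]
      exact ⟨mul_ne_zero hc hg.1, by omega⟩
    · rw [mul_smul]

theorem formOrdGE_zero_iff (hR : IsDivisorial R) : FormOrdGE R ω 0 ↔ ω ∈ formLattice R n := by
  obtain ⟨t, -, ht, ht1⟩ := exists_uniformizer hR
  rw [formOrdGE_iff hR ht ht1, neg_zero, zpow_zero, one_smul]

theorem hasFormOrd_smul_iff (hR : IsDivisorial R) {c : F} (hc : c ≠ 0) (m : ℤ) :
    HasFormOrd R (c • ω) (m + vord R c) ↔ HasFormOrd R ω m := by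
  unfold HasFormOrd
  rw [formOrdGE_smul_iff hR hc]
  refine and_congr_right fun _ => ?_
  constructor
  · intro h k hk
    have h1 := h (k + vord R c) ((formOrdGE_smul_iff hR hc k).2 hk)
    omega
  · intro h k hk
    have h1 := h (k - vord R c) ((formOrdGE_smul_iff hR hc _).1 (by rwa [sub_add_cancel]))
    omega

theorem HasFormOrd.unique {m m' : ℤ} (h : HasFormOrd R ω m) (h' : HasFormOrd R ω m') :
    m = m' := by
  exact le_antisymm (h'.2 m h.1) (h.2 m' h'.1)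

theorem HasLogDisc.unique (hR : IsDivisorial R) {φ : F} {r : ℕ} {a a' : ℚ}
    (h : HasLogDisc ω φ r R a) (h' : HasLogDisc ω φ r R a') : a = a' := by
  obtain ⟨k, l, h1, h2, rfl⟩ := h
  obtain ⟨k', l', h1', h2', rfl⟩ := h'
  rw [hasOrd_iff hR] at h2 h2'
  rw [h1.unique h1', ← h2.2, ← h2'.2]

theorem mem_formLattice_wedge (f : Fin n → F) (hf : ∀ i, f i ∈ R) :
    wedge f ∈ formLattice R n := by
  exact Submodule.subset_span ⟨f, hf, rfl⟩

end Pool.Agent.MP_5c6cc8_ag
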