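import Pool.Agent.MP_5c6cc8_ag.Defs

/-! # Row Val1: the order function of a divisorial valuation ring -/

set_option linter.unusedSectionVars false

namespace Pool.Agent.MP_5c6cc8_ag

variable {F : Type} [Field F] [Algebra ℂ F] {R : Subring F}

open Classical in
/-- The order of `g` along `R` (junk value `0` for `g = 0`). -/
noncomputable def vord (R : Subring F) (g : F) : ℤ :=
  if h : ∃ m, HasOrd R g m then h.choose else 0

theorem val1_ne {g : F} (h : IsUnitIn R g) : g ≠ 0 := h.1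

theorem val1_one : IsUnitIn R (1 : F) := ⟨one_ne_zero, R.one_mem, by rw [inv_one]; exact R.one_mem⟩

theorem val1_mul {g h : F} (hg : IsUnitIn R g) (hh : IsUnitIn R h) : IsUnitIn R (g * h) :=
  ⟨mul_ne_zero hg.1 hh.1, R.mul_mem hg.2.1 hh.2.1, by
    rw [mul_inv]
    exact R.mul_mem hg.2.2 hh.2.2⟩

theorem val1_inv {g : F} (hg : IsUnitIn R g) : IsUnitIn R g⁻¹ :=
  ⟨inv_ne_zero hg.1, hg.2.2, by rw [inv_inv]; exact hg.2.1⟩

theorem val1_div {g h : F} (hg : IsUnitIn R g) (hh : IsUnitIn R h) : IsUnitIn R (g / h) := by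
  rw [div_eq_mul_inv]
  exact val1_mul hg (val1_inv hh)

theorem val1_neg {g : F} (hg : IsUnitIn R g) : IsUnitIn R (-g) :=
  ⟨neg_ne_zero.2 hg.1, R.neg_mem hg.2.1, by rw [inv_neg]; exact R.neg_mem hg.2.2⟩

theorem val1_pow {g : F} (hg : IsUnitIn R g) (n : ℕ) : IsUnitIn R (g ^ n) := by
  induction n with
  | zero => rw [pow_zero]; exact val1_one
  | succ n ih => rw [pow_succ]; exact val1_mul ih hg

theorem val1_zpow {g : F} (hg : IsUnitIn R g) (n : ℤ) : IsUnitIn R (g ^ n) := by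
  cases n with
  | ofNat n => rw [Int.ofNat_eq_natCast, zpow_natCast]; exact val1_pow hg n
  | negSucc n => rw [zpow_negSucc]; exact val1_inv (val1_pow hg _)

theorem val1_of_isUnit {x : R} (hx : IsUnit x) : IsUnitIn R (x : F) := by
  obtain ⟨u, rfl⟩ := hx
  have h1 : ((u : R) : F) * ((u⁻¹ : Rˣ) : R) = 1 := by
    have h2 : (u : R) * ((u⁻¹ : Rˣ) : R) = 1 := Units.mul_inv u
    exact congrArg Subtype.val h2
  have h0 : ((u : R) : F) ≠ 0 := left_ne_zero_of_mul_eq_one h1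
  refine ⟨h0, (u : R).2, ?_⟩
  rw [inv_eq_of_mul_eq_one_right h1]
  exact ((u⁻¹ : Rˣ) : R).2

theorem val1_isUnit {x : R} (hx : IsUnitIn R (x : F)) : IsUnit x := by
  refine IsUnit.of_mul_eq_one (⟨(x : F)⁻¹, hx.2.2⟩ : R) ?_
  apply Subtype.ext
  show (x : F) * (x : F)⁻¹ = 1
  exact mul_inv_cancel₀ hx.1

theorem val1_irr_ne {ϖ : R} (h : Irreducible ϖ) : (ϖ : F) ≠ 0 := by
  intro h0
  exact h.ne_zero (Subtype.ext h0)

/-- a power of a uniformizer is a unit only for the exponent zero -/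
theorem val1_exp {ϖ : R} (h : Irreducible ϖ) {m : ℤ} (hm : IsUnitIn R ((ϖ : F) ^ m)) : m = 0 := by
  have key : ∀ n : ℕ, IsUnitIn R ((ϖ : F) ^ n) → n = 0 := by
    intro n hn
    by_contra h0
    obtain ⟨k, rfl⟩ := Nat.exists_eq_succ_of_ne_zero h0
    have h1 : IsUnit (ϖ ^ (k + 1)) := by
      refine val1_isUnit ?_
      have e : ((ϖ ^ (k + 1) : R) : F) = (ϖ : F) ^ (k + 1) := by push_cast; rfl
      rw [e]
      exact hn
    exact h.not_isUnit (isUnit_of_mul_isUnit_right (by rw [← pow_succ]; exact h1))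
  rcases Int.eq_nat_or_neg m with ⟨n, rfl | rfl⟩
  · rw [zpow_natCast] at hm
    rw [key n hm, Nat.cast_zero]
  · have h2 := val1_inv hm
    rw [zpow_neg, inv_inv, zpow_natCast] at h2
    rw [key n h2, Nat.cast_zero, neg_zero]

theorem val1_assoc (hR : IsDivisorial R) {ϖ ϖ' : R} (h : Irreducible ϖ) (h' : Irreducible ϖ') :
    IsUnitIn R ((ϖ : F) / ϖ') := by
  have := hR.dvr
  obtain ⟨u, hu⟩ := IsDiscreteValuationRing.associated_of_irreducible R h' h
  have h1 : (ϖ : F) = (ϖ' : F) * ((u : R) : F) := by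
    rw [← hu]
    push_cast
    rfl
  rw [h1, mul_div_cancel_left₀ _ (val1_irr_ne h')]
  exact val1_of_isUnit u.isUnit

/-- the uniformizer can be chosen -/
theorem val1_hasOrd (hR : IsDivisorial R) {ϖ : R} (h : Irreducible ϖ) {g : F} {m : ℤ} :
    HasOrd R g m ↔ IsUnitIn R (g / (ϖ : F) ^ m) := by
  constructor
  · rintro ⟨ϖ', h', hu⟩
    have h1 := val1_mul hu (val1_zpow (val1_assoc hR h' h) m)
    have e : g / (ϖ' : F) ^ m * ((ϖ' : F) / ϖ) ^ m = g / (ϖ : F) ^ m := by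
      have h2 := zpow_ne_zero m (val1_irr_ne h')
      have h3 := zpow_ne_zero m (val1_irr_ne h)
      rw [div_zpow]
      field_simp
    rwa [e] at h1
  · intro hu
    exact ⟨ϖ, h, hu⟩

theorem val1_exists_irr (hR : IsDivisorial R) : ∃ ϖ : R, Irreducible ϖ := by
  have := hR.dvr
  exact IsDiscreteValuationRing.exists_irreducible R

theorem val1_unique (hR : IsDivisorial R) {g : F} {m m' : ℤ} (h : HasOrd R g m)
    (h' : HasOrd R g m') : m = m' := by
  obtain ⟨ϖ, hϖ⟩ := val1_exists_irr hR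
  rw [val1_hasOrd hR hϖ] at h h'
  have h0 := val1_irr_ne hϖ
  have hg : g ≠ 0 := by
    intro h1
    rw [h1, zero_div] at h
    exact h.1 rfl
  have h1 := val1_div h' h
  have e : g / (ϖ : F) ^ m' / (g / (ϖ : F) ^ m) = (ϖ : F) ^ (m - m') := by
    rw [zpow_sub₀ h0]
    have h2 := zpow_ne_zero m h0
    have h3 := zpow_ne_zero m' h0
    field_simp
  rw [e] at h1
  have := val1_exp hϖ h1
  omega

theorem val1_mem (hR : IsDivisorial R) {g : F} (hg : g ≠ 0) (hm : g ∈ R) :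
    ∃ n : ℕ, HasOrd R g n := by
  have := hR.dvr
  obtain ⟨ϖ, hϖ⟩ := val1_exists_irr hR
  have h0 := val1_irr_ne hϖ
  obtain ⟨n, u, hu⟩ := IsDiscreteValuationRing.eq_unit_mul_pow_irreducible
    (x := (⟨g, hm⟩ : R)) (fun h => hg (congrArg Subtype.val h)) hϖ
  refine ⟨n, (val1_hasOrd hR hϖ).2 ?_⟩
  have h1 : g = ((u : R) : F) * (ϖ : F) ^ n := by
    have h2 := congrArg (fun z : R => (z : F)) hu
    simpa using h2
  rw [h1, zpow_natCast, mul_div_cancel_right₀ _ (pow_ne_zero n h0)]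
  exact val1_of_isUnit u.isUnit

theorem val1_hasOrd_inv (hR : IsDivisorial R) {g : F} {m : ℤ} (h : HasOrd R g m) :
    HasOrd R g⁻¹ (-m) := by
  obtain ⟨ϖ, hϖ⟩ := val1_exists_irr hR
  rw [val1_hasOrd hR hϖ] at h ⊢
  have h1 := val1_inv h
  have e : (g / (ϖ : F) ^ m)⁻¹ = g⁻¹ / (ϖ : F) ^ (-m) := by
    rw [zpow_neg, inv_div, div_inv_eq_mul, div_eq_mul_inv, mul_comm]
  rwa [e] at h1

theorem val1_exists (hR : IsDivisorial R) {g : F} (hg : g ≠ 0) : ∃ m : ℤ, HasOrd R g m := by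
  rcases hR.total g with h | h
  · obtain ⟨n, hn⟩ := val1_mem hR hg h
    exact ⟨n, hn⟩
  · obtain ⟨n, hn⟩ := val1_mem hR (inv_ne_zero hg) h
    have h1 := val1_hasOrd_inv hR hn
    rw [inv_inv] at h1
    exact ⟨_, h1⟩

theorem val1_ord_ne {g : F} {m : ℤ} (h : HasOrd R g m) : g ≠ 0 := by
  obtain ⟨ϖ, hϖ, hu⟩ := h
  intro h0
  rw [h0, zero_div] at hu
  exact hu.1 rfl

theorem val1_hasOrd_mul (hR : IsDivisorial R) {g h : F} {m n : ℤ} (hg : HasOrd R g m)
    (hh : HasOrd R h n) : HasOrd R (g * h) (m + n) := by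
  obtain ⟨ϖ, hϖ⟩ := val1_exists_irr hR
  rw [val1_hasOrd hR hϖ] at hg hh ⊢
  have h0 := val1_irr_ne hϖ
  have h1 := val1_mul hg hh
  have e : g / (ϖ : F) ^ m * (h / (ϖ : F) ^ n) = g * h / (ϖ : F) ^ (m + n) := by
    rw [zpow_add₀ h0, div_mul_div_comm]
  rwa [e] at h1

theorem hasOrd_iff (hR : IsDivisorial R) {g : F} {m : ℤ} :
    HasOrd R g m ↔ g ≠ 0 ∧ vord R g = m := by
  constructor
  · intro h
    refine ⟨val1_ord_ne h, ?_⟩
    have h1 : ∃ m, HasOrd R g m := ⟨m, h⟩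
    unfold vord
    rw [dif_pos h1]
    exact val1_unique hR h1.choose_spec h
  · rintro ⟨hg, rfl⟩
    have h1 := val1_exists hR hg
    unfold vord
    rw [dif_pos h1]
    exact h1.choose_spec

theorem vord_zero : vord R (0 : F) = 0 := by
  unfold vord
  rw [dif_neg]
  rintro ⟨m, h⟩
  exact val1_ord_ne h rfl

theorem vord_one (hR : IsDivisorial R) : vord R (1 : F) = 0 := by
  obtain ⟨ϖ, hϖ⟩ := val1_exists_irr hR
  refine ((hasOrd_iff hR).1 ⟨ϖ, hϖ, ?_⟩).2
  rw [zpow_zero, div_one]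
  exact val1_one

theorem vord_mul (hR : IsDivisorial R) {g h : F} (hg : g ≠ 0) (hh : h ≠ 0) :
    vord R (g * h) = vord R g + vord R h := by
  exact ((hasOrd_iff hR).1 (val1_hasOrd_mul hR ((hasOrd_iff hR).2 ⟨hg, rfl⟩)
    ((hasOrd_iff hR).2 ⟨hh, rfl⟩))).2

theorem vord_inv (hR : IsDivisorial R) (g : F) : vord R g⁻¹ = - vord R g := by
  by_cases hg : g = 0
  · rw [hg, inv_zero, vord_zero, neg_zero]
  · exact ((hasOrd_iff hR).1 (val1_hasOrd_inv hR ((hasOrd_iff hR).2 ⟨hg, rfl⟩))).2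

theorem vord_div (hR : IsDivisorial R) {g h : F} (hg : g ≠ 0) (hh : h ≠ 0) :
    vord R (g / h) = vord R g - vord R h := by
  rw [div_eq_mul_inv, vord_mul hR hg (inv_ne_zero hh), vord_inv hR]
  ring

theorem vord_pow (hR : IsDivisorial R) (g : F) (n : ℕ) : vord R (g ^ n) = n * vord R g := by
  by_cases hg : g = 0
  · rcases Nat.eq_zero_or_pos n with hn | hn
    · rw [hn, pow_zero, vord_one hR]
      simp
    · rw [hg, zero_pow hn.ne', vord_zero, mul_zero]
  · induction n with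
    | zero => rw [pow_zero, vord_one hR]; simp
    | succ n ih =>
      rw [pow_succ, vord_mul hR (pow_ne_zero n hg) hg, ih]
      push_cast
      ring

theorem vord_zpow (hR : IsDivisorial R) (g : F) (n : ℤ) : vord R (g ^ n) = n * vord R g := by
  cases n with
  | ofNat n => rw [Int.ofNat_eq_natCast, zpow_natCast, vord_pow hR]
  | negSucc n =>
    rw [zpow_negSucc, vord_inv hR, vord_pow hR, Int.negSucc_eq]
    push_cast
    ring

theorem vord_neg (hR : IsDivisorial R) (g : F) : vord R (-g) = vord R g := by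
  by_cases hg : g = 0
  · rw [hg, neg_zero]
  · obtain ⟨ϖ, hϖ, hu⟩ := (hasOrd_iff hR).2 ⟨hg, rfl⟩
    have h2 : HasOrd R (-g) (vord R g) := ⟨ϖ, hϖ, by rw [neg_div]; exact val1_neg hu⟩
    exact ((hasOrd_iff hR).1 h2).2

theorem algebraMap_mem (hR : IsDivisorial R) (c : ℂ) : algebraMap ℂ F c ∈ R := by
  obtain ⟨T, h1, -⟩ := hR.essFinite
  exact h1 ((Algebra.adjoin ℂ (T : Set F)).algebraMap_mem c)

theorem vord_const (hR : IsDivisorial R) (c : ℂ) : vord R (algebraMap ℂ F c) = 0 := by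
  by_cases hc : c = 0
  · rw [hc, map_zero, vord_zero]
  · obtain ⟨ϖ, hϖ⟩ := val1_exists_irr hR
    refine ((hasOrd_iff hR).1 ⟨ϖ, hϖ, ?_⟩).2
    rw [zpow_zero, div_one]
    refine ⟨(map_ne_zero _).2 hc, algebraMap_mem hR c, ?_⟩
    rw [← map_inv₀]
    exact algebraMap_mem hR _

theorem mem_iff (hR : IsDivisorial R) {g : F} : g ∈ R ↔ g = 0 ∨ 0 ≤ vord R g := by
  constructor
  · intro h
    by_cases hg : g = 0
    · exact Or.inl hg
    · right
      obtain ⟨n, hn⟩ := val1_mem hR hg h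
      rw [((hasOrd_iff hR).1 hn).2]
      exact Int.natCast_nonneg n
  · rintro (h | h)
    · rw [h]
      exact R.zero_mem
    · by_cases hg : g = 0
      · rw [hg]
        exact R.zero_mem
      · obtain ⟨ϖ, hϖ, hu⟩ := (hasOrd_iff hR).2 ⟨hg, rfl⟩
        obtain ⟨n, hn⟩ := Int.eq_ofNat_of_zero_le h
        rw [hn] at hu
        have h0 := val1_irr_ne hϖ
        have e : g = g / (ϖ : F) ^ ((n : ℕ) : ℤ) * (ϖ : F) ^ n := by
          rw [zpow_natCast, div_mul_cancel₀ _ (pow_ne_zero n h0)]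
        rw [e]
        exact R.mul_mem hu.2.1 (R.pow_mem ϖ.2 n)

theorem val1_add (hR : IsDivisorial R) {g h : F} (hg : g ≠ 0) (hh : h ≠ 0) (hgh : g + h ≠ 0)
    (hle : vord R g ≤ vord R h) : vord R g ≤ vord R (g + h) := by
  have h1 : h / g ∈ R := by
    rw [mem_iff hR]
    right
    rw [vord_div hR hh hg]
    omega
  have h2 : 1 + h / g ∈ R := R.add_mem R.one_mem h1
  have e : g + h = g * (1 + h / g) := by
    rw [mul_add, mul_one, mul_div_cancel₀ _ hg]
  have h3 : 1 + h / g ≠ 0 := by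
    intro h0
    rw [h0, mul_zero] at e
    exact hgh e
  rw [mem_iff hR] at h2
  rw [e, vord_mul hR hg h3]
  rcases h2 with h2 | h2
  · exact absurd h2 h3
  · omega

theorem vord_add (hR : IsDivisorial R) {g h : F} (hg : g ≠ 0) (hh : h ≠ 0) (hgh : g + h ≠ 0) :
    min (vord R g) (vord R h) ≤ vord R (g + h) := by
  rcases le_total (vord R g) (vord R h) with hle | hle
  · rw [min_eq_left hle]
    exact val1_add hR hg hh hgh hle
  · rw [min_eq_right hle, add_comm]
    exact val1_add hR hh hg (by rwa [add_comm]) hle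

theorem vord_add_eq (hR : IsDivisorial R) {g h : F} (hg : g ≠ 0)
    (hh : h = 0 ∨ vord R g < vord R h) : g + h ≠ 0 ∧ vord R (g + h) = vord R g := by
  rcases hh with hh | hh
  · rw [hh, add_zero]
    exact ⟨hg, rfl⟩
  · by_cases h0 : h = 0
    · rw [h0, add_zero]
      exact ⟨hg, rfl⟩
    · have hne : g + h ≠ 0 := by
        intro h1
        have h2 : h = -g := eq_neg_of_add_eq_zero_right h1
        rw [h2, vord_neg hR] at hh
        exact lt_irrefl _ hh
      refine ⟨hne, ?_⟩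
      have h1 := val1_add hR hg h0 hne hh.le
      by_contra hcon
      have h2 : vord R g < vord R (g + h) := lt_of_le_of_ne h1 (Ne.symm hcon)
      have h3 : (g + h) + (-h) = g := by ring
      have h4 := vord_add hR hne (neg_ne_zero.2 h0) (by rw [h3]; exact hg)
      rw [h3, vord_neg hR] at h4
      have h5 := lt_min h2 hh
      exact absurd h4 (not_le.2 h5)

theorem isUnitIn_iff (hR : IsDivisorial R) {g : F} : IsUnitIn R g ↔ g ≠ 0 ∧ vord R g = 0 := by
  rw [← hasOrd_iff hR]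
  obtain ⟨ϖ, hϖ⟩ := val1_exists_irr hR
  rw [val1_hasOrd hR hϖ, zpow_zero, div_one]

theorem exists_uniformizer (hR : IsDivisorial R) : ∃ t : F, t ∈ R ∧ t ≠ 0 ∧ vord R t = 1 := by
  obtain ⟨ϖ, hϖ⟩ := val1_exists_irr hR
  have h0 := val1_irr_ne hϖ
  refine ⟨ϖ, ϖ.2, h0, ((hasOrd_iff hR).1 ⟨ϖ, hϖ, ?_⟩).2⟩
  rw [zpow_one, div_self h0]
  exact val1_one

theorem val1_max (hR : IsDivisorial R) {R' : Subring F} (hR' : R' ≠ ⊤) (h : R ≤ R') : R = R' := by
  refine le_antisymm h fun g hg => ?_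
  by_contra hgR
  apply hR'
  have hg0 : g ≠ 0 := by
    rintro rfl
    exact hgR R.zero_mem
  have hneg : vord R g < 0 := by
    by_contra hcon
    exact hgR ((mem_iff hR).2 (Or.inr (not_lt.1 hcon)))
  -- elements of non-negative order are in `R'`, and so are powers of `g`
  have hpow : ∀ f : F, f ∈ R' := by
    intro f
    by_cases hf : f = 0
    · rw [hf]
      exact R'.zero_mem
    · obtain ⟨n, hn⟩ : ∃ n : ℕ, -vord R f ≤ n := ⟨(-vord R f).toNat, Int.self_le_toNat _⟩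
      have h1 : f * (g ^ n)⁻¹ ∈ R := by
        rw [mem_iff hR]
        right
        rw [vord_mul hR hf (inv_ne_zero (pow_ne_zero n hg0)), vord_inv hR, vord_pow hR]
        have h2 : (n : ℤ) ≤ -((n : ℤ) * vord R g) := by nlinarith
        omega
      have h2 : f = f * (g ^ n)⁻¹ * g ^ n := by
        rw [inv_mul_cancel_right₀ (pow_ne_zero n hg0)]
      rw [h2]
      exact R'.mul_mem (h h1) (R'.pow_mem hg n)
  exact eq_top_iff.2 fun f _ => hpow f

theorem val1_ne_top {R' : Subring F} (hR' : IsDivisorial R') : R' ≠ ⊤ := by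
  intro htop
  obtain ⟨ϖ, hϖ⟩ := val1_exists_irr hR'
  apply hϖ.not_isUnit
  have hall : ∀ x : F, x ∈ R' := fun x => htop ▸ Subring.mem_top x
  exact val1_isUnit ⟨val1_irr_ne hϖ, ϖ.2, hall _⟩

/-- Discrete valuation rings of `F` are maximal proper subrings. -/
theorem IsDivisorial.eq_of_le (hR : IsDivisorial R) {R' : Subring F} (hR' : IsDivisorial R')
    (h : R ≤ R') : R = R' := by
  exact val1_max hR (val1_ne_top hR') h

/-- More generally, a discrete valuation ring of `F` is not contained in any bigger subring except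
`F` itself. -/
theorem IsDivisorial.eq_of_le_of_ne_top (hR : IsDivisorial R) {R' : Subring F}
    (hR' : R' ≠ ⊤) (h : R ≤ R') : R = R' := by
  exact val1_max hR hR' h

end Pool.Agent.MP_5c6cc8_ag
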