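import Pool.Agent.MP_5c6cc8_ag.Weight1

/-! # Row Weight2: the weight of a Laurent polynomial -/

open MvPolynomial

namespace Pool.Agent.MP_5c6cc8_ag

variable {K L : Type} [Field K] [Algebra ℂ K] [Field L] [Algebra ℂ L]

/-- The valuation of a Laurent polynomial `∑ c_{ij} u^i v^j` is at most the weight `i + k j` of
each of its monomials. Proof: put `z₁ = v / u^k`; the monomial is `u^{i + k j} z₁^j`; take out the
smallest power `u^m` and the smallest power of `z₁` (a unit): what remains is a polynomial in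
`u, z₁` whose restriction to `u = 0` is nonzero, as the monomials with `i + k j = m` have
different `j`. Use `vord_chart`. -/
theorem vord_wt_le {u v : K} (h : IsCoord ![u, v]) (k : ℤ) (S : Finset (ℤ × ℤ)) (c : ℤ × ℤ → ℂ)
    {f : K} (hf : f = ∑ p ∈ S, algebraMap ℂ K (c p) * u ^ p.1 * v ^ p.2) {p : ℤ × ℤ} (hp : p ∈ S)
    (hc : c p ≠ 0) : vord (wt h k) f ≤ p.1 + k * p.2 := by
  classical
  have hu : u ≠ 0 := by
    have := h.aeval_ne_zero (p := X 0) (X_ne_zero 0)
    simpa using this
  have hv : v ≠ 0 := by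
    have := h.aeval_ne_zero (p := X 1) (X_ne_zero 1)
    simpa using this
  -- the nonzero monomials
  set S' := S.filter (fun p => c p ≠ 0) with hS'
  have hpS' : p ∈ S' := by simp [hS', hp, hc]
  have hne : S'.Nonempty := ⟨p, hpS'⟩
  have hf' : f = ∑ p ∈ S', algebraMap ℂ K (c p) * u ^ p.1 * v ^ p.2 := by
    rw [hf, hS', Finset.sum_filter_of_ne]
    intro q _ hq hcq
    apply hq
    rw [hcq]
    simp
  obtain ⟨q0, hq0, hmin⟩ := Finset.exists_min_image S' (fun q => q.1 + k * q.2) hne
  set m : ℤ := q0.1 + k * q0.2 with hm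
  -- the shift
  obtain ⟨N, hN⟩ : ∃ N : ℕ, ∀ q ∈ S', 0 ≤ q.2 + (N : ℤ) := by
    refine ⟨∑ q ∈ S', q.2.natAbs, fun q hq => ?_⟩
    have h1 : q.2.natAbs ≤ ∑ q ∈ S', q.2.natAbs :=
      Finset.single_le_sum (f := fun q : ℤ × ℤ => q.2.natAbs) (fun _ _ => Nat.zero_le _) hq
    have h2 : ((q.2.natAbs : ℕ) : ℤ) ≤ ((∑ q ∈ S', q.2.natAbs : ℕ) : ℤ) := by exact_mod_cast h1
    omega
  set z : Fin 2 → K := ![u, v / u ^ k] with hz
  set P : MvPolynomial (Fin 2) ℂ :=
    ∑ q ∈ S', C (c q) * X 0 ^ (q.1 + k * q.2 - m).toNat * X 1 ^ (q.2 + N).toNat with hP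
  have hzc := wt_coord h k
  -- the polynomial in t
  set Q : Polynomial ℂ := ∑ q ∈ S'.filter (fun q => q.1 + k * q.2 = m),
    Polynomial.C (c q) * Polynomial.X ^ (q.2 + N).toNat with hQ
  have hQ0 : Q ≠ 0 := by
    intro hQ0
    have hcoef : Q.coeff (q0.2 + N).toNat = c q0 := by
      rw [hQ, Polynomial.finsetSum_coeff, Finset.sum_eq_single q0]
      · simp
      · intro q hq hqne
        rw [Finset.mem_filter] at hq
        rw [Polynomial.coeff_C_mul, Polynomial.coeff_X_pow, if_neg, mul_zero]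
        intro heq
        apply hqne
        have h1 := hN q hq.1
        have h2 := hN q0 hq0
        have h3 : q.2 = q0.2 := by omega
        have h4 : q.1 = q0.1 := by
          have := hq.2
          rw [hm, h3] at this
          linarith
        exact Prod.ext h4 h3
      · intro hn
        exfalso
        apply hn
        rw [Finset.mem_filter]
        exact ⟨hq0, rfl⟩
    rw [hQ0, Polynomial.coeff_zero] at hcoef
    have := (Finset.mem_filter.1 hq0).2
    exact this hcoef.symm
  obtain ⟨t, ht⟩ : ∃ t, Q.eval t ≠ 0 := by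
    by_contra hcon
    push Not at hcon
    exact hQ0 (Polynomial.funext (by simpa using hcon))
  have hev : eval ![0, t] P ≠ 0 := by
    have : eval ![0, t] P = Q.eval t := by
      rw [hP, hQ, map_sum, Polynomial.eval_finsetSum,
        Finset.sum_filter (s := S') (p := fun q => q.1 + k * q.2 = m)]
      refine Finset.sum_congr rfl fun q hq => ?_
      have hge := hmin q hq
      simp only [map_mul, eval_C, map_pow, eval_X, Matrix.cons_val_zero, Matrix.cons_val_one,
        Polynomial.eval_mul, Polynomial.eval_C, Polynomial.eval_pow, Polynomial.eval_X]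
      split_ifs with hw
      · rw [hw]
        simp
      · have : (q.1 + k * q.2 - m).toNat ≠ 0 := by
          have : m < q.1 + k * q.2 := lt_of_le_of_ne hge (Ne.symm hw)
          omega
        rw [zero_pow this]
        simp
    rw [this]
    exact ht
  have hkey : f * aeval z (X 1 ^ N : MvPolynomial (Fin 2) ℂ) = z 0 ^ m * aeval z P := by
    have hz0 : z 0 = u := by simp [hz]
    have hz1 : z 1 = v / u ^ k := by simp [hz]
    rw [hf', hP, map_sum, Finset.mul_sum, Finset.sum_mul]
    refine Finset.sum_congr rfl fun q hq => ?_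
    have hge := hmin q hq
    have hNq := hN q hq
    simp only [map_mul, map_pow, aeval_X, hz0, hz1, algHom_C]
    have e1 : u ^ (q.1 + k * q.2 - m).toNat = u ^ (q.1 + k * q.2 - m) := by
      rw [← zpow_natCast, Int.toNat_of_nonneg (by linarith)]
    have e2 : (v / u ^ k) ^ (q.2 + N).toNat = (v / u ^ k) ^ q.2 * (v / u ^ k) ^ N := by
      rw [← zpow_natCast, Int.toNat_of_nonneg hNq, zpow_add₀ (div_ne_zero hv (zpow_ne_zero _ hu)), zpow_natCast]
    rw [e1, e2, div_zpow, ← zpow_mul]
    have e3 : u ^ (q.1 + k * q.2 - m) = u ^ q.1 * u ^ (k * q.2) * (u ^ m)⁻¹ := by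
      rw [zpow_sub₀ hu, zpow_add₀ hu, div_eq_mul_inv]
    rw [e3]
    have h1 : u ^ m ≠ 0 := zpow_ne_zero _ hu
    have h2 : u ^ (k * q.2) ≠ 0 := zpow_ne_zero _ hu
    field_simp
  have := (vord_divX hzc P (X 1 ^ N) ![0, t] ![0, 1] (by simp) (by simp) hev (by simp) hkey).2
  show vord (divX (wt_coord h k)) f ≤ _
  rw [this]
  exact hmin p hpS'

end Pool.Agent.MP_5c6cc8_ag
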