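import Pool.Agent.MP_5c6cc8_ag.Weight1

/-! # Row Weight3: restriction of valuations to `K` -/

open MvPolynomial

namespace Pool.Agent.MP_5c6cc8_ag

variable {K L : Type} [Field K] [Algebra ℂ K] [Field L] [Algebra ℂ L]

/-- A polynomial in one variable at an element with nonconstant residue class is a unit. -/
theorem weight3_poly {E : Subring L} (hE : IsDivisorial E) {t : L}
    (ht : ∀ c : ℂ, t - algebraMap ℂ L c ≠ 0 ∧ vord E (t - algebraMap ℂ L c) = 0)
    {g : Polynomial ℂ} (hg : g ≠ 0) : Polynomial.aeval t g ≠ 0 ∧ vord E (Polynomial.aeval t g) = 0 := by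
  have key : ∀ s : Multiset ℂ,
      Polynomial.aeval t (s.map fun a => Polynomial.X - Polynomial.C a).prod ≠ 0 ∧
        vord E (Polynomial.aeval t (s.map fun a => Polynomial.X - Polynomial.C a).prod) = 0 := by
    intro s
    induction s using Multiset.induction_on with
    | empty =>
      rw [Multiset.map_zero, Multiset.prod_zero, map_one]
      exact ⟨one_ne_zero, vord_one hE⟩
    | cons a s ih =>
      rw [Multiset.map_cons, Multiset.prod_cons, map_mul, map_sub, Polynomial.aeval_X, Polynomial.aeval_C]
      refine ⟨mul_ne_zero (ht a).1 ih.1, ?_⟩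
      rw [vord_mul hE (ht a).1 ih.1, (ht a).2, ih.2, add_zero]
  have h1 : g = Polynomial.C g.leadingCoeff * (g.roots.map fun a => Polynomial.X - Polynomial.C a).prod :=
    (IsAlgClosed.splits g).eq_prod_roots
  have h2 : algebraMap ℂ L g.leadingCoeff ≠ 0 := by
    rw [Ne, map_eq_zero]
    exact Polynomial.leadingCoeff_ne_zero.2 hg
  have h3 : Polynomial.aeval t g = algebraMap ℂ L g.leadingCoeff *
      Polynomial.aeval t (g.roots.map fun a => Polynomial.X - Polynomial.C a).prod := by
    conv_lhs => rw [h1]
    rw [map_mul, Polynomial.aeval_C]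
  rw [h3]
  refine ⟨mul_ne_zero h2 (key _).1, ?_⟩
  rw [vord_mul hE h2 (key _).1, vord_const hE, (key _).2, add_zero]

/-- The restriction of a polynomial to `X 0 = 0`. -/
noncomputable def weight3_phi : MvPolynomial (Fin 2) ℂ →ₐ[ℂ] Polynomial ℂ := aeval ![0, Polynomial.X]

/-- The inclusion of the polynomials in `X 1`. -/
noncomputable def weight3_psi : Polynomial ℂ →ₐ[ℂ] MvPolynomial (Fin 2) ℂ := Polynomial.aeval (X 1)

theorem weight3_dvd (q : MvPolynomial (Fin 2) ℂ) :
    (X 0 : MvPolynomial (Fin 2) ℂ) ∣ q - weight3_psi (weight3_phi q) := by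
  induction q using MvPolynomial.induction_on with
  | C a =>
    have h1 : weight3_phi (C a) = Polynomial.C a := by
      unfold weight3_phi
      rw [aeval_C]
      rfl
    have h2 : weight3_psi (Polynomial.C a) = C a := by
      unfold weight3_psi
      rw [Polynomial.aeval_C]
      rfl
    rw [h1, h2, sub_self]
    exact dvd_zero _
  | add p q hp hq =>
    rw [map_add, map_add, add_sub_add_comm]
    exact dvd_add hp hq
  | mul_X p j hp =>
    rw [map_mul, map_mul]
    have hj : j = 0 ∨ j = 1 := by
      fin_cases j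
      · exact Or.inl rfl
      · exact Or.inr rfl
    rcases hj with rfl | rfl
    · have h1 : weight3_phi (X 0) = 0 := by
        unfold weight3_phi
        rw [aeval_X]
        rfl
      rw [h1, map_zero, mul_zero, sub_zero]
      exact dvd_mul_left _ _
    · have h1 : weight3_phi (X 1) = Polynomial.X := by
        unfold weight3_phi
        rw [aeval_X]
        rfl
      have h2 : weight3_psi Polynomial.X = X 1 := by
        unfold weight3_psi
        rw [Polynomial.aeval_X]
      rw [h1, h2, ← sub_mul]
      exact Dvd.dvd.mul_right hp _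

/-- Restriction of a valuation `E` of `L` to `K`: if `E` is positive on `i z₀` and the residue class
of `i z₁` is not a constant, then `E ∩ K` is the divisor `z₀ = 0` of `K = ℂ(z₀, z₁)`.
Proof: as `ℂ` is algebraically closed, a polynomial `p(z)` not divisible by `z₀` is
`c ∏ (z₁ - c_j) + z₀ q(z)` with `c ≠ 0`, and thus it is a unit of `E`. So `divX hz ≤ E.comap i`; as
`E.comap i ≠ ⊤` (`z₀⁻¹` is not in it), `IsDivisorial.eq_of_le_of_ne_top` gives the claim. -/
theorem comap_eq_divX (i : K →+* L) (hi : ∀ c, i (algebraMap ℂ K c) = algebraMap ℂ L c)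
    {z : Fin 2 → K} (hz : IsCoord z) {E : Subring L} (hE : IsDivisorial E)
    (h1 : 0 < vord E (i (z 0)))
    (h2 : ∀ c : ℂ, i (z 1) - algebraMap ℂ L c ≠ 0 ∧ vord E (i (z 1) - algebraMap ℂ L c) = 0) :
    E.comap i = divX hz := by
  have hz0 : i (z 0) ≠ 0 := by
    have h3 := hz.aeval_ne_zero (p := X 0) (X_ne_zero 0)
    rw [aeval_X] at h3
    exact (map_ne_zero i).2 h3
  have hmem0 : i (z 0) ∈ E := (mem_iff hE).2 (Or.inr h1.le)
  have hmem1 : i (z 1) ∈ E := by
    have h3 := (h2 0).2
    rw [map_zero, sub_zero] at h3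
    exact (mem_iff hE).2 (Or.inr h3.ge)
  -- the composition with `i`
  have hcomp : ∀ p : MvPolynomial (Fin 2) ℂ, i (aeval z p) = aeval (fun j => i (z j)) p := by
    intro p
    induction p using MvPolynomial.induction_on with
    | C a => rw [aeval_C, aeval_C, hi]
    | add p q hp hq => rw [map_add, map_add, map_add, hp, hq]
    | mul_X p j hp => rw [map_mul, map_mul, map_mul, aeval_X, aeval_X, hp]
  have hmem : ∀ p : MvPolynomial (Fin 2) ℂ, i (aeval z p) ∈ E := by
    intro p
    induction p using MvPolynomial.induction_on with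
    | C a =>
      rw [aeval_C, hi]
      exact algebraMap_mem hE a
    | add p q hp hq =>
      rw [map_add, map_add]
      exact add_mem hp hq
    | mul_X p j hp =>
      rw [map_mul, map_mul, aeval_X]
      refine mul_mem hp ?_
      fin_cases j
      · exact hmem0
      · exact hmem1
  have hpsi : ∀ g : Polynomial ℂ, i (aeval z (weight3_psi g)) = Polynomial.aeval (i (z 1)) g := by
    intro g
    rw [hcomp]
    unfold weight3_psi
    induction g using Polynomial.induction_on' with
    | add p q hp hq => rw [map_add, map_add, map_add, hp, hq]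
    | monomial n a =>
      rw [Polynomial.aeval_monomial, Polynomial.aeval_monomial, map_mul, map_pow, aeval_X]
      congr 1
      exact aeval_C _ a
  -- polynomials which are not divisible by `X 0` are units
  have hunit : ∀ q : MvPolynomial (Fin 2) ℂ, ¬ (X 0 : MvPolynomial (Fin 2) ℂ) ∣ q →
      i (aeval z q) ≠ 0 ∧ vord E (i (aeval z q)) = 0 := by
    intro q hq
    obtain ⟨r, hr⟩ := weight3_dvd q
    have hphi : weight3_phi q ≠ 0 := by
      intro h0
      rw [h0, map_zero, sub_zero] at hr
      exact hq ⟨r, hr⟩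
    have h3 : q = weight3_psi (weight3_phi q) + X 0 * r := by
      rw [← hr]
      ring
    have h4 := weight3_poly hE h2 hphi
    rw [← hpsi] at h4
    have h5 : i (aeval z q) = i (aeval z (weight3_psi (weight3_phi q))) + i (z 0) * i (aeval z r) := by
      conv_lhs => rw [h3]
      rw [map_add, map_add, map_mul, map_mul, aeval_X]
    have h6 : i (z 0) * i (aeval z r) = 0 ∨ vord E (i (aeval z (weight3_psi (weight3_phi q)))) <
        vord E (i (z 0) * i (aeval z r)) := by
      by_cases h7 : i (aeval z r) = 0
      · left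
        rw [h7, mul_zero]
      · right
        rw [h4.2, vord_mul hE hz0 h7]
        have h8 := ((mem_iff hE).1 (hmem r)).resolve_left h7
        omega
    have h9 := vord_add_eq hE h4.1 h6
    rw [← h5] at h9
    exact ⟨h9.1, h9.2.trans h4.2⟩
  have hle : divX hz ≤ E.comap i := by
    intro f hf
    rw [Subring.mem_comap]
    obtain ⟨p, q, hq, hf⟩ := (mem_chartRing hz (prime_X0 1)).1 hf
    have h3 := hunit q hq
    rw [hf, map_div₀]
    refine (mem_iff hE).2 ?_
    by_cases h4 : i (aeval z p) = 0
    · left
      rw [h4, zero_div]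
    · right
      rw [vord_div hE h4 h3.1, h3.2, sub_zero]
      exact ((mem_iff hE).1 (hmem p)).resolve_left h4
  have htop : E.comap i ≠ ⊤ := by
    intro h3
    have h4 : (z 0)⁻¹ ∈ E.comap i := by
      rw [h3]
      exact Subring.mem_top _
    rw [Subring.mem_comap, map_inv₀] at h4
    have h5 := ((mem_iff hE).1 h4).resolve_left (inv_ne_zero hz0)
    rw [vord_inv hE] at h5
    omega
  exact ((divX_isDivisorial hz).eq_of_le_of_ne_top htop hle).symm

/-- A criterion for a function `f = p(y) / q(y)` to have a nonconstant residue class along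
`y₀ = 0`: it takes different values at the points `c`, `c'` of `y₀ = 0`. -/
theorem residue_nonconst {n : ℕ} {y : Fin (n + 1) → L} (hy : IsCoord y) {f : L}
    (p q : MvPolynomial (Fin (n + 1)) ℂ) (c c' : Fin (n + 1) → ℂ) (hc : c 0 = 0) (hc' : c' 0 = 0)
    (hq : eval c q ≠ 0) (hq' : eval c' q ≠ 0) (hpq : eval c p / eval c q ≠ eval c' p / eval c' q)
    (hf : f * aeval y q = aeval y p) (a : ℂ) :
    f - algebraMap ℂ L a ≠ 0 ∧ vord (divX hy) (f - algebraMap ℂ L a) = 0 := by
  have hf' : (f - algebraMap ℂ L a) * aeval y q = y 0 ^ (0 : ℤ) * aeval y (p - C a * q) := by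
    rw [zpow_zero, one_mul, map_sub, map_mul, aeval_C, sub_mul, hf]
  have hev : ∀ d : Fin (n + 1) → ℂ, eval d q ≠ 0 → eval d p / eval d q ≠ a → eval d (p - C a * q) ≠ 0 := by
    intro d hd hne h0
    rw [map_sub, map_mul, eval_C] at h0
    apply hne
    rw [div_eq_iff hd]
    exact sub_eq_zero.1 h0
  by_cases hca : eval c p / eval c q = a
  · have hc'a : eval c' p / eval c' q ≠ a := by
      intro h0
      exact hpq (hca.trans h0.symm)
    exact vord_divX hy (p - C a * q) q c' c hc' hc (hev c' hq' hc'a) hq hf'
  · exact vord_divX hy (p - C a * q) q c c hc hc (hev c hq hca) hq hf'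

end Pool.Agent.MP_5c6cc8_ag
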