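import Pool.Agent.MP_5c6cc8_ag.Chart
import Pool.Agent.MP_5c6cc8_ag.Wedge

/-! # Row Weight1: weighted valuations of `K = ℂ(u, v)` -/

open MvPolynomial

namespace Pool.Agent.MP_5c6cc8_ag

variable {K L : Type} [Field K] [Algebra ℂ K] [Field L] [Algebra ℂ L]

theorem weight1_ne_zero {u v : K} (h : IsCoord ![u, v]) : u ≠ 0 := by
  have h1 := h.aeval_ne_zero (p := X 0) (X_ne_zero 0)
  rwa [aeval_X] at h1

theorem weight1_not_dvd : ¬ (X 0 : MvPolynomial (Fin 2) ℂ) ∣ X 1 :=
  not_X_dvd_of_eval_ne_zero (n := 1) ![0, 1] rfl (by rw [eval_X]; exact one_ne_zero)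

theorem weight1_T2_pow (u : K) (n : ℕ) : T2 u (u ^ n) = 0 := by
  rw [T2_pow2, T2_self, smul_zero]

theorem weight1_T2_zpow (u : K) (k : ℤ) : T2 u (u ^ k) = 0 := by
  obtain ⟨n, rfl | rfl⟩ := k.eq_nat_or_neg
  · rw [zpow_natCast]
    exact weight1_T2_pow u n
  · rw [zpow_neg, zpow_natCast, T2_inv2, weight1_T2_pow, smul_zero]

/-- If `(u, v)` are coordinates then so are `(u, v / u^k)`. (`IsCoord.change`.) -/
theorem wt_coord {u v : K} (h : IsCoord ![u, v]) (k : ℤ) : IsCoord ![u, v / u ^ k] := by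
  have hu := weight1_ne_zero h
  refine h.change fun i => ?_
  have h0 : u ∈ IntermediateField.adjoin ℂ (Set.range ![u, v / u ^ k]) :=
    IntermediateField.subset_adjoin _ _ ⟨0, rfl⟩
  have h1 : v / u ^ k ∈ IntermediateField.adjoin ℂ (Set.range ![u, v / u ^ k]) :=
    IntermediateField.subset_adjoin _ _ ⟨1, rfl⟩
  fin_cases i
  · exact h0
  · have h2 : v = (v / u ^ k) * u ^ k := by
      rw [div_mul_cancel₀]
      exact zpow_ne_zero k hu
    have h3 : (v / u ^ k) * u ^ k ∈ IntermediateField.adjoin ℂ (Set.range ![u, v / u ^ k]) :=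
      mul_mem h1 (zpow_mem h0 k)
    rw [← h2] at h3
    exact h3

/-- The valuation with `u` of weight `1` and `v` of weight `k`. -/
noncomputable def wt {u v : K} (h : IsCoord ![u, v]) (k : ℤ) : Subring K := divX (wt_coord h k)

theorem wt_isDivisorial {u v : K} (h : IsCoord ![u, v]) (k : ℤ) : IsDivisorial (wt h k) :=
  divX_isDivisorial _

theorem vord_wt_u {u v : K} (h : IsCoord ![u, v]) (k : ℤ) : vord (wt h k) u = 1 := by
  have h1 := vord_chart_pi (wt_coord h k) (prime_X0 1)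
  rw [aeval_X] at h1
  exact h1

theorem vord_wt_v {u v : K} (h : IsCoord ![u, v]) (k : ℤ) : vord (wt h k) v = k := by
  have hu := weight1_ne_zero h
  have h1 := vord_chart_aeval (wt_coord h k) (prime_X0 1) weight1_not_dvd
  have hne : v / u ^ k ≠ 0 := by
    have h2 := (wt_coord h k).aeval_ne_zero (p := X 1) (X_ne_zero 1)
    rwa [aeval_X] at h2
  rw [aeval_X] at h1
  have h1' : vord (wt h k) (v / u ^ k) = 0 := h1
  have h2 : v = (v / u ^ k) * u ^ k := by
    rw [div_mul_cancel₀]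
    exact zpow_ne_zero k hu
  have h3 : vord (wt h k) ((v / u ^ k) * u ^ k) = k := by
    rw [vord_mul (wt_isDivisorial h k) hne (zpow_ne_zero k hu), h1', vord_zpow (wt_isDivisorial h k),
      vord_wt_u, mul_one, zero_add]
  rwa [← h2] at h3

/-- `ord (du ∧ dv) = k`. Proof: `v = z₁ u^k`, so `du ∧ dv = u^k du ∧ dz₁` and
`hasFormOrd_chart` applies. -/
theorem hasFormOrd_wt {u v : K} (h : IsCoord ![u, v]) (k : ℤ) :
    HasFormOrd (wt h k) (T2 u v) k := by
  have hu := weight1_ne_zero h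
  have h2 : v = (v / u ^ k) * u ^ k := by
    rw [div_mul_cancel₀]
    exact zpow_ne_zero k hu
  have h3 : T2 u v = (u ^ k) • wedge ![u, v / u ^ k] := by
    have h4 : T2 u ((v / u ^ k) * u ^ k) = (u ^ k) • T2 u (v / u ^ k) := by
      rw [T2_mul2, weight1_T2_zpow, smul_zero, zero_add]
    rw [← h2] at h4
    exact h4
  rw [h3]
  have h5 := hasFormOrd_chart (wt_coord h k) (prime_X0 1) (zpow_ne_zero k hu)
  have h6 : vord (wt h k) (u ^ k) = k := by
    rw [vord_zpow (wt_isDivisorial h k), vord_wt_u, mul_one]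
  have h7 : HasFormOrd (wt h k) ((u ^ k) • wedge ![u, v / u ^ k]) (vord (wt h k) (u ^ k)) := h5
  rwa [h6] at h7

end Pool.Agent.MP_5c6cc8_ag
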